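import Pool.Agent.Helper76.CL.Pt

/-!
# The action on totally singular subspaces
-/

set_option autoImplicit false

namespace Helper76.CL

open Module

/-- the image of a totally singular subspace -/
def FS.ex {F V : Type} [Field F] [AddCommGroup V] [Module F V] (Φ : FS F V)
    (e : Equiv.Perm Φ.SPt) (R : Submodule F V) : Submodule F V :=
  ⨆ (P : Φ.SPt) (_ : P.1 ≤ R), (e P).1

section Aux

variable {F V : Type} [Field F] [AddCommGroup V] [Module F V] (Φ : FS F V)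

theorem Act_span_TS {x : V} (hq : Φ.q x = 0) : Φ.TS (Submodule.span F {x}) := by
  constructor
  · intro y hy
    obtain ⟨c, rfl⟩ := Submodule.mem_span_singleton.1 hy
    rw [Φ.q_smul, hq, mul_zero]
  · intro y hy z hz
    obtain ⟨c, rfl⟩ := Submodule.mem_span_singleton.1 hy
    obtain ⟨d, rfl⟩ := Submodule.mem_span_singleton.1 hz
    rw [Φ.f_smul_left, Φ.f_smul_right, Φ.q_self x hq, mul_zero, mul_zero]

/-- the point spanned by a singular vector -/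
def Act_pt {x : V} (hq : Φ.q x = 0) (hx : x ≠ 0) : Φ.SPt :=
  ⟨Submodule.span F {x}, finrank_span_singleton hx, Act_span_TS Φ hq⟩

theorem Act_pt_le {x : V} (hq : Φ.q x = 0) (hx : x ≠ 0) {R : Submodule F V} :
    (Act_pt Φ hq hx).1 ≤ R ↔ x ∈ R :=
  Submodule.span_singleton_le_iff_mem x R

theorem Act_mem_pt {x : V} (hq : Φ.q x = 0) (hx : x ≠ 0) : x ∈ (Act_pt Φ hq hx).1 :=
  Submodule.mem_span_singleton_self x

theorem Act_TS_mono {R R' : Submodule F V} (h : R' ≤ R) (hR : Φ.TS R) : Φ.TS R' :=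
  ⟨fun x hx => hR.1 x (h hx), fun x hx y hy => hR.2 x (h hx) y (h hy)⟩

theorem Act_le_of_pts {R R' : Submodule F V} (hR : Φ.TS R)
    (h : ∀ P : Φ.SPt, P.1 ≤ R → P.1 ≤ R') : R ≤ R' := by
  intro x hx
  by_cases h0 : x = 0
  · rw [h0]; exact R'.zero_mem
  · exact (Act_pt_le Φ (hR.1 x hx) h0).1 (h _ ((Act_pt_le Φ (hR.1 x hx) h0).2 hx))

theorem Act_mono (e : Equiv.Perm Φ.SPt) {R R' : Submodule F V} (h : R ≤ R') :
    Φ.ex e R ≤ Φ.ex e R' := by
  unfold FS.ex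
  exact iSup₂_le fun P hP => le_iSup₂_of_le P (hP.trans h) le_rfl

theorem Act_le (e : Equiv.Perm Φ.SPt) {R : Submodule F V} {P : Φ.SPt} (h : P.1 ≤ R) :
    (e P).1 ≤ Φ.ex e R := by
  unfold FS.ex
  exact le_iSup₂_of_le P h le_rfl

/-- the vectors orthogonal to all images -/
theorem Act_perp (e : Equiv.Perm Φ.SPt) {R : Submodule F V} {y : V}
    (h : ∀ P : Φ.SPt, P.1 ≤ R → ∀ x ∈ (e P).1, Φ.f y x = 0) : ∀ x ∈ Φ.ex e R, Φ.f y x = 0 := by
  have h1 : Φ.ex e R ≤ Φ.perp (Submodule.span F {y}) := by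
    unfold FS.ex
    refine iSup₂_le fun P hP x hx => ?_
    intro u hu
    obtain ⟨c, rfl⟩ := Submodule.mem_span_singleton.1 hu
    rw [Φ.f_smul_left, h P hP x hx, mul_zero]
  intro x hx
  exact h1 hx y (Submodule.mem_span_singleton_self y)

end Aux

variable {F V : Type} [Field F] [Finite F] [AddCommGroup V] [Module F V]
  [FiniteDimensional F V] (Φ : FS F V) {e : Equiv.Perm Φ.SPt}

theorem ex_TS (he : ∀ P Q, Φ.Pp (e P) (e Q) ↔ Φ.Pp P Q) {R : Submodule F V} (hR : Φ.TS R) :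
    Φ.TS (Φ.ex e R) := by
  have h1 : ∀ P : Φ.SPt, P.1 ≤ R → ∀ P' : Φ.SPt, P'.1 ≤ R → Φ.Pp (e P) (e P') := by
    intro P hP P' hP'
    rw [he]
    intro x hx y hy
    exact hR.2 x (hP hx) y (hP' hy)
  have h2 : ∀ x ∈ Φ.ex e R, ∀ y ∈ Φ.ex e R, Φ.f x y = 0 := by
    intro x hx
    apply Act_perp
    intro P hP y hy
    apply Φ.f_eq_zero_symm
    revert x
    apply Act_perp
    intro P' hP' x hx
    exact h1 P hP P' hP' y hy x hx
  refine ⟨?_, h2⟩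
  let Q : Submodule F V :=
    { carrier := {x | x ∈ Φ.ex e R ∧ Φ.q x = 0}
      zero_mem' := ⟨Submodule.zero_mem _, by
        have := Φ.q_smul 0 0
        rwa [zero_smul, zero_mul, zero_mul] at this⟩
      add_mem' := by
        rintro x y ⟨hx, hx'⟩ ⟨hy, hy'⟩
        refine ⟨Submodule.add_mem _ hx hy, ?_⟩
        rw [Φ.q_add, hx', hy', h2 x hx y hy, map_zero, add_zero, add_zero]
      smul_mem' := by
        rintro c x ⟨hx, hx'⟩
        refine ⟨Submodule.smul_mem _ c hx, ?_⟩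
        rw [Φ.q_smul, hx', mul_zero] }
  have h3 : Φ.ex e R ≤ Q := by
    conv_lhs => unfold FS.ex
    refine iSup₂_le fun P hP x hx => ⟨Act_le Φ e hP hx, (e P).2.2.1 x hx⟩
  intro x hx
  exact (h3 hx).2

theorem le_ex (he : ∀ P Q, Φ.Pp (e P) (e Q) ↔ Φ.Pp P Q) {R : Submodule F V} (hR : Φ.TS R)
    (P : Φ.SPt) : (e P).1 ≤ Φ.ex e R ↔ P.1 ≤ R := by
  refine ⟨fun h => ?_, fun h => Act_le Φ e h⟩
  -- `P` is perpendicular to all singular vectors of `perp R`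
  have h1 : ∀ z ∈ Φ.perp R, Φ.q z = 0 → ∀ x ∈ P.1, Φ.f z x = 0 := by
    intro z hz hqz x hx
    by_cases h0 : z = 0
    · rw [h0, map_zero]; rfl
    have h2 : Φ.Pp (e (Act_pt Φ hqz h0)) (e P) := by
      intro a ha b hb
      refine Act_perp Φ e ?_ b (h hb)
      intro P' hP' y hy
      have h3 : Φ.Pp (Act_pt Φ hqz h0) P' := by
        intro c hc d hd
        obtain ⟨t, rfl⟩ := Submodule.mem_span_singleton.1 hc
        rw [Φ.f_smul_left, Φ.f_eq_zero_symm (hz d (hP' hd)), mul_zero]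
      exact (he _ _).2 h3 a ha y hy
    exact (he _ _).1 h2 z (Act_mem_pt Φ hqz h0) x hx
  have h4 : R ≤ Φ.perp R := fun x hx u hu => hR.2 u hu x hx
  by_cases h5 : ∃ z ∈ Φ.perp R, Φ.q z = 0 ∧ z ∉ R
  · obtain ⟨z, hz, hqz, hzR⟩ := h5
    have h6 : ∃ u ∈ Φ.perp R, Φ.f z u ≠ 0 := by
      by_contra hc
      push Not at hc
      apply hzR
      rw [← Φ.perp_perp R]
      intro u hu
      exact Φ.f_eq_zero_symm (hc u hu)
    have h7 := Φ.span_sing (Φ.perp R) z hz hqz h6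
    intro x hx
    rw [← Φ.perp_perp R]
    have h8 : Submodule.span F {v | v ∈ Φ.perp R ∧ Φ.q v = 0} ≤ Φ.perp (Submodule.span F {x}) := by
      rw [Submodule.span_le]
      rintro v ⟨hv, hv'⟩ u hu
      obtain ⟨c, rfl⟩ := Submodule.mem_span_singleton.1 hu
      rw [Φ.f_smul_left, Φ.f_eq_zero_symm (h1 v hv hv' x hx), mul_zero]
    rw [h7] at h8
    intro u hu
    exact Φ.f_eq_zero_symm (h8 hu x (Submodule.mem_span_singleton_self x))
  · push Not at h5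
    intro x hx
    refine h5 x ?_ (P.2.2.1 x hx)
    intro u hu
    exact h1 u (h4 hu) (hR.1 u hu) x hx

theorem ex_le (he : ∀ P Q, Φ.Pp (e P) (e Q) ↔ Φ.Pp P Q) {R R' : Submodule F V} (hR : Φ.TS R)
    (hR' : Φ.TS R') : Φ.ex e R ≤ Φ.ex e R' ↔ R ≤ R' := by
  refine ⟨fun h => ?_, fun h => Act_mono Φ e h⟩
  apply Act_le_of_pts Φ hR
  intro P hP
  exact (le_ex Φ he hR' P).1 ((Act_le Φ e hP).trans h)

theorem ex_mul {e' : Equiv.Perm Φ.SPt} (he : ∀ P Q, Φ.Pp (e P) (e Q) ↔ Φ.Pp P Q)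
    (he' : ∀ P Q, Φ.Pp (e' P) (e' Q) ↔ Φ.Pp P Q) {R : Submodule F V} (hR : Φ.TS R) :
    Φ.ex (e * e') R = Φ.ex e (Φ.ex e' R) := by
  apply le_antisymm
  · conv_lhs => unfold FS.ex
    refine iSup₂_le fun P hP => ?_
    exact Act_le Φ e (Act_le Φ e' hP)
  · conv_lhs => unfold FS.ex
    refine iSup₂_le fun Q hQ => ?_
    obtain ⟨P, rfl⟩ := e'.surjective Q
    exact Act_le Φ (e * e') ((le_ex Φ he' hR P).1 hQ)

theorem ex_one {R : Submodule F V} (hR : Φ.TS R) : Φ.ex 1 R = R := by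
  apply le_antisymm
  · unfold FS.ex
    exact iSup₂_le fun P hP => hP
  · apply Act_le_of_pts Φ hR
    intro P hP
    exact Act_le Φ 1 hP

theorem Act_finrank_ge (he : ∀ P Q, Φ.Pp (e P) (e Q) ↔ Φ.Pp P Q) (n : ℕ) :
    ∀ R : Submodule F V, Φ.TS R → finrank F R = n → n ≤ finrank F (Φ.ex e R) := by
  induction n with
  | zero => intro R _ _; exact Nat.zero_le _
  | succ n ih =>
    intro R hR hn
    have h1 : R ≠ ⊥ := by
      rintro rfl
      rw [finrank_bot] at hn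
      omega
    obtain ⟨x, hx, hx0⟩ := Submodule.exists_mem_ne_zero_of_ne_bot h1
    obtain ⟨C, hC⟩ := Submodule.exists_isCompl (Submodule.span F {x})
    have hxR : Submodule.span F {x} ≤ R := (Submodule.span_singleton_le_iff_mem x R).2 hx
    have h2 : Submodule.span F {x} ⊔ C ⊓ R = R := by
      rw [← sup_inf_assoc_of_le C hxR, hC.sup_eq_top, top_inf_eq]
    have h3 : Submodule.span F {x} ⊓ (C ⊓ R) = ⊥ := by
      rw [← inf_assoc, hC.inf_eq_bot, bot_inf_eq]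
    have h4 := Submodule.finrank_sup_add_finrank_inf_eq (Submodule.span F {x}) (C ⊓ R)
    rw [h2, h3, finrank_bot, finrank_span_singleton hx0, hn] at h4
    have hR' : Φ.TS (C ⊓ R) := Act_TS_mono Φ inf_le_right hR
    have h5 := ih (C ⊓ R) hR' (by omega)
    have h6 : Φ.ex e (C ⊓ R) < Φ.ex e R := by
      rw [lt_iff_le_not_ge, ex_le Φ he hR' hR, ex_le Φ he hR hR']
      refine ⟨inf_le_right, fun h => ?_⟩
      have h7 := Submodule.finrank_mono h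
      omega
    have h8 := Submodule.finrank_lt_finrank_of_lt h6
    omega

theorem ex_finrank (he : ∀ P Q, Φ.Pp (e P) (e Q) ↔ Φ.Pp P Q) {R : Submodule F V} (hR : Φ.TS R) :
    finrank F (Φ.ex e R) = finrank F R := by
  have he' : ∀ P Q, Φ.Pp (e⁻¹ P) (e⁻¹ Q) ↔ Φ.Pp P Q := by
    intro P Q
    have h0 : ∀ P, e (e⁻¹ P) = P := e.apply_symm_apply
    rw [← he, h0, h0]
  have h1 : Φ.ex e⁻¹ (Φ.ex e R) = R := by
    rw [← ex_mul Φ he' he hR, inv_mul_cancel, ex_one Φ hR]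
  apply le_antisymm
  · have h2 := Act_finrank_ge Φ he' _ (Φ.ex e R) (ex_TS Φ he hR) rfl
    rwa [h1] at h2
  · exact Act_finrank_ge Φ he _ R hR rfl

theorem Act_gm_TS {g : V ≃ₗ[F] V} (hg : g ∈ Φ.Isom) {R : Submodule F V} (hR : Φ.TS R) :
    Φ.TS (gm g R) := by
  have h1 : ∀ x, g (g⁻¹ x) = x := g.apply_symm_apply
  constructor
  · intro x hx
    rw [← h1 x, hg.2]
    exact hR.1 _ (mem_gm.1 hx)
  · intro x hx y hy
    rw [← h1 x, ← h1 y, hg.1]
    exact hR.2 _ (mem_gm.1 hx) _ (mem_gm.1 hy)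

/-- isometries act on singular points -/
def Act_gp {g : V ≃ₗ[F] V} (hg : g ∈ Φ.Isom) (P : Φ.SPt) : Φ.SPt :=
  ⟨gm g P.1, by rw [finrank_gm]; exact P.2.1, Act_gm_TS Φ hg P.2.2⟩

theorem st_ex {S : Type} [Group S] {ν : ℕ} (hν : Φ.WI ν) (h15 : 15 ≤ ν) (ρ : Rl F V S)
    (hE : Φ.El ≤ ρ.T) (hI : ρ.T ≤ Φ.Isom) (φ : S ≃* S)
    (he : ∀ P Q, Φ.Pp (e P) (e Q) ↔ Φ.Pp P Q)
    (hφ : ∀ P : Φ.SPt, (ρ.st P.1).map φ.toMonoidHom = ρ.st (e P).1) {R : Submodule F V}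
    (hR : Φ.TS R) : (ρ.st R).map φ.toMonoidHom = ρ.st (Φ.ex e R) := by
  -- membership
  have hmem : ∀ (P : Φ.SPt) (s : S), φ s ∈ ρ.st (e P).1 ↔ s ∈ ρ.st P.1 := by
    intro P s
    rw [← hφ]
    exact Subgroup.mem_map_iff_mem φ.injective
  -- equivariance
  have heq : ∀ (g g' : ρ.T) (hg : ρ.π g' = φ (ρ.π g)) (P : Φ.SPt),
      e (Act_gp Φ (hI g.2) P) = Act_gp Φ (hI g'.2) (e P) := by
    intro g g' hg P
    apply st_pt_inj Φ hν h15 ρ hE hI
    intro s hs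
    obtain ⟨t, rfl⟩ := φ.surjective s
    rw [hmem] at hs
    have h1 := (ρ.mem_st_gm g t).1 hs
    change φ t ∈ ρ.st (gm (g' : V ≃ₗ[F] V) (e P).1)
    rw [ρ.mem_st_gm, hg, ← map_inv, ← map_mul, ← map_mul, hmem]
    exact h1
  have hgm : ∀ (g g' : ρ.T) (hg : ρ.π g' = φ (ρ.π g)),
      gm (g' : V ≃ₗ[F] V) (Φ.ex e R) = Φ.ex e (gm (g : V ≃ₗ[F] V) R) := by
    intro g g' hg
    apply le_antisymm
    · rw [← gm_le (g' : V ≃ₗ[F] V)⁻¹, gm_inv_gm]
      conv_lhs => unfold FS.ex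
      refine iSup₂_le fun P hP => ?_
      rw [← gm_le (g' : V ≃ₗ[F] V), gm_gm_inv]
      have h1 := heq g g' hg P
      have h2 : (e (Act_gp Φ (hI g.2) P)).1 = gm (g' : V ≃ₗ[F] V) (e P).1 := by rw [h1]; rfl
      rw [← h2]
      apply Act_le
      exact (gm_le _).2 hP
    · conv_lhs => unfold FS.ex
      refine iSup₂_le fun Q hQ => ?_
      have hgi : (g : V ≃ₗ[F] V)⁻¹ ∈ Φ.Isom := Φ.Isom.inv_mem (hI g.2)
      have h0 : Q = Act_gp Φ (hI g.2) (Act_gp Φ hgi Q) := by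
        apply Subtype.ext
        exact (gm_gm_inv _ _).symm
      have h1 := heq g g' hg (Act_gp Φ hgi Q)
      rw [← h0] at h1
      rw [h1]
      change gm (g' : V ≃ₗ[F] V) (e (Act_gp Φ hgi Q)).1 ≤ _
      rw [gm_le]
      apply Act_le
      change gm (g : V ≃ₗ[F] V)⁻¹ Q.1 ≤ R
      rw [← gm_le (g : V ≃ₗ[F] V), gm_gm_inv]
      exact hQ
  ext s
  obtain ⟨t, rfl⟩ := φ.surjective s
  have h1 : φ t ∈ (ρ.st R).map φ.toMonoidHom ↔ t ∈ ρ.st R :=
    Subgroup.mem_map_iff_mem φ.injective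
  rw [h1]
  obtain ⟨g, rfl⟩ := ρ.surj t
  obtain ⟨g', hg'⟩ := ρ.surj (φ (ρ.π g))
  rw [← hg', ρ.mem_st, ρ.mem_st, hgm g g' hg']
  have hgR : Φ.TS (gm (g : V ≃ₗ[F] V) R) := Act_gm_TS Φ (hI g.2) hR
  constructor
  · intro h
    rw [h]
  · intro h
    apply le_antisymm
    · rw [← ex_le Φ he hgR hR, h]
    · rw [← ex_le Φ he hR hgR, h]

end Helper76.CL
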