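import Pool.Agent.Helper76.CL.Defs

/-!
# The clique lemma
-/

set_option autoImplicit false

namespace Helper76.CL

/-- a permutation `α` with `α ^ p = 1` of a set with a symmetric `α`-invariant relation, such that
all the relevant numbers of common neighbours are `1` modulo `r`, has an orbit which is a clique -/
theorem clique (r : ℕ) [Fact r.Prime] {X : Type} [Finite X] (rel : X → X → Prop)
    (α : Equiv.Perm X) (p : ℕ) (hα : α ^ p = 1) (hsymm : ∀ x y, rel x y → rel y x)
    (hrel : ∀ x y, rel (α x) (α y) ↔ rel x y) (h0 : Nat.card X ≡ 1 [MOD r])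
    (h1 : ∀ x, Nat.card {z // ∀ i : ℕ, rel ((α ^ i) x) z} ≡ 1 [MOD r])
    (h2 : ∀ x y, Nat.card {z // (∀ i : ℕ, rel ((α ^ i) x) z) ∧ ∀ i : ℕ, rel ((α ^ i) y) z} ≡
      1 [MOD r]) (hp : 0 < p) :
    ∃ x, ∀ i : ℕ, rel ((α ^ i) x) x := by
  classical
  have : Fintype X := Fintype.ofFinite X
  have hrelp : ∀ (j : ℕ) (x y : X), rel ((α ^ j) x) ((α ^ j) y) ↔ rel x y := by
    intro j
    induction j with
    | zero => intro x y; rfl
    | succ j ih =>
      intro x y
      rw [pow_succ', Equiv.Perm.mul_apply, Equiv.Perm.mul_apply, hrel, ih]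
  set P : X → X → Prop := fun x z => ∀ i : ℕ, rel ((α ^ i) x) z with hP
  have hPs : ∀ x z, P x z → P z x := by
    intro x z h j
    have h3 := h ((p - 1) * j)
    have h4 := hsymm _ _ h3
    rw [← hrelp j, ← Equiv.Perm.mul_apply, ← pow_add] at h4
    have h5 : j + (p - 1) * j = p * j := by
      obtain ⟨q, rfl⟩ : ∃ q, p = q + 1 := ⟨p - 1, by omega⟩
      simp only [Nat.add_sub_cancel]
      ring
    rw [h5, pow_mul, hα, one_pow, Equiv.Perm.one_apply] at h4
    exact h4
  have hPs' : ∀ x z, P x z ↔ P z x := fun x z => ⟨hPs x z, hPs z x⟩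
  have cast1 : ∀ n : ℕ, n ≡ 1 [MOD r] → (n : ZMod r) = 1 := by
    intro n hn
    have := (ZMod.natCast_eq_natCast_iff n 1 r).2 hn
    rw [this, Nat.cast_one]
  let B : Matrix X X (ZMod r) := Matrix.of fun x z => if P x z then 1 else 0
  let J : Matrix X X (ZMod r) := Matrix.of fun _ _ => 1
  have hBB : B * B = J := by
    ext x y
    rw [Matrix.mul_apply]
    have e1 : ∀ z, B x z * B z y = if (P x z ∧ P y z) then 1 else 0 := by
      intro z
      change (if P x z then (1 : ZMod r) else 0) * (if P z y then 1 else 0) = _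
      rw [hPs' z y]
      by_cases a : P x z <;> by_cases b : P y z <;> simp [a, b]
    rw [Finset.sum_congr rfl fun z _ => e1 z, Finset.sum_boole]
    change _ = (1 : ZMod r)
    rw [← cast1 _ (h2 x y), Nat.card_eq_fintype_card, Fintype.card_subtype]
  have hBJ : B * J = J := by
    ext x y
    rw [Matrix.mul_apply]
    have e1 : ∀ z, B x z * J z y = if P x z then 1 else 0 := by
      intro z
      change (if P x z then (1 : ZMod r) else 0) * 1 = _
      rw [mul_one]
    rw [Finset.sum_congr rfl fun z _ => e1 z, Finset.sum_boole]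
    change _ = (1 : ZMod r)
    rw [← cast1 _ (h1 x), Nat.card_eq_fintype_card, Fintype.card_subtype]
  have hJB : J * B = J := by
    ext x y
    rw [Matrix.mul_apply]
    have e1 : ∀ z, J x z * B z y = if P y z then 1 else 0 := by
      intro z
      change 1 * (if P z y then (1 : ZMod r) else 0) = _
      rw [one_mul, hPs' z y]
    rw [Finset.sum_congr rfl fun z _ => e1 z, Finset.sum_boole]
    change _ = (1 : ZMod r)
    rw [← cast1 _ (h1 y), Nat.card_eq_fintype_card, Fintype.card_subtype]
  have hX : (Fintype.card X : ZMod r) = 1 := by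
    rw [← cast1 _ h0, Nat.card_eq_fintype_card]
  have hJJ : J * J = J := by
    ext x y
    rw [Matrix.mul_apply]
    change ∑ z : X, (1 : ZMod r) * 1 = 1
    rw [Finset.sum_const, Finset.card_univ, nsmul_eq_mul, hX]
    ring
  have hnil : IsNilpotent (B - J) := by
    refine ⟨2, ?_⟩
    rw [pow_two, Matrix.sub_mul, Matrix.mul_sub, Matrix.mul_sub, hBB, hBJ, hJB, hJJ]
    simp
  have htr := Matrix.isNilpotent_trace_of_isNilpotent hnil
  have htr0 := htr.eq_zero
  rw [Matrix.trace_sub] at htr0
  have hJt : Matrix.trace J = 1 := by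
    change ∑ z : X, (1 : ZMod r) = 1
    rw [Finset.sum_const, Finset.card_univ, nsmul_eq_mul, hX]
    ring
  rw [hJt, sub_eq_zero] at htr0
  by_contra hcon
  have hB0 : ∀ x, B x x = 0 := by
    intro x
    change (if P x x then (1 : ZMod r) else 0) = 0
    rw [if_neg]
    intro h
    exact hcon ⟨x, h⟩
  have : Matrix.trace B = 0 := by
    change ∑ z : X, B z z = 0
    exact Finset.sum_eq_zero fun z _ => hB0 z
  rw [this] at htr0
  exact zero_ne_one htr0

end Helper76.CL
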