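import Pool.Agent.Helper76.CL.Act
import Pool.Agent.Helper76.CL.Clq

/-!
# Large invariant totally singular subspaces
-/

set_option autoImplicit false

namespace Helper76.CL

open Module

section Big_aux

variable {F V : Type} [Field F] [AddCommGroup V] [Module F V] (Φ : FS F V)

/-- perpendicular subspaces -/
def Big_rel (R R' : Submodule F V) : Prop := ∀ a ∈ R, ∀ b ∈ R', Φ.f a b = 0

theorem Big_rel_symm {R R' : Submodule F V} (h : Big_rel Φ R R') : Big_rel Φ R' R :=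
  fun a ha b hb => Φ.f_eq_zero_symm (h b hb a ha)

theorem Big_rel_iff {R R' : Submodule F V} : Big_rel Φ R R' ↔ R' ≤ Φ.perp R :=
  ⟨fun h b hb u hu => h u hu b hb, fun h a ha b hb => h hb a ha⟩

theorem Big_rel_iSup_right {ι : Sort*} {R : ι → Submodule F V} {R' : Submodule F V}
    (h : ∀ i, Big_rel Φ R' (R i)) : Big_rel Φ R' (⨆ i, R i) := by
  rw [Big_rel_iff]
  exact iSup_le fun i => (Big_rel_iff Φ).1 (h i)

theorem Big_rel_iSup_left {ι : Sort*} {R : ι → Submodule F V} {R' : Submodule F V}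
    (h : ∀ i, Big_rel Φ (R i) R') : Big_rel Φ (⨆ i, R i) R' :=
  Big_rel_symm Φ (Big_rel_iSup_right Φ fun i => Big_rel_symm Φ (h i))

theorem Big_rel_mono {R R' S S' : Submodule F V} (h : Big_rel Φ R R') (h1 : S ≤ R) (h2 : S' ≤ R') :
    Big_rel Φ S S' := fun a ha b hb => h a (h1 ha) b (h2 hb)

theorem Big_TS_iSup {ι : Type} {R : ι → Submodule F V} (h : ∀ i, Φ.TS (R i))
    (hr : ∀ i j, Big_rel Φ (R i) (R j)) : Φ.TS (⨆ i, R i) := by
  have h2 : Big_rel Φ (⨆ i, R i) (⨆ i, R i) :=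
    Big_rel_iSup_left Φ fun i => Big_rel_iSup_right Φ fun j => hr i j
  refine ⟨?_, h2⟩
  intro x hx
  induction hx using Submodule.iSup_induction' with
  | mem i x hx => exact (h i).1 x hx
  | zero =>
    have h3 := Φ.q_smul 0 (0 : V)
    rw [zero_smul, zero_mul, zero_mul] at h3
    exact h3
  | add x y hx hy h1 h3 => rw [Φ.q_add, h1, h3, h2 x hx y hy, map_zero, add_zero, add_zero]

theorem Big_TS_bot : Φ.TS (⊥ : Submodule F V) := by
  have h3 := Φ.q_smul 0 (0 : V)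
  rw [zero_smul, zero_mul, zero_mul] at h3
  refine ⟨?_, ?_⟩
  · intro x hx
    rw [Submodule.mem_bot] at hx
    rw [hx, h3]
  · intro x hx y hy
    rw [Submodule.mem_bot] at hy
    rw [hy, map_zero]

theorem Big_dim [FiniteDimensional F V] (R : Submodule F V) (S : ℕ → Submodule F V)
    (h1 : ∀ i, R ≤ S i) (h2 : ∀ i, finrank F (S i) = finrank F R + 1) (n : ℕ) :
    ∃ T : Submodule F V, R ≤ T ∧ finrank F T ≤ finrank F R + n ∧ ∀ i < n, S i ≤ T := by
  induction n with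
  | zero => exact ⟨R, le_rfl, le_rfl, fun i hi => absurd hi (Nat.not_lt_zero i)⟩
  | succ n ih =>
    obtain ⟨T, h3, h4, h5⟩ := ih
    refine ⟨T ⊔ S n, h3.trans le_sup_left, ?_, ?_⟩
    · have h6 := Submodule.finrank_sup_add_finrank_inf_eq T (S n)
      have h7 : finrank F R ≤ finrank F ↥(T ⊓ S n) := Submodule.finrank_mono (le_inf h3 (h1 n))
      have h8 := h2 n
      omega
    · intro i hi
      rcases Nat.lt_succ_iff_lt_or_eq.1 hi with h | h
      · exact (h5 i h).trans le_sup_left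
      · rw [h]
        exact le_sup_right

end Big_aux

section Big_act

variable {F V : Type} [Field F] [Finite F] [AddCommGroup V] [Module F V]
  [FiniteDimensional F V] (Φ : FS F V) {e : Equiv.Perm Φ.SPt}

omit [Finite F] [FiniteDimensional F V] in
theorem Big_he_inv (he : ∀ P Q, Φ.Pp (e P) (e Q) ↔ Φ.Pp P Q) :
    ∀ P Q, Φ.Pp (e⁻¹ P) (e⁻¹ Q) ↔ Φ.Pp P Q := by
  intro P Q
  have h1 : ∀ P, e (e⁻¹ P) = P := e.apply_symm_apply
  rw [← he, h1, h1]

omit [Finite F] [FiniteDimensional F V] in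
theorem Big_he_pow (he : ∀ P Q, Φ.Pp (e P) (e Q) ↔ Φ.Pp P Q) (n : ℕ) :
    ∀ P Q, Φ.Pp ((e ^ n) P) ((e ^ n) Q) ↔ Φ.Pp P Q := by
  induction n with
  | zero =>
    intro P Q
    rw [pow_zero]
    rfl
  | succ n ih =>
    intro P Q
    rw [pow_succ', Equiv.Perm.mul_apply, Equiv.Perm.mul_apply, he, ih]

theorem Big_ex_pow (he : ∀ P Q, Φ.Pp (e P) (e Q) ↔ Φ.Pp P Q) (n : ℕ) {R : Submodule F V}
    (hR : Φ.TS R) : Φ.TS ((Φ.ex e)^[n] R) ∧ Φ.ex (e ^ n) R = (Φ.ex e)^[n] R := by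
  induction n with
  | zero => exact ⟨hR, by rw [pow_zero]; exact ex_one Φ hR⟩
  | succ n ih =>
    rw [Function.iterate_succ_apply']
    refine ⟨ex_TS Φ he ih.1, ?_⟩
    rw [pow_succ', ex_mul Φ he (Big_he_pow Φ he n) hR, ih.2]

omit [Finite F] [FiniteDimensional F V] in
theorem Big_rel_ex (he : ∀ P Q, Φ.Pp (e P) (e Q) ↔ Φ.Pp P Q) {R R' : Submodule F V}
    (h : Big_rel Φ R R') : Big_rel Φ (Φ.ex e R) (Φ.ex e R') := by
  refine Big_rel_iSup_left Φ fun P => Big_rel_iSup_left Φ fun hP =>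
    Big_rel_iSup_right Φ fun Q => Big_rel_iSup_right Φ fun hQ => ?_
  exact (he P Q).2 (Big_rel_mono Φ h hP hQ)

theorem Big_ex_inv (he : ∀ P Q, Φ.Pp (e P) (e Q) ↔ Φ.Pp P Q) {R : Submodule F V}
    (hR : Φ.TS R) : Φ.ex e⁻¹ (Φ.ex e R) = R := by
  rw [← ex_mul Φ (Big_he_inv Φ he) he hR, inv_mul_cancel]
  exact ex_one Φ hR

theorem Big_inv_ex (he : ∀ P Q, Φ.Pp (e P) (e Q) ↔ Φ.Pp P Q) {R : Submodule F V}
    (hR : Φ.TS R) : Φ.ex e (Φ.ex e⁻¹ R) = R := by
  rw [← ex_mul Φ he (Big_he_inv Φ he) hR, mul_inv_cancel]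
  exact ex_one Φ hR

theorem Big_rel_ex_iff (he : ∀ P Q, Φ.Pp (e P) (e Q) ↔ Φ.Pp P Q) {R R' : Submodule F V}
    (hR : Φ.TS R) (hR' : Φ.TS R') : Big_rel Φ (Φ.ex e R) (Φ.ex e R') ↔ Big_rel Φ R R' := by
  constructor
  · intro h
    have h1 := Big_rel_ex Φ (Big_he_inv Φ he) h
    rw [Big_ex_inv Φ he hR, Big_ex_inv Φ he hR'] at h1
    exact h1
  · exact Big_rel_ex Φ he

/-- the totally singular subspaces of dimension one more than `R` -/
abbrev Big_X (R : Submodule F V) : Type :=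
  {R' : Submodule F V // R ≤ R' ∧ finrank F R' = finrank F R + 1 ∧ Φ.TS R'}

/-- the permutation of the totally singular subspaces of dimension one more than `R` -/
def Big_al (he : ∀ P Q, Φ.Pp (e P) (e Q) ↔ Φ.Pp P Q) {R : Submodule F V} (hR : Φ.TS R)
    (hRe : Φ.ex e R = R) : Equiv.Perm (Big_X Φ R) where
  toFun x := ⟨Φ.ex e x.1, by
    have h1 := (ex_le Φ he hR x.2.2.2).2 x.2.1
    rw [hRe] at h1
    exact h1, by rw [ex_finrank Φ he x.2.2.2]; exact x.2.2.1, ex_TS Φ he x.2.2.2⟩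
  invFun x := ⟨Φ.ex e⁻¹ x.1, by
    have h1 := (ex_le Φ (Big_he_inv Φ he) hR x.2.2.2).2 x.2.1
    have h2 := Big_ex_inv Φ he hR
    rw [hRe] at h2
    rw [h2] at h1
    exact h1, by rw [ex_finrank Φ (Big_he_inv Φ he) x.2.2.2]; exact x.2.2.1,
    ex_TS Φ (Big_he_inv Φ he) x.2.2.2⟩
  left_inv x := Subtype.ext (Big_ex_inv Φ he x.2.2.2)
  right_inv x := Subtype.ext (Big_inv_ex Φ he x.2.2.2)

theorem Big_al_pow (he : ∀ P Q, Φ.Pp (e P) (e Q) ↔ Φ.Pp P Q) {R : Submodule F V} (hR : Φ.TS R)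
    (hRe : Φ.ex e R = R) (n : ℕ) (x : Big_X Φ R) :
    (((Big_al Φ he hR hRe) ^ n) x).1 = (Φ.ex e)^[n] x.1 := by
  induction n with
  | zero => rfl
  | succ n ih =>
    rw [pow_succ', Equiv.Perm.mul_apply, Function.iterate_succ_apply', ← ih]
    rfl

theorem Big_step {ν : ℕ} (hν : Φ.WI ν)
    (he : ∀ P Q, Φ.Pp (e P) (e Q) ↔ Φ.Pp P Q) {p : ℕ} (hp : 0 < p) (hep : e ^ p = 1)
    {R : Submodule F V} (hR : Φ.TS R) (hRe : Φ.ex e R = R)
    (hk : 2 * finrank F R + 4 * p + 4 ≤ ν) :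
    ∃ R₂ : Submodule F V, Φ.TS R₂ ∧ Φ.ex e R₂ = R₂ ∧ finrank F R < finrank F R₂ ∧
      finrank F R₂ ≤ finrank F R + p := by
  obtain ⟨r, hr⟩ := CharP.exists F
  have : Fact r.Prime := ⟨(CharP.char_is_prime_or_zero F r).resolve_right
    (CharP.char_ne_zero_of_finite F r)⟩
  have : Finite V := Module.finite_of_finite F
  have : Finite (Submodule F V) := Finite.of_injective (fun W => (W : Set V)) SetLike.coe_injective
  have hn : ν ≤ finrank F V := by
    obtain ⟨E, hE, -⟩ := hν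
    rw [← hE]
    exact Submodule.finrank_le E
  set α := Big_al Φ he hR hRe with hα
  have hαp : α ^ p = 1 := by
    ext1 x
    apply Subtype.ext
    rw [hα, Big_al_pow, ← (Big_ex_pow Φ he p x.2.2.2).2, hep]
    exact ex_one Φ x.2.2.2
  -- the span of an orbit
  have hspan : ∀ x : Big_X Φ R, R ≤ (⨆ i : ℕ, ((α ^ i) x).1) ∧
      finrank F ↥(⨆ i : ℕ, ((α ^ i) x).1) ≤ finrank F R + p := by
    intro x
    obtain ⟨T, h1, h2, h3⟩ := Big_dim R (fun i => ((α ^ i) x).1) (fun i => ((α ^ i) x).2.1)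
      (fun i => ((α ^ i) x).2.2.1) p
    refine ⟨((α ^ 0) x).2.1.trans (le_iSup (fun i : ℕ => ((α ^ i) x).1) 0), ?_⟩
    refine le_trans (Submodule.finrank_mono (iSup_le fun i => ?_)) h2
    rw [pow_eq_pow_mod i hαp]
    exact h3 _ (Nat.mod_lt _ hp)
  -- counting
  have hcount : ∀ W : Submodule F V, (R ≤ Φ.perp W) → finrank F W ≤ finrank F R + 2 * p →
      R ≤ W →
      Nat.card {R' : Submodule F V // R ≤ R' ∧ finrank F R' = finrank F R + 1 ∧ Φ.TS R' ∧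
        R' ≤ Φ.perp W} ≡ 1 [MOD r] := by
    intro W h1 h2 h3
    apply cnt_pts Φ r R (Φ.perp W) hR h1
    · intro y hy u hu
      exact hy u (h3 hu)
    · have h4 := Φ.finrank_perp W
      omega
    · obtain ⟨z, hz1, hz2, hz3⟩ := Φ.exists_perp hν W R (by omega)
      exact ⟨z, hz3, hz1, hz2⟩
  have hRR : Big_rel Φ R R := hR.2
  have hrelx : ∀ x : Big_X Φ R, Big_rel Φ R x.1 := fun x =>
    Big_rel_mono Φ x.2.2.2.2 x.2.1 le_rfl
  have hrelsp : ∀ x : Big_X Φ R, Big_rel Φ R (⨆ i : ℕ, ((α ^ i) x).1) := fun x =>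
    Big_rel_iSup_right Φ fun i => hrelx _
  have key2 : ∀ x y : Big_X Φ R, Nat.card {z : Big_X Φ R //
      (∀ i : ℕ, Big_rel Φ ((α ^ i) x).1 z.1) ∧ ∀ i : ℕ, Big_rel Φ ((α ^ i) y).1 z.1} ≡
      1 [MOD r] := by
    intro x y
    have h1 := hcount ((⨆ i : ℕ, ((α ^ i) x).1) ⊔ (⨆ i : ℕ, ((α ^ i) y).1)) (by
      rw [← Big_rel_iff]
      intro a ha b hb
      rw [Submodule.mem_sup] at ha
      obtain ⟨a1, h1, a2, h2, rfl⟩ := ha
      rw [map_add, AddMonoidHom.add_apply, Big_rel_symm Φ (hrelsp x) a1 h1 b hb,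
        Big_rel_symm Φ (hrelsp y) a2 h2 b hb, add_zero]) (by
      have h2 := Submodule.finrank_sup_add_finrank_inf_eq
        (⨆ i : ℕ, ((α ^ i) x).1) (⨆ i : ℕ, ((α ^ i) y).1)
      have h3 := (hspan x).2
      have h4 := (hspan y).2
      have h5 : finrank F R ≤ finrank F ↥((⨆ i : ℕ, ((α ^ i) x).1) ⊓
        (⨆ i : ℕ, ((α ^ i) y).1)) :=
        Submodule.finrank_mono (le_inf (hspan x).1 (hspan y).1)
      omega) ((hspan x).1.trans le_sup_left)
    refine Eq.trans (congrArg (fun n => n % r) (Nat.card_congr ?_)) h1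
    refine
      { toFun := fun z => ⟨z.1.1, z.1.2.1, z.1.2.2.1, z.1.2.2.2, ?_⟩
        invFun := fun z => ⟨⟨z.1, z.2.1, z.2.2.1, z.2.2.2.1⟩, ?_, ?_⟩
        left_inv := fun z => rfl
        right_inv := fun z => rfl }
    · rw [← Big_rel_iff]
      intro a ha b hb
      rw [Submodule.mem_sup] at ha
      obtain ⟨a1, h1, a2, h2, rfl⟩ := ha
      rw [map_add, AddMonoidHom.add_apply, Big_rel_iSup_left Φ z.2.1 a1 h1 b hb,
        Big_rel_iSup_left Φ z.2.2 a2 h2 b hb, add_zero]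
    · intro i
      have h2 := (Big_rel_iff Φ).2 z.2.2.2.2
      exact Big_rel_mono Φ h2 ((le_iSup (fun i : ℕ => ((α ^ i) x).1) i).trans le_sup_left) le_rfl
    · intro i
      have h2 := (Big_rel_iff Φ).2 z.2.2.2.2
      exact Big_rel_mono Φ h2 ((le_iSup (fun i : ℕ => ((α ^ i) y).1) i).trans le_sup_right) le_rfl
  have key0 : Nat.card (Big_X Φ R) ≡ 1 [MOD r] := by
    have h1 := hcount R ((Big_rel_iff Φ).1 hRR) (by omega) le_rfl
    refine Eq.trans (congrArg (fun n => n % r) (Nat.card_congr ?_)) h1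
    exact
      { toFun := fun z => ⟨z.1, z.2.1, z.2.2.1, z.2.2.2, (Big_rel_iff Φ).1 (hrelx z)⟩
        invFun := fun z => ⟨z.1, z.2.1, z.2.2.1, z.2.2.2.1⟩
        left_inv := fun z => rfl
        right_inv := fun z => rfl }
  obtain ⟨x, hx⟩ := clique r (fun x z : Big_X Φ R => Big_rel Φ x.1 z.1) α p hαp
    (fun x y h => Big_rel_symm Φ h) (fun x y => Big_rel_ex_iff Φ he x.2.2.2 y.2.2.2) key0
    (fun x => by
      refine Eq.trans (congrArg (fun n => n % r) (Nat.card_congr ?_)) (key2 x x)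
      exact Equiv.subtypeEquivRight fun z => by rw [and_self]) key2 hp
  -- the orbit is pairwise perpendicular
  have hrel : ∀ (i j : ℕ), Big_rel Φ ((α ^ (i + j)) x).1 ((α ^ j) x).1 := by
    intro i j
    induction j with
    | zero => exact hx i
    | succ j ih =>
      rw [← add_assoc, pow_succ' α (i + j), pow_succ' α j, Equiv.Perm.mul_apply,
        Equiv.Perm.mul_apply]
      exact Big_rel_ex Φ he ih
  have hpair : ∀ i j : ℕ, Big_rel Φ ((α ^ i) x).1 ((α ^ j) x).1 := by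
    intro i j
    rcases le_total j i with h | h
    · obtain ⟨k, rfl⟩ := Nat.exists_eq_add_of_le' h
      exact hrel k j
    · obtain ⟨k, rfl⟩ := Nat.exists_eq_add_of_le' h
      exact Big_rel_symm Φ (hrel k i)
  have hTS : Φ.TS (⨆ i : ℕ, ((α ^ i) x).1) := Big_TS_iSup Φ (fun i => ((α ^ i) x).2.2.2) hpair
  refine ⟨⨆ i : ℕ, ((α ^ i) x).1, hTS, ?_, ?_, (hspan x).2⟩
  · symm
    apply Submodule.eq_of_le_of_finrank_eq
    · have h1 : ∀ i : ℕ, ((α ^ (i + 1)) x).1 ≤ Φ.ex e (⨆ i : ℕ, ((α ^ i) x).1) := by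
        intro i
        rw [pow_succ' α i, Equiv.Perm.mul_apply]
        exact (ex_le Φ he ((α ^ i) x).2.2.2 hTS).2 (le_iSup (fun i : ℕ => ((α ^ i) x).1) i)
      apply iSup_le
      intro i
      rcases i with _ | i
      · have h2 : α ^ 0 = α ^ ((p - 1) + 1) := by
          rw [Nat.sub_add_cancel hp, hαp, pow_zero]
        rw [h2]
        exact h1 _
      · exact h1 i
    · rw [ex_finrank Φ he hTS]
  · have h1 : finrank F ((α ^ 0) x).1 ≤ finrank F ↥(⨆ i : ℕ, ((α ^ i) x).1) :=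
      Submodule.finrank_mono (le_iSup (fun i : ℕ => ((α ^ i) x).1) 0)
    have h2 := ((α ^ 0) x).2.2.1
    omega

end Big_act

theorem big {F V : Type} [Field F] [Finite F] [AddCommGroup V] [Module F V]
    [FiniteDimensional F V] (Φ : FS F V) {ν : ℕ} (hν : Φ.WI ν) {e : Equiv.Perm Φ.SPt}
    (he : ∀ P Q, Φ.Pp (e P) (e Q) ↔ Φ.Pp P Q) {p : ℕ} (hp : 0 < p) (hep : e ^ p = 1) (k : ℕ)
    (hk : 2 * k + 4 * p + 4 ≤ ν) :
    ∃ R : Submodule F V, Φ.TS R ∧ Φ.ex e R = R ∧ k ≤ finrank F R ∧ finrank F R ≤ k + p := by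
  have h1 : ∀ j : ℕ, j ≤ k → ∃ R : Submodule F V, Φ.TS R ∧ Φ.ex e R = R ∧ j ≤ finrank F R ∧
      finrank F R ≤ k + p := by
    intro j
    induction j with
    | zero =>
      intro _
      have h2 := ex_finrank Φ he (Big_TS_bot Φ)
      rw [finrank_bot] at h2
      refine ⟨⊥, Big_TS_bot Φ, Submodule.finrank_eq_zero.1 h2, Nat.zero_le _, ?_⟩
      rw [finrank_bot]
      exact Nat.zero_le _
    | succ j ih =>
      intro hj
      obtain ⟨R, hR, hRe, h3, h4⟩ := ih (by omega)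
      by_cases h5 : j + 1 ≤ finrank F R
      · exact ⟨R, hR, hRe, h5, h4⟩
      · obtain ⟨R₂, h6, h7, h8, h9⟩ := Big_step Φ hν he hp hep hR hRe (by omega)
        exact ⟨R₂, h6, h7, by omega, by omega⟩
  exact h1 k le_rfl

end Helper76.CL
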