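import Pool.Agent.Helper76.CL.Defs

/-!
# The classical simple groups
-/

set_option autoImplicit false

namespace Helper76.CL

open Module

/-- isometries of a bilinear form -/
def SpI {F V : Type} [Field F] [AddCommGroup V] [Module F V] (B : LinearMap.BilinForm F V) :
    Subgroup (V ≃ₗ[F] V) where
  carrier := {g | ∀ x y, B (g x) (g y) = B x y}
  one_mem' := fun _ _ => rfl
  mul_mem' := by
    intro g h hg hh x y
    change B (g (h x)) (g (h y)) = _
    rw [hg, hh]
  inv_mem' := by
    intro g hg x y
    have h5 : ∀ x, g (g⁻¹ x) = x := g.apply_symm_apply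
    rw [← hg, h5, h5]

/-- isometries of a sesquilinear form -/
def UnI {F V : Type} [Field F] [AddCommGroup V] [Module F V] {σ : F →+* F}
    (B : V →ₛₗ[σ] V →ₗ[F] F) : Subgroup (V ≃ₗ[F] V) where
  carrier := {g | ∀ x y, B (g x) (g y) = B x y}
  one_mem' := fun _ _ => rfl
  mul_mem' := by
    intro g h hg hh x y
    change B (g (h x)) (g (h y)) = _
    rw [hg, hh]
  inv_mem' := by
    intro g hg x y
    have h5 : ∀ x, g (g⁻¹ x) = x := g.apply_symm_apply
    rw [← hg, h5, h5]

/-- isometries of a quadratic form -/
def OrI {F V : Type} [Field F] [AddCommGroup V] [Module F V] (Q : QuadraticForm F V) :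
    Subgroup (V ≃ₗ[F] V) where
  carrier := {g | ∀ x, Q (g x) = Q x}
  one_mem' := fun _ => rfl
  mul_mem' := by
    intro g h hg hh x
    change Q (g (h x)) = _
    rw [hg, hh]
  inv_mem' := by
    intro g hg x
    have h5 : ∀ x, g (g⁻¹ x) = x := g.apply_symm_apply
    rw [← hg, h5]

/-- `S` is isomorphic to `PSL(n, F)` for some `n` and some finite field `F` -/
def IsPSL (S : Type) [Group S] : Prop :=
  ∃ (F : Type) (_ : Field F) (_ : Finite F) (n : ℕ),
    Nonempty (S ≃* Matrix.ProjectiveSpecialLinearGroup (Fin n) F)

/-- `S` is isomorphic to the commutator subgroup of the projective isometry group of a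
nondegenerate alternating form on a finite-dimensional space over a finite field -/
def IsPSp (S : Type) [Group S] : Prop :=
  ∃ (F V : Type) (_ : Field F) (_ : Finite F) (_ : AddCommGroup V) (_ : Module F V)
    (_ : FiniteDimensional F V) (B : LinearMap.BilinForm F V),
    B.IsAlt ∧ B.Nondegenerate ∧ Nonempty (S ≃* Om (SpI B))

/-- `S` is isomorphic to the commutator subgroup of the projective isometry group of a
nondegenerate hermitian form on a finite-dimensional space over a finite field -/
def IsPSU (S : Type) [Group S] : Prop :=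
  ∃ (F V : Type) (_ : Field F) (_ : Finite F) (_ : AddCommGroup V) (_ : Module F V)
    (_ : FiniteDimensional F V) (σ : F →+* F) (B : V →ₛₗ[σ] V →ₗ[F] F),
    (∀ a, σ (σ a) = a) ∧ (∃ a, σ a ≠ a) ∧ (∀ x y, B y x = σ (B x y)) ∧
      (∀ x, (∀ y, B x y = 0) → x = 0) ∧ Nonempty (S ≃* Om (UnI B))

/-- `S` is isomorphic to the commutator subgroup of the projective isometry group of a
quadratic form with nondegenerate polar form on a finite-dimensional space over a finite field -/
def IsPOm (S : Type) [Group S] : Prop :=
  ∃ (F V : Type) (_ : Field F) (_ : Finite F) (_ : AddCommGroup V) (_ : Module F V)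
    (_ : FiniteDimensional F V) (Q : QuadraticForm F V),
    (∀ x, (∀ y, QuadraticMap.polar Q x y = 0) → x = 0) ∧ Nonempty (S ≃* Om (OrI Q))

end Helper76.CL
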