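import Pool.Agent.Helper76.CL.Defs

/-!
# Counting subspaces modulo the characteristic
-/

set_option autoImplicit false

namespace Helper76.CL

open Module

theorem Pts_finrank_sup {F V : Type} [Field F] [AddCommGroup V] [Module F V]
    [FiniteDimensional F V] (R : Submodule F V) (x : V) (hx : x ∉ R) :
    finrank F (R ⊔ Submodule.span F {x} : Submodule F V) = finrank F R + 1 := by
  have h0 : x ≠ 0 := fun h => hx (h ▸ R.zero_mem)
  have h1 : R ⊓ Submodule.span F {x} = ⊥ := by
    rw [eq_bot_iff]
    rintro y ⟨hy1, hy2⟩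
    obtain ⟨c, rfl⟩ := Submodule.mem_span_singleton.1 hy2
    by_cases hc : c = 0
    · simp [hc]
    · exfalso
      apply hx
      have := R.smul_mem c⁻¹ hy1
      rwa [smul_smul, inv_mul_cancel₀ hc, one_smul] at this
  have h2 := Submodule.finrank_sup_add_finrank_inf_eq R (Submodule.span F {x})
  rw [h1, finrank_bot, finrank_span_singleton h0] at h2
  omega

/-- the number of subspaces of dimension one more than `R` inside the `R`-invariant cone `A` -/
theorem pts_up {F V : Type} [Field F] [Finite F] [AddCommGroup V] [Module F V]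
    [FiniteDimensional F V] (r : ℕ) [Fact r.Prime] [CharP F r] (R : Submodule F V) (A : Set V)
    (hRA : ∀ x ∈ R, x ∈ A) (hs : ∀ (c : F), ∀ x ∈ A, c • x ∈ A)
    (hadd : ∀ x ∈ A, ∀ y ∈ R, x + y ∈ A) (hcard : r * Nat.card R ∣ Nat.card A) :
    Nat.card {R' : Submodule F V // R ≤ R' ∧ finrank F R' = finrank F R + 1 ∧ ∀ x ∈ R', x ∈ A} ≡
      1 [MOD r] := by
  classical
  have : Finite V := Module.finite_of_finite F
  set S : Type := {R' : Submodule F V // R ≤ R' ∧ finrank F R' = finrank F R + 1 ∧ ∀ x ∈ R', x ∈ A} with hS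
  have : Finite (Submodule F V) := Finite.of_injective (fun W : Submodule F V => (W : Set V))
    SetLike.coe_injective
  have : Finite S := by rw [hS]; infer_instance
  have : Fintype S := Fintype.ofFinite S
  have hmem : ∀ x : {x : V // x ∈ A ∧ x ∉ R}, R ≤ R ⊔ Submodule.span F {x.1} ∧
      finrank F (R ⊔ Submodule.span F {x.1} : Submodule F V) = finrank F R + 1 ∧
      ∀ y ∈ R ⊔ Submodule.span F {x.1}, y ∈ A := by
    rintro ⟨x, hxA, hxR⟩
    refine ⟨le_sup_left, Pts_finrank_sup R x hxR, ?_⟩
    intro y hy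
    obtain ⟨y1, hy1, z, hz, rfl⟩ := Submodule.mem_sup.1 hy
    obtain ⟨c, rfl⟩ := Submodule.mem_span_singleton.1 hz
    rw [add_comm]
    exact hadd _ (hs c x hxA) _ hy1
  let f : {x : V // x ∈ A ∧ x ∉ R} → S := fun x => ⟨R ⊔ Submodule.span F {x.1}, hmem x⟩
  have hfib : ∀ R' : S, Nat.card {x : {x : V // x ∈ A ∧ x ∉ R} // f x = R'} + Nat.card R =
      Nat.card F * Nat.card R := by
    rintro ⟨R', h1, h2, h3⟩
    have e : {x : {x : V // x ∈ A ∧ x ∉ R} // f x = (⟨R', h1, h2, h3⟩ : S)} ≃
        ((R' : Set V) \ (R : Set V) : Set V) :=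
      { toFun := fun x => ⟨x.1.1, by
          have h4 := congrArg Subtype.val x.2
          change R ⊔ Submodule.span F {x.1.1} = R' at h4
          refine ⟨?_, x.1.2.2⟩
          change x.1.1 ∈ R'
          have h5 : x.1.1 ∈ R ⊔ Submodule.span F {x.1.1} :=
            Submodule.mem_sup_right (Submodule.mem_span_singleton_self _)
          exact h4.le h5⟩
        invFun := fun x => ⟨⟨x.1, h3 _ x.2.1, x.2.2⟩, by
          apply Subtype.ext
          change R ⊔ Submodule.span F {x.1} = R'
          apply Submodule.eq_of_le_of_finrank_eq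
          · refine sup_le h1 ?_
            rw [Submodule.span_singleton_le_iff_mem]
            exact x.2.1
          · rw [Pts_finrank_sup R x.1 x.2.2, h2]⟩
        left_inv := fun x => rfl
        right_inv := fun x => rfl }
    rw [Nat.card_congr e]
    have h5 : ((R' : Set V) \ (R : Set V)).ncard + (R : Set V).ncard = (R' : Set V).ncard :=
      Set.ncard_sdiff_add_ncard_of_subset h1
    rw [Nat.card_coe_set_eq]
    have h6 : Nat.card R = (R : Set V).ncard := by rw [← Nat.card_coe_set_eq]; rfl
    have h7 : Nat.card R' = (R' : Set V).ncard := by rw [← Nat.card_coe_set_eq]; rfl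
    have h8 : Nat.card R' = Nat.card F * Nat.card R := by
      rw [Module.natCard_eq_pow_finrank (K := F) (V := R'),
        Module.natCard_eq_pow_finrank (K := F) (V := R), h2, pow_succ, mul_comm]
    rw [← h8, h6, h7]
    exact h5
  have hq : 1 ≤ Nat.card F := Nat.card_pos
  have htot : Nat.card {x : V // x ∈ A ∧ x ∉ R} + Nat.card R = Nat.card A := by
    have h5 : (A \ (R : Set V)).ncard + (R : Set V).ncard = A.ncard :=
      Set.ncard_sdiff_add_ncard_of_subset hRA
    have h6 : Nat.card R = (R : Set V).ncard := by rw [← Nat.card_coe_set_eq]; rfl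
    rw [← Nat.card_coe_set_eq A, ← h6, ← Nat.card_coe_set_eq] at h5
    exact h5
  have hsum : Nat.card {x : V // x ∈ A ∧ x ∉ R} =
      ∑ R' : S, Nat.card {x : {x : V // x ∈ A ∧ x ∉ R} // f x = R'} := by
    rw [← Nat.card_congr (Equiv.sigmaFiberEquiv f), Nat.card_sigma]
  have hR : 0 < Nat.card R := Nat.card_pos
  have h9 : Nat.card A + Nat.card S * Nat.card R = Nat.card R + Nat.card S * (Nat.card F * Nat.card R) := by
    have h10 : (∑ R' : S, (Nat.card {x : {x : V // x ∈ A ∧ x ∉ R} // f x = R'} + Nat.card R)) =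
      ∑ R' : S, (Nat.card F * Nat.card R) := Finset.sum_congr rfl (fun R' _ => hfib R')
    rw [Finset.sum_add_distrib, ← hsum] at h10
    simp only [Finset.sum_const, Finset.card_univ, smul_eq_mul] at h10
    rw [← Nat.card_eq_fintype_card] at h10
    linarith
  obtain ⟨m, hm⟩ := hcard
  have h11 : r * m + Nat.card S = 1 + Nat.card S * Nat.card F := by
    apply Nat.eq_of_mul_eq_mul_right hR
    rw [hm] at h9
    linarith
  have h12 : (r : ℕ) ∣ Nat.card F := by
    have h13 : (r : ℕ) ∣ Nat.card F := by
      have := Fintype.ofFinite F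
      rw [Nat.card_eq_fintype_card]
      exact (CharP.cast_eq_zero_iff F r _).1 (Nat.cast_card_eq_zero F)
    exact h13
  obtain ⟨k, hk⟩ := h12
  rw [hk] at h11
  have h14 : Nat.card S ≡ r * m + Nat.card S [MOD r] := by
    unfold Nat.ModEq
    rw [Nat.add_mod, Nat.mul_mod_right, zero_add, Nat.mod_mod]
  have h15 : 1 + Nat.card S * (r * k) ≡ 1 [MOD r] := by
    unfold Nat.ModEq
    rw [show Nat.card S * (r * k) = r * (Nat.card S * k) by ring, Nat.add_mod, Nat.mul_mod_right,
      add_zero, Nat.mod_mod]
  rw [← h11] at h15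
  exact h14.trans h15

/-- the number of subspaces between `R` and `U` of dimension one more than `R` -/
theorem pts_between {F V : Type} [Field F] [Finite F] [AddCommGroup V] [Module F V]
    [FiniteDimensional F V] (r : ℕ) [Fact r.Prime] [CharP F r] (R U : Submodule F V) (h : R < U) :
    Nat.card {R' : Submodule F V // R ≤ R' ∧ finrank F R' = finrank F R + 1 ∧ R' ≤ U} ≡
      1 [MOD r] := by
  have h1 := pts_up r R (U : Set V) (fun x hx => h.le hx) (fun c x hx => U.smul_mem c hx)
    (fun x hx y hy => U.add_mem hx (h.le hy)) ?_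
  · exact h1
  · have h2 : finrank F R < finrank F U := Submodule.finrank_lt_finrank_of_lt h
    obtain ⟨d, hd⟩ := Nat.exists_eq_add_of_lt h2
    have h3 : Nat.card (U : Set V) = Nat.card F * Nat.card R * Nat.card F ^ d := by
      have : Nat.card (U : Set V) = Nat.card U := rfl
      rw [this, Module.natCard_eq_pow_finrank (K := F) (V := U),
        Module.natCard_eq_pow_finrank (K := F) (V := R), hd]
      ring
    have h12 : (r : ℕ) ∣ Nat.card F := by
      have := Fintype.ofFinite F
      rw [Nat.card_eq_fintype_card]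
      exact (CharP.cast_eq_zero_iff F r _).1 (Nat.cast_card_eq_zero F)
    rw [h3]
    exact Dvd.dvd.mul_right (Nat.mul_dvd_mul_right h12 _) _

end Helper76.CL
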