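import Pool.Agent.Helper76.CL.Dim
import Pool.Agent.Helper76.CL.Pts

/-!
# Invariant complements and invariant chains
-/

set_option autoImplicit false

namespace Helper76.CL

open Module

/-- fixed points of an order automorphism of prime order on an invariant set of subspaces -/
theorem Cmp_fixed {F V : Type} [Field F] [AddCommGroup V] [Module F V] [Finite (Submodule F V)]
    (p : ℕ) (hp : p.Prime) (α : Submodule F V ≃o Submodule F V) (hα : ∀ W, α^[p] W = W)
    (Q : Submodule F V → Prop) (hQ : ∀ W, Q (α W) ↔ Q W)
    (hcard : ¬ p ∣ Nat.card {W : Submodule F V // Q W}) : ∃ W, α W = W ∧ Q W := by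
  have : Fact p.Prime := ⟨hp⟩
  let σ : Equiv.Perm {W : Submodule F V // Q W} := Equiv.Perm.subtypePerm α.toEquiv hQ
  have h1 : ∀ (n : ℕ) (W : {W : Submodule F V // Q W}), ((σ ^ n) W).1 = α^[n] W.1 := by
    intro n
    induction n with
    | zero => intro W; rfl
    | succ n ih =>
      intro W
      rw [pow_succ', Equiv.Perm.mul_apply, Function.iterate_succ_apply', ← ih W]
      rfl
  have h2 : σ ^ p ^ 1 = 1 := by
    apply Equiv.ext
    intro W
    apply Subtype.ext
    rw [pow_one, h1, hα]
    rfl
  have : Fintype {W : Submodule F V // Q W} := Fintype.ofFinite _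
  rw [Nat.card_eq_fintype_card] at hcard
  obtain ⟨W, hW⟩ := Equiv.Perm.exists_fixed_point_of_prime hcard h2
  exact ⟨W.1, congrArg Subtype.val hW, W.2⟩

/-- an order automorphism of prime order different from the characteristic fixes a complement of
each fixed subspace -/
theorem cmpl {F V : Type} [Field F] [Finite F] [AddCommGroup V] [Module F V]
    [FiniteDimensional F V] (r : ℕ) [Fact r.Prime] [CharP F r] (p : ℕ) (hp : p.Prime) (hpr : p ≠ r)
    (α : Submodule F V ≃o Submodule F V) (hα : ∀ W, α^[p] W = W) (W : Submodule F V)
    (hW : α W = W) : ∃ W', α W' = W' ∧ IsCompl W W' := by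
  have hfV : Finite V := Module.finite_of_finite F
  have hfSub : Finite (Submodule F V) := Finite.of_injective (fun W : Submodule F V => (W : Set V))
    SetLike.coe_injective
  apply Cmp_fixed p hp α hα (fun W' => IsCompl W W')
  · intro W'
    constructor
    · intro h
      have h1 := α.symm.isCompl h
      have h2 : α.symm W = W := by rw [OrderIso.symm_apply_eq, hW]
      rw [h2, OrderIso.symm_apply_apply] at h1
      exact h1
    · intro h
      have h1 := α.isCompl h
      rw [hW] at h1
      exact h1
  · -- the number of complements is a power of `r`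
    obtain ⟨W₀, hW₀⟩ := Submodule.exists_isCompl W
    have : Fintype F := Fintype.ofFinite F
    let f₀ := W.isComplEquivProj ⟨W₀, hW₀⟩
    let K : Submodule F (V →ₗ[F] W) :=
      { carrier := {g | ∀ x : W, g x = 0}
        zero_mem' := fun x => rfl
        add_mem' := by
          intro g h hg hh x
          rw [LinearMap.add_apply, hg, hh, add_zero]
        smul_mem' := by
          intro c g hg x
          rw [LinearMap.smul_apply, hg, smul_zero] }
    have e : {f : V →ₗ[F] W // ∀ x : W, f x = x} ≃ K :=
      { toFun := fun f => ⟨f.1 - f₀.1, fun x => by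
          rw [LinearMap.sub_apply, f.2, f₀.2, sub_self]⟩
        invFun := fun g => ⟨g.1 + f₀.1, fun x => by
          rw [LinearMap.add_apply, g.2, f₀.2, zero_add]⟩
        left_inv := fun f => by
          apply Subtype.ext
          exact sub_add_cancel _ _
        right_inv := fun g => by
          apply Subtype.ext
          exact add_sub_cancel_right _ _ }
    have h1 : Nat.card {W' : Submodule F V // IsCompl W W'} = Nat.card F ^ finrank F K := by
      rw [Nat.card_congr (W.isComplEquivProj.trans e), Module.natCard_eq_pow_finrank (K := F)]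
    obtain ⟨n, hr, hn⟩ := FiniteField.card F r
    rw [h1, Nat.card_eq_fintype_card, hn]
    intro h2
    have h3 := hp.dvd_of_dvd_pow (hp.dvd_of_dvd_pow h2)
    exact hpr ((Nat.prime_dvd_prime_iff_eq hp hr).1 h3)

/-- an order automorphism whose order is the characteristic fixes a full flag -/
theorem cmpl_chain {F V : Type} [Field F] [Finite F] [AddCommGroup V] [Module F V]
    [FiniteDimensional F V] (r : ℕ) [Fact r.Prime] [CharP F r]
    (α : Submodule F V ≃o Submodule F V) (hα : ∀ W, α^[r] W = W) (W : Submodule F V)
    (hW : α W = W) (hW1 : W ≠ ⊤) : ∃ W', α W' = W' ∧ W ≤ W' ∧ finrank F W' = finrank F W + 1 := by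
  have hfV : Finite V := Module.finite_of_finite F
  have hfSub : Finite (Submodule F V) := Finite.of_injective (fun W : Submodule F V => (W : Set V))
    SetLike.coe_injective
  have hr : r.Prime := Fact.out
  have h1 := pts_between r W ⊤ (lt_top_iff_ne_top.2 hW1)
  obtain ⟨W', h2, h3, h4, -⟩ := Cmp_fixed r hr α hα
    (fun R' => W ≤ R' ∧ finrank F R' = finrank F W + 1 ∧ R' ≤ ⊤) (by
      intro R'
      rw [finrank_orderIso α R']
      have h2 : W ≤ α R' ↔ W ≤ R' := by
        conv_lhs => rw [← hW]
        exact α.le_iff_le
      rw [h2]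
      simp) (by
      intro h
      have h2 : (1 : ℕ) ≡ 0 [MOD r] := h1.symm.trans ((Nat.modEq_zero_iff_dvd).2 h)
      have h3 := (Nat.modEq_zero_iff_dvd).1 h2
      exact hr.one_lt.ne' (Nat.dvd_one.1 h3))
  exact ⟨W', h2, h3, h4⟩

end Helper76.CL
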