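import Pool.Agent.Helper76.CL.Hyp
import Pool.Agent.Helper76.CL.Pts

/-!
# Counting singular vectors modulo the characteristic
-/

set_option autoImplicit false

namespace Helper76.CL

open Module

theorem Cnt_dvd {F V : Type} [Field F] [AddCommGroup V] [Module F V] (W : Submodule F V)
    (A : Set V) (hA : ∀ x ∈ A, ∀ w ∈ W, x + w ∈ A) : Nat.card W ∣ Nat.card A := by
  have hout : ∀ c : V ⧸ W, c ∈ W.mkQ '' A → Quotient.out c ∈ A := by
    rintro c ⟨a, ha, rfl⟩
    have h1 : W.mkQ (Quotient.out (W.mkQ a)) = W.mkQ a := Quotient.out_eq (W.mkQ a)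
    have h2 : Quotient.out (W.mkQ a) - a ∈ W := by
      rw [← Submodule.Quotient.eq]
      exact h1
    have := hA a ha _ h2
    rwa [add_sub_cancel] at this
  have e : A ≃ (W.mkQ '' A : Set (V ⧸ W)) × W :=
    { toFun := fun a => (⟨W.mkQ a, a, a.2, rfl⟩, ⟨(a : V) - Quotient.out (W.mkQ a), by
        rw [← Submodule.Quotient.eq]
        exact (Quotient.out_eq (W.mkQ (a : V))).symm⟩)
      invFun := fun p => ⟨Quotient.out (p.1 : V ⧸ W) + p.2, hA _ (hout _ p.1.2) _ p.2.2⟩
      left_inv := fun a => by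
        apply Subtype.ext
        change Quotient.out (W.mkQ (a : V)) + ((a : V) - Quotient.out (W.mkQ (a : V))) = a
        abel
      right_inv := by
        rintro ⟨⟨c, hc⟩, ⟨w, hw⟩⟩
        have h1 : W.mkQ (Quotient.out c + w) = c := by
          rw [map_add, (Submodule.Quotient.mk_eq_zero W).2 hw |> (fun h => (h : W.mkQ w = 0)),
            add_zero]
          exact Quotient.out_eq c
        refine Prod.ext (Subtype.ext h1) (Subtype.ext ?_)
        change Quotient.out c + w - Quotient.out (W.mkQ (Quotient.out c + w)) = w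
        rw [h1]
        abel }
  rw [Nat.card_congr e, Nat.card_prod]
  exact dvd_mul_left _ _

theorem Cnt_card {F V : Type} [Field F] [Finite F] [AddCommGroup V] [Module F V]
    [FiniteDimensional F V] (W : Submodule F V) : Nat.card W = Nat.card F ^ finrank F W := by
  have := Fintype.ofFinite F
  have : Finite W := Module.finite_of_finite F
  have := Fintype.ofFinite W
  rw [Nat.card_eq_fintype_card, Nat.card_eq_fintype_card]
  exact Module.card_eq_pow_finrank

theorem Cnt_char {F : Type} [Field F] [Finite F] (r : ℕ) [Fact r.Prime] [CharP F r] :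
    r ∣ Nat.card F := by
  have := Fintype.ofFinite F
  obtain ⟨n, _, hn⟩ := FiniteField.card F r
  rw [Nat.card_eq_fintype_card, hn]
  exact dvd_pow_self r n.ne_zero

/-- the functional `f x` -/
def Cnt_fun {F V : Type} [Field F] [AddCommGroup V] [Module F V] (Φ : FS F V) (x : V) :
    V →ₗ[F] F where
  toFun y := Φ.f x y
  map_add' := map_add _
  map_smul' c y := Φ.f_smul_right c x y

theorem cnt {F V : Type} [Field F] [Finite F] [AddCommGroup V] [Module F V]
    [FiniteDimensional F V] (Φ : FS F V) (r : ℕ) [Fact r.Prime] [CharP F r] (R U : Submodule F V)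
    (hR : Φ.TS R) (hRU : R ≤ U) (hUR : U ≤ Φ.perp R) (h3 : finrank F R + 3 ≤ finrank F U)
    (hs : ∃ x ∈ U, x ∉ R ∧ Φ.q x = 0) :
    r * Nat.card R ∣ Nat.card {x : V // x ∈ U ∧ Φ.q x = 0} := by
  classical
  have : Finite V := Module.finite_of_finite F
  obtain ⟨x0, hx0U, hx0R, hq0⟩ := hs
  have hf0 : Φ.f x0 x0 = 0 := Φ.q_self x0 hq0
  have hUR1 : ∀ u ∈ U, ∀ v ∈ R, Φ.f v u = 0 := fun u hu v hv => hUR hu v hv
  have hUR2 : ∀ u ∈ U, ∀ v ∈ R, Φ.f u v = 0 := fun u hu v hv =>
    Φ.f_eq_zero_symm (hUR1 u hu v hv)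
  -- splitting
  have hsplit : Nat.card {x : V // x ∈ U ∧ Φ.q x = 0} =
      Nat.card {x : V | (x ∈ U ∧ Φ.q x = 0) ∧ Φ.f x0 x = 0} +
      Nat.card {x : V | (x ∈ U ∧ Φ.q x = 0) ∧ ¬ Φ.f x0 x = 0} := by
    rw [← Nat.card_congr (Equiv.sumCompl
      (fun x : {x : V // x ∈ U ∧ Φ.q x = 0} => Φ.f x0 (x : V) = 0)), Nat.card_sum]
    congr 1
    · exact Nat.card_congr (Equiv.subtypeSubtypeEquivSubtypeInter _ (fun x => Φ.f x0 x = 0))
    · exact Nat.card_congr (Equiv.subtypeSubtypeEquivSubtypeInter _ (fun x => ¬ Φ.f x0 x = 0))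
  rw [hsplit]
  have hrR : r * Nat.card R ∣ Nat.card F ^ (finrank F R + 1) := by
    rw [Cnt_card R, pow_succ, mul_comm]
    exact mul_dvd_mul_left _ (Cnt_char r)
  apply dvd_add
  · -- the part perpendicular to `x0`
    have hlt : R < R ⊔ Submodule.span F {x0} := by
      refine lt_of_le_of_ne le_sup_left fun h => hx0R ?_
      rw [h]
      exact (le_sup_right : _ ≤ R ⊔ Submodule.span F {x0}) (Submodule.mem_span_singleton_self x0)
    have hfr := Submodule.finrank_lt_finrank_of_lt hlt
    have h1 : Nat.card (R ⊔ Submodule.span F {x0} : Submodule F V) ∣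
        Nat.card {x : V | (x ∈ U ∧ Φ.q x = 0) ∧ Φ.f x0 x = 0} := by
      apply Cnt_dvd
      rintro x ⟨⟨hxU, hqx⟩, hfx⟩ w hw
      obtain ⟨y, hy, z, hz, rfl⟩ := Submodule.mem_sup.1 hw
      obtain ⟨c, rfl⟩ := Submodule.mem_span_singleton.1 hz
      refine ⟨⟨?_, ?_⟩, ?_⟩
      · exact U.add_mem hxU (U.add_mem (hRU hy) (U.smul_mem c hx0U))
      · have e1 : Φ.q (y + c • x0) = 0 := by
          rw [Φ.q_add, hR.1 y hy, Φ.q_smul, hq0, Φ.f_smul_right, hUR1 x0 hx0U y hy]
          simp
        rw [Φ.q_add, hqx, e1, map_add, Φ.f_smul_right, hUR2 x hxU y hy, Φ.f_eq_zero_symm hfx]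
        simp
      · rw [map_add, map_add, Φ.f_smul_right, hfx, hUR2 x0 hx0U y hy, hf0]
        simp
    refine (hrR.trans ?_).trans h1
    rw [Cnt_card]
    exact pow_dvd_pow _ hfr
  · -- the other part
    set α := {x : V | (x ∈ U ∧ Φ.q x = 0) ∧ ¬ Φ.f x0 x = 0} with hα
    set β := {y : V | y ∈ U ∧ ¬ Φ.f x0 y = 0} with hβ
    have hq1 : ∀ (y : V) (t : F), Φ.q (y + t • x0) = Φ.q y + Φ.τ (t * Φ.f y x0) := by
      intro y t
      rw [Φ.q_add, Φ.q_smul, hq0, Φ.f_smul_right]
      simp
    have hf1 : ∀ (y : V) (t : F), Φ.f x0 (y + t • x0) = Φ.f x0 y := by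
      intro y t
      rw [map_add, Φ.f_smul_right, hf0]
      simp
    have e1 : (α × F) ≃ (Σ y : β, {t : F // Φ.q ((y : V) + t • x0) = 0}) :=
      { toFun := fun p => ⟨⟨(p.1 : V) + p.2 • x0, U.add_mem p.1.2.1.1 (U.smul_mem _ hx0U), by
          rw [hf1]
          exact p.1.2.2⟩, ⟨-p.2, by
          have : ((p.1 : V) + p.2 • x0) + (-p.2) • x0 = p.1 := by
            rw [neg_smul]
            abel
          change Φ.q (((p.1 : V) + p.2 • x0) + (-p.2) • x0) = 0
          rw [this]
          exact p.1.2.1.2⟩⟩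
        invFun := fun s => (⟨(s.1 : V) + (s.2 : F) • x0,
          ⟨U.add_mem s.1.2.1 (U.smul_mem _ hx0U), s.2.2⟩, by
            rw [hf1]
            exact s.1.2.2⟩, -(s.2 : F))
        left_inv := by
          rintro ⟨⟨x, hx⟩, t⟩
          refine Prod.ext (Subtype.ext ?_) ?_
          · change (x + t • x0) + (-t) • x0 = x
            rw [neg_smul]
            abel
          · exact neg_neg t
        right_inv := by
          rintro ⟨⟨y, hy⟩, ⟨t, ht⟩⟩
          have h1 : (y + t • x0) + (-t) • x0 = y := by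
            rw [neg_smul]
            abel
          refine Sigma.ext (Subtype.ext h1) ?_
          apply (Subtype.heq_iff_coe_eq ?_).2
          · exact neg_neg t
          · intro s
            change Φ.q (((y + t • x0) + (-t) • x0) + s • x0) = 0 ↔ Φ.q (y + s • x0) = 0
            rw [h1] }
    have e2 : ∀ y : β, {t : F // Φ.q ((y : V) + t • x0) = 0} ≃ Φ.τ.ker := by
      intro y
      have ha := (Φ.q_im (y : V)).choose_spec
      set a := (Φ.q_im (y : V)).choose with hadef
      have hc : Φ.f (y : V) x0 ≠ 0 := fun h => y.2.2 (Φ.f_eq_zero_symm h)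
      exact
        { toFun := fun t => ⟨a + (t : F) * Φ.f (y : V) x0, by
            have := t.2
            rw [hq1, ha, ← map_add] at this
            exact this⟩
          invFun := fun k => ⟨((k : F) - a) / Φ.f (y : V) x0, by
            rw [hq1, ha, ← map_add, div_mul_cancel₀ _ hc, add_sub_cancel]
            exact k.2⟩
          left_inv := fun t => by
            apply Subtype.ext
            change (a + (t : F) * Φ.f (y : V) x0 - a) / Φ.f (y : V) x0 = t
            rw [add_sub_cancel_left, mul_div_assoc, div_self hc, mul_one]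
          right_inv := fun k => by
            apply Subtype.ext
            change a + ((k : F) - a) / Φ.f (y : V) x0 * Φ.f (y : V) x0 = k
            rw [div_mul_cancel₀ _ hc, add_sub_cancel] }
    have hcount : Nat.card α * Nat.card F = Nat.card β * Nat.card Φ.τ.ker := by
      rw [← Nat.card_prod, Nat.card_congr e1, Nat.card_congr (Equiv.sigmaCongrRight e2),
        Nat.card_congr (Equiv.sigmaEquivProd β Φ.τ.ker), Nat.card_prod]
    -- `β` is invariant under translation by a hyperplane of `U`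
    set U' : Submodule F V := U ⊓ LinearMap.ker (Cnt_fun Φ x0) with hU'
    have hβd : Nat.card U' ∣ Nat.card β := by
      apply Cnt_dvd
      rintro y ⟨hyU, hfy⟩ w ⟨hwU, hw⟩
      refine ⟨U.add_mem hyU hwU, ?_⟩
      have : Φ.f x0 w = 0 := hw
      rw [map_add, this, add_zero]
      exact hfy
    have hdim : finrank F R + 2 ≤ finrank F U' := by
      have h1 := Submodule.finrank_sup_add_finrank_inf_eq U (LinearMap.ker (Cnt_fun Φ x0))
      have h0 := Submodule.finrank_le (U ⊔ LinearMap.ker (Cnt_fun Φ x0))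
      rw [← hU'] at h1
      have h2 := LinearMap.finrank_range_add_finrank_ker (Cnt_fun Φ x0)
      have h4 : finrank F (LinearMap.range (Cnt_fun Φ x0)) ≤ 1 := by
        have := Submodule.finrank_le (LinearMap.range (Cnt_fun Φ x0))
        rwa [finrank_self] at this
      omega
    have h5 : Nat.card F ^ (finrank F R + 2) ∣ Nat.card α * Nat.card F := by
      rw [hcount]
      refine Dvd.dvd.mul_right ?_ _
      refine dvd_trans ?_ hβd
      rw [Cnt_card]
      exact pow_dvd_pow _ hdim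
    have hFpos : 0 < Nat.card F := Nat.card_pos
    refine hrR.trans ?_
    rw [pow_succ _ (finrank F R + 1)] at h5
    exact Nat.dvd_of_mul_dvd_mul_right hFpos h5

/-- the number of totally singular subspaces between `R` and `U` of dimension one more -/
theorem cnt_pts {F V : Type} [Field F] [Finite F] [AddCommGroup V] [Module F V]
    [FiniteDimensional F V] (Φ : FS F V) (r : ℕ) [Fact r.Prime] [CharP F r] (R U : Submodule F V)
    (hR : Φ.TS R) (hRU : R ≤ U) (hUR : U ≤ Φ.perp R) (h3 : finrank F R + 3 ≤ finrank F U)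
    (hs : ∃ x ∈ U, x ∉ R ∧ Φ.q x = 0) :
    Nat.card {R' : Submodule F V // R ≤ R' ∧ finrank F R' = finrank F R + 1 ∧ Φ.TS R' ∧ R' ≤ U} ≡
      1 [MOD r] := by
  have hUR1 : ∀ u ∈ U, ∀ v ∈ R, Φ.f v u = 0 := fun u hu v hv => hUR hu v hv
  have hUR2 : ∀ u ∈ U, ∀ v ∈ R, Φ.f u v = 0 := fun u hu v hv =>
    Φ.f_eq_zero_symm (hUR1 u hu v hv)
  have h := pts_up r R {x : V | x ∈ U ∧ Φ.q x = 0}
    (fun x hx => ⟨hRU hx, hR.1 x hx⟩)
    (fun c x hx => ⟨U.smul_mem c hx.1, by rw [Φ.q_smul, hx.2, mul_zero]⟩)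
    (fun x hx y hy => ⟨U.add_mem hx.1 (hRU hy), by
      rw [Φ.q_add, hx.2, hR.1 y hy, hUR2 x hx.1 y hy]
      simp⟩)
    (cnt Φ r R U hR hRU hUR h3 hs)
  have hiff : ∀ R' : Submodule F V,
      (R ≤ R' ∧ finrank F R' = finrank F R + 1 ∧ Φ.TS R' ∧ R' ≤ U) ↔
      (R ≤ R' ∧ finrank F R' = finrank F R + 1 ∧ ∀ x ∈ R', x ∈ {x : V | x ∈ U ∧ Φ.q x = 0}) := by
    intro R'
    constructor
    · rintro ⟨h1, h2, h4, h5⟩
      exact ⟨h1, h2, fun x hx => ⟨h5 hx, h4.1 x hx⟩⟩
    · rintro ⟨h1, h2, h4⟩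
      refine ⟨h1, h2, ⟨fun x hx => (h4 x hx).2, fun x hx y hy => ?_⟩, fun x hx => (h4 x hx).1⟩
      by_cases hxR : x ∈ R
      · exact hUR1 y (h4 y hy).1 x hxR
      · have hlt : R < R ⊔ Submodule.span F {x} := by
          refine lt_of_le_of_ne le_sup_left fun h => hxR ?_
          rw [h]
          exact (le_sup_right : _ ≤ R ⊔ Submodule.span F {x})
            (Submodule.mem_span_singleton_self x)
        have hfr := Submodule.finrank_lt_finrank_of_lt hlt
        have hle : R ⊔ Submodule.span F {x} ≤ R' :=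
          sup_le h1 ((Submodule.span_singleton_le_iff_mem x R').2 hx)
        have heq := Submodule.eq_of_le_of_finrank_le hle (by omega)
        rw [← heq] at hy
        obtain ⟨z, hz, w, hw, rfl⟩ := Submodule.mem_sup.1 hy
        obtain ⟨c, rfl⟩ := Submodule.mem_span_singleton.1 hw
        rw [map_add, Φ.f_smul_right, Φ.q_self x (h4 x hx).2, hUR2 x (h4 x hx).1 z hz]
        simp
  rwa [Nat.card_congr (Equiv.subtypeEquivRight hiff)]

end Helper76.CL
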