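import Pool.Agent.Helper76.IG.Defs

/-!
# Classical groups: definitions
-/

set_option autoImplicit false

namespace Helper76.CL

open Helper76.IG Module

/-! ### linear groups modulo scalars -/

section Lin

variable (F V : Type) [Field F] [AddCommGroup V] [Module F V]

/-- the scalars in `GL(V)` -/
def Sc : Subgroup (V ≃ₗ[F] V) where
  carrier := {g | ∃ c : F, ∀ v, g v = c • v}
  one_mem' := ⟨1, fun v => by rw [one_smul]; rfl⟩
  mul_mem' := by
    rintro g h ⟨c, hc⟩ ⟨d, hd⟩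
    refine ⟨c * d, fun v => ?_⟩
    change g (h v) = _
    rw [hd, hc, smul_smul]
  inv_mem' := by
    rintro g ⟨c, hc⟩
    refine ⟨c⁻¹, fun v => ?_⟩
    change g.symm v = _
    rw [LinearEquiv.symm_apply_eq, hc, smul_smul]
    by_cases h0 : c = 0
    · have h1 : ∀ w : V, w = 0 := by
        intro w
        apply g.injective
        rw [hc, h0, zero_smul, map_zero]
      rw [h1 v, smul_zero]
    · rw [mul_inv_cancel₀ h0, one_smul]

instance : (Sc F V).Normal := by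
  constructor
  rintro g ⟨c, hc⟩ h
  refine ⟨c, fun v => ?_⟩
  change h (g (h⁻¹ v)) = _
  rw [hc, map_smul]
  congr 1
  exact h.apply_symm_apply v

/-- `PGL(V)` -/
abbrev PG : Type := (V ≃ₗ[F] V) ⧸ Sc F V

variable {F V}

/-- the commutator subgroup of the image of `I` in `PGL(V)` -/
abbrev Om (I : Subgroup (V ≃ₗ[F] V)) : Type :=
  ↥(⁅I.map (QuotientGroup.mk' (Sc F V)), I.map (QuotientGroup.mk' (Sc F V))⁆)

/-- the image of a subspace -/
def gm (g : V ≃ₗ[F] V) (W : Submodule F V) : Submodule F V := W.map (g : V →ₗ[F] V)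

theorem mem_gm {g : V ≃ₗ[F] V} {W : Submodule F V} {v : V} : v ∈ gm g W ↔ g⁻¹ v ∈ W := by
  constructor
  · rintro ⟨w, hw, rfl⟩
    have : g⁻¹ ((g : V →ₗ[F] V) w) = w := g.symm_apply_apply w
    rw [this]
    exact hw
  · intro h
    exact ⟨g⁻¹ v, h, g.apply_symm_apply v⟩

theorem apply_mem_gm {g : V ≃ₗ[F] V} {W : Submodule F V} {v : V} : g v ∈ gm g W ↔ v ∈ W := by
  rw [mem_gm]
  have : g⁻¹ (g v) = v := g.symm_apply_apply v
  rw [this]

@[simp] theorem gm_one (W : Submodule F V) : gm 1 W = W := by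
  ext v
  rw [mem_gm, inv_one]
  rfl

theorem gm_mul (g h : V ≃ₗ[F] V) (W : Submodule F V) : gm (g * h) W = gm g (gm h W) := by
  ext v
  rw [mem_gm, mem_gm, mem_gm, mul_inv_rev]
  rfl

@[simp] theorem gm_inv_gm (g : V ≃ₗ[F] V) (W : Submodule F V) : gm g⁻¹ (gm g W) = W := by
  rw [← gm_mul, inv_mul_cancel, gm_one]

@[simp] theorem gm_gm_inv (g : V ≃ₗ[F] V) (W : Submodule F V) : gm g (gm g⁻¹ W) = W := by
  rw [← gm_mul, mul_inv_cancel, gm_one]

theorem gm_le (g : V ≃ₗ[F] V) {W W' : Submodule F V} : gm g W ≤ gm g W' ↔ W ≤ W' := by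
  constructor
  · intro h v hv
    exact apply_mem_gm.1 (h (apply_mem_gm.2 hv))
  · intro h
    exact Submodule.map_mono h

theorem gm_injective (g : V ≃ₗ[F] V) : Function.Injective (gm g) := by
  intro W W' h
  rw [← gm_inv_gm g W, h, gm_inv_gm]

@[simp] theorem gm_bot (g : V ≃ₗ[F] V) : gm g (⊥ : Submodule F V) = ⊥ := Submodule.map_bot _

@[simp] theorem gm_top (g : V ≃ₗ[F] V) : gm g (⊤ : Submodule F V) = ⊤ := by
  ext v
  rw [mem_gm]
  simp

@[simp] theorem finrank_gm (g : V ≃ₗ[F] V) (W : Submodule F V) :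
    finrank F (gm g W) = finrank F W := LinearEquiv.finrank_map_eq g W

/-- a realisation of `S` as a group of linear maps modulo scalars -/
structure Rl (F V : Type) [Field F] [AddCommGroup V] [Module F V] (S : Type) [Group S] where
  T : Subgroup (V ≃ₗ[F] V)
  π : T →* S
  surj : Function.Surjective π
  ker : ∀ g : T, π g = 1 ↔ ∃ c : F, ∀ v : V, (g : V ≃ₗ[F] V) v = c • v

variable {S : Type} [Group S]

/-- a scalar map fixes all subspaces -/
theorem gm_scalar {g : V ≃ₗ[F] V} {c : F} (hc : ∀ v, g v = c • v) (W : Submodule F V) :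
    gm g W = W := by
  have h1 : ∀ (h : V ≃ₗ[F] V), (∃ d : F, ∀ v, h v = d • v) → gm h W ≤ W := by
    rintro h ⟨d, hd⟩ v hv
    have h2 : h (h⁻¹ v) = v := h.apply_symm_apply v
    rw [← h2, hd]
    exact W.smul_mem _ (mem_gm.1 hv)
  apply le_antisymm (h1 g ⟨c, hc⟩)
  have h3 := h1 g⁻¹ ((Sc F V).inv_mem ⟨c, hc⟩)
  rw [← gm_le g, gm_gm_inv] at h3
  exact h3

/-- the stabiliser in `S` of a subspace -/
def Rl.st (ρ : Rl F V S) (W : Submodule F V) : Subgroup S where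
  carrier := {s | ∃ g : ρ.T, ρ.π g = s ∧ gm (g : V ≃ₗ[F] V) W = W}
  one_mem' := ⟨1, map_one _, gm_one W⟩
  mul_mem' := by
    rintro _ _ ⟨g, rfl, hg⟩ ⟨h, rfl, hh⟩
    refine ⟨g * h, map_mul _ _ _, ?_⟩
    change gm ((g : V ≃ₗ[F] V) * (h : V ≃ₗ[F] V)) W = W
    rw [gm_mul, hh, hg]
  inv_mem' := by
    rintro _ ⟨g, rfl, hg⟩
    refine ⟨g⁻¹, map_inv _ _, ?_⟩
    change gm ((g : V ≃ₗ[F] V)⁻¹) W = W
    conv_lhs => rw [← hg]
    exact gm_inv_gm _ _

theorem Rl.mem_st (ρ : Rl F V S) {W : Submodule F V} {g : ρ.T} :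
    ρ.π g ∈ ρ.st W ↔ gm (g : V ≃ₗ[F] V) W = W := by
  constructor
  · rintro ⟨h, h1, h2⟩
    have h3 : ρ.π (g * h⁻¹) = 1 := by rw [map_mul, map_inv, h1, mul_inv_cancel]
    obtain ⟨c, hc⟩ := (ρ.ker _).1 h3
    have h4 := gm_scalar hc W
    have h5 : ((g * h⁻¹ : ρ.T) : V ≃ₗ[F] V) = (g : V ≃ₗ[F] V) * (h : V ≃ₗ[F] V)⁻¹ := rfl
    have h6 : gm (h : V ≃ₗ[F] V)⁻¹ W = W := by
      conv_lhs => rw [← h2]
      exact gm_inv_gm _ _
    rw [h5, gm_mul, h6] at h4
    exact h4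
  · intro h
    exact ⟨g, rfl, h⟩

theorem Rl.mem_st_gm (ρ : Rl F V S) {W : Submodule F V} (g : ρ.T) (s : S) :
    s ∈ ρ.st (gm (g : V ≃ₗ[F] V) W) ↔ (ρ.π g)⁻¹ * s * ρ.π g ∈ ρ.st W := by
  obtain ⟨t, rfl⟩ := ρ.surj s
  have h1 : (ρ.π g)⁻¹ * ρ.π t * ρ.π g = ρ.π (g⁻¹ * t * g) := by
    rw [map_mul, map_mul, map_inv]
  rw [h1, ρ.mem_st, ρ.mem_st]
  have h2 : ((g⁻¹ * t * g : ρ.T) : V ≃ₗ[F] V) =
    (g : V ≃ₗ[F] V)⁻¹ * (t : V ≃ₗ[F] V) * (g : V ≃ₗ[F] V) := rfl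
  rw [h2, gm_mul, gm_mul]
  constructor
  · intro h
    rw [h, gm_inv_gm]
  · intro h
    conv_rhs => rw [← h, gm_gm_inv]

end Lin

/-! ### the interface with invariable generation -/

/-- any automorphisms `φ`, `ψ` of `S` with `φ ^ p = 1` and `ψ ^ q = 1` fix conjugate nontrivial
proper subgroups -/
def Stb (p q : ℕ) (S : Type) [Group S] : Prop :=
  ∀ φ ψ : MulAut S, φ ^ p = 1 → ψ ^ q = 1 → ∃ (M : Subgroup S) (s : S), M ≠ ⊥ ∧ M ≠ ⊤ ∧
    M.map φ.toMonoidHom = M ∧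
    (M.map (MulAut.conj s).toMonoidHom).map ψ.toMonoidHom = M.map (MulAut.conj s).toMonoidHom

/-! ### formed spaces -/

/-- a reflexive form `f` with a pseudo-quadratic form `q`, covering symplectic, unitary and
orthogonal spaces -/
structure FS (F V : Type) [Field F] [AddCommGroup V] [Module F V] where
  σ : F →+* F
  σσ : ∀ a, σ (σ a) = a
  ε : F
  hε : ε = 1 ∨ ε = -1
  τ : F →+ F
  τ_symm : ∀ a, τ (ε * σ a) = τ a
  τ_ker : ∀ a, τ a = 0 → σ a = -(ε * a)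
  τ_mul : ∀ a b, τ a = 0 → τ (b * σ b * a) = 0
  f : V →+ V →+ F
  f_smul_right : ∀ (a : F) (x y : V), f x (a • y) = a * f x y
  f_smul_left : ∀ (a : F) (x y : V), f (a • x) y = σ a * f x y
  f_symm : ∀ x y, f y x = ε * σ (f x y)
  nondeg : ∀ x, (∀ y, f x y = 0) → x = 0
  q : V → F
  q_add : ∀ x y, q (x + y) = q x + q y + τ (f x y)
  q_smul : ∀ (a : F) (x : V), q (a • x) = a * σ a * q x
  q_self : ∀ x, q x = 0 → f x x = 0
  q_im : ∀ x, ∃ a, q x = τ a

section Form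

variable {F V : Type} [Field F] [AddCommGroup V] [Module F V] (Φ : FS F V)

/-- totally singular subspaces -/
def FS.TS (R : Submodule F V) : Prop := (∀ x ∈ R, Φ.q x = 0) ∧ ∀ x ∈ R, ∀ y ∈ R, Φ.f x y = 0

/-- there is a totally singular subspace of dimension `n` -/
def FS.WI (n : ℕ) : Prop := ∃ E : Submodule F V, finrank F E = n ∧ Φ.TS E

/-- every subspace of dimension at least three contains a singular vector -/
def FS.Ex3 : Prop := ∀ U : Submodule F V, 3 ≤ finrank F U → ∃ x ∈ U, x ≠ 0 ∧ Φ.q x = 0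

/-- orthogonal complement -/
def FS.perp (U : Submodule F V) : Submodule F V where
  carrier := {y | ∀ u ∈ U, Φ.f u y = 0}
  zero_mem' := fun u _ => map_zero _
  add_mem' := by
    intro x y hx hy u hu
    rw [map_add, hx u hu, hy u hu, add_zero]
  smul_mem' := by
    intro c x hx u hu
    rw [Φ.f_smul_right, hx u hu, mul_zero]

theorem FS.mem_perp {U : Submodule F V} {y : V} : y ∈ Φ.perp U ↔ ∀ u ∈ U, Φ.f u y = 0 := Iff.rfl

theorem FS.f_eq_zero_symm {x y : V} (h : Φ.f x y = 0) : Φ.f y x = 0 := by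
  rw [Φ.f_symm, h, map_zero, mul_zero]

/-- isometries -/
def FS.Isom : Subgroup (V ≃ₗ[F] V) where
  carrier := {g | (∀ x y, Φ.f (g x) (g y) = Φ.f x y) ∧ ∀ x, Φ.q (g x) = Φ.q x}
  one_mem' := ⟨fun _ _ => rfl, fun _ => rfl⟩
  mul_mem' := by
    rintro g h ⟨h1, h2⟩ ⟨h3, h4⟩
    refine ⟨fun x y => ?_, fun x => ?_⟩
    · change Φ.f (g (h x)) (g (h y)) = _
      rw [h1, h3]
    · change Φ.q (g (h x)) = _
      rw [h2, h4]
  inv_mem' := by
    rintro g ⟨h1, h2⟩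
    have h5 : ∀ x, g (g⁻¹ x) = x := g.apply_symm_apply
    refine ⟨fun x y => ?_, fun x => ?_⟩
    · rw [← h1, h5, h5]
    · rw [← h2, h5]

theorem FS.mem_Isom {g : V ≃ₗ[F] V} : g ∈ Φ.Isom ↔
    (∀ x y, Φ.f (g x) (g y) = Φ.f x y) ∧ ∀ x, Φ.q (g x) = Φ.q x := Iff.rfl

/-- the root map of a totally singular pair `e`, `w` -/
def FS.uf (e w : V) : V →ₗ[F] V where
  toFun v := v + Φ.f e v • w - (Φ.ε * Φ.f w v) • e
  map_add' x y := by
    rw [map_add, map_add, mul_add, add_smul, add_smul]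
    abel
  map_smul' c x := by
    rw [Φ.f_smul_right, Φ.f_smul_right, RingHom.id_apply, smul_sub, smul_add, smul_smul, smul_smul]
    ring_nf

/-- the transvection with centre `x` -/
def FS.tf (x : V) (c : F) : V →ₗ[F] V where
  toFun v := v + (c * Φ.f x v) • x
  map_add' y z := by
    rw [map_add, mul_add, add_smul]
    abel
  map_smul' a y := by
    rw [Φ.f_smul_right, RingHom.id_apply, smul_add, smul_smul]
    ring_nf

/-- the group generated by the root maps of totally singular pairs and the transvections with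
singular centres: `Sp(V)`, `SU(V)`, `Ω(V)` -/
def FS.El : Subgroup (V ≃ₗ[F] V) := Subgroup.closure
  ({g | ∃ e w : V, Φ.q e = 0 ∧ Φ.q w = 0 ∧ Φ.f e w = 0 ∧ ∀ v, g v = Φ.uf e w v} ∪
   {g | ∃ (x : V) (c : F), Φ.q x = 0 ∧ Φ.τ c = 0 ∧ ∀ v, g v = Φ.tf x c v})

end Form

end Helper76.CL
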