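import Pool.Agent.Helper76.CL.Defs

/-!
# Order isomorphisms of subspace lattices preserve dimensions
-/

set_option autoImplicit false

namespace Helper76.CL

open Module

theorem Dim_height {F V : Type} [Field F] [AddCommGroup V] [Module F V]
    [FiniteDimensional F V] (W : Submodule F V) : Order.height W = (finrank F W : ℕ∞) := by
  rw [← Module.length_submodule, Module.length_eq_finrank]

theorem Dim_coheight {F V : Type} [Field F] [AddCommGroup V] [Module F V]
    [FiniteDimensional F V] (W : Submodule F V) :
    Order.coheight W = (finrank F (V ⧸ W) : ℕ∞) := by
  rw [← Module.length_quotient, Module.length_eq_finrank]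

theorem finrank_orderIso {F V V' : Type} [Field F] [AddCommGroup V] [Module F V]
    [FiniteDimensional F V] [AddCommGroup V'] [Module F V'] [FiniteDimensional F V']
    (e : Submodule F V ≃o Submodule F V') (W : Submodule F V) :
    finrank F (e W) = finrank F W := by
  have h := Order.height_orderIso e W
  rw [Dim_height, Dim_height] at h
  exact_mod_cast h

/-- order reversing version -/
theorem finrank_antitone {F V : Type} [Field F] [AddCommGroup V] [Module F V]
    [FiniteDimensional F V] (δ : Submodule F V → Submodule F V)
    (hδ : ∀ W W', W ≤ W' → δ W' ≤ δ W) (hδδ : ∀ W, δ (δ W) = W) (W : Submodule F V) :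
    finrank F (δ W) + finrank F W = finrank F V := by
  let e : Submodule F V ≃o (Submodule F V)ᵒᵈ :=
    { toFun := fun W => OrderDual.toDual (δ W)
      invFun := fun W => δ (OrderDual.ofDual W)
      left_inv := fun W => hδδ W
      right_inv := fun W => hδδ W
      map_rel_iff' := by
        intro A B
        change δ B ≤ δ A ↔ A ≤ B
        constructor
        · intro h
          have := hδ _ _ h
          rwa [hδδ, hδδ] at this
        · exact hδ A B }
  have h : Order.coheight (δ W) = Order.height W := Order.height_orderIso e W
  rw [Dim_height, Dim_coheight] at h
  have h1 : finrank F (V ⧸ δ W) = finrank F W := by exact_mod_cast h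
  have h2 := Submodule.finrank_quotient_add_finrank (δ W)
  omega

end Helper76.CL
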