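import Pool.Agent.Helper76.CL.Trk

/-!
# The dual realisation
-/

set_option autoImplicit false

namespace Helper76.CL

open Module

section DuaAux

variable {F V : Type} [Field F] [AddCommGroup V] [Module F V]

/-- the contragredient map -/
def Dua_D : (V ≃ₗ[F] V) →* (Dual F V ≃ₗ[F] Dual F V) where
  toFun g := (g⁻¹ : V ≃ₗ[F] V).dualMap
  map_one' := by
    apply LinearEquiv.ext
    intro ξ
    apply LinearMap.ext
    intro v
    rfl
  map_mul' g h := by
    apply LinearEquiv.ext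
    intro ξ
    apply LinearMap.ext
    intro v
    change ξ ((g * h)⁻¹ v) = ξ (h⁻¹ (g⁻¹ v))
    rw [mul_inv_rev]
    rfl

theorem Dua_apply (g : V ≃ₗ[F] V) (ξ : Dual F V) (v : V) : Dua_D g ξ v = ξ (g⁻¹ v) := rfl

theorem Dua_sep {v w : V} (h : ∀ ξ : Dual F V, ξ v = ξ w) : v = w := by
  rw [← sub_eq_zero]
  apply (Module.forall_dual_apply_eq_zero_iff F (v - w)).1
  intro ξ
  rw [map_sub, h, sub_self]

theorem Dua_inj : Function.Injective (Dua_D (F := F) (V := V)) := by
  intro g h hgh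
  have h1 : g⁻¹ = h⁻¹ := by
    apply LinearEquiv.ext
    intro v
    apply Dua_sep (F := F)
    intro ξ
    have h2 := congrArg (fun φ : Dual F V ≃ₗ[F] Dual F V => φ ξ v) hgh
    exact h2
  exact inv_injective h1

theorem Dua_gm (g : V ≃ₗ[F] V) (W : Submodule F V) :
    gm (Dua_D g) W.dualAnnihilator = (gm g W).dualAnnihilator := by
  ext ξ
  rw [mem_gm, Submodule.mem_dualAnnihilator, Submodule.mem_dualAnnihilator, ← map_inv]
  constructor
  · intro h w hw
    have h1 := h _ (mem_gm.1 hw)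
    rw [Dua_apply, inv_inv] at h1
    have h2 : g (g⁻¹ w) = w := g.apply_symm_apply w
    rw [h2] at h1
    exact h1
  · intro h w hw
    rw [Dua_apply, inv_inv]
    exact h _ (apply_mem_gm.2 hw)

theorem Dua_scalar (g : V ≃ₗ[F] V) :
    (∃ c : F, ∀ v, g v = c • v) ↔ ∃ c : F, ∀ ξ, Dua_D g ξ = c • ξ := by
  constructor
  · rintro ⟨c, hc⟩
    obtain ⟨d, hd⟩ := (Sc F V).inv_mem (x := g) ⟨c, hc⟩
    refine ⟨d, fun ξ => ?_⟩
    apply LinearMap.ext
    intro v
    rw [Dua_apply, hd, map_smul]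
    rfl
  · rintro ⟨c, hc⟩
    have h1 : g⁻¹ ∈ Sc F V := by
      refine ⟨c, fun v => ?_⟩
      apply Dua_sep (F := F)
      intro ξ
      rw [← Dua_apply, hc, map_smul]
      rfl
    have h2 := (Sc F V).inv_mem h1
    rw [inv_inv] at h2
    exact h2

end DuaAux

theorem exists_dual {F V S : Type} [Field F] [AddCommGroup V] [Module F V]
    [FiniteDimensional F V] [Group S] (ρ : Rl F V S) (hT : TVS ρ.T) :
    ∃ ρ' : Rl F (Dual F V) S, TVS ρ'.T ∧
      ∀ W : Submodule F V, ρ'.st W.dualAnnihilator = ρ.st W := by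
  classical
  let e : ρ.T ≃* ρ.T.map (Dua_D (F := F) (V := V)) := ρ.T.equivMapOfInjective Dua_D Dua_inj
  have he : ∀ g : ρ.T, ((e g : ρ.T.map (Dua_D (F := F) (V := V))) : Dual F V ≃ₗ[F] Dual F V) =
    Dua_D (g : V ≃ₗ[F] V) := fun g => rfl
  let ρ' : Rl F (Dual F V) S :=
    { T := ρ.T.map (Dua_D (F := F) (V := V))
      π := ρ.π.comp e.symm.toMonoidHom
      surj := by
        intro s
        obtain ⟨g, hg⟩ := ρ.surj s
        refine ⟨e g, ?_⟩
        change ρ.π (e.symm (e g)) = s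
        rw [e.symm_apply_apply, hg]
      ker := by
        intro g'
        obtain ⟨g, rfl⟩ := e.surjective g'
        change ρ.π (e.symm (e g)) = 1 ↔ _
        rw [e.symm_apply_apply, ρ.ker, he, Dua_scalar] }
  have hπ : ∀ g : ρ.T, ρ'.π (e g) = ρ.π g := by
    intro g
    change ρ.π (e.symm (e g)) = _
    rw [e.symm_apply_apply]
  refine ⟨ρ', ?_, ?_⟩
  · intro φ ξ h
    obtain ⟨v, rfl⟩ := (Module.evalEquiv F V).surjective φ
    have h0 : ξ v = 0 := h
    have h1 : LinearEquiv.transvection h0 ∈ ρ.T := hT ξ v h0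
    refine ⟨(LinearEquiv.transvection h0)⁻¹, ρ.T.inv_mem h1, ?_⟩
    apply LinearEquiv.ext
    intro ζ
    apply LinearMap.ext
    intro z
    rw [Dua_apply, inv_inv]
    have e1 : LinearEquiv.transvection h0 z = z + ξ z • v := rfl
    have e2 : (LinearEquiv.transvection h) ζ = ζ + ζ v • ξ := rfl
    rw [e1, e2, map_add, map_smul, LinearMap.add_apply, LinearMap.smul_apply, smul_eq_mul,
      smul_eq_mul, mul_comm]
  · intro W
    ext s
    obtain ⟨g, rfl⟩ := ρ.surj s
    have h1 : ρ.π g ∈ ρ'.st W.dualAnnihilator ↔ ρ'.π (e g) ∈ ρ'.st W.dualAnnihilator := by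
      rw [hπ]
    rw [h1, ρ'.mem_st, ρ.mem_st, he, Dua_gm]
    constructor
    · intro h
      exact Subspace.dualAnnihilator_inj.1 h
    · intro h
      rw [h]

end Helper76.CL
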