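import Pool.Agent.Helper76.CL.Defs

/-!
# Root maps and transvections
-/

set_option autoImplicit false

namespace Helper76.CL

open Module

variable {F V : Type} [Field F] [AddCommGroup V] [Module F V] (Φ : FS F V)

theorem FS.El_εε : Φ.ε * Φ.ε = 1 := by
  rcases Φ.hε with h | h <;> rw [h] <;> ring

theorem FS.El_σε : Φ.σ Φ.ε = Φ.ε := by
  rcases Φ.hε with h | h <;> rw [h] <;> simp

theorem FS.El_uf (e w v : V) :
    Φ.uf e w v = v + Φ.f e v • w - (Φ.ε * Φ.f w v) • e := rfl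

theorem FS.El_tf (x v : V) (c : F) : Φ.tf x c v = v + (c * Φ.f x v) • x := rfl

/-- composition of root maps with the same centre -/
theorem FS.u_comp {x w w' : V} (hx : Φ.q x = 0) (hw : Φ.f x w = 0) (hw' : Φ.f x w' = 0) (v : V) :
    Φ.uf x w (Φ.uf x w' v) = Φ.uf x (w + w') v - (Φ.ε * Φ.f w w' * Φ.f x v) • x := by
  have hxx : Φ.f x x = 0 := Φ.q_self x hx
  have hwx : Φ.f w x = 0 := Φ.f_eq_zero_symm hw
  simp only [Φ.El_uf, map_add, map_sub, AddMonoidHom.add_apply, Φ.f_smul_right, hxx, hwx, hw']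
  module

theorem FS.exists_u {e w : V} (he : Φ.q e = 0) (hw : Φ.q w = 0) (hew : Φ.f e w = 0) :
    ∃ g ∈ Φ.El, ∀ v, g v = Φ.uf e w v := by
  have hww : Φ.f w w = 0 := Φ.q_self w hw
  have h0 : ∀ v, Φ.uf e 0 v = v := by
    intro v
    rw [Φ.El_uf, map_zero]
    simp
  have h1 : ∀ v, Φ.uf e w (Φ.uf e (-w) v) = v := by
    intro v
    rw [Φ.u_comp he hew (by rw [map_neg, hew, neg_zero]), add_neg_cancel, h0, map_neg, hww]
    simp
  have h2 : ∀ v, Φ.uf e (-w) (Φ.uf e w v) = v := by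
    intro v
    rw [Φ.u_comp he (by rw [map_neg, hew, neg_zero]) hew, neg_add_cancel, h0, map_neg,
      AddMonoidHom.neg_apply, hww]
    simp
  let g : V ≃ₗ[F] V :=
    { Φ.uf e w with
      invFun := Φ.uf e (-w)
      left_inv := h2
      right_inv := h1 }
  have hg : ∀ v, g v = Φ.uf e w v := fun _ => rfl
  exact ⟨g, Subgroup.subset_closure (Or.inl ⟨e, w, he, hw, hew, hg⟩), hg⟩

theorem FS.exists_t {x : V} {c : F} (hx : Φ.q x = 0) (hc : Φ.τ c = 0) :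
    ∃ g ∈ Φ.El, ∀ v, g v = Φ.tf x c v := by
  have hxx : Φ.f x x = 0 := Φ.q_self x hx
  have h1 : ∀ (d : F) (v : V), Φ.tf x d (Φ.tf x (-d) v) = v := by
    intro d v
    simp only [Φ.El_tf, map_add, Φ.f_smul_right, hxx]
    module
  let g : V ≃ₗ[F] V :=
    { Φ.tf x c with
      invFun := Φ.tf x (-c)
      left_inv := fun v => by
        have := h1 (-c) v
        rwa [neg_neg] at this
      right_inv := h1 c }
  have hg : ∀ v, g v = Φ.tf x c v := fun _ => rfl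
  exact ⟨g, Subgroup.subset_closure (Or.inr ⟨x, c, hx, hc, hg⟩), hg⟩

theorem FS.El_le_Isom : Φ.El ≤ Φ.Isom := by
  have hεε := Φ.El_εε
  have hσε := Φ.El_σε
  unfold FS.El
  rw [Subgroup.closure_le]
  rintro g (⟨e, w, he, hw, hew, hg⟩ | ⟨x, c, hx, hc, hg⟩)
  · have hee : Φ.f e e = 0 := Φ.q_self e he
    have hww : Φ.f w w = 0 := Φ.q_self w hw
    have hwe : Φ.f w e = 0 := Φ.f_eq_zero_symm hew
    refine ⟨fun x y => ?_, fun x => ?_⟩
    · rw [hg, hg, Φ.El_uf, Φ.El_uf]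
      simp only [map_add, map_sub, AddMonoidHom.add_apply, AddMonoidHom.sub_apply,
        Φ.f_smul_right, Φ.f_smul_left, hee, hww, hwe, hew, map_mul, hσε]
      rw [Φ.f_symm w x, Φ.f_symm e x]
      linear_combination (- Φ.f w y * Φ.σ (Φ.f e x)) * hεε
    · rw [hg, Φ.El_uf, sub_eq_add_neg, ← neg_smul, Φ.q_add, Φ.q_add, Φ.q_smul, Φ.q_smul, he, hw,
        Φ.f_smul_right, Φ.f_smul_right, map_add, AddMonoidHom.add_apply, Φ.f_smul_left, hwe,
        Φ.f_symm w x, Φ.f_symm e x]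
      have h1 : Φ.τ (Φ.f e x * (Φ.ε * Φ.σ (Φ.f w x))) = Φ.τ (Φ.f w x * Φ.σ (Φ.f e x)) := by
        rw [← Φ.τ_symm (Φ.f w x * Φ.σ (Φ.f e x)), map_mul Φ.σ, Φ.σσ]
        congr 1
        ring
      have h2 : -(Φ.ε * Φ.f w x) * (Φ.ε * Φ.σ (Φ.f e x) + Φ.σ (Φ.f e x) * 0) =
          -(Φ.f w x * Φ.σ (Φ.f e x)) := by
        linear_combination (- Φ.f w x * Φ.σ (Φ.f e x)) * hεε
      have h3 : Φ.τ (-(Φ.f w x * Φ.σ (Φ.f e x))) = -Φ.τ (Φ.f w x * Φ.σ (Φ.f e x)) := map_neg _ _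
      rw [h1, h2, h3]
      ring
  · have hxx : Φ.f x x = 0 := Φ.q_self x hx
    have hσc := Φ.τ_ker c hc
    refine ⟨fun v w => ?_, fun v => ?_⟩
    · rw [hg, hg, Φ.El_tf, Φ.El_tf]
      simp only [map_add, AddMonoidHom.add_apply, Φ.f_smul_right, Φ.f_smul_left, hxx, map_mul, hσc]
      rw [Φ.f_symm x v]
      ring
    · rw [hg, Φ.El_tf, Φ.q_add, Φ.q_smul, hx, Φ.f_smul_right, Φ.f_symm x v]
      have h1 := Φ.τ_mul c (Φ.f x v) hc
      have h2 : Φ.τ (c * Φ.f x v * (Φ.ε * Φ.σ (Φ.f x v))) = 0 := by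
        rcases Φ.hε with h | h
        · rw [h, show c * Φ.f x v * (1 * Φ.σ (Φ.f x v)) = Φ.f x v * Φ.σ (Φ.f x v) * c by ring, h1]
        · rw [h, show c * Φ.f x v * (-1 * Φ.σ (Φ.f x v)) = -(Φ.f x v * Φ.σ (Φ.f x v) * c) by ring,
            map_neg, h1, neg_zero]
      rw [h2]
      ring

theorem FS.conj_u {g : V ≃ₗ[F] V} (hg : g ∈ Φ.Isom) (e w v : V) :
    g (Φ.uf e w v) = Φ.uf (g e) (g w) (g v) := by
  rw [Φ.El_uf, Φ.El_uf, map_sub, map_add, map_smul, map_smul, hg.1, hg.1]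

theorem FS.conj_t {g : V ≃ₗ[F] V} (hg : g ∈ Φ.Isom) (x : V) (c : F) (v : V) :
    g (Φ.tf x c v) = Φ.tf (g x) c (g v) := by
  rw [Φ.El_tf, Φ.El_tf, map_add, map_smul, hg.1]

/-- perpendicular complements and isometries -/
theorem FS.gm_perp {g : V ≃ₗ[F] V} (hg : g ∈ Φ.Isom) (U : Submodule F V) :
    gm g (Φ.perp U) = Φ.perp (gm g U) := by
  have h5 : ∀ x, g (g⁻¹ x) = x := g.apply_symm_apply
  ext v
  rw [mem_gm, Φ.mem_perp, Φ.mem_perp]
  constructor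
  · intro h u hu
    have h1 := h _ (mem_gm.1 hu)
    rw [← hg.1, h5, h5] at h1
    exact h1
  · intro h u hu
    rw [← hg.1, h5]
    exact h _ (apply_mem_gm.2 hu)

theorem FS.gm_TS {g : V ≃ₗ[F] V} (hg : g ∈ Φ.Isom) {R : Submodule F V} (hR : Φ.TS R) :
    Φ.TS (gm g R) := by
  have h5 : ∀ x, g (g⁻¹ x) = x := g.apply_symm_apply
  refine ⟨fun x hx => ?_, fun x hx y hy => ?_⟩
  · rw [← h5 x, hg.2]
    exact hR.1 _ (mem_gm.1 hx)
  · rw [← h5 x, ← h5 y, hg.1]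
    exact hR.2 _ (mem_gm.1 hx) _ (mem_gm.1 hy)

theorem FS.TS_span {x : V} (hx : Φ.q x = 0) : Φ.TS (Submodule.span F {x}) := by
  refine ⟨fun y hy => ?_, fun y hy z hz => ?_⟩
  · obtain ⟨c, rfl⟩ := Submodule.mem_span_singleton.1 hy
    rw [Φ.q_smul, hx, mul_zero]
  · obtain ⟨c, rfl⟩ := Submodule.mem_span_singleton.1 hy
    obtain ⟨d, rfl⟩ := Submodule.mem_span_singleton.1 hz
    rw [Φ.f_smul_right, Φ.f_smul_left, Φ.q_self x hx, mul_zero, mul_zero]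

/-- the span of a totally singular subspace and a perpendicular singular vector -/
theorem FS.TS_sup {R : Submodule F V} (hR : Φ.TS R) {x : V} (hx : Φ.q x = 0)
    (hxR : ∀ y ∈ R, Φ.f y x = 0) : Φ.TS (R ⊔ Submodule.span F {x}) := by
  have hdec : ∀ v ∈ R ⊔ Submodule.span F {x}, ∃ y ∈ R, ∃ c : F, v = y + c • x := by
    intro v hv
    obtain ⟨y, hy, z, hz, rfl⟩ := Submodule.mem_sup.1 hv
    obtain ⟨c, rfl⟩ := Submodule.mem_span_singleton.1 hz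
    exact ⟨y, hy, c, rfl⟩
  refine ⟨fun v hv => ?_, fun v hv v' hv' => ?_⟩
  · obtain ⟨y, hy, c, rfl⟩ := hdec v hv
    rw [Φ.q_add, Φ.q_smul, hx, hR.1 y hy, Φ.f_smul_right, hxR y hy, mul_zero, mul_zero, map_zero]
    simp
  · obtain ⟨y, hy, c, rfl⟩ := hdec v hv
    obtain ⟨y', hy', c', rfl⟩ := hdec v' hv'
    rw [map_add, map_add, AddMonoidHom.add_apply, AddMonoidHom.add_apply, Φ.f_smul_right,
      Φ.f_smul_right, Φ.f_smul_left, Φ.f_smul_left, hR.2 y hy y' hy', hxR y hy,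
      Φ.f_eq_zero_symm (hxR y' hy'), Φ.q_self x hx]
    simp

end Helper76.CL
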