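import Pool.Agent.Helper76.CL.Tr2

/-!
# The elementary group is contained in the commutator subgroup
-/

set_option autoImplicit false

namespace Helper76.CL

open Module

variable {F V : Type} [Field F] [AddCommGroup V] [Module F V] [FiniteDimensional F V]
  (Φ : FS F V) {ν : ℕ}

section Basic

variable {F V : Type} [Field F] [AddCommGroup V] [Module F V] (Φ : FS F V)

theorem Elc_eps_mul : Φ.ε * Φ.ε = 1 := by
  rcases Φ.hε with h | h <;> rw [h] <;> norm_num

theorem Elc_eps_ne : Φ.ε ≠ 0 := by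
  intro h
  have := Elc_eps_mul Φ
  rw [h, mul_zero] at this
  exact zero_ne_one this

theorem Elc_uf_zero (w v : V) : Φ.uf 0 w v = v := by
  change v + Φ.f 0 v • w - (Φ.ε * Φ.f w v) • (0 : V) = v
  rw [map_zero, AddMonoidHom.zero_apply, zero_smul, smul_zero, add_zero, sub_zero]

theorem Elc_tf_zero (x v : V) : Φ.tf x 0 v = v := by
  change v + ((0 : F) * Φ.f x v) • x = v
  rw [zero_mul, zero_smul, add_zero]

theorem Elc_tf_zero' (c : F) (v : V) : Φ.tf 0 c v = v := by
  change v + (c * Φ.f 0 v) • (0 : V) = v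
  rw [smul_zero, add_zero]

theorem Elc_uf_smul (e : V) (c : F) (v : V) :
    Φ.uf e (c • e) v = Φ.tf e (c - Φ.ε * Φ.σ c) v := by
  change v + Φ.f e v • (c • e) - (Φ.ε * Φ.f (c • e) v) • e = v + ((c - Φ.ε * Φ.σ c) * Φ.f e v) • e
  rw [Φ.f_smul_left, smul_smul, add_sub_assoc, ← sub_smul]
  congr 2
  ring

theorem Elc_tau (c : F) : Φ.τ (c - Φ.ε * Φ.σ c) = 0 := by
  rw [map_sub, Φ.τ_symm, sub_self]

theorem Elc_eq_one {g : V ≃ₗ[F] V} (h : ∀ v, g v = v) : g = 1 :=
  LinearEquiv.ext h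

/-- reduction -/
theorem Elc_main (H : Subgroup (V ≃ₗ[F] V))
    (hu : ∀ (e w : V) (g : V ≃ₗ[F] V), Φ.q e = 0 → Φ.q w = 0 → Φ.f e w = 0 → e ≠ 0 →
      w ∉ Submodule.span F {e} → (∀ v, g v = Φ.uf e w v) → g ∈ H)
    (ht : ∀ (x : V) (c : F) (g : V ≃ₗ[F] V), Φ.q x = 0 → Φ.τ c = 0 → x ≠ 0 → c ≠ 0 →
      (∀ v, g v = Φ.tf x c v) → g ∈ H) : Φ.El ≤ H := by
  have ht' : ∀ (x : V) (c : F) (g : V ≃ₗ[F] V), Φ.q x = 0 → Φ.τ c = 0 →
      (∀ v, g v = Φ.tf x c v) → g ∈ H := by
    intro x c g hx hc hg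
    by_cases hx0 : x = 0
    · subst hx0
      rw [Elc_eq_one (g := g) (fun v => by rw [hg, Elc_tf_zero'])]
      exact H.one_mem
    by_cases hc0 : c = 0
    · subst hc0
      rw [Elc_eq_one (g := g) (fun v => by rw [hg, Elc_tf_zero])]
      exact H.one_mem
    exact ht x c g hx hc hx0 hc0 hg
  unfold FS.El
  rw [Subgroup.closure_le]
  rintro g (⟨e, w, he, hw, hew, hg⟩ | ⟨x, c, hx, hc, hg⟩)
  · by_cases he0 : e = 0
    · subst he0
      rw [Elc_eq_one (g := g) (fun v => by rw [hg, Elc_uf_zero])]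
      exact H.one_mem
    by_cases hind : w ∈ Submodule.span F {e}
    · obtain ⟨c, rfl⟩ := Submodule.mem_span_singleton.1 hind
      refine ht' e (c - Φ.ε * Φ.σ c) g he (Elc_tau Φ c) ?_
      intro v
      rw [hg, Elc_uf_smul]
    · exact hu e w g he hw hew he0 hind hg
  · exact ht' x c g hx hc hg

end Basic

omit [FiniteDimensional F V] in
theorem Elc_perp_span {U : Set V} {y : V} (h : ∀ u ∈ U, Φ.f u y = 0) :
    ∀ u ∈ Submodule.span F U, Φ.f u y = 0 := by
  intro u hu
  induction hu using Submodule.span_induction with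
  | mem x hx => exact h x hx
  | zero => rw [map_zero]; rfl
  | add x y _ _ hx hy => rw [map_add, AddMonoidHom.add_apply, hx, hy, add_zero]
  | smul a x _ hx => rw [Φ.f_smul_left, hx, mul_zero]

omit [FiniteDimensional F V] in
/-- a functional with prescribed values -/
theorem Elc_fun {U : Submodule F V} {w : V} (hw : w ∉ U) (s : F) :
    ∃ φ : V →ₗ[F] F, (∀ u ∈ U, φ u = 0) ∧ φ w = s := by
  obtain ⟨f, hf, hU⟩ := Submodule.exists_le_ker_of_notMem hw
  refine ⟨(s * (f w)⁻¹) • f, fun u hu => ?_, ?_⟩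
  · rw [LinearMap.smul_apply, LinearMap.mem_ker.1 (hU hu), smul_zero]
  · rw [LinearMap.smul_apply, smul_eq_mul, mul_assoc, inv_mul_cancel₀ hf, mul_one]

/-- a singular vector with prescribed products with `U` and `w` -/
theorem Elc_sing {S : Set V} {w : V} (hw : w ∉ Submodule.span F S) (hq : Φ.q w = 0)
    (hS : ∀ u ∈ S, Φ.f u w = 0) {s : F} (hs : s ≠ 0) :
    ∃ y, Φ.q y = 0 ∧ (∀ u ∈ S, Φ.f u y = 0) ∧ Φ.f y w = s := by
  obtain ⟨φ, hφ, hφw⟩ := Elc_fun hw s
  have hwmem : w ∈ Submodule.span F (insert w S) := Submodule.subset_span (Set.mem_insert _ _)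
  obtain ⟨y, hy, hyU⟩ := Φ.exists_sing (Submodule.span F (insert w S))
    (φ.domRestrict (Submodule.span F (insert w S))) w hwmem hq (by
      apply Elc_perp_span
      rintro u (rfl | hu)
      · exact Φ.q_self _ hq
      · exact hS u hu) (by
      rw [LinearMap.domRestrict_apply, hφw]
      exact hs)
  refine ⟨y, hy, fun u hu => ?_, ?_⟩
  · apply Φ.f_eq_zero_symm
    rw [hyU u (Submodule.subset_span (Set.mem_insert_of_mem _ hu)), LinearMap.domRestrict_apply]
    exact hφ u (Submodule.subset_span hu)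
  · rw [hyU w hwmem, LinearMap.domRestrict_apply]
    exact hφw

omit [FiniteDimensional F V] in
theorem Elc_finrank_one (x : V) : finrank F (Submodule.span F {x}) ≤ 1 := by
  have := finrank_span_finset_le_card (R := F) (M := V) {x}
  rw [Finset.coe_singleton, Finset.card_singleton] at this
  exact this

omit [FiniteDimensional F V] in
theorem Elc_finrank_two (x y : V) : finrank F (Submodule.span F {x, y}) ≤ 2 := by
  classical
  have := finrank_span_finset_le_card (R := F) (M := V) {x, y}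
  rw [Finset.coe_insert, Finset.coe_singleton] at this
  exact this.trans Finset.card_le_two

/-- the independent root maps are commutators -/
theorem Elc_uf (hν : Φ.WI ν) (h7 : 7 ≤ ν) {e w : V} {g : V ≃ₗ[F] V} (he : Φ.q e = 0)
    (hw : Φ.q w = 0) (hew : Φ.f e w = 0) (hg : ∀ v, g v = Φ.uf e w v) :
    g ∈ ⁅Φ.Isom, Φ.Isom⁆ := by
  have h2 := Elc_finrank_two (F := F) e w
  obtain ⟨w', hw'n, hw'q, hw'U⟩ := Φ.exists_perp hν (Submodule.span F {e, w})
    (Submodule.span F {e, w}) (by omega)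
  have hew' : Φ.f e w' = 0 := hw'U e (Submodule.subset_span (by simp))
  have hww' : Φ.f w w' = 0 := hw'U w (Submodule.subset_span (by simp))
  obtain ⟨y, hyq, hyS, hyw'⟩ := Elc_sing Φ (S := {e, w}) hw'n hw'q (by
    rintro u (rfl | rfl)
    · exact hew'
    · exact hww') (one_ne_zero (α := F))
  have hye : Φ.f y e = 0 := Φ.f_eq_zero_symm (hyS e (by simp))
  have hyw : Φ.f y w = 0 := Φ.f_eq_zero_symm (hyS w (by simp))
  obtain ⟨h, hh, hhv⟩ := Φ.exists_u hyq hw hyw
  obtain ⟨k, hk, hkv⟩ := Φ.exists_u he hw'q hew'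
  have hhI := Φ.El_le_Isom hh
  have hkI := Φ.El_le_Isom hk
  have hhe : h e = e := by
    rw [hhv]
    change e + Φ.f y e • w - (Φ.ε * Φ.f w e) • y = e
    rw [hye, Φ.f_eq_zero_symm hew, mul_zero, zero_smul, zero_smul, add_zero, sub_zero]
  have hhw' : h w' = w + w' := by
    rw [hhv]
    change w' + Φ.f y w' • w - (Φ.ε * Φ.f w w') • y = w + w'
    rw [hyw', hww', mul_zero, zero_smul, one_smul, sub_zero, add_comm]
  have key : h * k = g * k * h := by
    apply LinearEquiv.ext
    intro v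
    change h (k v) = g (k (h v))
    rw [hkv v, hkv (h v), hg, Φ.conj_u hhI, hhe, hhw', Φ.u_comp he hew hew', hww', mul_zero,
      zero_mul, zero_smul, sub_zero]
  have hgc : g = h * k * h⁻¹ * k⁻¹ := by
    rw [key]
    group
  rw [hgc]
  exact Subgroup.commutator_mem_commutator hhI hkI

theorem elc (hν : Φ.WI ν) (h7 : 7 ≤ ν)
    (hΛ : ∀ c, Φ.τ c = 0 → ∃ a, c = Φ.σ a - Φ.ε * a) : Φ.El ≤ ⁅Φ.Isom, Φ.Isom⁆ := by
  apply Elc_main
  · intro e w g he hw hew _ _ hg
    exact Elc_uf Φ hν h7 he hw hew hg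
  · intro x c g hx hc hx0 hc0 hg
    obtain ⟨a, ha⟩ := hΛ c hc
    have ha0 : a ≠ 0 := by
      rintro rfl
      rw [map_zero, mul_zero, sub_zero] at ha
      exact hc0 ha
    have h1 := Elc_finrank_one (F := F) x
    obtain ⟨w, hwn, hwq, hwU⟩ := Φ.exists_perp hν (Submodule.span F {x})
      (Submodule.span F {x}) (by omega)
    have hxw : Φ.f x w = 0 := hwU x (Submodule.subset_span (by simp))
    have hs : Φ.ε * Φ.σ a ≠ 0 := mul_ne_zero (Elc_eps_ne Φ) (by
      rw [map_ne_zero]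
      exact ha0)
    obtain ⟨w', hw'q, hw'S, hw'w⟩ := Elc_sing Φ (S := {x}) hwn hwq (by
      rintro u rfl
      exact hxw) hs
    have hxw' : Φ.f x w' = 0 := hw'S x rfl
    have hww' : Φ.f w w' = a := by
      rw [Φ.f_symm, hw'w, map_mul, Φ.σσ, ← mul_assoc]
      have : Φ.ε * Φ.σ Φ.ε = 1 := by
        have h3 := Elc_eps_mul Φ
        rcases Φ.hε with h | h
        · rw [h, map_one, one_mul]
        · rw [h, map_neg, map_one]; ring
      rw [this, one_mul]
    obtain ⟨h, hh, hhv⟩ := Φ.exists_u hx hwq hxw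
    obtain ⟨k, hk, hkv⟩ := Φ.exists_u hx hw'q hxw'
    have hhI := Φ.El_le_Isom hh
    have hkI := Φ.El_le_Isom hk
    have hfix : ∀ (w : V) (k : V ≃ₗ[F] V), Φ.f x w = 0 → (∀ v, k v = Φ.uf x w v) → k x = x := by
      intro w k hw hk
      rw [hk]
      change x + Φ.f x x • w - (Φ.ε * Φ.f w x) • x = x
      rw [Φ.q_self x hx, Φ.f_eq_zero_symm hw, mul_zero, zero_smul, zero_smul, add_zero, sub_zero]
    have hhx := hfix w h hxw hhv
    have hkx := hfix w' k hxw' hkv
    have key : h * k = g * k * h := by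
      apply LinearEquiv.ext
      intro v
      change h (k v) = g (k (h v))
      have h5 : Φ.f x (k (h v)) = Φ.f x v := by
        conv_lhs => rw [← hkx]
        rw [hkI.1]
        conv_lhs => rw [← hhx]
        rw [hhI.1]
      rw [hg]
      change h (k v) = k (h v) + (c * Φ.f x (k (h v))) • x
      rw [h5, hhv (k v), hkv v, hkv (h v), hhv v, Φ.u_comp hx hxw hxw', Φ.u_comp hx hxw' hxw,
        hww', hw'w, add_comm w' w, ha, sub_add]
      congr 1
      rw [← sub_smul]
      congr 1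
      have h6 := Elc_eps_mul Φ
      linear_combination (-(Φ.σ a) * Φ.f x v) * h6
    have hgc : g = h * k * h⁻¹ * k⁻¹ := by
      rw [key]
      group
    rw [hgc]
    exact Subgroup.commutator_mem_commutator hhI hkI

/-- symplectic groups in characteristic two -/
theorem elc_two [Finite F] (hν : Φ.WI ν) (h7 : 7 ≤ ν) (h2 : (2 : F) = 0) (hσ : ∀ a, Φ.σ a = a)
    (hτ : ∀ a, Φ.τ a = 0) (hq : ∀ x, Φ.q x = 0) : Φ.El ≤ ⁅Φ.Isom, Φ.Isom⁆ := by
  have hneg : (-1 : F) = 1 := by linear_combination -h2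
  have hε : Φ.ε = 1 := by
    rcases Φ.hε with h | h
    · exact h
    · rw [h, hneg]
  have hdouble : ∀ x : V, x + x = 0 := by
    intro x
    have : (2 : F) • x = 0 := by rw [h2, zero_smul]
    rw [← this, two_smul]
  have hxx : ∀ x, Φ.f x x = 0 := fun x => Φ.q_self x (hq x)
  have hI : Φ.El ≤ Φ.Isom := Φ.El_le_Isom
  -- the transvections
  have hex : ∀ v : V, ∃ t ∈ Φ.El, ∀ z, t z = Φ.tf v 1 z := fun v => Φ.exists_t (hq v) (hτ 1)
  choose t htE ht using hex
  have htz : ∀ v z, t v z = z + Φ.f v z • v := by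
    intro v z
    rw [ht]
    change z + ((1 : F) * Φ.f v z) • v = _
    rw [one_mul]
  have htI : ∀ v, t v ∈ Φ.Isom := fun v => hI (htE v)
  have hsq : ∀ v, t v * t v = 1 := by
    intro v
    apply LinearEquiv.ext
    intro z
    change t v (t v z) = z
    rw [htz, htz, map_add, Φ.f_smul_right, hxx, mul_zero, add_zero, add_assoc, hdouble, add_zero]
  have hconj : ∀ g ∈ Φ.Isom, ∀ v, g * t v * g⁻¹ = t (g v) := by
    intro g hg v
    rw [mul_inv_eq_iff_eq_mul]
    apply LinearEquiv.ext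
    intro z
    change g (t v z) = t (g v) (g z)
    rw [ht, ht, Φ.conj_t hg]
  -- the commutator subgroup of `I`
  let D := ⁅Φ.Isom, Φ.Isom⁆
  have hD : ∀ g ∈ Φ.Isom, ∀ h ∈ Φ.Isom, g * h * g⁻¹ * h⁻¹ ∈ D := by
    intro g hg h hh
    exact Subgroup.commutator_mem_commutator hg hh
  have htt : ∀ x y, x ≠ 0 → y ≠ 0 → t y * (t x)⁻¹ ∈ D := by
    intro x y hx hy
    obtain ⟨g, hg, hgx⟩ := tr_pt Φ hν h7 (hq x) (hq y) hx hy
    have h1 := hD g (hI hg) (t x) (htI x)
    rw [hconj g (hI hg), hgx] at h1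
    exact h1
  have h0 := Elc_finrank_one (F := F) (0 : V)
  obtain ⟨e, he0, -, -⟩ := Φ.exists_perp hν (Submodule.span F {(0 : V)})
    (Submodule.span F {(0 : V)}) (by omega)
  have h1 := Elc_finrank_one (F := F) e
  obtain ⟨w, hwn, -, hwU⟩ := Φ.exists_perp hν (Submodule.span F {e})
    (Submodule.span F {e}) (by omega)
  have hew : Φ.f e w = 0 := hwU e (Submodule.subset_span (by simp))
  have he : e ≠ 0 := by
    rintro rfl
    exact he0 (Submodule.zero_mem _)
  have hw : w ≠ 0 := by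
    rintro rfl
    exact hwn (Submodule.zero_mem _)
  have hew0 : e + w ≠ 0 := by
    intro h
    apply hwn
    have : w = -e := by
      rw [eq_neg_iff_add_eq_zero, add_comm]
      exact h
    rw [this]
    exact Submodule.neg_mem _ (Submodule.mem_span_singleton_self e)
  have hprod : t e * t w * t (e + w) ∈ D := by
    apply Elc_uf Φ hν h7 (hq e) (hq w) hew
    intro v
    change t e (t w (t (e + w) v)) = v + Φ.f e v • w - (Φ.ε * Φ.f w v) • e
    have hwe : Φ.f w e = 0 := Φ.f_eq_zero_symm hew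
    rw [htz (e + w) v, htz w, htz e]
    simp only [map_add, AddMonoidHom.add_apply, Φ.f_smul_right, hxx, hew, hwe, add_zero, 
      mul_zero, smul_add, add_smul, hε, one_mul]
    have h3 := hdouble (Φ.f e v • e)
    have h4 := hdouble (Φ.f w v • w)
    have h5 := hdouble (Φ.f w v • e)
    have h6 : v + (Φ.f e v • e + Φ.f w v • e + (Φ.f e v • w + Φ.f w v • w)) + Φ.f w v • w +
      Φ.f e v • e = v + Φ.f e v • w - Φ.f w v • e + (Φ.f e v • e + Φ.f e v • e) +
      (Φ.f w v • w + Φ.f w v • w) + (Φ.f w v • e + Φ.f w v • e) := by abel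
    rw [h3, h4, h5, add_zero, add_zero, add_zero] at h6
    exact h6
  have hDI : D ≤ Φ.Isom := by
    rw [Subgroup.commutator_le]
    intro g hg h hh
    exact Φ.Isom.mul_mem (Φ.Isom.mul_mem (Φ.Isom.mul_mem hg hh) (Φ.Isom.inv_mem hg))
      (Φ.Isom.inv_mem hh)
  have hte : t e ∈ D := by
    -- t e = (t e * t w * t (e+w)) * (t (e+w))⁻¹ * (t w)⁻¹
    have hn : ∀ g ∈ Φ.Isom, ∀ h ∈ D, g * h * g⁻¹ ∈ D := by
      intro g hg h hh
      have h3 : h ∈ Φ.Isom := hDI hh
      have h4 := hD g hg h h3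
      have h5 := D.mul_mem h4 hh
      rwa [inv_mul_cancel_right] at h5
    have h3 : t w * (t e)⁻¹ ∈ D := htt e w he hw
    have h4 : t (e + w) * (t e)⁻¹ ∈ D := htt e (e + w) he hew0
    have hinv : (t e)⁻¹ = t e := by
      rw [inv_eq_iff_mul_eq_one]
      exact hsq e
    -- t e * t w * t (e+w) = t e * (t w * te⁻¹) * te * (t(e+w) * te⁻¹) * te
    have h5 : t e * t w * t (e + w) = (t e * (t w * (t e)⁻¹) * (t e)⁻¹) * (t e * t e) *
        (t (e + w) * (t e)⁻¹) * t e := by
      rw [hsq, mul_one]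
      have : (t e)⁻¹ * (t e)⁻¹ = 1 := by rw [← mul_inv_rev, hsq, inv_one]
      calc t e * t w * t (e + w) = t e * t w * 1 * t (e + w) := by rw [mul_one]
        _ = t e * t w * ((t e)⁻¹ * (t e)⁻¹) * t (e + w) := by rw [this]
        _ = _ := by group
    rw [h5, hsq, mul_one] at hprod
    have h6 := hn (t e) (htI e) _ h3
    have h7 := D.mul_mem h6 h4
    have h8 := D.mul_mem (D.inv_mem h7) hprod
    rwa [inv_mul_cancel_left] at h8
  have hall : ∀ x, t x ∈ D := by
    intro x
    by_cases hx : x = 0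
    · subst hx
      have : t (0 : V) = 1 := by
        apply LinearEquiv.ext
        intro z
        rw [htz, smul_zero, add_zero]
        rfl
      rw [this]
      exact D.one_mem
    · have h3 := D.mul_mem (htt e x he hx) hte
      rwa [inv_mul_cancel_right] at h3
  apply Elc_main
  · intro e w g he hw hew _ _ hg
    exact Elc_uf Φ hν h7 he hw hew hg
  · intro x c g hx hc hx0 hc0 hg
    have hchar : ringChar F = 2 := by
      have h3 : ringChar F ∣ 2 := by
        apply ringChar.dvd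
        exact_mod_cast h2
      rcases (Nat.dvd_prime Nat.prime_two).1 h3 with h4 | h4
      · exact absurd h4 (CharP.ringChar_ne_one)
      · exact h4
    obtain ⟨l, hl⟩ := FiniteField.isSquare_of_char_two hchar c
    have : g = t (l • x) := by
      apply LinearEquiv.ext
      intro v
      rw [hg, htz]
      change v + (c * Φ.f x v) • x = _
      rw [Φ.f_smul_left, hσ, smul_smul, hl]
      congr 2
      ring
    rw [this]
    exact hall _

end Helper76.CL
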