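import Pool.Agent.Helper76.CL.Defs

/-!
# The interface with invariable generation
-/

set_option autoImplicit false

namespace Helper76.CL

open Helper76.IG

theorem Stb.congr {p q : ℕ} {S S' : Type} [Group S] [Group S'] (e : S ≃* S') (h : Stb p q S) :
    Stb p q S' := by
  intro φ ψ hφ hψ
  let c : MulAut S' → MulAut S := fun θ => (e.trans θ).trans e.symm
  have hc : ∀ θ : MulAut S', ∀ n : ℕ, ∀ s : S, ((c θ) ^ n) s = e.symm ((θ ^ n) (e s)) := by
    intro θ n
    induction n with
    | zero =>
      intro s
      rw [pow_zero, pow_zero]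
      exact (e.symm_apply_apply s).symm
    | succ n ih =>
      intro s
      rw [pow_succ, pow_succ]
      change ((c θ) ^ n) (e.symm (θ (e s))) = e.symm ((θ ^ n) (θ (e s)))
      rw [ih, e.apply_symm_apply]
  have hc1 : ∀ θ : MulAut S', ∀ n : ℕ, θ ^ n = 1 → (c θ) ^ n = 1 := by
    intro θ n hθ
    apply MulEquiv.ext
    intro s
    rw [hc, hθ]
    exact e.symm_apply_apply s
  obtain ⟨M, s, h1, h2, h3, h4⟩ := h (c φ) (c ψ) (hc1 φ p hφ) (hc1 ψ q hψ)
  have key : ∀ (θ : MulAut S') (M : Subgroup S), M.map (c θ).toMonoidHom = M →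
      (M.map e.toMonoidHom).map θ.toMonoidHom = M.map e.toMonoidHom := by
    intro θ M hM
    ext x
    constructor
    · rintro ⟨_, ⟨m, hm, rfl⟩, rfl⟩
      refine ⟨(c θ) m, ?_, e.apply_symm_apply _⟩
      have : (c θ).toMonoidHom m ∈ M.map (c θ).toMonoidHom := ⟨m, hm, rfl⟩
      rw [hM] at this
      exact this
    · rintro ⟨m, hm, rfl⟩
      rw [← hM] at hm
      obtain ⟨m', hm', rfl⟩ := hm
      exact ⟨e m', ⟨m', hm', rfl⟩, (e.apply_symm_apply _).symm⟩
  have hconj : (M.map e.toMonoidHom).map (MulAut.conj (e s)).toMonoidHom =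
      (M.map (MulAut.conj s).toMonoidHom).map e.toMonoidHom := by
    rw [Subgroup.map_map, Subgroup.map_map]
    congr 1
    ext x
    change e s * e x * (e s)⁻¹ = e (s * x * s⁻¹)
    rw [map_mul, map_mul, map_inv]
  refine ⟨M.map e.toMonoidHom, e s, ?_, ?_, key φ M h3, ?_⟩
  · intro hM
    apply h1
    exact (Subgroup.map_eq_bot_iff_of_injective M e.injective).1 hM
  · intro hM
    apply h2
    rw [eq_top_iff]
    intro x _
    have : e x ∈ M.map e.toMonoidHom := by rw [hM]; exact Subgroup.mem_top _
    obtain ⟨y, hy, hyx⟩ := this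
    rw [← e.injective hyx]
    exact hy
  · rw [hconj]
    exact key ψ _ h4

/-- a group with a simple normal subgroup that satisfies `Stb` is not invariably generated by
elements of orders `p` and `q` -/
theorem not_isIG {p q : ℕ} {G : Type} [Group G] (S : Subgroup G) [hS : S.Normal]
    [hsimple : IsSimpleGroup S] (h : Stb p q S) : ¬ IsIG p q G := by
  rintro ⟨a, b, ha, hb, hG⟩
  let φ : MulAut S := MulAut.conjNormal a
  let ψ : MulAut S := MulAut.conjNormal b
  have hφ : φ ^ p = 1 := by
    change (MulAut.conjNormal a) ^ p = 1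
    rw [← map_pow, ← ha, pow_orderOf_eq_one, map_one]
  have hψ : ψ ^ q = 1 := by
    change (MulAut.conjNormal b) ^ q = 1
    rw [← map_pow, ← hb, pow_orderOf_eq_one, map_one]
  obtain ⟨M, s, h1, h2, h3, h4⟩ := h φ ψ hφ hψ
  let c : G → Subgroup S := fun g => M.map (MulAut.conjNormal g : MulAut S).toMonoidHom
  let N : Subgroup G :=
    { carrier := {g | M.map (MulAut.conjNormal g : MulAut S).toMonoidHom = M}
      one_mem' := by
        change M.map (MulAut.conjNormal (1 : G) : MulAut S).toMonoidHom = M
        rw [map_one]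
        exact Subgroup.map_id M
      mul_mem' := by
        intro g k hg hk
        change M.map (MulAut.conjNormal (g * k) : MulAut S).toMonoidHom = M
        have : (MulAut.conjNormal (g * k) : MulAut S).toMonoidHom =
            (MulAut.conjNormal g : MulAut S).toMonoidHom.comp
              (MulAut.conjNormal k : MulAut S).toMonoidHom := by
          rw [map_mul]
          rfl
        rw [this, ← Subgroup.map_map]
        rw [hk]
        exact hg
      inv_mem' := by
        intro g hg
        change M.map (MulAut.conjNormal g⁻¹ : MulAut S).toMonoidHom = M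
        have h5 : (M.map (MulAut.conjNormal g : MulAut S).toMonoidHom).map
            (MulAut.conjNormal g⁻¹ : MulAut S).toMonoidHom = M := by
          rw [Subgroup.map_map]
          have : (MulAut.conjNormal g⁻¹ : MulAut S).toMonoidHom.comp
              (MulAut.conjNormal g : MulAut S).toMonoidHom = MonoidHom.id S := by
            ext x
            simp
          rw [this, Subgroup.map_id]
        have h6 : M.map (MulAut.conjNormal g : MulAut S).toMonoidHom = M := hg
        rwa [h6] at h5 }
  have hN : N = ⊤ := by
    refine hG.eq_top (g := 1) (k := (s : G)) ?_ ?_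
    · rw [inv_one, one_mul, mul_one]
      exact h3
    · change M.map (MulAut.conjNormal ((s : G)⁻¹ * b * s) : MulAut S).toMonoidHom = M
      have h5 : (MulAut.conjNormal ((s : G)⁻¹ * b * s) : MulAut S).toMonoidHom =
          ((MulAut.conj s)⁻¹ : MulAut S).toMonoidHom.comp
            (ψ.toMonoidHom.comp (MulAut.conj s).toMonoidHom) := by
        ext x
        simp [ψ, MulAut.conj_inv_apply, mul_assoc]
      rw [h5, ← Subgroup.map_map, ← Subgroup.map_map, h4, Subgroup.map_map]
      have : ((MulAut.conj s)⁻¹ : MulAut S).toMonoidHom.comp (MulAut.conj s).toMonoidHom =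
          MonoidHom.id S := by
        ext x
        simp [MulAut.conj_inv_apply, mul_assoc]
      rw [this, Subgroup.map_id]
  have hMn : M.Normal := by
    constructor
    intro m hm t
    have ht : (t : G) ∈ N := by rw [hN]; exact Subgroup.mem_top _
    have h5 : M.map (MulAut.conjNormal (t : G) : MulAut S).toMonoidHom = M := ht
    rw [← h5]
    refine ⟨m, hm, ?_⟩
    apply Subtype.ext
    change ((MulAut.conjNormal (t : G) m : S) : G) = _
    rw [MulAut.conjNormal_apply]
    rfl
  rcases hMn.eq_bot_or_eq_top with h5 | h5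
  · exact h1 h5
  · exact h2 h5

end Helper76.CL
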