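import Pool.Agent.Helper76.CL.Cmp

/-!
# Invariant subspaces of automorphisms of prime order
-/

set_option autoImplicit false

namespace Helper76.CL

open Module

theorem Flag_chain {F V : Type} [Field F] [Finite F] [AddCommGroup V] [Module F V]
    [FiniteDimensional F V] (r : ℕ) [Fact r.Prime] [CharP F r]
    (α : Submodule F V ≃o Submodule F V) (hα : ∀ W, α^[r] W = W) (W : Submodule F V)
    (hW : α W = W) (k : ℕ) (hk : finrank F W + k ≤ finrank F V) :
    ∃ W', α W' = W' ∧ W ≤ W' ∧ finrank F W' = finrank F W + k := by
  induction k with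
  | zero => exact ⟨W, hW, le_rfl, rfl⟩
  | succ k ih =>
    obtain ⟨W', h1, h2, h3⟩ := ih (by omega)
    have h4 : W' ≠ ⊤ := by
      intro h
      rw [h, finrank_top] at h3
      omega
    obtain ⟨W'', h5, h6, h7⟩ := cmpl_chain r α hα W' h1 h4
    exact ⟨W'', h5, h2.trans h6, by omega⟩

theorem Flag_finrank_sup_le {F V ι : Type} [Field F] [AddCommGroup V] [Module F V]
    [FiniteDimensional F V] (s : Finset ι) (f : ι → Submodule F V) :
    finrank F (s.sup f : Submodule F V) ≤ ∑ i ∈ s, finrank F (f i) := by
  classical
  induction s using Finset.induction_on with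
  | empty => simp
  | insert a s ha ih =>
    rw [Finset.sup_insert, Finset.sum_insert ha]
    exact (Submodule.finrank_add_le_finrank_add_finrank _ _).trans (by omega)

theorem Flag_fixed_sup {F V ι : Type} [Field F] [AddCommGroup V] [Module F V]
    (α : Submodule F V ≃o Submodule F V) (s : Finset ι) (f : ι → Submodule F V)
    (h : ∀ i ∈ s, α (f i) = f i) : α (s.sup f) = s.sup f := by
  rw [map_finset_sup]
  exact Finset.sup_congr rfl h

theorem flag {F V : Type} [Field F] [Finite F] [AddCommGroup V] [Module F V]
    [FiniteDimensional F V] (p : ℕ) (hp : p.Prime)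
    (α : Submodule F V ≃o Submodule F V) (hα : ∀ W, α^[p] W = W) (N : ℕ)
    (hN : 2 * N * p ^ 2 ≤ finrank F V) :
    ∃ d, 1 ≤ d ∧ d ≤ p ∧ ∀ c ≤ N, ∃ W₁ W₂ : Submodule F V, α W₁ = W₁ ∧ α W₂ = W₂ ∧ W₁ ≤ W₂ ∧
      finrank F W₁ = c * d ∧ finrank F W₂ + c * d = finrank F V := by
  classical
  obtain ⟨r, hr⟩ := CharP.exists F
  haveI : Fact r.Prime := ⟨(CharP.char_is_prime_or_zero F r).resolve_right
    (fun h => CharP.char_ne_zero_of_finite F r h)⟩
  have hp1 : 1 ≤ p := hp.one_lt.le
  have h2N : 2 * N ≤ finrank F V := by
    refine le_trans ?_ hN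
    exact Nat.le_mul_of_pos_right _ (by positivity)
  rcases eq_or_ne p r with rfl | hpr
  · refine ⟨1, le_rfl, hp1, fun c hc => ?_⟩
    obtain ⟨W₁, h1, -, h3⟩ := Flag_chain p α hα ⊥ (map_bot α) c (by rw [finrank_bot]; omega)
    rw [finrank_bot, zero_add] at h3
    obtain ⟨W₂, h4, h5, h6⟩ := Flag_chain p α hα W₁ h1 (finrank F V - 2 * c) (by omega)
    exact ⟨W₁, W₂, h1, h4, h5, by omega, by omega⟩
  haveI : Finite V := Module.finite_of_finite F
  haveI : Fintype (Submodule F V) := Fintype.ofFinite _
  -- a maximal good family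
  let good : Finset (Submodule F V) → Prop := fun s =>
    (∀ A ∈ s, α A = A ∧ 1 ≤ finrank F A ∧ finrank F A ≤ p) ∧
      finrank F (s.sup id : Submodule F V) = ∑ A ∈ s, finrank F A
  obtain ⟨s, hs, hmax⟩ : ∃ s, good s ∧ ∀ t, good t → t.card ≤ s.card := by
    have h1 : (Finset.univ.filter good).Nonempty := by
      refine ⟨∅, ?_⟩
      rw [Finset.mem_filter]
      refine ⟨Finset.mem_univ _, ?_, ?_⟩
      · intro A hA
        simp at hA
      · simp
    obtain ⟨s, h2, h3⟩ := Finset.exists_max_image (Finset.univ.filter good) Finset.card h1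
    refine ⟨s, (Finset.mem_filter.1 h2).2, fun t ht => h3 t ?_⟩
    rw [Finset.mem_filter]
    exact ⟨Finset.mem_univ _, ht⟩
  obtain ⟨hs1, hs2⟩ := hs
  have hαs : ∀ t ⊆ s, α (t.sup id) = t.sup id := fun t ht =>
    Flag_fixed_sup α t id fun A hA => (hs1 A (ht hA)).1
  have htop : s.sup id = (⊤ : Submodule F V) := by
    by_contra hne
    obtain ⟨U', hU1, hU2⟩ := cmpl r p hp hpr α hα (s.sup id) (hαs s subset_rfl)
    have hU3 : U' ≠ ⊥ := by
      rintro rfl
      exact hne (by simpa using hU2.sup_eq_top)
    obtain ⟨v, hv, hv0⟩ := Submodule.exists_mem_ne_zero_of_ne_bot hU3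
    let P : Submodule F V := Submodule.span F {v}
    have hPf : ∀ i, finrank F (α^[i] P : Submodule F V) = 1 := by
      intro i
      induction i with
      | zero => exact finrank_span_singleton hv0
      | succ i ih => rw [Function.iterate_succ_apply', finrank_orderIso, ih]
    have hPU : ∀ i, α^[i] P ≤ U' := by
      intro i
      induction i with
      | zero =>
        change Submodule.span F {v} ≤ U'
        rw [Submodule.span_singleton_le_iff_mem]
        exact hv
      | succ i ih =>
        rw [Function.iterate_succ_apply', ← hU1]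
        exact α.monotone ih
    let A : Submodule F V := (Finset.range p).sup fun i => α^[i] P
    have hA1 : α A = A := by
      change α ((Finset.range p).sup fun i => α^[i] P) = (Finset.range p).sup fun i => α^[i] P
      rw [map_finset_sup]
      apply le_antisymm
      · apply Finset.sup_le
        intro i hi
        change α (α^[i] P) ≤ _
        rw [← Function.iterate_succ_apply' α i P]
        rcases Nat.lt_or_ge (i + 1) p with h | h
        · exact Finset.le_sup (f := fun i => α^[i] P) (Finset.mem_range.2 h)
        · have h1 : i.succ = p := by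
            have := Finset.mem_range.1 hi
            omega
          rw [h1, hα]
          exact Finset.le_sup (f := fun i => α^[i] P) (Finset.mem_range.2 hp.pos)
      · apply Finset.sup_le
        intro i hi
        rcases i with _ | i
        · have h1 : α^[0] P = α (α^[p - 1] P) := by
            rw [← Function.iterate_succ_apply' α (p - 1) P]
            have : (p - 1).succ = p := by omega
            rw [this, hα]
            rfl
          rw [h1]
          exact Finset.le_sup (f := α ∘ fun i => α^[i] P)
            (Finset.mem_range.2 (show p - 1 < p by omega))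
        · rw [Function.iterate_succ_apply']
          exact Finset.le_sup (f := α ∘ fun i => α^[i] P)
            (Finset.mem_range.2 (show i < p by have := Finset.mem_range.1 hi; omega))
    have hA2 : A ≤ U' := Finset.sup_le fun i _ => hPU i
    have hA3 : finrank F A ≤ p := by
      refine (Flag_finrank_sup_le _ _).trans ?_
      simp [hPf]
    have hA4 : 1 ≤ finrank F A := by
      rw [← hPf 0]
      exact Submodule.finrank_mono (Finset.le_sup (f := fun i => α^[i] P)
        (Finset.mem_range.2 hp.pos))
    have hA5 : Disjoint (s.sup id) A := hU2.disjoint.mono_right hA2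
    have hA6 : A ∉ s := by
      intro h
      have h1 : A ≤ s.sup id := Finset.le_sup (f := id) h
      have h2 : A = ⊥ := by
        rw [eq_bot_iff]
        exact hA5 h1 le_rfl
      rw [h2, finrank_bot] at hA4
      omega
    have hg : good (insert A s) := by
      refine ⟨?_, ?_⟩
      · intro B hB
        rcases Finset.mem_insert.1 hB with rfl | hB
        · exact ⟨hA1, hA4, hA3⟩
        · exact hs1 B hB
      · rw [Finset.sup_insert, Finset.sum_insert hA6, ← hs2]
        have h1 := Submodule.finrank_sup_add_finrank_inf_eq A (s.sup id)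
        rw [disjoint_iff.1 hA5.symm, finrank_bot] at h1
        exact h1
    have h1 := hmax _ hg
    rw [Finset.card_insert_of_notMem hA6] at h1
    omega
  rw [htop, finrank_top] at hs2
  have hcard : 2 * N * p ≤ s.card := by
    have h1 : finrank F V ≤ s.card * p := by
      rw [hs2, ← smul_eq_mul]
      exact Finset.sum_le_card_nsmul _ _ _ fun A hA => (hs1 A hA).2.2
    have h2 : (2 * N * p) * p ≤ s.card * p := by
      refine le_trans (le_of_eq ?_) (hN.trans h1)
      ring
    exact Nat.le_of_mul_le_mul_right h2 hp.pos
  obtain ⟨d, hd1, hd2⟩ : ∃ d ∈ Finset.Icc 1 p, 2 * N ≤ (s.filter fun A : Submodule F V => finrank F A = d).card := by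
    apply Finset.exists_le_card_fiber_of_mul_le_card_of_maps_to
    · intro A hA
      exact Finset.mem_Icc.2 (hs1 A hA).2
    · exact Finset.nonempty_Icc.2 hp1
    · rw [Nat.card_Icc]
      refine le_trans (le_of_eq ?_) hcard
      rw [Nat.add_sub_cancel]
      ring
  have hsub : ∀ t ⊆ s, finrank F (t.sup id : Submodule F V) = ∑ A ∈ t, finrank F A := by
    intro t ht
    have h1 := Flag_finrank_sup_le t (id : Submodule F V → Submodule F V)
    have h2 := Flag_finrank_sup_le (s \ t) (id : Submodule F V → Submodule F V)
    have h3 : finrank F V ≤ finrank F (t.sup id : Submodule F V) +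
        finrank F ((s \ t).sup id : Submodule F V) := by
      rw [← finrank_top F V, ← htop, ← Finset.union_sdiff_of_subset ht, Finset.sup_union]
      rw [Finset.union_sdiff_of_subset ht]
      exact Submodule.finrank_add_le_finrank_add_finrank _ _
    have h4 := Finset.sum_sdiff (f := fun A : Submodule F V => finrank F A) ht
    simp only [id] at h1 h2
    omega
  refine ⟨d, (Finset.mem_Icc.1 hd1).1, (Finset.mem_Icc.1 hd1).2, fun c hc => ?_⟩
  obtain ⟨C, hC1, hC2⟩ := Finset.exists_subset_card_eq (show c ≤
    (s.filter fun A : Submodule F V => finrank F A = d).card by omega)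
  obtain ⟨C', hC3, hC4⟩ := Finset.exists_subset_card_eq (show c ≤
    ((s.filter fun A : Submodule F V => finrank F A = d) \ C).card by
      rw [Finset.card_sdiff_of_subset hC1]; omega)
  have hCs : C ⊆ s := hC1.trans (Finset.filter_subset _ _)
  have hCs' : C' ⊆ s := (hC3.trans Finset.sdiff_subset).trans (Finset.filter_subset _ _)
  have hsum : ∀ t ⊆ s.filter (fun A : Submodule F V => finrank F A = d), t.card = c →
      ∑ A ∈ t, finrank F A = c * d := by
    intro t ht htc
    rw [Finset.sum_congr rfl fun A hA => (Finset.mem_filter.1 (ht hA)).2, Finset.sum_const, htc,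
      smul_eq_mul]
  refine ⟨C.sup id, (s \ C').sup id, hαs C hCs, hαs _ Finset.sdiff_subset, ?_, ?_, ?_⟩
  · apply Finset.sup_mono
    intro A hA
    rw [Finset.mem_sdiff]
    refine ⟨hCs hA, fun h => ?_⟩
    exact (Finset.mem_sdiff.1 (hC3 h)).2 hA
  · rw [hsub C hCs, hsum C hC1 hC2]
  · rw [hsub _ Finset.sdiff_subset, ← hsum C' (hC3.trans Finset.sdiff_subset) hC4,
      Finset.sum_sdiff hCs']
    exact hs2.symm

end Helper76.CL
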