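import Pool.Agent.Helper76.CL.Clq
import Pool.Agent.Helper76.CL.Pts
import Pool.Agent.Helper76.CL.Dim

/-!
# Polarities have absolute subspaces
-/

set_option autoImplicit false

namespace Helper76.CL

open Module

/-- restricted count -/
theorem Pol_count {F V : Type} [Field F] [Finite F] [AddCommGroup V] [Module F V]
    [FiniteDimensional F V] (r : ℕ) [Fact r.Prime] [CharP F r] (W D U : Submodule F V)
    (hW : W < U) (hU : U ≤ D)
    (P : {R' : Submodule F V // W ≤ R' ∧ finrank F R' = finrank F W + 1 ∧ R' ≤ D} → Prop)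
    (hP : ∀ z, P z ↔ z.1 ≤ U) : Nat.card {z // P z} ≡ 1 [MOD r] := by
  rw [← (Nat.card_congr (show {R' : Submodule F V // W ≤ R' ∧ finrank F R' = finrank F W + 1 ∧
    R' ≤ U} ≃ {z // P z} from
    { toFun := fun z => ⟨⟨z.1, z.2.1, z.2.2.1, z.2.2.2.trans hU⟩, (hP _).2 z.2.2.2⟩
      invFun := fun z => ⟨z.1.1, z.1.2.1, z.1.2.2.1, (hP _).1 z.2⟩
      left_inv := fun z => rfl
      right_inv := fun z => rfl }))]
  exact pts_between r W U hW

theorem pol {F V : Type} [Field F] [Finite F] [AddCommGroup V] [Module F V]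
    [FiniteDimensional F V] (δ : Submodule F V → Submodule F V)
    (hδ : ∀ W W', W ≤ W' → δ W' ≤ δ W) (hδδ : ∀ W, δ (δ W) = W) (k : ℕ)
    (hk : 2 * k + 1 ≤ finrank F V) : ∃ W : Submodule F V, finrank F W = k ∧ W ≤ δ W := by
  obtain ⟨r, hr⟩ := CharP.exists F
  have hrp : r.Prime := CharP.char_prime_of_ne_zero F (CharP.char_ne_zero_of_finite F r)
  have : Fact r.Prime := ⟨hrp⟩
  have : Finite V := Module.finite_of_finite F
  have : Finite (Submodule F V) := Finite.of_injective (fun W : Submodule F V => (W : Set V))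
    SetLike.coe_injective
  have hdim := finrank_antitone δ hδ hδδ
  induction k with
  | zero => exact ⟨⊥, finrank_bot F V, bot_le⟩
  | succ k ih =>
    obtain ⟨W, hW1, hW2⟩ := ih (by omega)
    have hdW := hdim W
    let X : Type := {R' : Submodule F V // W ≤ R' ∧ finrank F R' = finrank F W + 1 ∧ R' ≤ δ W}
    have hlt : ∀ U : Submodule F V, W ≤ U → finrank F W < finrank F U → W < U := by
      intro U h1 h2
      refine lt_of_le_of_ne h1 ?_
      rintro rfl
      exact lt_irrefl _ h2
    have hsymm : ∀ A B : Submodule F V, A ≤ δ B → B ≤ δ A := by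
      intro A B h
      have := hδ _ _ h
      rwa [hδδ] at this
    have hX : ∀ x : X, W ≤ δ x.1 ∧ δ x.1 ≤ δ W ∧ finrank F (δ x.1) + (k + 1) = finrank F V := by
      intro x
      refine ⟨hsymm _ _ x.2.2.2, hδ _ _ x.2.1, ?_⟩
      have := hdim x.1
      rw [x.2.2.1] at this
      omega
    have h1 := clique r (X := X) (fun x y => x.1 ≤ δ y.1) 1 1 (pow_one 1)
      (fun x y h => hsymm _ _ h) (fun x y => Iff.rfl) ?_ ?_ ?_ one_pos
    · obtain ⟨x, hx⟩ := h1
      refine ⟨x.1, ?_, hx 0⟩
      rw [x.2.2.1, hW1]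
    · exact pts_between r W (δ W) (hlt _ hW2 (by omega))
    · intro x
      obtain ⟨h1, h2, h3⟩ := hX x
      refine Pol_count r W (δ W) (δ x.1) (hlt _ h1 (by omega)) h2 _ ?_
      intro z
      constructor
      · intro h
        exact hsymm _ _ (h 0)
      · intro h i
        rw [one_pow]
        exact hsymm _ _ h
    · intro x y
      obtain ⟨h1, h2, h3⟩ := hX x
      obtain ⟨h4, h5, h6⟩ := hX y
      refine Pol_count r W (δ W) (δ x.1 ⊓ δ y.1) (hlt _ (le_inf h1 h4) ?_) (inf_le_left.trans h2)
        _ ?_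
      · have h7 := Submodule.finrank_sup_add_finrank_inf_eq (δ x.1) (δ y.1)
        have h8 : finrank F (δ x.1 ⊔ δ y.1 : Submodule F V) ≤ finrank F (δ W) :=
          Submodule.finrank_mono (sup_le h2 h5)
        omega
      · intro z
        constructor
        · rintro ⟨h, h'⟩
          exact le_inf (hsymm _ _ (h 0)) (hsymm _ _ (h' 0))
        · intro h
          refine ⟨fun i => ?_, fun i => ?_⟩
          · rw [one_pow]
            exact hsymm _ _ (h.trans inf_le_left)
          · rw [one_pow]
            exact hsymm _ _ (h.trans inf_le_right)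

end Helper76.CL
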