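import Pool.Agent.Helper76.CL.Lin3
import Pool.Agent.Helper76.CL.Pol
import Pool.Agent.Helper76.CL.Flag

/-!
# Groups with all transvections
-/

set_option autoImplicit false

namespace Helper76.CL

open Module

section

variable {F V S : Type} [Field F] [AddCommGroup V] [Module F V]
    [FiniteDimensional F V] [Group S] (ρ : Rl F V S)

theorem Lkt_conj (g : ρ.T) (W : Submodule F V) :
    (ρ.st W).map (MulAut.conj (ρ.π g)).toMonoidHom = ρ.st (gm (g : V ≃ₗ[F] V) W) := by
  ext s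
  rw [ρ.mem_st_gm]
  constructor
  · rintro ⟨t, ht, rfl⟩
    change (ρ.π g)⁻¹ * (ρ.π g * t * (ρ.π g)⁻¹) * ρ.π g ∈ ρ.st W
    have : (ρ.π g)⁻¹ * (ρ.π g * t * (ρ.π g)⁻¹) * ρ.π g = t := by group
    rw [this]
    exact ht
  · intro h
    refine ⟨_, h, ?_⟩
    change ρ.π g * ((ρ.π g)⁻¹ * s * ρ.π g) * (ρ.π g)⁻¹ = s
    group

/-- stabilisers of flags are nontrivial -/
theorem Lkt_ne_bot (hT : TVS ρ.T) (hn : 2 ≤ finrank F V) {W W' : Submodule F V} (hW : W ≠ ⊥)
    (hWW' : W ≤ W') : ρ.st W ⊓ ρ.st W' ≠ ⊥ := by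
  obtain ⟨v, hv, hv0⟩ := (Submodule.ne_bot_iff W).1 hW
  have hspan : Submodule.span F {v} < ⊤ := by
    rw [lt_top_iff_ne_top]
    intro h
    have h1 := finrank_span_singleton (K := F) hv0
    rw [h, finrank_top] at h1
    omega
  obtain ⟨ξ, hξ, hξ0⟩ := Submodule.exists_le_ker_of_lt_top _ hspan
  have hξv : ξ v = 0 := hξ0 (Submodule.mem_span_singleton_self v)
  let t : ρ.T := ⟨LinearEquiv.transvection hξv, hT _ _ _⟩
  have ht : ∀ z, (t : V ≃ₗ[F] V) z = z + ξ z • v := fun z => rfl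
  have hinv : ∀ U : Submodule F V, v ∈ U → ρ.π t ∈ ρ.st U := by
    intro U hU
    rw [ρ.mem_st]
    have h1 : gm (t : V ≃ₗ[F] V) U ≤ U := by
      rintro _ ⟨z, hz, rfl⟩
      change (t : V ≃ₗ[F] V) z ∈ U
      rw [ht]
      exact U.add_mem hz (U.smul_mem _ hU)
    exact Submodule.eq_of_le_of_finrank_eq h1 (finrank_gm _ _)
  intro h
  have h1 : ρ.π t ∈ (⊥ : Subgroup S) := by
    rw [← h]
    exact ⟨hinv W hv, hinv W' (hWW' hv)⟩
  rw [Subgroup.mem_bot] at h1
  obtain ⟨c, hc⟩ := (ρ.ker t).1 h1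
  have h2 : v = c • v := by
    have := hc v
    rw [ht, hξv, zero_smul, add_zero] at this
    exact this
  have h3 : c = 1 := by
    have h4 : (1 - c) • v = 0 := by rw [sub_smul, one_smul, ← h2, sub_self]
    rcases smul_eq_zero.1 h4 with h5 | h5
    · exact (sub_eq_zero.1 h5).symm
    · exact absurd h5 hv0
  apply hξ
  ext z
  have h4 := hc z
  rw [ht, h3, one_smul, add_eq_left] at h4
  rcases smul_eq_zero.1 h4 with h5 | h5
  · exact h5
  · exact absurd h5 hv0

theorem Lkt_ne_top (hT : TVS ρ.T) {W : Submodule F V} (hW : W ≠ ⊥) (hW1 : W ≠ ⊤) :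
    ρ.st W ≠ ⊤ := by
  intro h
  obtain ⟨W', hW'⟩ := exists_isCompl W
  have h1 : W' ≠ ⊥ := by
    rintro rfl
    exact hW1 (by simpa using hW'.sup_eq_top)
  have h2 : W' ≠ ⊤ := by
    rintro rfl
    exact hW (by simpa using hW'.inf_eq_bot)
  have h3 := st_inj ρ hT h1 hW h2 hW1 (by rw [h]; exact le_top)
  rw [h3] at hW'
  exact hW (by simpa using hW'.inf_eq_bot)

/-- the two types of automorphisms -/
theorem Lkt_types [Finite F] (hT : TVS ρ.T) (hn : 4 ≤ finrank F V) (φ : S ≃* S) :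
    (∃ e : Submodule F V ≃o Submodule F V, ∀ W, (ρ.st W).map φ.toMonoidHom = ρ.st (e W)) ∨
    (∃ δ : Submodule F V ≃o (Submodule F V)ᵒᵈ,
      ∀ W, (ρ.st W).map φ.toMonoidHom = ρ.st (OrderDual.ofDual (δ W))) := by
  obtain ⟨P, hP⟩ : ∃ P : Submodule F V, finrank F P = 1 := by
    have : Nontrivial V := Module.nontrivial_of_finrank_pos (R := F) (by omega)
    obtain ⟨v, hv⟩ := exists_ne (0 : V)
    exact ⟨_, finrank_span_singleton hv⟩
  obtain ⟨W, hW, hd | hd⟩ := lin2 ρ ρ hT hT hn hn φ P hP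
  · left
    exact lin3 ρ ρ hT hT hn hn φ P W hP hd hW
  · right
    obtain ⟨ρ', hT', hρ'⟩ := exists_dual ρ hT
    have hn' : 4 ≤ finrank F (Dual F V) := by rw [Subspace.dual_finrank_eq]; exact hn
    have hd' : finrank F W.dualAnnihilator = 1 := by
      have := Subspace.finrank_add_finrank_dualAnnihilator_eq W
      omega
    obtain ⟨e, he⟩ := lin3 ρ ρ' hT hT' hn hn' φ P W.dualAnnihilator hP hd' (by rw [hρ', hW])
    let o : Submodule F (Dual F V) ≃o (Submodule F V)ᵒᵈ :=
      { toFun := fun Y => OrderDual.toDual Y.dualCoannihilator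
        invFun := fun U => (OrderDual.ofDual U).dualAnnihilator
        left_inv := fun Y => Subspace.dualCoannihilator_dualAnnihilator_eq
        right_inv := fun U => Subspace.dualAnnihilator_dualCoannihilator_eq
        map_rel_iff' := by
          intro Y Y'
          change Y'.dualCoannihilator ≤ Y.dualCoannihilator ↔ Y ≤ Y'
          constructor
          · intro h
            have h1 := Submodule.dualAnnihilator_anti h
            rwa [Subspace.dualCoannihilator_dualAnnihilator_eq,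
              Subspace.dualCoannihilator_dualAnnihilator_eq] at h1
          · intro h
            exact Submodule.dualCoannihilator_anti h }
    refine ⟨e.trans o, fun U => ?_⟩
    rw [he]
    change ρ'.st (e U) = ρ.st (e U).dualCoannihilator
    rw [← hρ', Subspace.dualCoannihilator_dualAnnihilator_eq]

theorem Lkt_pow {φ : MulAut S} {f : Submodule F V → Submodule F V}
    (hf : ∀ W, (ρ.st W).map φ.toMonoidHom = ρ.st (f W)) (n : ℕ) (W : Submodule F V) :
    (ρ.st W).map (φ ^ n).toMonoidHom = ρ.st (f^[n] W) := by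
  induction n generalizing W with
  | zero =>
    rw [pow_zero, Function.iterate_zero]
    exact Subgroup.map_id _
  | succ n ih =>
    rw [Function.iterate_succ_apply, ← ih, ← hf, Subgroup.map_map, pow_succ]
    rfl

/-- powers of a type preserving automorphism -/
theorem Lkt_fix (hT : TVS ρ.T) {φ : MulAut S} {f : Submodule F V → Submodule F V}
    (hf : ∀ W, (ρ.st W).map φ.toMonoidHom = ρ.st (f W)) {n : ℕ} (hφ : φ ^ n = 1)
    {W : Submodule F V} (hW : W ≠ ⊥) (hW1 : W ≠ ⊤) (h0 : f^[n] W ≠ ⊥) (h1 : f^[n] W ≠ ⊤) :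
    f^[n] W = W := by
  have h2 := Lkt_pow ρ hf n W
  rw [hφ] at h2
  have h3 : (ρ.st W).map (1 : MulAut S).toMonoidHom = ρ.st W := Subgroup.map_id _
  rw [h3] at h2
  exact (st_inj ρ hT hW h0 hW1 h1 h2.le).symm

theorem Lkt_iter (e : Submodule F V ≃o Submodule F V) (n : ℕ) :
    ∃ e' : Submodule F V ≃o Submodule F V, ∀ W, e' W = e^[n] W := by
  induction n with
  | zero => exact ⟨OrderIso.refl _, fun W => rfl⟩
  | succ n ih =>
    obtain ⟨e', he'⟩ := ih
    exact ⟨e.trans e', fun W => by rw [Function.iterate_succ_apply, ← he']; rfl⟩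

theorem Lkt_fix_all (hT : TVS ρ.T) {φ : MulAut S} {e : Submodule F V ≃o Submodule F V}
    (hf : ∀ W, (ρ.st W).map φ.toMonoidHom = ρ.st (e W)) {n : ℕ} (hφ : φ ^ n = 1)
    (W : Submodule F V) : e^[n] W = W := by
  obtain ⟨e', he'⟩ := Lkt_iter e n
  by_cases hW : W = ⊥
  · rw [hW, ← he', map_bot]
  by_cases hW1 : W = ⊤
  · rw [hW1, ← he', map_top]
  refine Lkt_fix ρ hT (f := e) hf hφ hW hW1 ?_ ?_
  · rw [← he']
    intro h
    exact hW ((map_eq_bot_iff e').1 h)
  · rw [← he']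
    intro h
    exact hW1 ((map_eq_top_iff e').1 h)

/-- iterates of an order reversing bijection -/
theorem Lkt_iter_rev (δ : Submodule F V ≃o (Submodule F V)ᵒᵈ) (n : ℕ) :
    (Even n → ∃ e' : Submodule F V ≃o Submodule F V,
      ∀ W, e' W = (fun U => OrderDual.ofDual (δ U))^[n] W) ∧
    (Odd n → ∃ e' : Submodule F V ≃o (Submodule F V)ᵒᵈ,
      ∀ W, OrderDual.ofDual (e' W) = (fun U => OrderDual.ofDual (δ U))^[n] W) := by
  induction n with
  | zero => exact ⟨fun _ => ⟨OrderIso.refl _, fun W => rfl⟩, fun h => absurd h (by decide)⟩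
  | succ n ih =>
    constructor
    · intro h
      have hn : Odd n := by
        rw [Nat.even_add_one, Nat.not_even_iff_odd] at h
        exact h
      obtain ⟨e', he'⟩ := ih.2 hn
      refine ⟨(δ.trans e'.dual).trans (OrderIso.dualDual _).symm, fun W => ?_⟩
      rw [Function.iterate_succ_apply, ← he']
      rfl
    · intro h
      have hn : Even n := by
        rw [Nat.odd_add_one, Nat.not_odd_iff_even] at h
        exact h
      obtain ⟨e', he'⟩ := ih.1 hn
      refine ⟨δ.trans e'.dual, fun W => ?_⟩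
      rw [Function.iterate_succ_apply, ← he']
      rfl

/-- an automorphism of prime order that reverses types has order two -/
theorem Lkt_rev (hT : TVS ρ.T) (hn : 3 ≤ finrank F V) {φ : MulAut S}
    {δ : Submodule F V ≃o (Submodule F V)ᵒᵈ}
    (hf : ∀ W, (ρ.st W).map φ.toMonoidHom = ρ.st (OrderDual.ofDual (δ W))) {p : ℕ}
    (hp : p.Prime) (hφ : φ ^ p = 1) :
    p = 2 ∧ ∀ W, OrderDual.ofDual (δ (OrderDual.ofDual (δ W))) = W := by
  set d : Submodule F V → Submodule F V := fun U => OrderDual.ofDual (δ U) with hd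
  have hp2 : p = 2 := by
    rcases hp.eq_two_or_odd' with h | h
    · exact h
    · exfalso
      obtain ⟨e', he'⟩ := (Lkt_iter_rev δ p).2 h
      have hfix : ∀ W : Submodule F V, W ≠ ⊥ → W ≠ ⊤ → OrderDual.ofDual (e' W) = W := by
        intro W hW hW1
        rw [he']
        refine Lkt_fix ρ hT (f := d) hf hφ hW hW1 ?_ ?_
        · rw [← he']
          intro h2
          apply hW1
          have h3 : e' W = ⊤ := congrArg OrderDual.toDual h2
          exact (map_eq_top_iff e').1 h3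
        · rw [← he']
          intro h2
          apply hW
          have h3 : e' W = ⊥ := congrArg OrderDual.toDual h2
          exact (map_eq_bot_iff e').1 h3
      -- a point inside a plane
      have hnt : Nontrivial V := Module.nontrivial_of_finrank_pos (R := F) (by omega)
      obtain ⟨v, hv⟩ := exists_ne (0 : V)
      have hP : finrank F (Submodule.span F {v}) = 1 := finrank_span_singleton hv
      obtain ⟨w, hw⟩ : ∃ w, w ∉ Submodule.span F {v} := by
        by_contra hcon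
        push Not at hcon
        have : Submodule.span F {v} = ⊤ := by
          rw [eq_top_iff]
          intro z _
          exact hcon z
        rw [this, finrank_top] at hP
        omega
      have hle : Submodule.span F {v} ≤ Submodule.span F {v} ⊔ Submodule.span F {w} := le_sup_left
      have hL : Submodule.span F {v} ⊔ Submodule.span F {w} ≠ ⊤ := by
        intro h2
        have h3 := Submodule.finrank_add_le_finrank_add_finrank (Submodule.span F {v})
          (Submodule.span F {w})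
        have h4 := finrank_span_le_card (R := F) ({w} : Set V)
        rw [h2, finrank_top, hP] at h3
        simp only [Set.toFinset_singleton, Finset.card_singleton] at h4
        omega
      have hP0 : Submodule.span F {v} ≠ ⊥ := by
        intro h2
        rw [h2, finrank_bot] at hP
        omega
      have hP1 : Submodule.span F {v} ≠ ⊤ := by
        intro h2
        rw [h2, finrank_top] at hP
        omega
      have hL0 : Submodule.span F {v} ⊔ Submodule.span F {w} ≠ ⊥ := by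
        intro h2
        rw [h2, le_bot_iff] at hle
        exact hP0 hle
      have h5 : e' (Submodule.span F {v}) ≤ e' (Submodule.span F {v} ⊔ Submodule.span F {w}) :=
        e'.monotone hle
      have h6 : OrderDual.ofDual (e' (Submodule.span F {v} ⊔ Submodule.span F {w})) ≤
        OrderDual.ofDual (e' (Submodule.span F {v})) := h5
      rw [hfix _ hP0 hP1, hfix _ hL0 hL] at h6
      exact hw (h6 (Submodule.mem_sup_right (Submodule.mem_span_singleton_self w)))
  refine ⟨hp2, ?_⟩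
  subst hp2
  intro W
  obtain ⟨e', he'⟩ := (Lkt_iter_rev δ 2).1 even_two
  have h2 : ∀ U, OrderDual.ofDual (δ (OrderDual.ofDual (δ U))) = e' U := by
    intro U
    rw [he']
    rfl
  rw [h2]
  by_cases hW : W = ⊥
  · rw [hW, map_bot]
  by_cases hW1 : W = ⊤
  · rw [hW1, map_top]
  rw [he']
  refine Lkt_fix ρ hT (f := d) hf hφ hW hW1 ?_ ?_
  · rw [← he']
    intro h
    exact hW ((map_eq_bot_iff e').1 h)
  · rw [← he']
    intro h
    exact hW1 ((map_eq_top_iff e').1 h)

/-- the conclusion of `Stb` for two automorphisms -/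
def Lkt_P {S : Type} [Group S] (φ ψ : MulAut S) : Prop :=
  ∃ (M : Subgroup S) (s : S), M ≠ ⊥ ∧ M ≠ ⊤ ∧ M.map φ.toMonoidHom = M ∧
    (M.map (MulAut.conj s).toMonoidHom).map ψ.toMonoidHom = M.map (MulAut.conj s).toMonoidHom

theorem Lkt_P_symm {S : Type} [Group S] {φ ψ : MulAut S} (h : Lkt_P φ ψ) : Lkt_P ψ φ := by
  obtain ⟨M, s, h1, h2, h3, h4⟩ := h
  have hc : (M.map (MulAut.conj s).toMonoidHom).map (MulAut.conj s⁻¹).toMonoidHom = M := by
    rw [Subgroup.map_map]
    have : (MulAut.conj s⁻¹).toMonoidHom.comp (MulAut.conj s).toMonoidHom = MonoidHom.id S := by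
      ext x
      simp [mul_assoc]
    rw [this, Subgroup.map_id]
  refine ⟨M.map (MulAut.conj s).toMonoidHom, s⁻¹, ?_, ?_, h4, ?_⟩
  · intro h
    exact h1 ((Subgroup.map_eq_bot_iff_of_injective M (MulAut.conj s).injective).1 h)
  · intro h
    rw [h, ← MonoidHom.range_eq_map, MonoidHom.range_eq_top.2 (MulAut.conj s⁻¹).surjective] at hc
    exact h2 hc.symm
  · rw [hc, h3]

/-- one automorphism reverses types, the other one does not -/
theorem Lkt_mixed [Finite F] (hT : TVS ρ.T) {φ ψ : MulAut S}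
    {δ : Submodule F V ≃o (Submodule F V)ᵒᵈ}
    (hφ : ∀ W, (ρ.st W).map φ.toMonoidHom = ρ.st (OrderDual.ofDual (δ W)))
    (hδδ : ∀ W, OrderDual.ofDual (δ (OrderDual.ofDual (δ W))) = W)
    {e : Submodule F V ≃o Submodule F V}
    (hψ : ∀ W, (ρ.st W).map ψ.toMonoidHom = ρ.st (e W)) {q : ℕ} (hq : q.Prime)
    (hψq : ψ ^ q = 1) (hn : 2 * q ^ 2 + 4 ≤ finrank F V) : Lkt_P φ ψ := by
  obtain ⟨d, hd1, hdq, hfl⟩ := flag q hq e (Lkt_fix_all ρ hT hψ hψq) 1 (by omega)
  obtain ⟨W₁, W₂, hW₁, hW₂, hle, hf1, hf2⟩ := hfl 1 le_rfl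
  rw [one_mul] at hf1 hf2
  have hq2 : q ≤ q ^ 2 := by
    rw [pow_two]
    exact Nat.le_mul_of_pos_left q hq.pos
  obtain ⟨W, hW, hWδ⟩ := pol (fun U : Submodule F V => OrderDual.ofDual (δ U))
    (fun U U' h => δ.monotone h) hδδ d (by omega)
  have hWδ' : W ≤ OrderDual.ofDual (δ W) := hWδ
  have hf3 := finrank_antitone (fun U : Submodule F V => OrderDual.ofDual (δ U))
    (fun U U' h => δ.monotone h) hδδ W
  have hf4 : finrank F ↥(OrderDual.ofDual (δ W) : Submodule F V) + finrank F W = finrank F V := hf3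
  obtain ⟨g, hg, hg1, hg2⟩ := trflag hT hWδ' hle (by rw [hW, hf1]) (by omega)
  have hW0 : W ≠ ⊥ := by
    rintro rfl
    rw [finrank_bot] at hW
    omega
  have hWtop : W ≠ ⊤ := by
    rintro rfl
    rw [finrank_top] at hW
    omega
  refine ⟨ρ.st W ⊓ ρ.st (OrderDual.ofDual (δ W)), ρ.π ⟨g, hg⟩, Lkt_ne_bot ρ hT (by omega) hW0 hWδ',
    ?_, ?_, ?_⟩
  · intro h
    exact Lkt_ne_top ρ hT hW0 hWtop (eq_top_iff.2 (h ▸ inf_le_left))
  · rw [Subgroup.map_inf_eq _ _ _ φ.injective, hφ, hφ, hδδ, inf_comm]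
  · rw [Subgroup.map_inf_eq _ _ _ (MulAut.conj _).injective, Lkt_conj, Lkt_conj,
      Subgroup.map_inf_eq _ _ _ ψ.injective, hψ, hψ]
    have h1 : gm ((⟨g, hg⟩ : ρ.T) : V ≃ₗ[F] V) W = W₁ := hg1
    have h2 : gm ((⟨g, hg⟩ : ρ.T) : V ≃ₗ[F] V) (OrderDual.ofDual (δ W)) = W₂ := hg2
    rw [h1, h2, hW₁, hW₂]

end

theorem lkt {F V S : Type} [Field F] [Finite F] [AddCommGroup V] [Module F V]
    [FiniteDimensional F V] [Group S] (ρ : Rl F V S) (hT : TVS ρ.T) {p q : ℕ} (hp : p.Prime)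
    (hq : q.Prime) (hpq : p ≠ q) (hn : 2 * p ^ 2 * q ^ 2 + 4 ≤ finrank F V) : Stb p q S := by
  intro φ ψ hφp hψq
  have hp2 : 1 ≤ p ^ 2 := Nat.one_le_pow _ _ hp.pos
  have hq2 : 1 ≤ q ^ 2 := Nat.one_le_pow _ _ hq.pos
  have hpp : p ≤ p ^ 2 := by
    rw [pow_two]
    exact Nat.le_mul_of_pos_left p hp.pos
  have hqq : q ≤ q ^ 2 := by
    rw [pow_two]
    exact Nat.le_mul_of_pos_left q hq.pos
  have hb1 : 2 * p ^ 2 ≤ 2 * p ^ 2 * q ^ 2 := Nat.le_mul_of_pos_right _ (by omega)
  have hb2 : 2 * q ^ 2 ≤ 2 * p ^ 2 * q ^ 2 := by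
    have : 2 * p ^ 2 * q ^ 2 = 2 * q ^ 2 * p ^ 2 := by ring
    rw [this]
    exact Nat.le_mul_of_pos_right _ (by omega)
  have hn4 : 4 ≤ finrank F V := by omega
  rcases Lkt_types ρ hT hn4 φ with ⟨e, he⟩ | ⟨δ, hδ⟩
  · rcases Lkt_types ρ hT hn4 ψ with ⟨e', he'⟩ | ⟨δ', hδ'⟩
    · obtain ⟨d, hd1, hdp, hfl⟩ := flag p hp e (Lkt_fix_all ρ hT he hφp) q (by nlinarith)
      obtain ⟨d', hd1', hdq, hfl'⟩ := flag q hq e' (Lkt_fix_all ρ hT he' hψq) p (by nlinarith)
      obtain ⟨W, -, hW, -, -, hWd, -⟩ := hfl d' hdq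
      obtain ⟨W', -, hW', -, -, hWd', -⟩ := hfl' d hdp
      obtain ⟨g, hg, hgW⟩ := trk hT (W := W) (W' := W') (by rw [hWd, hWd', mul_comm])
      have hpos : 0 < d' * d := Nat.mul_pos hd1' hd1
      have hlt : d' * d < finrank F V := by
        have h1 : d' * d ≤ q * p := Nat.mul_le_mul hdq hdp
        have h2 : q * p ≤ q ^ 2 * p ^ 2 := Nat.mul_le_mul hqq hpp
        nlinarith
      have hW0 : W ≠ ⊥ := by
        rintro rfl
        rw [finrank_bot] at hWd
        omega
      have hW1 : W ≠ ⊤ := by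
        rintro rfl
        rw [finrank_top] at hWd
        omega
      refine ⟨ρ.st W, ρ.π ⟨g, hg⟩, ?_, Lkt_ne_top ρ hT hW0 hW1, ?_, ?_⟩
      · have := Lkt_ne_bot ρ hT (by omega) hW0 (le_refl W)
        rwa [inf_idem] at this
      · rw [he, hW]
      · rw [Lkt_conj, he']
        have h1 : gm ((⟨g, hg⟩ : ρ.T) : V ≃ₗ[F] V) W = W' := hgW
        rw [h1, hW']
    · obtain ⟨hq2', hδδ⟩ := Lkt_rev ρ hT (by omega) hδ' hq hψq
      exact Lkt_P_symm (Lkt_mixed ρ hT hδ' hδδ he hp hφp (by omega))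
  · obtain ⟨hp2', hδδ⟩ := Lkt_rev ρ hT (by omega) hδ hp hφp
    rcases Lkt_types ρ hT hn4 ψ with ⟨e', he'⟩ | ⟨δ', hδ'⟩
    · exact Lkt_mixed ρ hT hδ hδδ he' hq hψq (by omega)
    · obtain ⟨hq2', -⟩ := Lkt_rev ρ hT (by omega) hδ' hq hψq
      exact absurd (hp2'.trans hq2'.symm) hpq

end Helper76.CL
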