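import Pool.Agent.Helper76.CL.Defs

/-!
# Realisations of the commutator groups
-/

set_option autoImplicit false

namespace Helper76.CL

open Module

theorem omr {F V : Type} [Field F] [AddCommGroup V] [Module F V] (I : Subgroup (V ≃ₗ[F] V)) :
    ∃ ρ : Rl F V (Om I), ρ.T = ⁅I, I⁆ := by
  have hmap : (⁅I, I⁆ : Subgroup (V ≃ₗ[F] V)).map (QuotientGroup.mk' (Sc F V)) =
      ⁅I.map (QuotientGroup.mk' (Sc F V)), I.map (QuotientGroup.mk' (Sc F V))⁆ :=
    Subgroup.map_commutator _ _ _
  refine ⟨{ T := ⁅I, I⁆
            π :=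
              { toFun := fun g => ⟨QuotientGroup.mk' (Sc F V) g.1, by
                  rw [← hmap]
                  exact Subgroup.mem_map_of_mem _ g.2⟩
                map_one' := Subtype.ext (map_one (QuotientGroup.mk' (Sc F V)))
                map_mul' := fun a b => Subtype.ext (map_mul (QuotientGroup.mk' (Sc F V)) _ _) }
            surj := ?_
            ker := ?_ }, rfl⟩
  · rintro ⟨s, hs⟩
    have hs' : s ∈ (⁅I, I⁆ : Subgroup (V ≃ₗ[F] V)).map (QuotientGroup.mk' (Sc F V)) := by
      rw [hmap]
      exact hs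
    obtain ⟨g, hg, hgs⟩ := hs'
    exact ⟨⟨g, hg⟩, Subtype.ext hgs⟩
  · intro g
    constructor
    · intro h
      have h1 : QuotientGroup.mk' (Sc F V) g.1 = 1 := congrArg Subtype.val h
      exact (QuotientGroup.eq_one_iff g.1).1 h1
    · intro h
      apply Subtype.ext
      exact (QuotientGroup.eq_one_iff g.1).2 h

end Helper76.CL
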