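import Pool.Agent.Helper76.CL.Elc
import Pool.Agent.Helper76.CL.Cls

/-!
# Orthogonal groups
-/

set_option autoImplicit false

namespace Helper76.CL

open Module

/-- the formed space of a quadratic form -/
def Ort_FS {F V : Type} [Field F] [AddCommGroup V] [Module F V] (Q : QuadraticForm F V)
    (hn : ∀ x, (∀ y, QuadraticMap.polar Q x y = 0) → x = 0) : FS F V where
  σ := RingHom.id F
  σσ := fun _ => rfl
  ε := 1
  hε := Or.inl rfl
  τ := AddMonoidHom.id F
  τ_symm := fun a => by
    change 1 * a = a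
    rw [one_mul]
  τ_ker := fun a ha => by
    have h : a = 0 := ha
    subst h
    simp
  τ_mul := fun a b ha => by
    have h : a = 0 := ha
    subst h
    simp
  f := AddMonoidHom.mk' (fun x => (QuadraticMap.polarBilin Q x).toAddMonoidHom) (by
    intro x y
    ext z
    simp)
  f_smul_right := fun a x y => by
    change QuadraticMap.polarBilin Q x (a • y) = a * QuadraticMap.polarBilin Q x y
    rw [map_smul, smul_eq_mul]
  f_smul_left := fun a x y => by
    change QuadraticMap.polarBilin Q (a • x) y = a * QuadraticMap.polarBilin Q x y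
    rw [map_smul, LinearMap.smul_apply, smul_eq_mul]
  f_symm := fun x y => by
    change QuadraticMap.polar Q y x = 1 * QuadraticMap.polar Q x y
    rw [one_mul, QuadraticMap.polar_comm]
  nondeg := hn
  q := fun x => Q x
  q_add := fun x y => QuadraticMap.map_add Q x y
  q_smul := fun a x => by
    rw [QuadraticMap.map_smul]
    rfl
  q_self := fun x hx => by
    change QuadraticMap.polar Q x x = 0
    rw [QuadraticMap.polar_self, hx, smul_zero]
  q_im := fun x => ⟨Q x, rfl⟩

/-- a quadratic form in three variables over a finite field has a nontrivial zero -/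
theorem Ort_zero {F V : Type} [Field F] [Finite F] [AddCommGroup V] [Module F V]
    (Q : QuadraticForm F V) (u : Fin 3 → V) :
    ∃ x : Fin 3 → F, x ≠ 0 ∧ Q (x 0 • u 0 + x 1 • u 1 + x 2 • u 2) = 0 := by
  classical
  let inst : Fintype F := Fintype.ofFinite F
  obtain ⟨r, hr⟩ := CharP.exists F
  have hrp : r.Prime := CharP.char_is_prime F r
  have : Fact r.Prime := ⟨hrp⟩
  let p : MvPolynomial (Fin 3) F :=
    MvPolynomial.C (Q (u 0)) * MvPolynomial.X 0 ^ 2 + MvPolynomial.C (Q (u 1)) * MvPolynomial.X 1 ^ 2 +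
    MvPolynomial.C (Q (u 2)) * MvPolynomial.X 2 ^ 2 +
    MvPolynomial.C (QuadraticMap.polar Q (u 0) (u 1)) * (MvPolynomial.X 0 * MvPolynomial.X 1) +
    MvPolynomial.C (QuadraticMap.polar Q (u 0) (u 2)) * (MvPolynomial.X 0 * MvPolynomial.X 2) +
    MvPolynomial.C (QuadraticMap.polar Q (u 1) (u 2)) * (MvPolynomial.X 1 * MvPolynomial.X 2)
  have hp : ∀ x : Fin 3 → F, MvPolynomial.eval x p = Q (x 0 • u 0 + x 1 • u 1 + x 2 • u 2) := by
    intro x
    rw [QuadraticMap.map_add Q, QuadraticMap.map_add Q, QuadraticMap.map_smul, QuadraticMap.map_smul,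
      QuadraticMap.map_smul, QuadraticMap.polar_add_left, QuadraticMap.polar_smul_left,
      QuadraticMap.polar_smul_right, QuadraticMap.polar_smul_left, QuadraticMap.polar_smul_right,
      QuadraticMap.polar_smul_left, QuadraticMap.polar_smul_right]
    simp only [p, map_add, map_mul, map_pow, MvPolynomial.eval_C, MvPolynomial.eval_X, smul_eq_mul]
    ring
  have h1 : ∀ (c : F) (i : Fin 3), (MvPolynomial.C c * MvPolynomial.X i ^ 2 :
      MvPolynomial (Fin 3) F).totalDegree ≤ 2 := by
    intro c i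
    refine (MvPolynomial.totalDegree_mul _ _).trans ?_
    rw [MvPolynomial.totalDegree_C, MvPolynomial.totalDegree_X_pow]
  have h2 : ∀ (c : F) (i j : Fin 3), (MvPolynomial.C c * (MvPolynomial.X i * MvPolynomial.X j) :
      MvPolynomial (Fin 3) F).totalDegree ≤ 2 := by
    intro c i j
    refine (MvPolynomial.totalDegree_mul _ _).trans ?_
    rw [MvPolynomial.totalDegree_C, zero_add]
    refine (MvPolynomial.totalDegree_mul _ _).trans ?_
    rw [MvPolynomial.totalDegree_X, MvPolynomial.totalDegree_X]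
  have hadd : ∀ a b : MvPolynomial (Fin 3) F, a.totalDegree ≤ 2 → b.totalDegree ≤ 2 →
      (a + b).totalDegree ≤ 2 := fun a b ha hb =>
    (MvPolynomial.totalDegree_add a b).trans (max_le ha hb)
  have hdeg : p.totalDegree < Fintype.card (Fin 3) := by
    rw [Fintype.card_fin]
    have : p.totalDegree ≤ 2 :=
      hadd _ _ (hadd _ _ (hadd _ _ (hadd _ _ (hadd _ _ (h1 _ _) (h1 _ _)) (h1 _ _)) (h2 _ _ _))
        (h2 _ _ _)) (h2 _ _ _)
    omega
  have hdvd := char_dvd_card_solutions r hdeg
  by_contra hcon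
  push Not at hcon
  have hone : Fintype.card {x : Fin 3 → F // MvPolynomial.eval x p = 0} = 1 := by
    rw [Fintype.card_eq_one_iff]
    refine ⟨⟨0, ?_⟩, ?_⟩
    · rw [hp]
      simp
    · rintro ⟨x, hx⟩
      apply Subtype.ext
      by_contra hx0
      rw [hp] at hx
      exact hcon x hx0 hx
  rw [hone] at hdvd
  exact hrp.one_lt.ne' (Nat.dvd_one.1 hdvd)

theorem exists_ort {F V : Type} [Field F] [Finite F] [AddCommGroup V] [Module F V]
    [FiniteDimensional F V] (Q : QuadraticForm F V)
    (hn : ∀ x, (∀ y, QuadraticMap.polar Q x y = 0) → x = 0) :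
    ∃ Φ : FS F V, Φ.Isom = OrI Q ∧ Φ.Ex3 ∧
      ∀ ν, Φ.WI ν → 7 ≤ ν → Φ.El ≤ ⁅Φ.Isom, Φ.Isom⁆ := by
  refine ⟨Ort_FS Q hn, ?_, ?_, ?_⟩
  · ext g
    constructor
    · intro h
      exact h.2
    · intro h
      refine ⟨fun x y => ?_, h⟩
      change QuadraticMap.polar Q (g x) (g y) = QuadraticMap.polar Q x y
      have h' : ∀ x, Q (g x) = Q x := h
      unfold QuadraticMap.polar
      rw [← map_add, h', h', h']
  · intro U hU
    have h3 : 3 ≤ finrank F U := hU
    obtain ⟨v, hv⟩ := exists_linearIndependent_of_le_finrank h3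
    obtain ⟨x, hx0, hx⟩ := Ort_zero Q (fun i => (v i : V))
    refine ⟨x 0 • (v 0 : V) + x 1 • (v 1 : V) + x 2 • (v 2 : V), ?_, ?_, hx⟩
    · exact U.add_mem (U.add_mem (U.smul_mem _ (v 0).2) (U.smul_mem _ (v 1).2))
        (U.smul_mem _ (v 2).2)
    · intro h0
      apply hx0
      have h4 : ∑ i, x i • v i = 0 := by
        apply Subtype.ext
        rw [Fin.sum_univ_three]
        exact h0
      funext i
      exact Fintype.linearIndependent_iff.1 hv x h4 i
  · intro ν hν h7
    refine elc _ hν h7 (fun c hc => ⟨0, ?_⟩)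
    have h : c = 0 := hc
    rw [h, map_zero, mul_zero, sub_zero]

end Helper76.CL
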