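import Pool.Agent.Helper76.CL.Big
import Pool.Agent.Helper76.CL.Flag

/-!
# Classical groups of large Witt index
-/

set_option autoImplicit false

namespace Helper76.CL

open Module

section

variable {F V : Type} [Field F] [Finite F] [AddCommGroup V] [Module F V]
    [FiniteDimensional F V] (Φ : FS F V)

theorem Pkt_TS_le {R U : Submodule F V} (hR : Φ.TS R) (h : U ≤ R) : Φ.TS U :=
  ⟨fun x hx => hR.1 x (h hx), fun x hx y hy => hR.2 x (h hx) y (h hy)⟩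

theorem Pkt_inv_pres {e : Equiv.Perm Φ.SPt} (he : ∀ P Q, Φ.Pp (e P) (e Q) ↔ Φ.Pp P Q) :
    ∀ P Q, Φ.Pp (e⁻¹ P) (e⁻¹ Q) ↔ Φ.Pp P Q := by
  intro P Q
  rw [← he]
  have h : ∀ X, e (e⁻¹ X) = X := e.apply_symm_apply
  rw [h, h]

theorem Pkt_pow_pres {e : Equiv.Perm Φ.SPt} (he : ∀ P Q, Φ.Pp (e P) (e Q) ↔ Φ.Pp P Q) (n : ℕ) :
    ∀ P Q, Φ.Pp ((e ^ n) P) ((e ^ n) Q) ↔ Φ.Pp P Q := by
  induction n with
  | zero => intro P Q; rfl
  | succ n ih =>
    intro P Q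
    rw [pow_succ, Equiv.Perm.mul_apply, Equiv.Perm.mul_apply, ih, he]

theorem Pkt_ex_pow {e : Equiv.Perm Φ.SPt} (he : ∀ P Q, Φ.Pp (e P) (e Q) ↔ Φ.Pp P Q) (n : ℕ)
    {U : Submodule F V} (hU : Φ.TS U) : Φ.ex (e ^ n) U = (Φ.ex e)^[n] U := by
  induction n generalizing U with
  | zero => exact ex_one Φ hU
  | succ n ih =>
    rw [pow_succ, ex_mul Φ (Pkt_pow_pres Φ he n) he hU, ih (ex_TS Φ he hU),
      Function.iterate_succ_apply]

/-- the automorphism of the subspace lattice of an invariant totally singular subspace -/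
theorem Pkt_iso {e : Equiv.Perm Φ.SPt} (he : ∀ P Q, Φ.Pp (e P) (e Q) ↔ Φ.Pp P Q)
    {R : Submodule F V} (hR : Φ.TS R) (heR : Φ.ex e R = R) :
    ∃ α : Submodule F R ≃o Submodule F R,
      ∀ U, (α U).map R.subtype = Φ.ex e (U.map R.subtype) := by
  have hle : ∀ U : Submodule F R, U.map R.subtype ≤ R := fun U => Submodule.map_subtype_le R U
  have hTS : ∀ U : Submodule F R, Φ.TS (U.map R.subtype) := fun U => Pkt_TS_le Φ hR (hle U)
  have hei := Pkt_inv_pres Φ he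
  have hR' : Φ.ex e⁻¹ R = R := by
    conv_lhs => rw [← heR]
    rw [← ex_mul Φ hei he hR, inv_mul_cancel, ex_one Φ hR]
  have hmap : ∀ (g : Equiv.Perm Φ.SPt), (∀ P Q, Φ.Pp (g P) (g Q) ↔ Φ.Pp P Q) → Φ.ex g R = R →
      ∀ U : Submodule F R, ((Φ.ex g (U.map R.subtype)).comap R.subtype).map R.subtype =
        Φ.ex g (U.map R.subtype) := by
    intro g hg hgR U
    rw [Submodule.map_comap_subtype]
    apply inf_eq_right.2
    exact ((ex_le Φ hg (hTS U) hR).2 (hle U)).trans hgR.le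
  have hinj : Function.Injective (fun U : Submodule F R => U.map R.subtype) :=
    Submodule.map_injective_of_injective R.injective_subtype
  refine ⟨{ toFun := fun U => (Φ.ex e (U.map R.subtype)).comap R.subtype
            invFun := fun U => (Φ.ex e⁻¹ (U.map R.subtype)).comap R.subtype
            left_inv := ?_
            right_inv := ?_
            map_rel_iff' := ?_ }, ?_⟩
  · intro U
    apply hinj
    change ((Φ.ex e⁻¹ (((Φ.ex e (U.map R.subtype)).comap R.subtype).map R.subtype)).comap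
      R.subtype).map R.subtype = U.map R.subtype
    rw [hmap e⁻¹ hei hR', hmap e he heR, ← ex_mul Φ hei he (hTS U), inv_mul_cancel,
      ex_one Φ (hTS U)]
  · intro U
    apply hinj
    change ((Φ.ex e (((Φ.ex e⁻¹ (U.map R.subtype)).comap R.subtype).map R.subtype)).comap
      R.subtype).map R.subtype = U.map R.subtype
    rw [hmap e he heR, hmap e⁻¹ hei hR', ← ex_mul Φ he hei (hTS U), mul_inv_cancel,
      ex_one Φ (hTS U)]
  · intro U U'
    change (Φ.ex e (U.map R.subtype)).comap R.subtype ≤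
      (Φ.ex e (U'.map R.subtype)).comap R.subtype ↔ U ≤ U'
    rw [← Submodule.map_le_map_iff_of_injective R.injective_subtype
      ((Φ.ex e (U.map R.subtype)).comap R.subtype), hmap e he heR, hmap e he heR,
      ex_le Φ he (hTS U) (hTS U'), Submodule.map_le_map_iff_of_injective R.injective_subtype]
  · intro U
    exact hmap e he heR U

/-- invariant totally singular subspaces of dimensions `c * d` -/
theorem Pkt_inv {e : Equiv.Perm Φ.SPt} (he : ∀ P Q, Φ.Pp (e P) (e Q) ↔ Φ.Pp P Q) {p : ℕ}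
    (hp : p.Prime) (hep : e ^ p = 1) {ν N : ℕ} (hν : Φ.WI ν) (h : 4 * N * p ^ 2 + 4 * p + 4 ≤ ν) :
    ∃ d, 1 ≤ d ∧ d ≤ p ∧ ∀ c ≤ N, ∃ W : Submodule F V, Φ.TS W ∧ Φ.ex e W = W ∧
      finrank F W = c * d := by
  obtain ⟨R, hR, heR, hd1, -⟩ := big Φ hν he hp.pos hep (2 * N * p ^ 2) (by
    have : 2 * (2 * N * p ^ 2) = 4 * N * p ^ 2 := by ring
    omega)
  obtain ⟨α, hα⟩ := Pkt_iso Φ he hR heR
  have hle : ∀ U : Submodule F R, U.map R.subtype ≤ R := fun U => Submodule.map_subtype_le R U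
  have hTS : ∀ U : Submodule F R, Φ.TS (U.map R.subtype) := fun U => Pkt_TS_le Φ hR (hle U)
  have hinj : Function.Injective (fun U : Submodule F R => U.map R.subtype) :=
    Submodule.map_injective_of_injective R.injective_subtype
  have hit : ∀ n : ℕ, ∀ U : Submodule F R, (α^[n] U).map R.subtype =
      (Φ.ex e)^[n] (U.map R.subtype) := by
    intro n
    induction n with
    | zero => intro U; rfl
    | succ n ih =>
      intro U
      rw [Function.iterate_succ_apply, ih, hα, Function.iterate_succ_apply]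
  have hαp : ∀ U, α^[p] U = U := by
    intro U
    apply hinj
    change (α^[p] U).map R.subtype = U.map R.subtype
    rw [hit, ← Pkt_ex_pow Φ he p (hTS U), hep, ex_one Φ (hTS U)]
  obtain ⟨d, h1, h2, h3⟩ := flag p hp α hαp N hd1
  refine ⟨d, h1, h2, fun c hc => ?_⟩
  obtain ⟨W₁, -, hW, -, -, hf, -⟩ := h3 c hc
  refine ⟨W₁.map R.subtype, hTS W₁, ?_, ?_⟩
  · rw [← hα, hW]
  · rw [← hf]
    exact (Submodule.equivMapOfInjective R.subtype R.injective_subtype W₁).finrank_eq.symm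

end

section

variable {F V S : Type} [Field F] [AddCommGroup V] [Module F V]
    [FiniteDimensional F V] [Group S] (Φ : FS F V) (ρ : Rl F V S) (hE : Φ.El ≤ ρ.T)

include hE

theorem Pkt_ne_top {ν : ℕ} (hν : Φ.WI ν) (h7 : 7 ≤ ν) {W : Submodule F V} (hW : Φ.TS W)
    (hW0 : W ≠ ⊥) (hWν : finrank F W < ν) : ρ.st W ≠ ⊤ := by
  intro h
  obtain ⟨x, hx, hx0⟩ := (Submodule.ne_bot_iff W).1 hW0
  obtain ⟨z, hz, hzq, -⟩ := Φ.exists_perp hν ⊥ W (by rw [finrank_bot]; omega)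
  have hz0 : z ≠ 0 := by
    rintro rfl
    exact hz (zero_mem _)
  obtain ⟨g, hg, hgx⟩ := tr_pt Φ hν h7 (hW.1 x hx) hzq hx0 hz0
  have h1 : ρ.π ⟨g, hE hg⟩ ∈ ρ.st W := by rw [h]; exact Subgroup.mem_top _
  rw [ρ.mem_st] at h1
  apply hz
  rw [← hgx, ← h1]
  exact apply_mem_gm.2 hx

theorem Pkt_ne_bot {ν : ℕ} (hν : Φ.WI ν) {W : Submodule F V} (hW : Φ.TS W)
    (hW0 : W ≠ ⊥) (hWν : finrank F W + finrank F W < ν) : ρ.st W ≠ ⊥ := by
  obtain ⟨x, hx, hx0⟩ := (Submodule.ne_bot_iff W).1 hW0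
  obtain ⟨w, hw, hwq, hwW⟩ := Φ.exists_perp hν W W hWν
  obtain ⟨g, hg, hgv⟩ := Φ.exists_u (hW.1 x hx) hwq (hwW x hx)
  have hfix : ∀ v ∈ W, g v = v := by
    intro v hv
    rw [hgv]
    change v + Φ.f x v • w - (Φ.ε * Φ.f w v) • x = v
    rw [hW.2 x hx v hv, Φ.f_eq_zero_symm (hwW v hv), mul_zero, zero_smul, zero_smul, add_zero,
      sub_zero]
  have hst : ρ.π ⟨g, hE hg⟩ ∈ ρ.st W := by
    rw [ρ.mem_st]
    ext v
    rw [mem_gm]
    change g⁻¹ v ∈ W ↔ v ∈ W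
    constructor
    · intro h
      have h1 : g (g⁻¹ v) = v := g.apply_symm_apply v
      rw [← h1, hfix _ h]
      exact h
    · intro h
      have h1 : g⁻¹ (g v) = v := g.symm_apply_apply v
      rw [hfix v h] at h1
      rw [h1]
      exact h
  intro h
  rw [h, Subgroup.mem_bot] at hst
  obtain ⟨c, hc⟩ := (ρ.ker _).1 hst
  have hc' : ∀ v, g v = c • v := hc
  have hc1 : c = 1 := by
    have h1 : (1 - c) • x = 0 := by
      rw [sub_smul, one_smul, ← hc', hfix x hx, sub_self]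
    rcases smul_eq_zero.1 h1 with h2 | h2
    · exact (sub_eq_zero.1 h2).symm
    · exact absurd h2 hx0
  have hxv : ∃ v, Φ.f x v ≠ 0 := by
    by_contra hcon
    push Not at hcon
    exact hx0 (Φ.nondeg x hcon)
  obtain ⟨v, hv⟩ := hxv
  have h1 := hgv v
  rw [hc', hc1, one_smul] at h1
  have h2 : v = v + Φ.f x v • w - (Φ.ε * Φ.f w v) • x := h1
  have h3 : Φ.f x v • w = (Φ.ε * Φ.f w v) • x := by
    have h4 : v + Φ.f x v • w - (Φ.ε * Φ.f w v) • x - v = 0 := by rw [← h2, sub_self]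
    have h5 : v + Φ.f x v • w - (Φ.ε * Φ.f w v) • x - v =
      Φ.f x v • w - (Φ.ε * Φ.f w v) • x := by abel
    rw [h5] at h4
    exact sub_eq_zero.1 h4
  apply hw
  have h6 : w = (Φ.f x v)⁻¹ • (Φ.ε * Φ.f w v) • x := by
    rw [← h3, smul_smul, inv_mul_cancel₀ hv, one_smul]
  rw [h6]
  exact W.smul_mem _ (W.smul_mem _ hx)

end

theorem pkt {F V S : Type} [Field F] [Finite F] [AddCommGroup V] [Module F V]
    [FiniteDimensional F V] [Group S] (Φ : FS F V) (ρ : Rl F V S) (hE : Φ.El ≤ ρ.T)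
    (hI : ρ.T ≤ Φ.Isom) {p q : ℕ} (hp : p.Prime) (hq : q.Prime)
    (hν : Φ.WI (100 * p ^ 2 * q ^ 2)) : Stb p q S := by
  intro φ ψ hφp hψq
  have hp1 := hp.two_le
  have hq1 := hq.two_le
  have hpp : 2 * p ≤ p ^ 2 := by
    rw [pow_two]
    exact Nat.mul_le_mul_right p hp1
  have hqq : 2 * q ≤ q ^ 2 := by
    rw [pow_two]
    exact Nat.mul_le_mul_right q hq1
  have hpq : 4 * (p * q) ≤ p ^ 2 * q ^ 2 := by
    have := Nat.mul_le_mul hpp hqq
    nlinarith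
  have hpq1 : p ≤ p * q := Nat.le_mul_of_pos_right _ hq.pos
  have hpq2 : q ≤ p * q := Nat.le_mul_of_pos_left _ hp.pos
  set ν := 100 * p ^ 2 * q ^ 2 with hνdef
  have hν' : ν = 100 * (p ^ 2 * q ^ 2) := by rw [hνdef]; ring
  have h15 : 15 ≤ ν := by omega
  have hfix : ∀ (θ : MulAut S) (n : ℕ) (e : Equiv.Perm Φ.SPt), θ ^ n = 1 →
      (∀ P, (ρ.st P.1).map θ.toMonoidHom = ρ.st (e P).1) → e ^ n = 1 := by
    intro θ n e hθ he
    have h1 : ∀ k : ℕ, ∀ P : Φ.SPt, (ρ.st P.1).map (θ ^ k).toMonoidHom = ρ.st ((e ^ k) P).1 := by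
      intro k
      induction k with
      | zero =>
        intro P
        rw [pow_zero, pow_zero]
        exact Subgroup.map_id _
      | succ k ih =>
        intro P
        rw [pow_succ, pow_succ, Equiv.Perm.mul_apply, ← ih, ← he, Subgroup.map_map]
        rfl
    apply Equiv.ext
    intro P
    have h2 := h1 n P
    rw [hθ] at h2
    have h3 : (ρ.st P.1).map (1 : MulAut S).toMonoidHom = ρ.st P.1 := Subgroup.map_id _
    rw [h3] at h2
    exact (st_pt_inj Φ hν h15 ρ hE hI h2.le).symm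
  obtain ⟨e, he1, he2⟩ := pt Φ hν h15 ρ hE hI φ
  obtain ⟨e', he1', he2'⟩ := pt Φ hν h15 ρ hE hI ψ
  have hep := hfix φ p e hφp he1
  have hep' := hfix ψ q e' hψq he1'
  have hb1 : 4 * q * p ^ 2 + 4 * p + 4 ≤ ν := by
    have h1 : q * p ^ 2 ≤ q ^ 2 * p ^ 2 := Nat.mul_le_mul_right _ (by omega)
    nlinarith
  have hb2 : 4 * p * q ^ 2 + 4 * q + 4 ≤ ν := by
    have h1 : p * q ^ 2 ≤ p ^ 2 * q ^ 2 := Nat.mul_le_mul_right _ (by omega)
    nlinarith
  obtain ⟨d, hd1, hdp, hW⟩ := Pkt_inv Φ he2 hp hep hν hb1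
  obtain ⟨d', hd1', hdq, hW'⟩ := Pkt_inv Φ he2' hq hep' hν hb2
  obtain ⟨W, hWTS, hWe, hWd⟩ := hW d' hdq
  obtain ⟨W', hWTS', hWe', hWd'⟩ := hW' d hdp
  have hle : d' * d ≤ p * q := by
    have := Nat.mul_le_mul hdq hdp
    rw [mul_comm q p] at this
    exact this
  have hpos : 0 < d' * d := Nat.mul_pos hd1' hd1
  obtain ⟨g, hg, hgW⟩ := tr_ts Φ hν (k := d' * d) (by omega) hWTS hWTS' hWd
    (by rw [hWd', mul_comm])
  have hW0 : W ≠ ⊥ := by
    rintro rfl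
    rw [finrank_bot] at hWd
    omega
  refine ⟨ρ.st W, ρ.π ⟨g, hE hg⟩, Pkt_ne_bot Φ ρ hE hν hWTS hW0 (by omega),
    Pkt_ne_top Φ ρ hE hν (by omega) hWTS hW0 (by omega), ?_, ?_⟩
  · have := st_ex Φ hν h15 ρ hE hI φ he2 he1 hWTS
    rw [hWe] at this
    exact this
  · have hconj : (ρ.st W).map (MulAut.conj (ρ.π ⟨g, hE hg⟩)).toMonoidHom = ρ.st W' := by
      ext s
      rw [← hgW]
      have h1 := ρ.mem_st_gm (W := W) ⟨g, hE hg⟩ s
      change _ ↔ s ∈ ρ.st (gm ((⟨g, hE hg⟩ : ρ.T) : V ≃ₗ[F] V) W)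
      rw [h1]
      constructor
      · rintro ⟨t, ht, rfl⟩
        change (ρ.π ⟨g, hE hg⟩)⁻¹ * (ρ.π ⟨g, hE hg⟩ * t * (ρ.π ⟨g, hE hg⟩)⁻¹) *
          ρ.π ⟨g, hE hg⟩ ∈ ρ.st W
        have : (ρ.π ⟨g, hE hg⟩)⁻¹ * (ρ.π ⟨g, hE hg⟩ * t * (ρ.π ⟨g, hE hg⟩)⁻¹) *
          ρ.π ⟨g, hE hg⟩ = t := by group
        rw [this]
        exact ht
      · intro h
        refine ⟨_, h, ?_⟩
        change ρ.π ⟨g, hE hg⟩ * ((ρ.π ⟨g, hE hg⟩)⁻¹ * s * ρ.π ⟨g, hE hg⟩) *
          (ρ.π ⟨g, hE hg⟩)⁻¹ = s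
        group
    rw [hconj]
    have := st_ex Φ hν h15 ρ hE hI ψ he2' he1' hWTS'
    rw [hWe'] at this
    exact this

end Helper76.CL
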