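import Pool.Agent.Helper76.CL.Trk

/-!
# The groups `PSL(n, F)`
-/

set_option autoImplicit false

namespace Helper76.CL

open Module

theorem exists_psl (F : Type) [Field F] (n : ℕ) :
    ∃ ρ : Rl F (Fin n → F) (Matrix.ProjectiveSpecialLinearGroup (Fin n) F), TVS ρ.T := by
  classical
  let f : Matrix.SpecialLinearGroup (Fin n) F →* ((Fin n → F) ≃ₗ[F] (Fin n → F)) :=
    Matrix.SpecialLinearGroup.toLin'
  have hf : Function.Injective f := Matrix.SpecialLinearGroup.toLin'_injective
  let e : Matrix.SpecialLinearGroup (Fin n) F ≃* f.range := MonoidHom.ofInjective hf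
  have he : ∀ A, ((e A : f.range) : (Fin n → F) ≃ₗ[F] (Fin n → F)) = f A := fun A => rfl
  refine ⟨{ T := f.range
            π := (QuotientGroup.mk' (Subgroup.center (Matrix.SpecialLinearGroup (Fin n) F))).comp
              e.symm.toMonoidHom
            surj := ?_
            ker := ?_ }, ?_⟩
  · intro s
    obtain ⟨A, rfl⟩ := QuotientGroup.mk'_surjective _ s
    refine ⟨e A, ?_⟩
    change QuotientGroup.mk' _ (e.symm (e A)) = _
    rw [e.symm_apply_apply]
  · intro g
    obtain ⟨A, rfl⟩ := e.surjective g
    have h1 : ((QuotientGroup.mk' (Subgroup.center (Matrix.SpecialLinearGroup (Fin n) F))).comp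
        e.symm.toMonoidHom) (e A) = QuotientGroup.mk' _ A := by
      change QuotientGroup.mk' _ (e.symm (e A)) = _
      rw [e.symm_apply_apply]
    rw [h1]
    have h2 : QuotientGroup.mk' (Subgroup.center (Matrix.SpecialLinearGroup (Fin n) F)) A = 1 ↔
        A ∈ Subgroup.center (Matrix.SpecialLinearGroup (Fin n) F) := QuotientGroup.eq_one_iff A
    rw [h2, he]
    constructor
    · intro hA
      obtain ⟨c, -, hc⟩ := Matrix.SpecialLinearGroup.mem_center_iff.1 hA
      refine ⟨c, fun v => ?_⟩
      change Matrix.SpecialLinearGroup.toLin' A v = _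
      rw [Matrix.SpecialLinearGroup.toLin'_apply, Matrix.toLin'_apply, ← hc]
      ext i
      simp [Matrix.scalar_apply, Matrix.mulVec_diagonal]
    · rintro ⟨c, hc⟩
      rw [Matrix.SpecialLinearGroup.mem_center_iff]
      have hA : Matrix.scalar (Fin n) c = (A : Matrix (Fin n) (Fin n) F) := by
        apply Matrix.toLin'.injective
        apply LinearMap.ext
        intro v
        have h3 : Matrix.SpecialLinearGroup.toLin' A v = c • v := hc v
        rw [Matrix.SpecialLinearGroup.toLin'_apply] at h3
        rw [h3, Matrix.toLin'_apply]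
        ext i
        simp [Matrix.scalar_apply, Matrix.mulVec_diagonal]
      refine ⟨c, ?_, hA⟩
      have h4 : Matrix.det (Matrix.scalar (Fin n) c) = 1 := by
        rw [hA]
        exact A.2
      rw [Matrix.scalar_apply, Matrix.det_diagonal, Finset.prod_const, Finset.card_univ] at h4
      exact h4
  · intro φ v h
    have hdet : Matrix.det (LinearMap.toMatrix' (LinearMap.transvection φ v)) = 1 := by
      rw [LinearMap.det_toMatrix']
      have h5 := LinearEquiv.transvection.det_eq_one h
      have h6 := congrArg (Units.val) h5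
      rw [LinearEquiv.coe_det] at h6
      exact h6
    refine ⟨⟨LinearMap.toMatrix' (LinearMap.transvection φ v), hdet⟩, ?_⟩
    apply LinearEquiv.ext
    intro w
    change Matrix.SpecialLinearGroup.toLin' _ w = _
    rw [Matrix.SpecialLinearGroup.toLin'_apply]
    change Matrix.toLin' (LinearMap.toMatrix' (LinearMap.transvection φ v)) w = _
    rw [Matrix.toLin'_toMatrix']
    rfl

end Helper76.CL
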