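import Pool.Agent.Helper76.CL.Defs

/-!
# Alternating groups of large degree have no faithful projective representations of small degree
-/

set_option autoImplicit false

namespace Helper76.CL

open Module Helper76.IG

/-- scalars are central -/
theorem Sml_sc_comm {F V : Type} [Field F] [AddCommGroup V] [Module F V]
    {s : V ≃ₗ[F] V} (hs : s ∈ Sc F V) (g : V ≃ₗ[F] V) : s * g = g * s := by
  obtain ⟨c, hc⟩ := hs
  apply LinearEquiv.ext
  intro v
  change s (g v) = g (s v)
  rw [hc, hc, map_smul]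

/-- commuting subgroups of `PG`, one of them perfect, have commuting lifts -/
theorem Sml_comm {F V : Type} [Field F] [AddCommGroup V] [Module F V] {A B : Subgroup (PG F V)}
    (hAB : ∀ a ∈ A, ∀ b ∈ B, a * b = b * a) (hA : A ≤ ⁅A, A⁆) {g h : V ≃ₗ[F] V}
    (hg : QuotientGroup.mk' (Sc F V) g ∈ A) (hh : QuotientGroup.mk' (Sc F V) h ∈ B) :
    g * h = h * g := by
  have key : ∀ k ∈ A.comap (QuotientGroup.mk' (Sc F V)), k * h * k⁻¹ * h⁻¹ ∈ Sc F V := by
    intro k hk
    have h1 : QuotientGroup.mk' (Sc F V) (k * h * k⁻¹ * h⁻¹) = 1 := by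
      rw [map_mul, map_mul, map_mul, map_inv, map_inv, hAB _ hk _ hh]
      group
    rw [← MonoidHom.mem_ker, QuotientGroup.ker_mk'] at h1
    exact h1
  have h2 : ⁅A.comap (QuotientGroup.mk' (Sc F V)), A.comap (QuotientGroup.mk' (Sc F V))⁆ ≤
      Subgroup.centralizer {h} := by
    rw [Subgroup.commutator_le]
    intro a ha b hb
    have ea := key a ha
    have eb := key b hb
    rw [Subgroup.mem_centralizer_singleton_iff]
    have ea' : a * h * a⁻¹ = (a * h * a⁻¹ * h⁻¹) * h := by group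
    have eb' : b * h * b⁻¹ = (b * h * b⁻¹ * h⁻¹) * h := by group
    set s := a * h * a⁻¹ * h⁻¹ with hs
    set t := b * h * b⁻¹ * h⁻¹ with ht
    have f1 : a * h = s * h * a := by rw [← ea']; group
    have f2 : b * h = t * h * b := by rw [← eb']; group
    have f3 : a⁻¹ * h = s⁻¹ * h * a⁻¹ := by
      have : a * (a⁻¹ * h) = a * (s⁻¹ * h * a⁻¹) := by
        rw [mul_inv_cancel_left, ← mul_assoc, ← mul_assoc,
          ← Sml_sc_comm ((Sc F V).inv_mem ea) a, mul_assoc s⁻¹ a h, f1]
        group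
      exact mul_left_cancel this
    have f4 : b⁻¹ * h = t⁻¹ * h * b⁻¹ := by
      have : b * (b⁻¹ * h) = b * (t⁻¹ * h * b⁻¹) := by
        rw [mul_inv_cancel_left, ← mul_assoc, ← mul_assoc,
          ← Sml_sc_comm ((Sc F V).inv_mem eb) b, mul_assoc t⁻¹ b h, f2]
        group
      exact mul_left_cancel this
    have cs := fun g => Sml_sc_comm ea g
    have ct := fun g => Sml_sc_comm eb g
    have csi := fun g => Sml_sc_comm ((Sc F V).inv_mem ea) g
    have cti := fun g => Sml_sc_comm ((Sc F V).inv_mem eb) g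
    rw [commutatorElement_def]
    calc a * b * a⁻¹ * b⁻¹ * h = a * b * a⁻¹ * (b⁻¹ * h) := by group
      _ = a * b * a⁻¹ * t⁻¹ * h * b⁻¹ := by rw [f4]; group
      _ = t⁻¹ * (a * b * a⁻¹) * h * b⁻¹ := by rw [cti]
      _ = t⁻¹ * (a * b * (a⁻¹ * h)) * b⁻¹ := by group
      _ = t⁻¹ * (a * b * s⁻¹ * h * a⁻¹) * b⁻¹ := by rw [f3]; group
      _ = t⁻¹ * (s⁻¹ * (a * b) * h * a⁻¹) * b⁻¹ := by rw [csi]
      _ = t⁻¹ * s⁻¹ * a * (b * h) * a⁻¹ * b⁻¹ := by group
      _ = t⁻¹ * s⁻¹ * (a * t) * h * b * a⁻¹ * b⁻¹ := by rw [f2]; group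
      _ = t⁻¹ * (s⁻¹ * t) * (a * h) * b * a⁻¹ * b⁻¹ := by rw [← ct]; group
      _ = t⁻¹ * (t * s⁻¹) * (s * h * a) * b * a⁻¹ * b⁻¹ := by rw [f1, csi]
      _ = h * (a * b * a⁻¹ * b⁻¹) := by group
  have h3 : QuotientGroup.mk' (Sc F V) g ∈
      (⁅A.comap (QuotientGroup.mk' (Sc F V)), A.comap (QuotientGroup.mk' (Sc F V))⁆).map
        (QuotientGroup.mk' (Sc F V)) := by
    rw [Subgroup.map_commutator, Subgroup.map_comap_eq_self_of_surjective
      (QuotientGroup.mk'_surjective _)]
    exact hA hg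
  obtain ⟨k, hk, hkg⟩ := h3
  have h4 := h2 hk
  rw [Subgroup.mem_centralizer_singleton_iff] at h4
  have h5 : k⁻¹ * g ∈ Sc F V := by
    have h6 : QuotientGroup.mk' (Sc F V) (k⁻¹ * g) = 1 := by
      rw [map_mul, map_inv, hkg, inv_mul_cancel]
    rw [← MonoidHom.mem_ker, QuotientGroup.ker_mk'] at h6
    exact h6
  have h6 : g = k * (k⁻¹ * g) := by group
  rw [h6, mul_assoc, Sml_sc_comm h5, ← mul_assoc, h4, mul_assoc]

theorem Sml_dim {F V : Type} [Field F] [AddCommGroup V] [Module F V] [FiniteDimensional F V]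
    (A : ℕ → Subgroup (PG F V)) (t : ℕ)
    (hcomm : ∀ i < t, ∀ j < t, i ≠ j → ∀ a ∈ A i, ∀ b ∈ A j, a * b = b * a)
    (hper : ∀ i < t, A i ≤ ⁅A i, A i⁆)
    (hna : ∀ i < t, ∃ a ∈ A i, ∃ b ∈ A i, a * b ≠ b * a) :
    t ≤ finrank F V ^ 2 := by
  classical
  let S : ℕ → Set (Module.End F V) := fun i => {a | ∃ j < i, ∃ g : V ≃ₗ[F] V,
    QuotientGroup.mk' (Sc F V) g ∈ A j ∧ a = (g : V →ₗ[F] V)}
  let R : ℕ → Submodule F (Module.End F V) := fun i =>
    Subalgebra.toSubmodule (Algebra.adjoin F (S i))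
  have hmono : ∀ i, R i ≤ R (i + 1) := by
    intro i
    have : Algebra.adjoin F (S i) ≤ Algebra.adjoin F (S (i + 1)) := by
      apply Algebra.adjoin_mono
      rintro a ⟨j, hj, g, hg, rfl⟩
      exact ⟨j, by omega, g, hg, rfl⟩
    exact this
  have hlt : ∀ i < t, R i < R (i + 1) := by
    intro i hi
    refine lt_of_le_of_ne (hmono i) fun heq => ?_
    obtain ⟨a, ha, b, hb, hab⟩ := hna i hi
    obtain ⟨g, rfl⟩ := QuotientGroup.mk'_surjective _ a
    obtain ⟨h, rfl⟩ := QuotientGroup.mk'_surjective _ b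
    apply hab
    have h1 : (g : V →ₗ[F] V) ∈ R (i + 1) :=
      Algebra.subset_adjoin ⟨i, by omega, g, ha, rfl⟩
    rw [← heq] at h1
    have h2 : Algebra.adjoin F (S i) ≤
        Subalgebra.centralizer F {((h : V →ₗ[F] V) : Module.End F V)} := by
      apply Algebra.adjoin_le
      rintro _ ⟨j, hj, k, hk, rfl⟩
      rw [SetLike.mem_coe, Subalgebra.mem_centralizer_iff]
      rintro x hx
      rw [Set.mem_singleton_iff] at hx
      subst hx
      have h3 := Sml_comm (hcomm j (by omega) i hi (by omega)) (hper j (by omega)) hk hb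
      ext v
      exact (LinearEquiv.congr_fun h3 v).symm
    have h3 := h2 h1
    rw [Subalgebra.mem_centralizer_iff] at h3
    have h4 := h3 _ rfl
    have h5 : h * g = g * h := by
      apply LinearEquiv.ext
      intro v
      exact LinearMap.congr_fun h4 v
    rw [← map_mul, ← map_mul, h5]
  have hrk : ∀ i ≤ t, i ≤ finrank F (R i) := by
    intro i
    induction i with
    | zero => intro _; exact Nat.zero_le _
    | succ i ih =>
      intro hi
      have h1 := ih (by omega)
      have h2 := Submodule.finrank_lt_finrank_of_lt (hlt i (by omega))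
      omega
  have h1 := hrk t le_rfl
  have h2 : finrank F (R t) ≤ finrank F (Module.End F V) := Submodule.finrank_le _
  have h3 : finrank F (Module.End F V) = finrank F V * finrank F V :=
    Module.finrank_linearMap F F V V
  rw [h3] at h2
  rw [sq]
  exact h1.trans h2

/-- the `i`-th block -/
def Sml_bl (m i : ℕ) : Finset (Fin m) := Finset.univ.filter fun x => x.val / 5 = i

theorem Sml_card {m i : ℕ} (h : 5 * (i + 1) ≤ m) : 5 ≤ Nat.card (Sml_bl m i) := by
  let f : Fin 5 → Sml_bl m i := fun a => ⟨⟨5 * i + a.val, by omega⟩, by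
    rw [Sml_bl, Finset.mem_filter]
    refine ⟨Finset.mem_univ _, ?_⟩
    change (5 * i + a.val) / 5 = i
    omega⟩
  have hf : Function.Injective f := by
    intro a b hab
    have h1 : (5 * i + a.val) = 5 * i + b.val := congrArg (fun x => x.val.val) hab
    apply Fin.ext
    omega
  have := Nat.card_le_card_of_injective f hf
  rwa [Nat.card_eq_fintype_card, Fintype.card_fin] at this

theorem sml {F V : Type} [Field F] [AddCommGroup V] [Module F V] [FiniteDimensional F V] {n m : ℕ}
    (hn : finrank F V ≤ n) (hm : 5 * (n ^ 2 + 1) ≤ m) :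
    ¬ Embeds (alternatingGroup (Fin m)) (PG F V) := by
  rintro ⟨φ, hφ⟩
  have hmi : ∀ i < n ^ 2 + 1, 5 * (i + 1) ≤ m := fun i hi => le_trans (by omega) hm
  have h := Sml_dim (fun i => (alternatingGroup.ofSubtype (Sml_bl m i)).range.map φ) (n ^ 2 + 1)
    ?_ ?_ ?_
  · have h1 : finrank F V ^ 2 ≤ n ^ 2 := Nat.pow_le_pow_left hn 2
    omega
  · rintro i hi j hj hij _ ⟨a, ha, rfl⟩ _ ⟨b, hb, rfl⟩
    rw [← map_mul, ← map_mul]
    congr 1
    rw [SetLike.mem_coe, alternatingGroup.mem_range_ofSubtype_iff] at ha hb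
    apply Subtype.ext
    change (a : Equiv.Perm (Fin m)) * (b : Equiv.Perm (Fin m)) = b * a
    apply Equiv.Perm.Disjoint.commute
    rw [Equiv.Perm.disjoint_iff_disjoint_support, Finset.disjoint_left]
    intro x hxa hxb
    have h1 := ha hxa
    have h2 := hb hxb
    rw [Sml_bl, Finset.mem_filter] at h1 h2
    exact hij (h1.2.symm.trans h2.2)
  · intro i hi
    have h1 := commutator_alternatingGroup_eq_top (Sml_card (hmi i hi))
    change _ ≤ ⁅_, _⁆
    rw [← Subgroup.map_commutator]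
    apply Subgroup.map_mono
    rw [MonoidHom.range_eq_map, ← Subgroup.map_commutator]
    apply Subgroup.map_mono
    exact h1.ge
  · intro i hi
    by_contra hcon
    have h1 : IsMulCommutative (alternatingGroup (Sml_bl m i)) := by
      constructor
      constructor
      intro a b
      apply alternatingGroup.ofSubtype_injective (s := Sml_bl m i)
      apply hφ
      by_contra hne
      rw [map_mul, map_mul, map_mul, map_mul] at hne
      exact hcon ⟨_, ⟨_, ⟨a, rfl⟩, rfl⟩, _, ⟨_, ⟨b, rfl⟩, rfl⟩, hne⟩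
    have h2 := alternatingGroup.isMulCommutative_iff_card_le_three.1 h1
    have h3 := Sml_card (hmi i hi)
    omega

/-- the group `GL(n, F)` modulo its centre embeds in `PG` -/
theorem embeds_pg (F : Type) [Field F] (n : ℕ) :
    Embeds (GL (Fin n) F ⧸ Subgroup.center (GL (Fin n) F)) (PG F (Fin n → F)) := by
  classical
  let e : GL (Fin n) F ≃* ((Fin n → F) ≃ₗ[F] (Fin n → F)) :=
    Matrix.GeneralLinearGroup.toLin.trans
      (LinearMap.GeneralLinearGroup.generalLinearEquiv F (Fin n → F))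
  have he : (Subgroup.center (GL (Fin n) F)).map (e : GL (Fin n) F →* _) = Sc F (Fin n → F) := by
    ext g
    constructor
    · rintro ⟨g, hg, rfl⟩
      obtain ⟨c, hc⟩ := Matrix.GeneralLinearGroup.mem_center_iff_val_mem_range_scalar.mp hg
      refine ⟨c, fun v => ?_⟩
      change g.val.mulVec v = c • v
      rw [← hc]
      simp
    · intro hg
      refine ⟨e.symm g, ?_, e.apply_symm_apply g⟩
      rw [SetLike.mem_coe, Subgroup.mem_center_iff]
      intro h
      apply e.injective
      rw [map_mul, map_mul, e.apply_symm_apply]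
      exact (Sml_sc_comm hg _).symm
  exact ⟨(QuotientGroup.congr _ _ e he).toMonoidHom, (QuotientGroup.congr _ _ e he).injective⟩

end Helper76.CL
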