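import Pool.Agent.Helper76.CL.Elc
import Pool.Agent.Helper76.CL.Cls

/-!
# Symplectic groups
-/

set_option autoImplicit false

namespace Helper76.CL

open Module

/-- the formed space of an alternating form -/
def Sym_FS {F V : Type} [Field F] [AddCommGroup V] [Module F V]
    (B : LinearMap.BilinForm F V) (hB : B.IsAlt) (hn : B.Nondegenerate) : FS F V where
  σ := RingHom.id F
  σσ _ := rfl
  ε := -1
  hε := Or.inr rfl
  τ := 0
  τ_symm _ := rfl
  τ_ker a _ := by
    rw [RingHom.id_apply]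
    ring
  τ_mul _ _ _ := rfl
  f := AddMonoidHom.mk' (fun x => (B x).toAddMonoidHom) (by
    intro x y
    ext z
    simp)
  f_smul_right a x y := by
    simp
  f_smul_left a x y := by
    simp
  f_symm x y := by
    have h := hB.neg_eq x y
    simp only [AddMonoidHom.mk'_apply, LinearMap.toAddMonoidHom_coe, RingHom.id_apply]
    rw [← h]
    ring
  nondeg x hx := by
    exact hn.1 x (fun y => hx y)
  q _ := 0
  q_add _ _ := by
    simp
  q_smul _ _ := by
    simp
  q_self x _ := hB x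
  q_im _ := ⟨0, rfl⟩

theorem exists_sym {F V : Type} [Field F] [Finite F] [AddCommGroup V] [Module F V]
    [FiniteDimensional F V] (B : LinearMap.BilinForm F V) (hB : B.IsAlt) (hn : B.Nondegenerate) :
    ∃ Φ : FS F V, Φ.Isom = SpI B ∧ Φ.Ex3 ∧
      ∀ ν, Φ.WI ν → 7 ≤ ν → Φ.El ≤ ⁅Φ.Isom, Φ.Isom⁆ := by
  refine ⟨Sym_FS B hB hn, ?_, ?_, ?_⟩
  · ext g
    constructor
    · rintro ⟨h1, -⟩
      exact h1
    · intro h1
      exact ⟨h1, fun _ => rfl⟩
  · intro U hU
    have h1 : U ≠ ⊥ := by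
      rintro rfl
      rw [finrank_bot] at hU
      omega
    obtain ⟨x, hx, hx0⟩ := Submodule.exists_mem_ne_zero_of_ne_bot h1
    exact ⟨x, hx, hx0, rfl⟩
  · intro ν hν h7
    by_cases h2 : (2 : F) = 0
    · exact elc_two (Sym_FS B hB hn) hν h7 h2 (fun _ => rfl) (fun _ => rfl) (fun _ => rfl)
    · refine elc (Sym_FS B hB hn) hν h7 ?_
      intro c _
      refine ⟨c / 2, ?_⟩
      change c = c / 2 - (-1) * (c / 2)
      field_simp
      ring

end Helper76.CL
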