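import Pool.Agent.Helper76.CL.Elc
import Pool.Agent.Helper76.CL.Cls

/-!
# Unitary groups
-/

set_option autoImplicit false

namespace Helper76.CL

open Module

theorem Uni_trace {F : Type} [Field F] {σ : F →+* F} (hσ : ∀ a, σ (σ a) = a)
    (hσ1 : ∃ a, σ a ≠ a) : ∃ b t : F, t ≠ 0 ∧ t = b + σ b ∧ σ t = t := by
  obtain ⟨a, ha⟩ := hσ1
  have h1 : ∃ b : F, b + σ b ≠ 0 := by
    by_contra hcon
    push Not at hcon
    have h2 := hcon 1
    rw [map_one] at h2
    have h3 := hcon a
    apply ha
    have h4 : (1 + 1) * a = 0 := by rw [h2, zero_mul]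
    linear_combination h3 - h4
  obtain ⟨b, hb⟩ := h1
  refine ⟨b, b + σ b, hb, rfl, ?_⟩
  rw [map_add, hσ, add_comm]

theorem Uni_norm {F : Type} [Field F] [Finite F] {σ : F →+* F} (hσ : ∀ a, σ (σ a) = a)
    (hσ1 : ∃ a, σ a ≠ a) (c : F) (hc0 : c ≠ 0) (hc : σ c = c) : ∃ t : F, t * σ t = c := by
  classical
  have hfin : Finite Fˣ := inferInstance
  let s : Fˣ →* Fˣ := Units.map (σ : F →* F)
  have hs : ∀ u : Fˣ, ((s u : Fˣ) : F) = σ (u : F) := fun u => rfl
  let N : Fˣ →* Fˣ := MonoidHom.mk' (fun u => u * s u) (by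
    intro u v
    rw [map_mul]
    exact mul_mul_mul_comm u v (s u) (s v))
  let D : Fˣ →* Fˣ := MonoidHom.mk' (fun u => u * (s u)⁻¹) (by
    intro u v
    rw [map_mul, mul_inv]
    exact mul_mul_mul_comm u v (s u)⁻¹ (s v)⁻¹)
  have hN : ∀ u, N u = u * s u := fun u => rfl
  have hD : ∀ u, D u = u * (s u)⁻¹ := fun u => rfl
  have hss : ∀ u, s (s u) = u := by
    intro u
    ext
    rw [hs, hs, hσ]
  have h90 : N.ker ≤ D.range := by
    intro t ht
    rw [MonoidHom.mem_ker, hN] at ht
    have ht' : (t : F) * σ (t : F) = 1 := by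
      have := congrArg (fun u : Fˣ => (u : F)) ht
      simpa [hs] using this
    have h1 : ∃ b : F, b + (t : F) * σ b ≠ 0 := by
      by_contra hcon
      push Not at hcon
      obtain ⟨a, ha⟩ := hσ1
      have h2 := hcon 1
      rw [map_one] at h2
      have h3 := hcon a
      apply ha
      have h4 : (t : F) = -1 := by linear_combination h2
      rw [h4] at h3
      linear_combination -h3
    obtain ⟨b, hb⟩ := h1
    refine ⟨Units.mk0 _ hb, ?_⟩
    rw [hD, mul_inv_eq_iff_eq_mul]
    ext
    rw [Units.val_mul, hs, Units.val_mk0, map_add, map_mul, hσ]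
    linear_combination -b * ht'
  have hker : N.range ≤ D.ker := by
    rintro _ ⟨u, rfl⟩
    rw [MonoidHom.mem_ker, hD, hN, map_mul, hss, mul_inv_eq_one, mul_comm]
  have hc1 : Nat.card N.ker * Nat.card N.range = Nat.card Fˣ := by
    rw [← Subgroup.index_ker]
    exact Subgroup.card_mul_index _
  have hc2 : Nat.card D.ker * Nat.card D.range = Nat.card Fˣ := by
    rw [← Subgroup.index_ker]
    exact Subgroup.card_mul_index _
  have hle : Nat.card N.ker ≤ Nat.card D.range :=
    Subgroup.card_le_of_le h90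
  have hle2 : Nat.card N.range ≤ Nat.card D.ker :=
    Subgroup.card_le_of_le hker
  have hpos : 0 < Nat.card N.ker := Nat.card_pos
  have hpos2 : 0 < Nat.card D.range := Nat.card_pos
  have hle3 : Nat.card D.ker ≤ Nat.card N.range := by
    by_contra hcon
    push Not at hcon
    have h5 : Nat.card N.ker * Nat.card N.range < Nat.card D.ker * Nat.card D.range := by
      calc Nat.card N.ker * Nat.card N.range ≤ Nat.card D.range * Nat.card N.range :=
            Nat.mul_le_mul_right _ hle
        _ < Nat.card D.range * Nat.card D.ker := Nat.mul_lt_mul_of_pos_left hcon hpos2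
        _ = _ := Nat.mul_comm _ _
    omega
  have heq : N.range = D.ker := by
    apply Subgroup.eq_of_le_of_card_ge hker hle3
  have hcm : Units.mk0 c hc0 ∈ N.range := by
    rw [heq, MonoidHom.mem_ker, hD, mul_inv_eq_one]
    ext
    rw [hs, Units.val_mk0, hc]
  obtain ⟨t, ht⟩ := hcm
  refine ⟨t, ?_⟩
  have := congrArg (fun u : Fˣ => (u : F)) ht
  simpa [hN, hs] using this

theorem Uni_ex3 {F V : Type} [Field F] [Finite F] [AddCommGroup V] [Module F V]
    [FiniteDimensional F V] {σ : F →+* F} (hσ : ∀ a, σ (σ a) = a) (hσ1 : ∃ a, σ a ≠ a)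
    (B : V →ₛₗ[σ] V →ₗ[F] F) (hB : ∀ x y, B y x = σ (B x y))
    (U : Submodule F V) (hU : 3 ≤ finrank F U) : ∃ x ∈ U, x ≠ 0 ∧ B x x = 0 := by
  by_contra hcon
  push Not at hcon
  have h1 : ∃ x ∈ U, x ≠ 0 := by
    by_contra h2
    push Not at h2
    have h3 : U = ⊥ := by
      rw [Submodule.eq_bot_iff]
      exact h2
    rw [h3, finrank_bot] at hU
    omega
  obtain ⟨x, hx, hx0⟩ := h1
  have hqx := hcon x hx hx0
  have h2 : ∃ y ∈ U, y ≠ 0 ∧ B x y = 0 := by
    let L : U →ₗ[F] F := (B x).comp U.subtype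
    have h3 := LinearMap.finrank_range_add_finrank_ker L
    have h4 : finrank F (LinearMap.range L) ≤ 1 := by
      calc finrank F (LinearMap.range L) ≤ finrank F F := Submodule.finrank_le _
        _ = 1 := finrank_self F
    have h5 : 0 < finrank F (LinearMap.ker L) := by omega
    have h6 : LinearMap.ker L ≠ ⊥ := by
      intro h7
      rw [h7, finrank_bot] at h5
      omega
    obtain ⟨⟨y, hy⟩, hy1, hy2⟩ := (Submodule.ne_bot_iff _).1 h6
    refine ⟨y, hy, ?_, hy1⟩
    intro h0
    apply hy2
    ext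
    exact h0
  obtain ⟨y, hy, hy0, hxy⟩ := h2
  have hqy := hcon y hy hy0
  have hyx : B y x = 0 := by rw [hB, hxy, map_zero]
  have hsx : σ (B x x) = B x x := (hB x x).symm
  have hsy : σ (B y y) = B y y := (hB y y).symm
  obtain ⟨t, ht⟩ := Uni_norm hσ hσ1 (-(B x x) / B y y)
    (div_ne_zero (neg_ne_zero.2 hqx) hqy) (by rw [map_div₀, map_neg, hsx, hsy])
  have hne : x + t • y ≠ 0 := by
    intro h0
    have h7 : B x (x + t • y) = 0 := by rw [h0, map_zero]
    rw [map_add, map_smul, hxy, smul_zero, add_zero] at h7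
    exact hqx h7
  apply hcon (x + t • y) (U.add_mem hx (U.smul_mem t hy)) hne
  have e1 : B (x + t • y) (x + t • y) =
      B x x + t * B x y + σ t * B y x + σ t * (t * B y y) := by
    have e2 : B (t • y) = σ t • B y := LinearMap.map_smulₛₗ B t y
    rw [map_add B x (t • y), e2, LinearMap.add_apply, LinearMap.smul_apply, map_add (B x),
      map_add (B y), map_smul (B x), map_smul (B y), smul_eq_mul, smul_eq_mul, smul_eq_mul]
    ring
  rw [e1, hxy, hyx, mul_zero, mul_zero, add_zero, add_zero]
  have h8 : σ t * (t * (B y) y) = (t * σ t) * B y y := by ring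
  rw [h8, ht, div_mul_cancel₀ _ hqy, add_neg_cancel]

theorem exists_uni {F V : Type} [Field F] [Finite F] [AddCommGroup V] [Module F V]
    [FiniteDimensional F V] {σ : F →+* F} (hσ : ∀ a, σ (σ a) = a) (hσ1 : ∃ a, σ a ≠ a)
    (B : V →ₛₗ[σ] V →ₗ[F] F) (hB : ∀ x y, B y x = σ (B x y))
    (hn : ∀ x, (∀ y, B x y = 0) → x = 0) :
    ∃ Φ : FS F V, Φ.Isom = UnI B ∧ Φ.Ex3 ∧
      ∀ ν, Φ.WI ν → 7 ≤ ν → Φ.El ≤ ⁅Φ.Isom, Φ.Isom⁆ := by
  obtain ⟨b, t, ht0, ht, hst⟩ := Uni_trace hσ hσ1
  let f : V →+ V →+ F := AddMonoidHom.mk' (fun x => (B x).toAddMonoidHom) (by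
    intro x y
    ext z
    change B (x + y) z = B x z + B y z
    rw [map_add, LinearMap.add_apply])
  have hf : ∀ x y, f x y = B x y := fun x y => rfl
  let τ : F →+ F := AddMonoidHom.mk' (fun a => a + σ a) (by
    intro a c
    rw [map_add]
    ring)
  have hτ : ∀ a, τ a = a + σ a := fun a => rfl
  let Φ : FS F V :=
    { σ := σ
      σσ := hσ
      ε := 1
      hε := Or.inl rfl
      τ := τ
      τ_symm := by
        intro a
        rw [one_mul, hτ, hτ, hσ, add_comm]
      τ_ker := by
        intro a ha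
        rw [hτ] at ha
        rw [one_mul]
        linear_combination ha
      τ_mul := by
        intro a c ha
        rw [hτ] at ha
        rw [hτ, map_mul, map_mul, hσ]
        linear_combination c * σ c * ha
      f := f
      f_smul_right := by
        intro a x y
        rw [hf, hf, map_smul, smul_eq_mul]
      f_smul_left := by
        intro a x y
        rw [hf, hf, LinearMap.map_smulₛₗ, LinearMap.smul_apply, smul_eq_mul]
      f_symm := by
        intro x y
        rw [hf, hf, one_mul, hB]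
      nondeg := hn
      q := fun x => B x x
      q_add := by
        intro x y
        rw [hτ, hf, map_add, map_add, LinearMap.add_apply, LinearMap.add_apply, hB x y]
        ring
      q_smul := by
        intro a x
        rw [map_smul, LinearMap.map_smulₛₗ, LinearMap.smul_apply, smul_eq_mul, smul_eq_mul]
        ring
      q_self := fun x hx => hx
      q_im := by
        intro x
        refine ⟨B x x * b / t, ?_⟩
        have hsx : σ (B x x) = B x x := (hB x x).symm
        rw [hτ, map_div₀, map_mul, hsx, hst, ← add_div, ← mul_add, ← ht, mul_div_cancel_right₀ _ ht0] }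
  have hΦτ : ∀ a, Φ.τ a = a + σ a := hτ
  refine ⟨Φ, ?_, ?_, ?_⟩
  · ext g
    constructor
    · rintro ⟨h1, -⟩
      exact h1
    · intro h1
      exact ⟨h1, fun x => h1 x x⟩
  · intro U hU
    exact Uni_ex3 hσ hσ1 B hB U hU
  · intro ν hν h7
    apply elc Φ hν h7
    intro c hc
    rw [hΦτ] at hc
    refine ⟨-(c * b / t), ?_⟩
    change c = σ (-(c * b / t)) - 1 * -(c * b / t)
    rw [map_neg, map_div₀, map_mul, hst]
    have hc' : σ c = -c := by linear_combination hc
    rw [hc']
    field_simp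
    rw [ht]
    ring

end Helper76.CL
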