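import Pool.Agent.Helper76.CL.Hyp

/-!
# The Witt index
-/

set_option autoImplicit false

namespace Helper76.CL

open Module

theorem wit {F V : Type} [Field F] [AddCommGroup V] [Module F V] [FiniteDimensional F V]
    (Φ : FS F V) (hex : Φ.Ex3) {ν : ℕ} (h : 2 * ν + 2 ≤ finrank F V) : Φ.WI ν := by
  induction ν with
  | zero =>
    refine ⟨⊥, finrank_bot F V, ?_, ?_⟩
    · intro x hx
      rw [Submodule.mem_bot] at hx
      have h1 := Φ.q_smul 0 x
      rw [zero_smul, map_zero, mul_zero, zero_mul] at h1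
      rw [hx]
      exact h1
    · intro x hx y _
      rw [Submodule.mem_bot] at hx
      rw [hx, map_zero]
      rfl
  | succ ν ih =>
    obtain ⟨E, hE, hTS⟩ := ih (by omega)
    have hle : E ≤ Φ.perp E := fun y hy u hu => hTS.2 u hu y hy
    have hperp := Φ.finrank_perp E
    obtain ⟨C, hC⟩ := exists_isCompl E
    have hinf : E ⊓ (C ⊓ Φ.perp E) = ⊥ := by
      rw [← inf_assoc, hC.inf_eq_bot, bot_inf_eq]
    have hsup : E ⊔ (C ⊓ Φ.perp E) = Φ.perp E := by
      rw [← sup_inf_assoc_of_le C hle, hC.sup_eq_top, top_inf_eq]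
    have hdim := Submodule.finrank_sup_add_finrank_inf_eq E (C ⊓ Φ.perp E)
    rw [hinf, hsup, finrank_bot] at hdim
    obtain ⟨x, hx, hx0, hq⟩ := hex (C ⊓ Φ.perp E) (by omega)
    have hxE : x ∉ E := by
      intro hxE
      have h1 : x ∈ E ⊓ (C ⊓ Φ.perp E) := ⟨hxE, hx⟩
      rw [hinf, Submodule.mem_bot] at h1
      exact hx0 h1
    refine ⟨E ⊔ Submodule.span F {x}, ?_, Φ.TS_sup hTS hq (fun y hy => hx.2 y hy)⟩
    have h2 : E ⊓ Submodule.span F {x} = ⊥ := by
      rw [Submodule.eq_bot_iff]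
      rintro z ⟨hz1, hz2⟩
      obtain ⟨c, rfl⟩ := Submodule.mem_span_singleton.1 hz2
      by_cases hc : c = 0
      · rw [hc, zero_smul]
      · exfalso
        apply hxE
        have h3 := E.smul_mem c⁻¹ hz1
        rw [smul_smul, inv_mul_cancel₀ hc, one_smul] at h3
        exact h3
    have h4 := Submodule.finrank_sup_add_finrank_inf_eq E (Submodule.span F {x})
    rw [h2, finrank_bot, finrank_span_singleton hx0, hE] at h4
    omega

end Helper76.CL
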