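import Pool.Agent.Helper76.IG.Main
import Pool.Agent.Helper76.CL.Glue
import Pool.Agent.Helper76.CL.Lkt
import Pool.Agent.Helper76.CL.Psl
import Pool.Agent.Helper76.CL.Sml
import Pool.Agent.Helper76.CL.Pkt
import Pool.Agent.Helper76.CL.Wit
import Pool.Agent.Helper76.CL.Omr
import Pool.Agent.Helper76.CL.Sym
import Pool.Agent.Helper76.CL.Uni
import Pool.Agent.Helper76.CL.Ort

/-!
# The reduction to groups that are not alternating or classical
-/

set_option autoImplicit false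

namespace Helper76.CL

open Module Helper76.IG

/-- a group with a realisation on `V` embeds in `PGL(V)` -/
theorem rl_embeds {F V S : Type} [Field F] [AddCommGroup V] [Module F V] [Group S]
    (ρ : Rl F V S) : Embeds S (PG F V) := by
  choose l hl using ρ.surj
  have hk : ∀ g h : ρ.T, ρ.π g = ρ.π h →
      (QuotientGroup.mk (g : V ≃ₗ[F] V) : PG F V) = QuotientGroup.mk (h : V ≃ₗ[F] V) := by
    intro g h hgh
    rw [QuotientGroup.eq]
    have h1 : ρ.π (g⁻¹ * h) = 1 := by rw [map_mul, map_inv, hgh, inv_mul_cancel]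
    exact (ρ.ker _).1 h1
  refine ⟨MonoidHom.mk' (fun s => (QuotientGroup.mk (l s : V ≃ₗ[F] V) : PG F V)) ?_, ?_⟩
  · intro s t
    have h1 : ρ.π (l (s * t)) = ρ.π (l s * l t) := by rw [map_mul, hl, hl, hl]
    exact hk _ _ h1
  · intro s t hst
    have h1 : (QuotientGroup.mk (l s : V ≃ₗ[F] V) : PG F V) =
      QuotientGroup.mk (l t : V ≃ₗ[F] V) := hst
    rw [QuotientGroup.eq] at h1
    have h2 : ρ.π ((l s)⁻¹ * l t) = 1 := (ρ.ker _).2 h1
    rw [map_mul, map_inv, hl, hl] at h2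
    exact inv_mul_eq_one.1 h2

/-- transport of realisations -/
def Rl.congr {F V S S' : Type} [Field F] [AddCommGroup V] [Module F V] [Group S] [Group S']
    (ρ : Rl F V S) (e : S ≃* S') : Rl F V S' where
  T := ρ.T
  π := e.toMonoidHom.comp ρ.π
  surj := e.surjective.comp ρ.surj
  ker g := by
    rw [← ρ.ker]
    change e (ρ.π g) = 1 ↔ _
    exact map_eq_one_iff e e.injective

/-- the dimension above which classical groups are excluded by `Stb` -/
def bd (p q : ℕ) : ℕ := 200 * p ^ 2 * q ^ 2 + 2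

theorem polar_case {F V S : Type} [Field F] [Finite F] [AddCommGroup V] [Module F V]
    [FiniteDimensional F V] [Group S] (Φ : FS F V) (hex : Φ.Ex3)
    (hcomm : ∀ ν, Φ.WI ν → 7 ≤ ν → Φ.El ≤ ⁅Φ.Isom, Φ.Isom⁆) (e : Om Φ.Isom ≃* S) {p q : ℕ}
    (hp : p.Prime) (hq : q.Prime) :
    Stb p q S ∨ ∃ ρ : Rl F V S, finrank F V ≤ bd p q := by
  obtain ⟨ρ, hρ⟩ := omr Φ.Isom
  rcases Nat.lt_or_ge (finrank F V) (bd p q) with h | h
  · exact Or.inr ⟨ρ.congr e, h.le⟩
  · left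
    have hν : Φ.WI (100 * p ^ 2 * q ^ 2) := by
      apply wit Φ hex
      unfold bd at h
      have : 2 * (100 * p ^ 2 * q ^ 2) = 200 * p ^ 2 * q ^ 2 := by ring
      omega
    have h7 : 7 ≤ 100 * p ^ 2 * q ^ 2 := by
      have h1 : 1 ≤ p ^ 2 := Nat.one_le_pow _ _ hp.pos
      have h2 : 1 ≤ q ^ 2 := Nat.one_le_pow _ _ hq.pos
      nlinarith [Nat.mul_le_mul h1 h2]
    have hE : Φ.El ≤ ρ.T := by rw [hρ]; exact hcomm _ hν h7
    have hI : ρ.T ≤ Φ.Isom := by rw [hρ]; exact Subgroup.commutator_le_self _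
    exact Stb.congr e (pkt Φ ρ hE hI hp hq hν)

/-- classical groups satisfy `Stb` or have small dimension -/
theorem classical {S : Type} [Group S] {p q : ℕ} (hp : p.Prime) (hq : q.Prime) (hpq : p ≠ q)
    (h : IsPSL S ∨ IsPSp S ∨ IsPSU S ∨ IsPOm S) :
    Stb p q S ∨ ∃ (F V : Type) (_ : Field F) (_ : AddCommGroup V) (_ : Module F V)
      (_ : FiniteDimensional F V) (_ : Rl F V S), finrank F V ≤ bd p q := by
  rcases h with h | h | h | h
  · obtain ⟨F, _, _, n, ⟨e⟩⟩ := h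
    obtain ⟨ρ, hρ⟩ := exists_psl F n
    rcases Nat.lt_or_ge n (bd p q) with hn | hn
    · right
      exact ⟨F, Fin n → F, inferInstance, inferInstance, inferInstance, inferInstance,
        ρ.congr e.symm, by rw [finrank_fin_fun]; exact hn.le⟩
    · left
      refine Stb.congr e.symm (lkt ρ hρ hp hq hpq ?_)
      rw [finrank_fin_fun]
      unfold bd at hn
      have h1 : 1 ≤ p ^ 2 := Nat.one_le_pow _ _ hp.pos
      have h2 : 1 ≤ q ^ 2 := Nat.one_le_pow _ _ hq.pos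
      have h3 := Nat.mul_le_mul h1 h2
      nlinarith
  · obtain ⟨F, V, _, _, _, _, _, B, h1, h2, ⟨e⟩⟩ := h
    obtain ⟨Φ, hΦ, hex, hc⟩ := exists_sym B h1 h2
    rw [← hΦ] at e
    rcases polar_case Φ hex hc e.symm hp hq with h3 | ⟨ρ, h3⟩
    · exact Or.inl h3
    · exact Or.inr ⟨F, V, inferInstance, inferInstance, inferInstance, inferInstance, ρ, h3⟩
  · obtain ⟨F, V, _, _, _, _, _, σ, B, h1, h2, h3, h4, ⟨e⟩⟩ := h
    obtain ⟨Φ, hΦ, hex, hc⟩ := exists_uni h1 h2 B h3 h4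
    rw [← hΦ] at e
    rcases polar_case Φ hex hc e.symm hp hq with h3 | ⟨ρ, h3⟩
    · exact Or.inl h3
    · exact Or.inr ⟨F, V, inferInstance, inferInstance, inferInstance, inferInstance, ρ, h3⟩
  · obtain ⟨F, V, _, _, _, _, _, Q, h1, ⟨e⟩⟩ := h
    obtain ⟨Φ, hΦ, hex, hc⟩ := exists_ort Q h1
    rw [← hΦ] at e
    rcases polar_case Φ hex hc e.symm hp hq with h3 | ⟨ρ, h3⟩
    · exact Or.inl h3
    · exact Or.inr ⟨F, V, inferInstance, inferInstance, inferInstance, inferInstance, ρ, h3⟩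

/-- **The reduction.** -/
theorem reduction_cl {p q : ℕ} (hp : p.Prime) (hq : q.Prime) (hpq : p ≠ q) :
    (∀ (H : Type) [Group H] [Finite H], ∃ (G : Type) (_ : Group G) (_ : Finite G),
      IsIG p q G ∧ Embeds H G) ↔
    ∀ m : ℕ, ∃ (G : Type) (_ : Group G) (_ : Finite G) (S : Subgroup G), S.Normal ∧
      IsSimpleGroup S ∧ Subgroup.centralizer (S : Set G) = ⊥ ∧ IsIG p q G ∧
      p ∣ Nat.card S ∧ q ∣ Nat.card S ∧
      Embeds (alternatingGroup (Fin m)) S ∧
      (∀ n : ℕ, IsEmpty (S ≃* alternatingGroup (Fin n))) ∧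
      ¬ IsPSL S ∧ ¬ IsPSp S ∧ ¬ IsPSU S ∧ ¬ IsPOm S ∧
      ∀ (F : Type) [Field F] (n : ℕ), n ≤ m →
        ¬ Embeds S (GL (Fin n) F ⧸ Subgroup.center (GL (Fin n) F)) := by
  rw [reduction hp hq hpq]
  constructor
  · intro h m
    set N : ℕ := max m (bd p q) with hN
    obtain ⟨G, i1, i2, S, h1, h2, h3, h4, h5, h6, h7, h8⟩ := h (max m (5 * (N ^ 2 + 1)))
    have hAm : Embeds (alternatingGroup (Fin m)) S :=
      (alt_mono (le_max_left _ _)).trans h8
    have hAN : Embeds (alternatingGroup (Fin (5 * (N ^ 2 + 1)))) S :=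
      (alt_mono (le_max_right _ _)).trans h8
    have hcl : ¬ (IsPSL S ∨ IsPSp S ∨ IsPSU S ∨ IsPOm S) := by
      intro hc
      rcases classical hp hq hpq hc with hs | ⟨F, V, _, _, _, _, ρ, hd⟩
      · exact not_isIG S hs h7
      · exact sml (hd.trans (le_max_right _ _)) le_rfl (hAN.trans (rl_embeds ρ))
    refine ⟨G, i1, i2, S, h1, h2, h3, h7, h5, h6, hAm, h4, fun hc => hcl (Or.inl hc),
      fun hc => hcl (Or.inr (Or.inl hc)), fun hc => hcl (Or.inr (Or.inr (Or.inl hc))),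
      fun hc => hcl (Or.inr (Or.inr (Or.inr hc))), ?_⟩
    intro F _ n hn hS
    refine sml (F := F) (V := Fin n → F) (n := N) ?_ le_rfl
      ((hAN.trans hS).trans (embeds_pg F n))
    rw [finrank_fin_fun]
    exact hn.trans (le_max_left _ _)
  · intro h m
    obtain ⟨G, i1, i2, S, h1, h2, h3, h7, h5, h6, h8, h4, -⟩ := h m
    exact ⟨G, i1, i2, S, h1, h2, h3, h4, h5, h6, h7, h8⟩

end Helper76.CL
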