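import Pool.Agent.Helper76.CL.Defs

/-!
# Fixed spaces of subgroups of order a power of the characteristic
-/

set_option autoImplicit false

namespace Helper76.CL

open Module

section LiftAux

variable {F V S : Type} [Field F] [AddCommGroup V] [Module F V] [Group S]

theorem Lift_finite_gl [Finite V] : Finite (V ≃ₗ[F] V) :=
  Finite.of_injective (fun g : V ≃ₗ[F] V => (g : V → V)) fun g h hgh =>
    LinearEquiv.ext fun v => congrFun hgh v

/-- the full preimage of `K` -/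
def Lift_G (ρ : Rl F V S) (K : Subgroup S) : Subgroup ρ.T := K.comap ρ.π

theorem Lift_nilp [Finite V] (ρ : Rl F V S) (r : ℕ) [Fact r.Prime] (K : Subgroup S)
    (hK : IsPGroup r K) : Group.IsNilpotent (Lift_G ρ K) := by
  have hfin : Finite (V ≃ₗ[F] V) := Lift_finite_gl
  let f : Lift_G ρ K →* K :=
    { toFun := fun g => ⟨ρ.π g.1, g.2⟩
      map_one' := Subtype.ext (map_one ρ.π)
      map_mul' := fun a b => Subtype.ext (map_mul ρ.π _ _) }
  have hfs : Function.Surjective f := by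
    rintro ⟨k, hk⟩
    obtain ⟨g, hg⟩ := ρ.surj k
    refine ⟨⟨g, ?_⟩, Subtype.ext hg⟩
    change ρ.π g ∈ K
    rw [hg]
    exact hk
  have : Finite K := Finite.of_surjective f hfs
  have : Group.IsNilpotent K := hK.isNilpotent
  refine Subgroup.isNilpotent_of_ker_le_center f ?_
  intro z hz
  rw [MonoidHom.mem_ker] at hz
  have h1 : ρ.π z.1 = 1 := congrArg Subtype.val hz
  obtain ⟨c, hc⟩ := (ρ.ker _).1 h1
  rw [Subgroup.mem_center_iff]
  intro g
  apply Subtype.ext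
  apply Subtype.ext
  apply LinearEquiv.ext
  intro v
  change (g.1 : V ≃ₗ[F] V) ((z.1 : V ≃ₗ[F] V) v) = (z.1 : V ≃ₗ[F] V) ((g.1 : V ≃ₗ[F] V) v)
  rw [hc, hc, map_smul]

/-- the fixed space of all `r`-elements over `K` -/
def Lift_W (ρ : Rl F V S) (K : Subgroup S) (r : ℕ) : Submodule F V where
  carrier := {v | ∀ g : ρ.T, ρ.π g ∈ K → (∃ j : ℕ, g ^ r ^ j = 1) → (g : V ≃ₗ[F] V) v = v}
  zero_mem' := fun g _ _ => map_zero _
  add_mem' := by
    intro x y hx hy g h1 h2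
    rw [map_add, hx g h1 h2, hy g h1 h2]
  smul_mem' := by
    intro c x hx g h1 h2
    rw [map_smul, hx g h1 h2]

theorem Lift_mem_W {ρ : Rl F V S} {K : Subgroup S} {r : ℕ} {v : V} : v ∈ Lift_W ρ K r ↔
    ∀ g : ρ.T, ρ.π g ∈ K → (∃ j : ℕ, g ^ r ^ j = 1) → (g : V ≃ₗ[F] V) v = v := Iff.rfl

end LiftAux

theorem lift {F V S : Type} [Field F] [Finite F] [AddCommGroup V] [Module F V]
    [FiniteDimensional F V] [Group S] (r : ℕ) [Fact r.Prime] [CharP F r] (ρ : Rl F V S)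
    (K : Subgroup S) (hK : IsPGroup r K) (hK1 : K ≠ ⊥) :
    ∃ W : Submodule F V, W ≠ ⊤ ∧
      (∀ g : ρ.T, (∀ k ∈ K, ρ.π g * k * (ρ.π g)⁻¹ ∈ K) → gm (g : V ≃ₗ[F] V) W = W) ∧
      (∀ Y : Submodule F V, Y ≠ ⊥ → (∀ g : ρ.T, ρ.π g ∈ K → gm (g : V ≃ₗ[F] V) Y = Y) →
        Y ⊓ W ≠ ⊥) ∧
      (∀ g : ρ.T, ρ.π g ∈ K → (∃ j : ℕ, g ^ r ^ j = 1) → ∀ v ∈ W, (g : V ≃ₗ[F] V) v = v) := by
  classical
  have hr : r.Prime := Fact.out
  have hV : Finite V := Module.finite_of_finite F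
  have hfin : Finite (V ≃ₗ[F] V) := Lift_finite_gl
  have hTfin : Finite ρ.T := inferInstance
  have hSfin : Finite S := Finite.of_surjective ρ.π ρ.surj
  refine ⟨Lift_W ρ K r, ?_, ?_, ?_, ?_⟩
  · -- W ≠ ⊤
    intro htop
    obtain ⟨k, hkK, hk1⟩ : ∃ k ∈ K, k ≠ 1 := by
      by_contra hcon
      push Not at hcon
      exact hK1 ((Subgroup.eq_bot_iff_forall K).2 hcon)
    obtain ⟨g, hg⟩ := ρ.surj k
    obtain ⟨b, hb⟩ := hK ⟨k, hkK⟩
    have hb' : k ^ r ^ b = 1 := congrArg Subtype.val hb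
    have hog : 0 < orderOf g := orderOf_pos g
    obtain ⟨a, m', hm', hgm⟩ := Nat.exists_eq_pow_mul_and_not_dvd hog.ne' r hr.ne_one
    have hcop : Nat.Coprime (r ^ b) m' := Nat.Coprime.pow_left _ ((Nat.Prime.coprime_iff_not_dvd hr).2 hm')
    obtain ⟨u, hu1, hu2⟩ := Nat.chineseRemainder hcop 1 0
    have hgu : (g ^ u) ^ r ^ a = 1 := by
      rw [← pow_mul, ← orderOf_dvd_iff_pow_eq_one, hgm, mul_comm u]
      exact Nat.mul_dvd_mul_left _ ((Nat.modEq_zero_iff_dvd).1 hu2)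
    have hku : k ^ u = k := by
      have h1 : k ^ u = k ^ 1 := by
        rw [pow_eq_pow_iff_modEq]
        exact hu1.of_dvd (orderOf_dvd_of_pow_eq_one hb')
      rw [h1, pow_one]
    have hpi : ρ.π (g ^ u) = k := by rw [map_pow, hg, hku]
    have hid : ∀ v : V, ((g ^ u : ρ.T) : V ≃ₗ[F] V) v = v := by
      intro v
      have hv : v ∈ Lift_W ρ K r := by rw [htop]; exact Submodule.mem_top
      exact hv (g ^ u) (by rw [hpi]; exact hkK) ⟨a, hgu⟩
    have h2 : ρ.π (g ^ u) = 1 := (ρ.ker _).2 ⟨1, fun v => by rw [hid v, one_smul]⟩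
    rw [hpi] at h2
    exact hk1 h2
  · -- invariance
    intro g hgK
    have hgK' : ∀ k ∈ K, (ρ.π g)⁻¹ * k * ρ.π g ∈ K := by
      have hKf : Finite K := inferInstance
      let c : K → K := fun k => ⟨ρ.π g * k.1 * (ρ.π g)⁻¹, hgK k.1 k.2⟩
      have hc : Function.Injective c := by
        intro x y hxy
        have := congrArg Subtype.val hxy
        apply Subtype.ext
        exact mul_left_cancel (mul_right_cancel this)
      have hs := Finite.surjective_of_injective hc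
      intro k hk
      obtain ⟨k', hk'⟩ := hs ⟨k, hk⟩
      have h3 : ρ.π g * k'.1 * (ρ.π g)⁻¹ = k := congrArg Subtype.val hk'
      rw [← h3]
      have h4 : (ρ.π g)⁻¹ * (ρ.π g * k'.1 * (ρ.π g)⁻¹) * ρ.π g = k'.1 := by group
      rw [h4]
      exact k'.2
    have key : ∀ t : ρ.T, (∀ k ∈ K, (ρ.π t)⁻¹ * k * ρ.π t ∈ K) → ∀ v ∈ Lift_W ρ K r,
        (t : V ≃ₗ[F] V) v ∈ Lift_W ρ K r := by
      intro t ht v hv h hh1 hh2
      obtain ⟨j, hj⟩ := hh2
      have h5 : ((t⁻¹ * h * t : ρ.T) : V ≃ₗ[F] V) v = v := by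
        apply hv
        · rw [map_mul, map_mul, map_inv]
          exact ht _ hh1
        · refine ⟨j, ?_⟩
          have h6 : (t⁻¹ * h * t) ^ r ^ j = t⁻¹ * h ^ r ^ j * t := by
            have := conj_pow (i := r ^ j) (a := t⁻¹) (b := h)
            rw [inv_inv] at this
            exact this
          rw [h6, hj]
          group
      have h7 : (t : V ≃ₗ[F] V) (((t⁻¹ * h * t : ρ.T) : V ≃ₗ[F] V) v) =
          (h : V ≃ₗ[F] V) ((t : V ≃ₗ[F] V) v) := by
        have h8 : ((t * (t⁻¹ * h * t) : ρ.T) : V ≃ₗ[F] V) = ((h * t : ρ.T) : V ≃ₗ[F] V) := by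
          congr 1
          group
        have h9 := congrArg (fun φ : V ≃ₗ[F] V => φ v) h8
        exact h9
      rw [← h7, h5]
    ext v
    rw [mem_gm]
    constructor
    · intro h
      have h1 := key g hgK' _ h
      have h2 : (g : V ≃ₗ[F] V) ((g : V ≃ₗ[F] V)⁻¹ v) = v := (g : V ≃ₗ[F] V).apply_symm_apply v
      rw [h2] at h1
      exact h1
    · intro h
      have h1 := key g⁻¹ (by
        intro k hk
        rw [map_inv, inv_inv]
        exact hgK k hk) _ h
      exact h1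
  · -- Y ⊓ W ≠ ⊥
    intro Y hY hYK
    have hnil : Group.IsNilpotent (Lift_G ρ K) := Lift_nilp ρ r K hK
    let Q : Sylow r (Lift_G ρ K) := default
    have hQn : (Q : Subgroup (Lift_G ρ K)).Normal := inferInstance
    have hQall : ∀ g : ρ.T, ∀ hg : ρ.π g ∈ K, (∃ j : ℕ, g ^ r ^ j = 1) →
        (⟨g, hg⟩ : Lift_G ρ K) ∈ (Q : Subgroup (Lift_G ρ K)) := by
      rintro g hg ⟨j, hj⟩
      have hz : IsPGroup r (Subgroup.zpowers (⟨g, hg⟩ : Lift_G ρ K)) := by
        rintro ⟨x, hx⟩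
        obtain ⟨i, rfl⟩ := Subgroup.mem_zpowers_iff.1 hx
        refine ⟨j, ?_⟩
        apply Subtype.ext
        change ((⟨g, hg⟩ : Lift_G ρ K) ^ i) ^ r ^ j = 1
        rw [← zpow_natCast, ← zpow_mul, mul_comm, zpow_mul, zpow_natCast]
        have h1 : (⟨g, hg⟩ : Lift_G ρ K) ^ r ^ j = 1 := Subtype.ext hj
        rw [h1, one_zpow]
      obtain ⟨P, hP⟩ := hz.exists_le_sylow
      have hPQ : P = Q := by
        letI := Sylow.unique_of_normal Q hQn
        exact Subsingleton.elim _ _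
      rw [← hPQ]
      exact hP (Subgroup.mem_zpowers _)
    have hYmem : ∀ g : Lift_G ρ K, ∀ y ∈ Y, (g.1 : V ≃ₗ[F] V) y ∈ Y := by
      intro g y hy
      have h1 := hYK g.1 g.2
      rw [← h1]
      exact apply_mem_gm.2 hy
    letI act : MulAction Q Y :=
      { smul := fun g y => ⟨(g.1.1 : V ≃ₗ[F] V) y.1, hYmem g.1 y.1 y.2⟩
        one_smul := fun y => Subtype.ext rfl
        mul_smul := fun g h y => Subtype.ext rfl }
    have hsmul : ∀ (g : Q) (y : Y), ((g • y : Y) : V) = (g.1.1 : V ≃ₗ[F] V) y.1 := fun g y => rfl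
    have hYfin : Finite Y := inferInstance
    have hdvd : r ∣ Nat.card Y := by
      have hnt : Nontrivial Y := (Submodule.nontrivial_iff_ne_bot).2 hY
      have hF : Fintype F := Fintype.ofFinite F
      obtain ⟨n, hn⟩ : ∃ n : ℕ, Nat.card F = r ^ n ∧ 0 < n := by
        obtain ⟨n, hn1, hn2⟩ := FiniteField.card F r
        exact ⟨n, by rw [Nat.card_eq_fintype_card]; exact hn2, n.pos⟩
      have h1 : Nat.card Y = Nat.card F ^ finrank F Y := Module.natCard_eq_pow_finrank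
      have h2 : 0 < finrank F Y := finrank_pos
      rw [h1, hn.1, ← pow_mul]
      exact dvd_pow_self r (Nat.mul_pos hn.2 h2).ne'
    have h0 : (0 : Y) ∈ MulAction.fixedPoints Q Y := by
      intro g
      apply Subtype.ext
      rw [hsmul]
      exact map_zero _
    obtain ⟨y, hy, hy0⟩ :=
      Q.isPGroup'.exists_fixed_point_of_prime_dvd_card_of_fixed_point Y hdvd h0
    intro hbot
    have hyW : y.1 ∈ Lift_W ρ K r := by
      intro g hg hj
      have h1 := hy ⟨⟨g, hg⟩, hQall g hg hj⟩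
      exact congrArg Subtype.val h1
    have hmem : y.1 ∈ Y ⊓ Lift_W ρ K r := ⟨y.2, hyW⟩
    rw [hbot, Submodule.mem_bot] at hmem
    exact hy0 (Subtype.ext hmem.symm)
  · intro g h1 h2 v hv
    exact hv g h1 h2

end Helper76.CL
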