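import Pool.Agent.Helper76.CL.Hyp

/-!
# Transitivity on pairs of singular points
-/

set_option autoImplicit false

namespace Helper76.CL

open Module

variable {F V : Type} [Field F] [AddCommGroup V] [Module F V] [FiniteDimensional F V]
  (Φ : FS F V) {ν : ℕ}

theorem Tr2_sing {U : Submodule F V} (hTS : Φ.TS U) (φ : V →ₗ[F] F) {x : V} (hx : x ∈ U)
    (hφ : φ x ≠ 0) : ∃ e, Φ.q e = 0 ∧ ∀ u ∈ U, Φ.f e u = φ u :=
  Φ.exists_sing U (φ.comp U.subtype) x hx (hTS.1 x hx) (fun u hu => hTS.2 u hu x hx) hφ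

omit [FiniteDimensional F V] in
theorem Tr2_fun {p : Submodule F V} {x : V} (hx : x ∉ p) :
    ∃ φ : V →ₗ[F] F, φ x = 1 ∧ ∀ v ∈ p, φ v = 0 := by
  obtain ⟨f, hf, hp⟩ := Submodule.exists_le_ker_of_notMem hx
  refine ⟨(f x)⁻¹ • f, ?_, fun v hv => ?_⟩
  · rw [LinearMap.smul_apply, smul_eq_mul, inv_mul_cancel₀ hf]
  · have : f v = 0 := hp hv
    rw [LinearMap.smul_apply, this, smul_zero]

omit [FiniteDimensional F V] in
theorem Tr2_u {e w : V} (he : Φ.q e = 0) (hw : Φ.q w = 0) (hew : Φ.f e w = 0) :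
    ∃ g ∈ Φ.El, ∀ v, g v = v + Φ.f e v • w - (Φ.ε * Φ.f w v) • e :=
  Φ.exists_u he hw hew

/-- the basic move, fixing `x` -/
theorem Tr2_step {x y z : V} (hx : Φ.q x = 0) (hy : Φ.q y = 0) (hz : Φ.q z = 0)
    (hxy : Φ.f x y = 0) (hxz : Φ.f x z = 0) (hyz : Φ.f y z = 0)
    (hyx : y ∉ Submodule.span F {x}) (hzx : z ∉ Submodule.span F {x} ⊔ Submodule.span F {y}) :
    ∃ g ∈ Φ.El, g x = x ∧ g y = z := by
  set U : Submodule F V := Submodule.span F {x} ⊔ Submodule.span F {y} ⊔ Submodule.span F {z}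
    with hU
  have hTS2 : Φ.TS (Submodule.span F {x} ⊔ Submodule.span F {y}) := by
    refine Φ.TS_sup (Φ.TS_span hx) hy ?_
    intro v hv
    obtain ⟨c, rfl⟩ := Submodule.mem_span_singleton.1 hv
    rw [Φ.f_smul_left, hxy, mul_zero]
  have hTS : Φ.TS U := by
    refine Φ.TS_sup hTS2 hz ?_
    intro v hv
    obtain ⟨v1, h1, v2, h2, rfl⟩ := Submodule.mem_sup.1 hv
    obtain ⟨c, rfl⟩ := Submodule.mem_span_singleton.1 h1
    obtain ⟨d, rfl⟩ := Submodule.mem_span_singleton.1 h2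
    rw [map_add, AddMonoidHom.add_apply, Φ.f_smul_left, Φ.f_smul_left, hxz, hyz, mul_zero,
      mul_zero, add_zero]
  have hxU : x ∈ U := (le_sup_left : _ ≤ U)
    ((le_sup_left : _ ≤ Submodule.span F {x} ⊔ Submodule.span F {y})
      (Submodule.mem_span_singleton_self x))
  have hyU : y ∈ U := (le_sup_left : _ ≤ U)
    ((le_sup_right : _ ≤ Submodule.span F {x} ⊔ Submodule.span F {y})
      (Submodule.mem_span_singleton_self y))
  have hzU : z ∈ U := (le_sup_right : _ ≤ U) (Submodule.mem_span_singleton_self z)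
  have hyp : y ∉ Submodule.span F {x} ⊔ Submodule.span F {z - y} := by
    intro h
    obtain ⟨v1, h1, v2, h2, h3⟩ := Submodule.mem_sup.1 h
    obtain ⟨a, rfl⟩ := Submodule.mem_span_singleton.1 h1
    obtain ⟨b, rfl⟩ := Submodule.mem_span_singleton.1 h2
    by_cases hb : b = 0
    · rw [hb, zero_smul, add_zero] at h3
      exact hyx (Submodule.mem_span_singleton.2 ⟨a, h3⟩)
    · apply hzx
      have h4 : z = b⁻¹ • ((1 + b) • y - a • x) := by
        have h5 : b • z = (1 + b) • y - a • x := by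
          have h6 : b • (z - y) = y - a • x := eq_sub_of_add_eq' h3
          rw [smul_sub, sub_eq_iff_eq_add] at h6
          rw [h6, add_smul, one_smul]
          abel
        rw [← h5, smul_smul, inv_mul_cancel₀ hb, one_smul]
      rw [h4]
      exact Submodule.smul_mem _ _ (Submodule.sub_mem _
        ((le_sup_right : _ ≤ Submodule.span F {x} ⊔ Submodule.span F {y})
          (Submodule.smul_mem _ _ (Submodule.mem_span_singleton_self y)))
        ((le_sup_left : _ ≤ Submodule.span F {x} ⊔ Submodule.span F {y})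
          (Submodule.smul_mem _ _ (Submodule.mem_span_singleton_self x))))
  obtain ⟨φ, hφy, hφ⟩ := Tr2_fun hyp
  have hφx : φ x = 0 := hφ x ((le_sup_left : _ ≤ Submodule.span F {x} ⊔ Submodule.span F {z - y})
    (Submodule.mem_span_singleton_self x))
  have hφz : φ (z - y) = 0 := hφ _
    ((le_sup_right : _ ≤ Submodule.span F {x} ⊔ Submodule.span F {z - y})
      (Submodule.mem_span_singleton_self _))
  obtain ⟨e, he, hef⟩ := Tr2_sing Φ hTS φ hyU (by rw [hφy]; exact one_ne_zero)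
  have hwU : z - y ∈ U := U.sub_mem hzU hyU
  obtain ⟨g, hg, hgv⟩ := Tr2_u Φ he (hTS.1 _ hwU) (by rw [hef _ hwU, hφz])
  refine ⟨g, hg, ?_, ?_⟩
  · rw [hgv, hef x hxU, hφx, hTS.2 _ hwU x hxU]
    simp
  · rw [hgv, hef y hyU, hφy, hTS.2 _ hwU y hyU]
    simp

theorem tr_pt (hν : Φ.WI ν) (h7 : 7 ≤ ν) {x y : V} (hx : Φ.q x = 0) (hy : Φ.q y = 0)
    (hx0 : x ≠ 0) (hy0 : y ≠ 0) : ∃ g ∈ Φ.El, g x = y := by
  have hfr : finrank F (Submodule.span F {x} ⊔ Submodule.span F {y} : Submodule F V) ≤ 2 := by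
    have h1 := Submodule.finrank_add_le_finrank_add_finrank (Submodule.span F {x})
      (Submodule.span F {y})
    have h2 := finrank_span_singleton (K := F) hx0
    have h3 := finrank_span_singleton (K := F) hy0
    omega
  obtain ⟨z, hz, hqz, hfz⟩ := Φ.exists_perp hν (Submodule.span F {x} ⊔ Submodule.span F {y})
    (Submodule.span F {x} ⊔ Submodule.span F {y}) (by omega)
  have hxm : x ∈ Submodule.span F {x} ⊔ Submodule.span F {y} :=
    (le_sup_left : _ ≤ Submodule.span F {x} ⊔ Submodule.span F {y})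
      (Submodule.mem_span_singleton_self x)
  have hym : y ∈ Submodule.span F {x} ⊔ Submodule.span F {y} :=
    (le_sup_right : _ ≤ Submodule.span F {x} ⊔ Submodule.span F {y})
      (Submodule.mem_span_singleton_self y)
  have hq0 : Φ.q 0 = 0 := by
    have := Φ.q_smul 0 x
    rwa [zero_smul, zero_mul, zero_mul] at this
  obtain ⟨g, hg, _, hgx⟩ := Tr2_step Φ (x := 0) (y := x) (z := z) hq0 hx hqz (by simp) (by simp)
    (hfz x hxm) (by simpa using hx0) (by
      rw [Submodule.span_zero_singleton, bot_sup_eq]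
      intro h
      exact hz ((le_sup_left : _ ≤ Submodule.span F {x} ⊔ Submodule.span F {y}) h))
  have hz0 : z ≠ 0 := by
    rintro rfl
    exact hz (Submodule.zero_mem _)
  obtain ⟨g', hg', _, hgz⟩ := Tr2_step Φ (x := 0) (y := z) (z := y) hq0 hqz hy (by simp) (by simp)
    (Φ.f_eq_zero_symm (hfz y hym)) (by simpa using hz0) (by
      rw [Submodule.span_zero_singleton, bot_sup_eq]
      intro h
      obtain ⟨c, hc⟩ := Submodule.mem_span_singleton.1 h
      have hc0 : c ≠ 0 := by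
        rintro rfl
        rw [zero_smul] at hc
        exact hy0 hc.symm
      apply hz
      have : z = c⁻¹ • y := by rw [← hc, smul_smul, inv_mul_cancel₀ hc0, one_smul]
      rw [this]
      exact Submodule.smul_mem _ _ hym)
  refine ⟨g' * g, Φ.El.mul_mem hg' hg, ?_⟩
  change g' (g x) = y
  rw [hgx, hgz]

theorem Tr2_span (x y : V) (hν : Φ.WI ν) (h7 : 7 ≤ ν)
    (hy0 : y ≠ 0) (hx0 : x ≠ 0) :
    Submodule.span F {v | v ∈ Φ.perp (Submodule.span F {x} ⊔ Submodule.span F {y}) ∧ Φ.q v = 0} =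
      Φ.perp (Submodule.span F {x} ⊔ Submodule.span F {y}) := by
  set U := Submodule.span F {x} ⊔ Submodule.span F {y} with hU
  have hfr : finrank F U ≤ 2 := by
    have h1 := Submodule.finrank_add_le_finrank_add_finrank (Submodule.span F {x})
      (Submodule.span F {y})
    have h2 := finrank_span_singleton (K := F) hx0
    have h3 := finrank_span_singleton (K := F) hy0
    rw [← hU] at h1
    omega
  obtain ⟨z, hz, hqz, hfz⟩ := Φ.exists_perp hν U U (by omega)
  apply Φ.span_sing (Φ.perp U) z hfz hqz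
  by_contra hcon
  push Not at hcon
  apply hz
  have : z ∈ Φ.perp (Φ.perp U) := fun u hu => Φ.f_eq_zero_symm (hcon u hu)
  rwa [Φ.perp_perp] at this

theorem tr_nonperp (hν : Φ.WI ν) (h7 : 7 ≤ ν) {x y y' : V} (hx : Φ.q x = 0) (hy : Φ.q y = 0)
    (hy' : Φ.q y' = 0) (h : Φ.f x y = 1) (h' : Φ.f x y' = 1) :
    ∃ g ∈ Φ.El, g x = x ∧ g y = y' := by
  have hεε : Φ.ε * Φ.ε = 1 := by
    rcases Φ.hε with h | h <;> rw [h] <;> ring
  have hx0 : x ≠ 0 := by
    rintro rfl
    rw [map_zero, AddMonoidHom.zero_apply] at h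
    exact zero_ne_one h
  have hy0 : y ≠ 0 := by
    rintro rfl
    rw [map_zero] at h
    exact zero_ne_one h
  have hfx : Φ.f x x = 0 := Φ.q_self x hx
  have hyx : Φ.f y x = Φ.ε := by rw [Φ.f_symm, h, map_one, mul_one]
  set U := Submodule.span F {x} ⊔ Submodule.span F {y} with hU
  have hxm : x ∈ U := (le_sup_left : _ ≤ Submodule.span F {x} ⊔ Submodule.span F {y})
      (Submodule.mem_span_singleton_self x)
  -- the vector `v0`
  set a := Φ.ε * Φ.f y (y' - y) with ha
  set v0 := y' - y - a • x with hv0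
  have hv0m : v0 ∈ Φ.perp U := by
    intro u hu
    obtain ⟨u1, h1, u2, h2, rfl⟩ := Submodule.mem_sup.1 hu
    obtain ⟨c, rfl⟩ := Submodule.mem_span_singleton.1 h1
    obtain ⟨d, rfl⟩ := Submodule.mem_span_singleton.1 h2
    have e1 : Φ.f x v0 = 0 := by
      rw [hv0, map_sub, map_sub, Φ.f_smul_right, hfx, h, h']
      ring
    have e2 : Φ.f y v0 = 0 := by
      rw [hv0, map_sub _ (y' - y), Φ.f_smul_right, hyx, ha, mul_right_comm, hεε, one_mul,
        sub_self]
    rw [map_add, AddMonoidHom.add_apply, Φ.f_smul_left, Φ.f_smul_left, e1, e2, mul_zero,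
      mul_zero, add_zero]
  -- moving by vectors of `perp U`
  have key : ∀ v ∈ Submodule.span F {v | v ∈ Φ.perp U ∧ Φ.q v = 0}, ∀ y1, Φ.f x y1 = 1 →
      ∃ g ∈ Φ.El, g x = x ∧ ∃ c : F, g y1 = y1 + v + c • x := by
    intro v hv
    induction hv using Submodule.closure_induction with
    | zero =>
      intro y1 _
      exact ⟨1, Φ.El.one_mem, rfl, 0, by simp⟩
    | add v w _ _ ihv ihw =>
      intro y1 hy1
      obtain ⟨g1, hg1, hx1, c1, hc1⟩ := ihv y1 hy1
      have hf1 : Φ.f x (g1 y1) = 1 := by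
        rw [← hy1, ← ((Φ.El_le_Isom hg1).1 x y1), hx1]
      obtain ⟨g2, hg2, hx2, c2, hc2⟩ := ihw (g1 y1) hf1
      refine ⟨g2 * g1, Φ.El.mul_mem hg2 hg1, ?_, c1 + c2, ?_⟩
      · change g2 (g1 x) = x
        rw [hx1, hx2]
      · change g2 (g1 y1) = _
        rw [hc2, hc1, add_smul]
        abel
    | smul_mem r w hw =>
      intro y1 hy1
      have hw1 : Φ.q (r • w) = 0 := by rw [Φ.q_smul, hw.2, mul_zero]
      have hw2 : Φ.f x (r • w) = 0 := by rw [Φ.f_smul_right, hw.1 x hxm, mul_zero]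
      obtain ⟨g, hg, hgv⟩ := Tr2_u Φ hx hw1 hw2
      refine ⟨g, hg, ?_, -(Φ.ε * Φ.f (r • w) y1), ?_⟩
      · rw [hgv, hfx, Φ.f_eq_zero_symm hw2]
        simp
      · rw [hgv, hy1, one_smul, neg_smul]
        abel
  obtain ⟨g, hg, hgx, c, hgy⟩ := key v0 (by
    rw [hU, Tr2_span Φ x y hν h7 hy0 hx0]
    exact hv0m) y h
  have hI := Φ.El_le_Isom hg
  set y2 := g y with hy2
  have hq2 : Φ.q y2 = 0 := by rw [hy2, hI.2, hy]
  have hf2 : Φ.f x y2 = 1 := by
    rw [← h, ← hI.1 x y, hgx]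
  have hy'2 : y' = y2 + (a - c) • x := by
    rw [hgy, hv0, sub_smul]
    abel
  have hτ : Φ.τ ((a - c) * Φ.ε) = 0 := by
    have h1 := hy'
    rw [hy'2, Φ.q_add, hq2, Φ.q_smul, hx, Φ.f_smul_right, Φ.f_symm x y2, hf2, map_one, mul_one,
      mul_zero, add_zero, zero_add] at h1
    exact h1
  have hτ2 : Φ.τ (a - c) = 0 := by
    rcases Φ.hε with h1 | h1
    · rwa [h1, mul_one] at hτ
    · rw [h1, mul_neg, mul_one, map_neg, neg_eq_zero] at hτ
      exact hτ
  obtain ⟨t, ht, htv⟩ := Φ.exists_t hx hτ2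
  refine ⟨t * g, Φ.El.mul_mem ht hg, ?_, ?_⟩
  · change t (g x) = x
    rw [hgx, htv]
    change x + ((a - c) * Φ.f x x) • x = x
    rw [hfx, mul_zero, zero_smul, add_zero]
  · change t y2 = y'
    rw [htv]
    change y2 + ((a - c) * Φ.f x y2) • x = y'
    rw [hf2, mul_one, ← hy'2]

theorem tr_perp (hν : Φ.WI ν) (h7 : 7 ≤ ν) {x y y' : V} (hx : Φ.q x = 0) (hy : Φ.q y = 0)
    (hy' : Φ.q y' = 0) (h : Φ.f x y = 0) (h' : Φ.f x y' = 0) (hx0 : x ≠ 0)
    (hyx : y ∉ Submodule.span F {x}) (hyx' : y' ∉ Submodule.span F {x}) :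
    ∃ g ∈ Φ.El, g x = x ∧ g y = y' := by
  have hy0 : y ≠ 0 := by
    rintro rfl
    exact hyx (Submodule.zero_mem _)
  have hy0' : y' ≠ 0 := by
    rintro rfl
    exact hyx' (Submodule.zero_mem _)
  set U := Submodule.span F {x} ⊔ Submodule.span F {y} ⊔ Submodule.span F {y'} with hU
  have hfr : finrank F U ≤ 3 := by
    have h1 := Submodule.finrank_add_le_finrank_add_finrank (Submodule.span F {x})
      (Submodule.span F {y})
    have h2 := finrank_span_singleton (K := F) hx0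
    have h3 := finrank_span_singleton (K := F) hy0
    have h4 := Submodule.finrank_add_le_finrank_add_finrank
      (Submodule.span F {x} ⊔ Submodule.span F {y}) (Submodule.span F {y'})
    have h5 := finrank_span_singleton (K := F) hy0'
    rw [← hU] at h4
    omega
  have hxm : x ∈ U := (le_sup_left : _ ≤ U)
    ((le_sup_left : _ ≤ Submodule.span F {x} ⊔ Submodule.span F {y})
      (Submodule.mem_span_singleton_self x))
  have hym : y ∈ U := (le_sup_left : _ ≤ U)
    ((le_sup_right : _ ≤ Submodule.span F {x} ⊔ Submodule.span F {y})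
      (Submodule.mem_span_singleton_self y))
  have hym' : y' ∈ U := (le_sup_right : _ ≤ U) (Submodule.mem_span_singleton_self y')
  obtain ⟨z, hz, hqz, hfz⟩ := Φ.exists_perp hν U U (by omega)
  obtain ⟨g, hg, hgx, hgy⟩ := Tr2_step Φ (x := x) (y := y) (z := z) hx hy hqz h (hfz x hxm)
    (hfz y hym) hyx (fun hm => hz ((le_sup_left : _ ≤ U) hm))
  obtain ⟨g', hg', hgx', hgz⟩ := Tr2_step Φ (x := x) (y := z) (z := y') hx hqz hy' (hfz x hxm) h'
    (Φ.f_eq_zero_symm (hfz y' hym'))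
    (fun hm => hz ((le_sup_left : _ ≤ U) ((le_sup_left : _ ≤ Submodule.span F {x} ⊔
      Submodule.span F {y}) hm))) (by
      intro hm
      obtain ⟨u1, h1, u2, h2, h3⟩ := Submodule.mem_sup.1 hm
      obtain ⟨c, rfl⟩ := Submodule.mem_span_singleton.1 h1
      obtain ⟨d, rfl⟩ := Submodule.mem_span_singleton.1 h2
      have hd0 : d ≠ 0 := by
        rintro rfl
        rw [zero_smul, add_zero] at h3
        exact hyx' (Submodule.mem_span_singleton.2 ⟨c, h3⟩)
      apply hz
      have : z = d⁻¹ • (y' - c • x) := by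
        rw [← h3, add_sub_cancel_left, smul_smul, inv_mul_cancel₀ hd0, one_smul]
      rw [this]
      exact U.smul_mem _ (U.sub_mem hym' (U.smul_mem _ hxm)))
  refine ⟨g' * g, Φ.El.mul_mem hg' hg, ?_, ?_⟩
  · change g' (g x) = x
    rw [hgx, hgx']
  · change g' (g y) = y'
    rw [hgy, hgz]

end Helper76.CL
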