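import Pool.Agent.Helper76.CL.Kp
import Pool.Agent.Helper76.CL.Lift
import Pool.Agent.Helper76.CL.Cnt
import Pool.Agent.Helper76.CL.Tr2

/-!
# Images of point stabilisers fix totally singular subspaces
-/

set_option autoImplicit false

namespace Helper76.CL

open Module

theorem Fixr_gm_eq {F V S : Type} [Field F] [AddCommGroup V] [Module F V] [Group S]
    (ρ : Rl F V S) {g h : ρ.T} (hgh : ρ.π g = ρ.π h) (W : Submodule F V) :
    gm (g : V ≃ₗ[F] V) W = gm (h : V ≃ₗ[F] V) W := by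
  have h1 : ρ.π (h⁻¹ * g) = 1 := by rw [map_mul, map_inv, hgh, inv_mul_cancel]
  obtain ⟨c, hc⟩ := (ρ.ker _).1 h1
  have h2 := gm_scalar hc W
  have h3 : ((h⁻¹ * g : ρ.T) : V ≃ₗ[F] V) = (h : V ≃ₗ[F] V)⁻¹ * (g : V ≃ₗ[F] V) := rfl
  rw [h3, gm_mul] at h2
  conv_rhs => rw [← h2, gm_gm_inv]

/-- a chosen lift -/
noncomputable def Fixr_lift {F V S : Type} [Field F] [AddCommGroup V] [Module F V] [Group S]
    (ρ : Rl F V S) (s : S) : ρ.T := Function.surjInv (f := ρ.π) ρ.surj s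

theorem Fixr_π {F V S : Type} [Field F] [AddCommGroup V] [Module F V] [Group S]
    (ρ : Rl F V S) (s : S) : ρ.π (Fixr_lift ρ s) = s := Function.surjInv_eq _ _

/-- the action of `S` on the singular points -/
@[instance_reducible] noncomputable def Fixr_act {F V S : Type} [Field F] [AddCommGroup V] [Module F V] [Group S]
    (Φ : FS F V) (ρ : Rl F V S) (hI : ρ.T ≤ Φ.Isom) :
    MulAction S {P : Submodule F V // finrank F P = 1 ∧ Φ.TS P} where
  smul s P := ⟨gm (Fixr_lift ρ s : V ≃ₗ[F] V) P.1, by rw [finrank_gm]; exact P.2.1,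
    Φ.gm_TS (hI (Fixr_lift ρ s).2) P.2.2⟩
  one_smul P := by
    apply Subtype.ext
    change gm (Fixr_lift ρ (1 : S) : V ≃ₗ[F] V) P.1 = P.1
    have h1 : gm (Fixr_lift ρ (1 : S) : V ≃ₗ[F] V) P.1 =
        gm ((1 : ρ.T) : V ≃ₗ[F] V) P.1 :=
      Fixr_gm_eq ρ (by rw [Fixr_π, map_one]) P.1
    rw [h1]
    exact gm_one P.1
  mul_smul s t P := by
    apply Subtype.ext
    change gm (Fixr_lift ρ (s * t) : V ≃ₗ[F] V) P.1 =
      gm (Fixr_lift ρ s : V ≃ₗ[F] V) (gm (Fixr_lift ρ t : V ≃ₗ[F] V) P.1)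
    rw [← gm_mul]
    exact Fixr_gm_eq ρ (g := Fixr_lift ρ (s * t))
      (h := Fixr_lift ρ s * Fixr_lift ρ t)
      (by rw [map_mul, Fixr_π, Fixr_π, Fixr_π]) P.1

theorem Fixr_stab {F V S : Type} [Field F] [AddCommGroup V] [Module F V] [Group S]
    (Φ : FS F V) (ρ : Rl F V S) (hI : ρ.T ≤ Φ.Isom)
    (P : {P : Submodule F V // finrank F P = 1 ∧ Φ.TS P}) :
    letI := Fixr_act Φ ρ hI
    MulAction.stabilizer S P = ρ.st P.1 := by
  letI := Fixr_act Φ ρ hI
  ext s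
  rw [MulAction.mem_stabilizer_iff]
  have h1 : s ∈ ρ.st P.1 ↔ ρ.π (Fixr_lift ρ s) ∈ ρ.st P.1 := by
    rw [Fixr_π]
  rw [h1, ρ.mem_st]
  constructor
  · intro h
    exact congrArg Subtype.val h
  · intro h
    exact Subtype.ext h

/-- the number of singular points is the index of a point stabiliser -/
theorem index_st {F V S : Type} [Field F] [Finite F] [AddCommGroup V] [Module F V]
    [FiniteDimensional F V] [Group S] (Φ : FS F V) {ν : ℕ} (hν : Φ.WI ν) (h7 : 7 ≤ ν)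
    (ρ : Rl F V S) (hE : Φ.El ≤ ρ.T) (hI : ρ.T ≤ Φ.Isom) {x : V} (hx : Φ.q x = 0) (hx0 : x ≠ 0) :
    (ρ.st (Submodule.span F {x})).index =
      Nat.card {P : Submodule F V // finrank F P = 1 ∧ Φ.TS P} := by
  letI := Fixr_act Φ ρ hI
  let P : {P : Submodule F V // finrank F P = 1 ∧ Φ.TS P} :=
    ⟨Submodule.span F {x}, finrank_span_singleton hx0, Φ.TS_span hx⟩
  have h1 : ρ.st (Submodule.span F {x}) = MulAction.stabilizer S P := (Fixr_stab Φ ρ hI P).symm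
  rw [h1, MulAction.index_stabilizer]
  have h2 : MulAction.orbit S P = Set.univ := by
    rw [Set.eq_univ_iff_forall]
    rintro ⟨P', hP1, hP2⟩
    obtain ⟨y, hy0, hy⟩ := finrank_eq_one_iff'.1 hP1
    have hspan : P' = Submodule.span F {(y : V)} := by
      apply le_antisymm
      · intro z hz
        obtain ⟨c, hc⟩ := hy ⟨z, hz⟩
        rw [Submodule.mem_span_singleton]
        exact ⟨c, congrArg Subtype.val hc⟩
      · rw [Submodule.span_singleton_le_iff_mem]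
        exact y.2
    have hy0' : (y : V) ≠ 0 := fun h => hy0 (Subtype.ext h)
    obtain ⟨g, hg, hgx⟩ := tr_pt Φ hν h7 hx (hP2.1 y y.2) hx0 hy0'
    refine ⟨ρ.π ⟨g, hE hg⟩, ?_⟩
    apply Subtype.ext
    change gm (Fixr_lift ρ (ρ.π ⟨g, hE hg⟩) : V ≃ₗ[F] V) (Submodule.span F {x}) = P'
    have h3 := Fixr_gm_eq ρ (g := Fixr_lift ρ (ρ.π ⟨g, hE hg⟩)) (h := ⟨g, hE hg⟩)
      (by rw [Fixr_π]) (Submodule.span F {x})
    rw [h3, hspan]
    change Submodule.map (g : V →ₗ[F] V) (Submodule.span F {x}) = _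
    rw [Submodule.map_span, Set.image_singleton]
    congr 2
  rw [h2, Set.ncard_univ]

theorem Fixr_modEq {F V : Type} [Field F] [Finite F] [AddCommGroup V] [Module F V]
    [FiniteDimensional F V] (Φ : FS F V) (r : ℕ) [Fact r.Prime] [CharP F r] {ν : ℕ}
    (hν : Φ.WI ν) (h7 : 7 ≤ ν) {x : V} (hx : Φ.q x = 0) (hx0 : x ≠ 0) :
    Nat.card {P : Submodule F V // finrank F P = 1 ∧ Φ.TS P} ≡ 1 [MOD r] := by
  have h1 := cnt_pts Φ r ⊥ ⊤ ⟨fun y hy => ?_, fun y hy z hz => ?_⟩ bot_le ?_ ?_ ⟨x, trivial, ?_, hx⟩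
  · have h2 : Nat.card {P : Submodule F V // finrank F P = 1 ∧ Φ.TS P} =
        Nat.card {R' : Submodule F V // ⊥ ≤ R' ∧ finrank F R' = finrank F (⊥ : Submodule F V) + 1 ∧
          Φ.TS R' ∧ R' ≤ ⊤} := by
      apply Nat.card_congr
      apply Equiv.subtypeEquivRight
      intro R'
      simp
    rw [h2]
    exact h1
  · rw [(Submodule.mem_bot F).1 hy]
    have := Φ.q_smul 0 (0 : V)
    simpa using this
  · rw [(Submodule.mem_bot F).1 hy, map_zero]
    rfl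
  · intro y _ u hu
    rw [(Submodule.mem_bot F).1 hu, map_zero]
    rfl
  · obtain ⟨E, hE, -⟩ := hν
    rw [finrank_bot, finrank_top]
    have := Submodule.finrank_le E
    omega
  · rw [Submodule.mem_bot]
    exact hx0

theorem fixr {F V S : Type} [Field F] [Finite F] [AddCommGroup V] [Module F V]
    [FiniteDimensional F V] [Group S] (Φ : FS F V) {ν : ℕ}
    (hν : Φ.WI ν) (h7 : 7 ≤ ν) (ρ : Rl F V S) (hE : Φ.El ≤ ρ.T) (hI : ρ.T ≤ Φ.Isom)
    (φ : S ≃* S) {x : V} (hx : Φ.q x = 0) (hx0 : x ≠ 0) :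
    ∃ R : Submodule F V, R ≠ ⊥ ∧ Φ.TS R ∧
      (ρ.st (Submodule.span F {x})).map φ.toMonoidHom ≤ ρ.st R := by
  obtain ⟨r, hr⟩ := CharP.exists F
  have hrp : r.Prime := CharP.char_is_prime F r
  have : Fact r.Prime := ⟨hrp⟩
  have hfV : Finite V := Module.finite_of_finite F
  have hfG : Finite (V ≃ₗ[F] V) :=
    Finite.of_injective (fun g : V ≃ₗ[F] V => (g : V → V)) DFunLike.coe_injective
  have hfS : Finite S := Finite.of_surjective ρ.π ρ.surj
  have hfSub : Finite (Submodule F V) := Finite.of_injective (fun W : Submodule F V => (W : Set V))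
    SetLike.coe_injective
  obtain ⟨K, hK1, hKp, hKst, hKn, -⟩ := kp Φ r hν h7 ρ hE hI hx hx0
  set M : Subgroup S := (ρ.st (Submodule.span F {x})).map φ.toMonoidHom with hM
  set K₂ : Subgroup S := K.map φ.toMonoidHom with hK₂
  have hK₂M : K₂ ≤ M := Subgroup.map_mono hKst
  have hK₂1 : K₂ ≠ ⊥ := by
    intro h
    apply hK1
    rw [hK₂, Subgroup.map_eq_bot_iff_of_injective] at h
    · exact h
    · exact φ.injective
  have hK₂p : IsPGroup r K₂ := hKp.map _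
  obtain ⟨W, hWtop, hWn, hWY, -⟩ := lift r ρ K₂ hK₂p hK₂1
  have hWM : ∀ g : ρ.T, ρ.π g ∈ M → gm (g : V ≃ₗ[F] V) W = W := by
    intro g hg
    apply hWn
    obtain ⟨s, hs, hs2⟩ := hg
    rintro _ ⟨k, hk, rfl⟩
    refine ⟨s * k * s⁻¹, hKn s hs k hk, ?_⟩
    rw [← hs2]
    simp
  have hpM : ∀ g : ρ.T, ρ.π g ∈ M → gm (g : V ≃ₗ[F] V) (Φ.perp W) = Φ.perp W := by
    intro g hg
    rw [Φ.gm_perp (hI g.2), hWM g hg]
  have hperp : Φ.perp W ≠ ⊥ := by
    intro h
    apply hWtop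
    rw [← Φ.perp_perp W, h, eq_top_iff]
    intro y _ u hu
    rw [(Submodule.mem_bot F).1 hu, map_zero]
    rfl
  have hYne := hWY (Φ.perp W) hperp (fun g hg => hpM g (hK₂M hg))
  have hgmY : ∀ g : ρ.T, ρ.π g ∈ M → gm (g : V ≃ₗ[F] V) (Φ.perp W ⊓ W) = Φ.perp W ⊓ W := by
    intro g hg
    ext v
    rw [mem_gm]
    have h1 : v ∈ gm (g : V ≃ₗ[F] V) (Φ.perp W) ↔ v ∈ Φ.perp W := by rw [hpM g hg]
    have h2 : v ∈ gm (g : V ≃ₗ[F] V) W ↔ v ∈ W := by rw [hWM g hg]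
    rw [mem_gm] at h1 h2
    rw [Submodule.mem_inf, Submodule.mem_inf, h1, h2]
  have hf0 : ∀ u ∈ Φ.perp W ⊓ W, ∀ v ∈ Φ.perp W ⊓ W, Φ.f u v = 0 :=
    fun u hu v hv => hv.1 u hu.2
  let R : Submodule F V :=
    { carrier := {v | v ∈ Φ.perp W ⊓ W ∧ Φ.q v = 0}
      zero_mem' := ⟨Submodule.zero_mem _, by simpa using Φ.q_smul 0 (0 : V)⟩
      add_mem' := by
        rintro u v ⟨hu, hqu⟩ ⟨hv, hqv⟩
        refine ⟨Submodule.add_mem _ hu hv, ?_⟩
        rw [Φ.q_add, hqu, hqv, hf0 u hu v hv, map_zero, add_zero, add_zero]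
      smul_mem' := by
        rintro c v ⟨hv, hqv⟩
        refine ⟨Submodule.smul_mem _ c hv, ?_⟩
        rw [Φ.q_smul, hqv, mul_zero] }
  have hRmem : ∀ v, v ∈ R ↔ v ∈ Φ.perp W ⊓ W ∧ Φ.q v = 0 := fun v => Iff.rfl
  refine ⟨R, ?_, ⟨fun v hv => hv.2, fun u hu v hv => hf0 u hu.1 v hv.1⟩, ?_⟩
  · letI := Fixr_act Φ ρ hI
    have hcard := Fixr_modEq Φ r hν h7 hx hx0
    have hindex := index_st Φ hν h7 ρ hE hI hx hx0
    have hMindex : M.index = Nat.card {P : Submodule F V // finrank F P = 1 ∧ Φ.TS P} := by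
      rw [← hindex, hM]
      exact Subgroup.index_map_equiv _ φ
    have hndvd : ¬ r ∣ Nat.card {P : Submodule F V // finrank F P = 1 ∧ Φ.TS P} := by
      intro h
      have h1 : (1 : ℕ) ≡ 0 [MOD r] := hcard.symm.trans ((Nat.modEq_zero_iff_dvd).2 h)
      have h2 := (Nat.modEq_zero_iff_dvd).1 h1
      exact hrp.one_lt.ne' (Nat.dvd_one.1 h2)
    -- a Sylow subgroup of `M`
    obtain ⟨Q⟩ : Nonempty (Sylow r M) := inferInstance
    have hQp : IsPGroup r (Q.1.map M.subtype) := Q.2.map _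
    have hQM : Q.1.map M.subtype ≤ M := Subgroup.map_subtype_le _
    have hQcard : Nat.card (Q.1.map M.subtype) = r ^ (Nat.card S).factorization r := by
      have h1 : Nat.card (Q.1.map M.subtype) = Nat.card Q.1 :=
        (Nat.card_congr (Q.1.equivMapOfInjective M.subtype M.subtype_injective).toEquiv).symm
      have h2 := Q.card_eq_multiplicity
      have h3 : Nat.card S = Nat.card M * M.index := (Subgroup.card_mul_index M).symm
      have h4 : (Nat.card S).factorization r = (Nat.card M).factorization r := by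
        rw [h3, Nat.factorization_mul Nat.card_pos.ne' Subgroup.index_ne_zero_of_finite]
        rw [Finsupp.add_apply, hMindex, Nat.factorization_eq_zero_of_not_dvd hndvd, add_zero]
      rw [h1, h4]
      exact h2
    let Q' : Sylow r S := Sylow.ofCard (Q.1.map M.subtype) hQcard
    have hQ'M : (Q' : Subgroup S) ≤ M := hQM
    obtain ⟨P₁, hP₁⟩ := (Q'.2).nonempty_fixed_point_of_prime_not_dvd_card
      {P : Submodule F V // finrank F P = 1 ∧ Φ.TS P} hndvd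
    have hQst : (Q' : Subgroup S) ≤ ρ.st P₁.1 := by
      rw [← Fixr_stab Φ ρ hI P₁]
      intro s hs
      rw [MulAction.mem_stabilizer_iff]
      exact hP₁ ⟨s, hs⟩
    obtain ⟨P, hPr, hPT⟩ := P₁
    obtain ⟨y, hy0, hy⟩ := finrank_eq_one_iff'.1 hPr
    have hspan : P = Submodule.span F {(y : V)} := by
      apply le_antisymm
      · intro z hz
        obtain ⟨c, hc⟩ := hy ⟨z, hz⟩
        rw [Submodule.mem_span_singleton]
        exact ⟨c, congrArg Subtype.val hc⟩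
      · rw [Submodule.span_singleton_le_iff_mem]
        exact y.2
    have hy0' : (y : V) ≠ 0 := fun h => hy0 (Subtype.ext h)
    have hqy : Φ.q (y : V) = 0 := hPT.1 y y.2
    obtain ⟨K₁, hK₁1, hK₁p, hK₁st, hK₁n, hK₁u⟩ := kp Φ r hν h7 ρ hE hI hqy hy0'
    have hQst' : (Q' : Subgroup S) ≤ ρ.st (Submodule.span F {(y : V)}) := by
      rw [← hspan]
      exact hQst
    have hK₁Q : K₁ ≤ (Q' : Subgroup S) := by
      have h1 : (Q' : Subgroup S) ≤ Subgroup.normalizer (K₁ : Set S) := by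
        intro s hs
        rw [Subgroup.mem_normalizer_iff]
        intro k
        constructor
        · intro hk
          exact hK₁n s (hQst' hs) k hk
        · intro hk
          have h2 := hK₁n s⁻¹ ((ρ.st _).inv_mem (hQst' hs)) _ hk
          have h3 : s⁻¹ * (s * k * s⁻¹) * s⁻¹⁻¹ = k := by group
          rw [h3] at h2
          exact h2
      have h2 : IsPGroup r ((Q' : Subgroup S) ⊔ K₁ : Subgroup S) :=
        IsPGroup.to_sup_of_normal_right' Q'.2 hK₁p h1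
      have h3 := Q'.3 h2 le_sup_left
      rw [← h3]
      exact le_sup_right
    obtain ⟨W₁, -, -, hW₁Y, hW₁f⟩ := lift r ρ K₁ hK₁p hK₁1
    have h4 := hW₁Y (Φ.perp W ⊓ W) (by rwa [inf_comm] at hYne ⊢)
      (fun g hg => hgmY g (hQ'M (hK₁Q hg)))
    obtain ⟨v, hv, hv0⟩ := (Submodule.ne_bot_iff _).1 h4
    have h5 : v ∈ Submodule.span F {(y : V)} := by
      apply fix_u Φ hν h7 hqy hy0'
      intro w hw hfw
      obtain ⟨g, hg, hgu⟩ := Φ.exists_u hqy hw hfw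
      obtain ⟨h6, h7⟩ := hK₁u w hw hfw ⟨g, hE hg⟩ hgu
      have h8 := hW₁f ⟨g, hE hg⟩ h6 h7 v hv.2
      rw [← hgu v]
      exact h8
    have h6 : v ∈ R := ⟨hv.1, (Φ.TS_span hqy).1 v h5⟩
    exact (Submodule.ne_bot_iff _).2 ⟨v, h6, hv0⟩
  · intro s hs
    obtain ⟨g, rfl⟩ := ρ.surj s
    rw [ρ.mem_st]
    ext v
    rw [mem_gm, hRmem, hRmem]
    have h1 : v ∈ gm (g : V ≃ₗ[F] V) (Φ.perp W ⊓ W) ↔ v ∈ Φ.perp W ⊓ W := by rw [hgmY g hs]
    rw [mem_gm] at h1
    have h2 : Φ.q ((g : V ≃ₗ[F] V)⁻¹ v) = Φ.q v :=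
      (Φ.mem_Isom.1 (Φ.Isom.inv_mem (hI g.2))).2 v
    rw [h1, h2]

end Helper76.CL
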