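import Pool.Agent.Helper76.CL.El

/-!
# Existence of singular vectors
-/

set_option autoImplicit false

namespace Helper76.CL

open Module

variable {F V : Type} [Field F] [AddCommGroup V] [Module F V] [FiniteDimensional F V] (Φ : FS F V)

/-- the linear map `y ↦ (f b_i y)_i` -/
noncomputable def Hyp_L (U : Submodule F V) : V →ₗ[F] (Fin (finrank F U) → F) where
  toFun y i := Φ.f (finBasis F U i : V) y
  map_add' x y := by
    funext i
    exact map_add _ _ _
  map_smul' c y := by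
    funext i
    exact Φ.f_smul_right c _ y

omit [FiniteDimensional F V] in
theorem Hyp_sum (y : V) {ι : Type} (s : Finset ι) (c : ι → F) (v : ι → V) :
    Φ.f (∑ i ∈ s, c i • v i) y = ∑ i ∈ s, Φ.σ (c i) * Φ.f (v i) y := by
  classical
  induction s using Finset.induction_on with
  | empty => simp
  | insert a s ha ih =>
    rw [Finset.sum_insert ha, Finset.sum_insert ha, map_add, AddMonoidHom.add_apply, ih,
      Φ.f_smul_left]

theorem Hyp_repr (U : Submodule F V) (u : V) (hu : u ∈ U) :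
    u = ∑ i, (finBasis F U).repr ⟨u, hu⟩ i • (finBasis F U i : V) := by
  have h := (finBasis F U).sum_repr ⟨u, hu⟩
  have h2 := congrArg (fun w : U => (w : V)) h
  simp only [Submodule.coe_sum, Submodule.coe_smul] at h2
  exact h2.symm

theorem Hyp_ker (U : Submodule F V) : LinearMap.ker (Hyp_L Φ U) = Φ.perp U := by
  ext y
  rw [LinearMap.mem_ker, FS.mem_perp]
  constructor
  · intro h u hu
    rw [Hyp_repr U u hu, Hyp_sum]
    refine Finset.sum_eq_zero fun i _ => ?_
    have : Φ.f (finBasis F U i : V) y = 0 := congrFun h i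
    rw [this, mul_zero]
  · intro h
    funext i
    exact h _ (finBasis F U i).2

theorem Hyp_range (U : Submodule F V) : LinearMap.range (Hyp_L Φ U) = ⊤ := by
  by_contra hne
  obtain ⟨φ, hφ, hle⟩ := Submodule.exists_le_ker_of_lt_top _ (lt_top_iff_ne_top.2 hne)
  set c : Fin (finrank F U) → F := fun i => φ (Pi.single i 1) with hc
  have h1 : ∀ y, ∑ i, Φ.f (finBasis F U i : V) y * c i = 0 := by
    intro y
    have h2 : φ (Hyp_L Φ U y) = 0 := hle ⟨y, rfl⟩
    rw [LinearMap.pi_apply_eq_sum_univ] at h2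
    rw [← h2]
    refine Finset.sum_congr rfl fun i _ => ?_
    have h3 : (fun j : Fin (finrank F U) => if i = j then (1 : F) else 0) = Pi.single i 1 := by
      funext j
      simp only [Pi.single_apply, eq_comm]
    rw [h3]
    rfl
  have h3 : ∑ i, Φ.σ (c i) • (finBasis F U i : V) = 0 := by
    apply Φ.nondeg
    intro y
    rw [Hyp_sum]
    rw [← h1 y]
    refine Finset.sum_congr rfl fun i _ => ?_
    rw [Φ.σσ, mul_comm]
  have h4 : ∑ i, Φ.σ (c i) • finBasis F U i = 0 := by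
    apply Subtype.ext
    rw [Submodule.coe_sum]
    simp only [Submodule.coe_smul]
    exact h3
  have h5 := Fintype.linearIndependent_iff.1 (finBasis F U).linearIndependent _ h4
  apply hφ
  apply LinearMap.pi_ext'
  intro i
  apply LinearMap.ext_ring
  have h6 : c i = 0 := by
    have := congrArg Φ.σ (h5 i)
    rwa [Φ.σσ, map_zero] at this
  exact h6

theorem FS.finrank_perp (U : Submodule F V) :
    finrank F (Φ.perp U) + finrank F U = finrank F V := by
  have h := LinearMap.finrank_range_add_finrank_ker (Hyp_L Φ U)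
  rw [Hyp_ker, Hyp_range, finrank_top, finrank_fin_fun] at h
  omega

theorem FS.perp_perp (U : Submodule F V) : Φ.perp (Φ.perp U) = U := by
  symm
  apply Submodule.eq_of_le_of_finrank_eq
  · intro u hu y hy
    exact Φ.f_eq_zero_symm (hy u hu)
  · have h1 := Φ.finrank_perp U
    have h2 := Φ.finrank_perp (Φ.perp U)
    omega

omit [FiniteDimensional F V] in
theorem Hyp_adjust (y x : V) (hq : Φ.q x = 0) (hf : Φ.f y x ≠ 0) :
    ∃ t : F, Φ.q (y + t • x) = 0 := by
  obtain ⟨a, ha⟩ := Φ.q_im y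
  refine ⟨-a / Φ.f y x, ?_⟩
  rw [Φ.q_add, Φ.q_smul, hq, mul_zero, add_zero, Φ.f_smul_right, div_mul_cancel₀ _ hf, ha,
    map_neg, add_neg_cancel]

theorem FS.exists_sing (U : Submodule F V) (l : U →ₗ[F] F) (x : V) (hx : x ∈ U)
    (hq : Φ.q x = 0) (hxU : ∀ u ∈ U, Φ.f u x = 0) (hl : l ⟨x, hx⟩ ≠ 0) :
    ∃ y, Φ.q y = 0 ∧ ∀ u (hu : u ∈ U), Φ.f y u = l ⟨u, hu⟩ := by
  have hεε : Φ.ε * Φ.ε = 1 := by
    rcases Φ.hε with h | h <;> rw [h] <;> ring
  obtain ⟨y0, hy0⟩ : ∃ y0, Hyp_L Φ U y0 = fun i => Φ.σ (Φ.ε * l (finBasis F U i)) := by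
    have : (fun i => Φ.σ (Φ.ε * l (finBasis F U i))) ∈ LinearMap.range (Hyp_L Φ U) := by
      rw [Hyp_range]
      trivial
    exact this
  have h1 : ∀ i, Φ.f y0 (finBasis F U i : V) = l (finBasis F U i) := by
    intro i
    have h2 : Φ.f (finBasis F U i : V) y0 = Φ.σ (Φ.ε * l (finBasis F U i)) := congrFun hy0 i
    rw [Φ.f_symm, h2, Φ.σσ, ← mul_assoc, hεε, one_mul]
  have h2 : ∀ u (hu : u ∈ U), Φ.f y0 u = l ⟨u, hu⟩ := by
    let m : U →ₗ[F] F :=
      { toFun := fun u => Φ.f y0 u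
        map_add' := fun u v => map_add _ _ _
        map_smul' := fun c u => Φ.f_smul_right c y0 u }
    have h3 : m = l := (finBasis F U).ext h1
    intro u hu
    exact congrArg (fun k : U →ₗ[F] F => k ⟨u, hu⟩) h3
  obtain ⟨t, ht⟩ := Hyp_adjust Φ y0 x hq (by rw [h2 x hx]; exact hl)
  refine ⟨y0 + t • x, ht, fun u hu => ?_⟩
  rw [map_add, AddMonoidHom.add_apply, h2 u hu, Φ.f_smul_left, Φ.f_eq_zero_symm (hxU u hu),
    mul_zero, add_zero]

theorem FS.exists_perp {ν : ℕ} (hν : Φ.WI ν) (U W : Submodule F V)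
    (h : finrank F U + finrank F W < ν) :
    ∃ z, z ∉ W ∧ Φ.q z = 0 ∧ ∀ u ∈ U, Φ.f u z = 0 := by
  obtain ⟨E, hE, hTS⟩ := hν
  have h1 := Submodule.finrank_sup_add_finrank_inf_eq E (Φ.perp U)
  have h2 := Submodule.finrank_le (E ⊔ Φ.perp U)
  have h3 := Φ.finrank_perp U
  have h4 : ¬ (E ⊓ Φ.perp U ≤ W) := by
    intro hle
    have := Submodule.finrank_mono hle
    omega
  obtain ⟨z, ⟨hzE, hzU⟩, hzW⟩ := Set.not_subset.1 h4
  exact ⟨z, hzW, hTS.1 z hzE, fun u hu => hzU u hu⟩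

omit [FiniteDimensional F V] in
/-- singular vectors span -/
theorem FS.span_sing (U : Submodule F V) (z : V) (hz : z ∈ U) (hq : Φ.q z = 0)
    (hu : ∃ u ∈ U, Φ.f z u ≠ 0) : Submodule.span F {v | v ∈ U ∧ Φ.q v = 0} = U := by
  apply le_antisymm
  · exact Submodule.span_le.2 fun v hv => hv.1
  set X := Submodule.span F {v | v ∈ U ∧ Φ.q v = 0} with hX
  have hzX : z ∈ X := Submodule.subset_span ⟨hz, hq⟩
  have h1 : ∀ u ∈ U, Φ.f z u ≠ 0 → u ∈ X := by
    intro u huU hfu
    obtain ⟨t, ht⟩ := Hyp_adjust Φ u z hq (fun h => hfu (Φ.f_eq_zero_symm h))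
    have h2 : u + t • z ∈ X := Submodule.subset_span ⟨U.add_mem huU (U.smul_mem t hz), ht⟩
    have h3 := X.sub_mem h2 (X.smul_mem t hzX)
    rwa [add_sub_cancel_right] at h3
  obtain ⟨u0, hu0, hf0⟩ := hu
  intro u huU
  by_cases hfu : Φ.f z u = 0
  · have h2 : u + u0 ∈ X := h1 _ (U.add_mem huU hu0) (by
      rw [map_add, hfu, zero_add]
      exact hf0)
    have h3 := X.sub_mem h2 (h1 u0 hu0 hf0)
    rwa [add_sub_cancel_right] at h3
  · exact h1 u huU hfu

end Helper76.CL
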