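import Pool.Agent.Helper76.CL.Hyp

/-!
# The unipotent radical of a point stabiliser
-/

set_option autoImplicit false

namespace Helper76.CL

open Module

section Aux

variable {F V S : Type} [Field F] [AddCommGroup V] [Module F V] [Group S] (Φ : FS F V)

/-- the unipotent radical upstairs -/
def Kp_N (ρ : Rl F V S) (x : V) (_hx : Φ.f x x = 0) : Subgroup ρ.T where
  carrier := {g | (g : V ≃ₗ[F] V) x = x ∧
    ∀ v, Φ.f x v = 0 → ∃ c : F, (g : V ≃ₗ[F] V) v = v + c • x}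
  one_mem' := ⟨rfl, fun v _ => ⟨0, by rw [zero_smul, add_zero]; rfl⟩⟩
  mul_mem' := by
    rintro g h ⟨h1, h2⟩ ⟨h3, h4⟩
    refine ⟨?_, fun v hv => ?_⟩
    · change (g : V ≃ₗ[F] V) ((h : V ≃ₗ[F] V) x) = x
      rw [h3, h1]
    · obtain ⟨c, hc⟩ := h2 v hv
      obtain ⟨d, hd⟩ := h4 v hv
      refine ⟨c + d, ?_⟩
      change (g : V ≃ₗ[F] V) ((h : V ≃ₗ[F] V) v) = _
      rw [hd, map_add, map_smul, h1, hc, add_smul, add_assoc]
  inv_mem' := by
    rintro g ⟨h1, h2⟩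
    have h5 : ∀ v, (g : V ≃ₗ[F] V)⁻¹ ((g : V ≃ₗ[F] V) v) = v :=
      fun v => (g : V ≃ₗ[F] V).symm_apply_apply v
    have h6 : (g : V ≃ₗ[F] V)⁻¹ x = x := by
      conv_lhs => rw [← h1]
      exact h5 x
    refine ⟨h6, fun v hv => ?_⟩
    obtain ⟨c, hc⟩ := h2 v hv
    refine ⟨-c, ?_⟩
    have h7 := h5 v
    rw [hc, map_add, map_smul, h6] at h7
    change (g : V ≃ₗ[F] V)⁻¹ v = _
    rw [neg_smul, ← sub_eq_add_neg]
    exact eq_sub_of_add_eq h7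

theorem Kp_mem (ρ : Rl F V S) (x : V) (hx : Φ.f x x = 0) (g : ρ.T) : g ∈ Kp_N Φ ρ x hx ↔
    (g : V ≃ₗ[F] V) x = x ∧ ∀ v, Φ.f x v = 0 → ∃ c : F, (g : V ≃ₗ[F] V) v = v + c • x := Iff.rfl

theorem Kp_pow [Nontrivial V] (ρ : Rl F V S) (hI : ρ.T ≤ Φ.Isom) (x : V) (hx : Φ.f x x = 0)
    (r : ℕ) [Fact r.Prime] [CharP F r] (g : ρ.T) (hg : g ∈ Kp_N Φ ρ x hx) :
    g ^ r ^ 2 = 1 := by
  obtain ⟨h1, h2⟩ := hg
  have hi := (hI g.2).1
  set G : Module.End F V := ((g : V ≃ₗ[F] V) : V →ₗ[F] V) with hG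
  have hGv : ∀ v, G v = (g : V ≃ₗ[F] V) v := fun v => rfl
  have h3 : (G - 1) ^ 3 = 0 := by
    ext v
    have e1 : ∃ u, Φ.f x u = 0 ∧ (G - 1) v = u := by
      refine ⟨(G - 1) v, ?_, rfl⟩
      change Φ.f x (G v - v) = 0
      rw [map_sub, hGv]
      have : Φ.f x ((g : V ≃ₗ[F] V) v) = Φ.f x v := by
        conv_lhs => rw [← h1]
        exact hi x v
      rw [this, sub_self]
    obtain ⟨u, hu, e2⟩ := e1
    obtain ⟨c, hc⟩ := h2 u hu
    have e3 : (G - 1) u = c • x := by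
      change G u - u = _
      rw [hGv, hc]
      abel
    have e4 : (G - 1) (c • x) = 0 := by
      rw [map_smul]
      change c • (G x - x) = 0
      rw [hGv, h1, sub_self, smul_zero]
    have e5 : ((G - 1) ^ 3 : Module.End F V) v = (G - 1) ((G - 1) ((G - 1) v)) := by
      rw [pow_succ, pow_succ, pow_one]
      rfl
    rw [e5, e2, e3, e4]
    rfl
  have hcp : CharP (Module.End F V) r := by
    exact charP_of_injective_algebraMap (FaithfulSMul.algebraMap_injective F (Module.End F V)) r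
  have h4 : (G - 1) ^ r ^ 2 = G ^ r ^ 2 - 1 ^ r ^ 2 :=
    sub_pow_char_pow_of_commute _ _ (Commute.one_right G)
  have hr : 2 ≤ r := (Fact.out : r.Prime).two_le
  have h5 : 3 ≤ r ^ 2 := by nlinarith
  have h6 : (G - 1) ^ r ^ 2 = 0 := by
    rw [← Nat.add_sub_of_le h5, pow_add, h3, zero_mul]
  rw [h6, one_pow] at h4
  have h7 : G ^ r ^ 2 = 1 := (sub_eq_zero.1 h4.symm)
  apply Subtype.ext
  apply LinearEquiv.ext
  intro v
  have h8 : ∀ n : ℕ, ∀ v, (((g ^ n : ρ.T) : V ≃ₗ[F] V) v) = (G ^ n) v := by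
    intro n
    induction n with
    | zero => intro v; rfl
    | succ n ih =>
      intro v
      rw [pow_succ, pow_succ]
      change ((g ^ n : ρ.T) : V ≃ₗ[F] V) ((g : V ≃ₗ[F] V) v) = (G ^ n) (G v)
      rw [ih]
      rfl
  rw [h8, h7]
  rfl

theorem Kp_uf_mem (ρ : Rl F V S) (x w : V) (hx : Φ.f x x = 0) (hw : Φ.f x w = 0) (g : ρ.T)
    (hg : ∀ v, (g : V ≃ₗ[F] V) v = Φ.uf x w v) : g ∈ Kp_N Φ ρ x hx := by
  have h0 : Φ.f w x = 0 := Φ.f_eq_zero_symm hw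
  refine ⟨?_, fun v hv => ⟨-(Φ.ε * Φ.f w v), ?_⟩⟩
  · rw [hg]
    change x + Φ.f x x • w - (Φ.ε * Φ.f w x) • x = x
    rw [hx, h0, zero_smul, mul_zero, zero_smul, add_zero, sub_zero]
  · rw [hg]
    change v + Φ.f x v • w - (Φ.ε * Φ.f w v) • x = _
    rw [hv, zero_smul, add_zero, neg_smul, sub_eq_add_neg]

theorem Kp_fix {x w v : V} (hw : w ∉ Submodule.span F {x}) (h : Φ.uf x w v = v) :
    Φ.f x v = 0 := by
  by_contra h0
  apply hw
  have h1 : v + Φ.f x v • w - (Φ.ε * Φ.f w v) • x = v := h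
  have h2 : Φ.f x v • w = (Φ.ε * Φ.f w v) • x := by
    have h3 : Φ.f x v • w - (Φ.ε * Φ.f w v) • x = 0 := by
      have : Φ.f x v • w - (Φ.ε * Φ.f w v) • x = (v + Φ.f x v • w - (Φ.ε * Φ.f w v) • x) - v := by
        abel
      rw [this, h1, sub_self]
    exact sub_eq_zero.1 h3
  rw [Submodule.mem_span_singleton]
  refine ⟨(Φ.f x v)⁻¹ * (Φ.ε * Φ.f w v), ?_⟩
  rw [← smul_smul, ← h2, smul_smul, inv_mul_cancel₀ h0, one_smul]

end Aux

theorem kp {F V S : Type} [Field F] [Finite F] [AddCommGroup V] [Module F V]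
    [FiniteDimensional F V] [Group S] (Φ : FS F V) (r : ℕ) [Fact r.Prime] [CharP F r] {ν : ℕ}
    (hν : Φ.WI ν) (h7 : 7 ≤ ν) (ρ : Rl F V S) (hE : Φ.El ≤ ρ.T) (hI : ρ.T ≤ Φ.Isom) {x : V}
    (hx : Φ.q x = 0) (hx0 : x ≠ 0) :
    ∃ K : Subgroup S, K ≠ ⊥ ∧ IsPGroup r K ∧ K ≤ ρ.st (Submodule.span F {x}) ∧
      (∀ s ∈ ρ.st (Submodule.span F {x}), ∀ k ∈ K, s * k * s⁻¹ ∈ K) ∧
      ∀ w, Φ.q w = 0 → Φ.f x w = 0 → ∀ g : ρ.T, (∀ v, (g : V ≃ₗ[F] V) v = Φ.uf x w v) →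
        ρ.π g ∈ K ∧ ∃ j : ℕ, g ^ r ^ j = 1 := by
  have hxx : Φ.f x x = 0 := Φ.q_self x hx
  haveI : Nontrivial V := ⟨⟨x, 0, hx0⟩⟩
  refine ⟨(Kp_N Φ ρ x hxx).map ρ.π, ?_, ?_, ?_, ?_, ?_⟩
  · -- nontrivial
    intro hbot
    have hsx : finrank F (Submodule.span F {x}) = 1 := finrank_span_singleton hx0
    obtain ⟨z, hz1, hz2, hz3⟩ := Φ.exists_perp hν (Submodule.span F {x}) (Submodule.span F {x})
      (by rw [hsx]; omega)
    have hxz : Φ.f x z = 0 := hz3 x (Submodule.mem_span_singleton_self x)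
    obtain ⟨g, hg1, hg2⟩ := Φ.exists_u hx hz2 hxz
    have hm := Kp_uf_mem Φ ρ x z hxx hxz ⟨g, hE hg1⟩ hg2
    have h1 : ρ.π ⟨g, hE hg1⟩ ∈ (Kp_N Φ ρ x hxx).map ρ.π := Subgroup.mem_map_of_mem _ hm
    rw [hbot, Subgroup.mem_bot] at h1
    obtain ⟨c, hc⟩ := (ρ.ker _).1 h1
    have hc' : ∀ v, g v = c • v := hc
    have hc1 : c = 1 := by
      have h2 : g x = x := hm.1
      rw [hc'] at h2
      have h3 : (c - 1) • x = 0 := by rw [sub_smul, one_smul, h2, sub_self]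
      rcases smul_eq_zero.1 h3 with h4 | h4
      · exact sub_eq_zero.1 h4
      · exact absurd h4 hx0
    apply hx0
    apply Φ.nondeg
    intro v
    apply Kp_fix Φ hz1
    rw [← hg2, hc', hc1, one_smul]
  · -- r-group
    rintro ⟨k, g, hg, rfl⟩
    refine ⟨2, ?_⟩
    apply Subtype.ext
    change ρ.π g ^ r ^ 2 = 1
    rw [← map_pow, Kp_pow Φ ρ hI x hxx r g hg, map_one]
  · -- contained in the stabiliser
    rintro _ ⟨g, hg, rfl⟩
    rw [ρ.mem_st]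
    change (Submodule.span F {x}).map _ = _
    rw [Submodule.map_span, Set.image_singleton]
    congr 2
    exact hg.1
  · -- normal
    intro s hs
    rintro _ ⟨g, hg, rfl⟩
    obtain ⟨h, rfl⟩ := ρ.surj s
    rw [ρ.mem_st] at hs
    refine ⟨h * g * h⁻¹, ?_, by rw [map_mul, map_mul, map_inv]⟩
    have hi := (hI h.2).1
    have h1 : (h : V ≃ₗ[F] V) x ∈ Submodule.span F {x} := by
      rw [← hs]
      exact apply_mem_gm.2 (Submodule.mem_span_singleton_self x)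
    obtain ⟨c, hc⟩ := Submodule.mem_span_singleton.1 h1
    have h5 : ∀ v, (h : V ≃ₗ[F] V)⁻¹ ((h : V ≃ₗ[F] V) v) = v :=
      fun v => (h : V ≃ₗ[F] V).symm_apply_apply v
    have h6 : ∀ v, (h : V ≃ₗ[F] V) ((h : V ≃ₗ[F] V)⁻¹ v) = v :=
      fun v => (h : V ≃ₗ[F] V).apply_symm_apply v
    have hc0 : c ≠ 0 := by
      intro h0
      rw [h0, zero_smul] at hc
      apply hx0
      apply (h : V ≃ₗ[F] V).injective
      rw [← hc, map_zero]
    have h2 : (h : V ≃ₗ[F] V)⁻¹ x = c⁻¹ • x := by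
      have h3 := h5 x
      rw [← hc, map_smul] at h3
      rw [← h3, smul_smul, inv_mul_cancel₀ hc0, one_smul, h3]
    have hap : ∀ v, ((h * g * h⁻¹ : ρ.T) : V ≃ₗ[F] V) v =
      (h : V ≃ₗ[F] V) ((g : V ≃ₗ[F] V) ((h : V ≃ₗ[F] V)⁻¹ v)) := fun v => rfl
    refine ⟨?_, fun v hv => ?_⟩
    · rw [hap, h2, map_smul, hg.1, map_smul, ← hc, smul_smul, inv_mul_cancel₀ hc0, one_smul]
    · have h3 : Φ.f x ((h : V ≃ₗ[F] V)⁻¹ v) = 0 := by
        rw [← hi, h6, ← hc, Φ.f_smul_left, hv, mul_zero]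
      obtain ⟨a, ha⟩ := hg.2 _ h3
      refine ⟨a * c, ?_⟩
      rw [hap, ha, map_add, h6, map_smul, ← hc, smul_smul]
  · intro w _ hxw g hg
    have hm := Kp_uf_mem Φ ρ x w hxx hxw g hg
    exact ⟨Subgroup.mem_map_of_mem _ hm, 2, Kp_pow Φ ρ hI x hxx r g hm⟩

theorem fix_u {F V : Type} [Field F] [AddCommGroup V] [Module F V]
    [FiniteDimensional F V] (Φ : FS F V) {ν : ℕ} (hν : Φ.WI ν) (h7 : 7 ≤ ν) {x : V}
    (hx : Φ.q x = 0) (hx0 : x ≠ 0) (v : V)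
    (hv : ∀ w, Φ.q w = 0 → Φ.f x w = 0 → Φ.uf x w v = v) : v ∈ Submodule.span F {x} := by
  have hsx : finrank F (Submodule.span F {x}) = 1 := finrank_span_singleton hx0
  obtain ⟨z, hz1, hz2, hz3⟩ := Φ.exists_perp hν (Submodule.span F {x}) (Submodule.span F {x})
    (by rw [hsx]; omega)
  have hxz : Φ.f x z = 0 := hz3 x (Submodule.mem_span_singleton_self x)
  have h1 : Φ.f x v = 0 := Kp_fix Φ hz1 (hv z hz2 hxz)
  have hε : Φ.ε ≠ 0 := by
    rcases Φ.hε with h | h <;> rw [h]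
    · exact one_ne_zero
    · exact neg_ne_zero.2 one_ne_zero
  have h2 : ∀ w, Φ.q w = 0 → Φ.f x w = 0 → Φ.f w v = 0 := by
    intro w hw hxw
    have h3 : v + Φ.f x v • w - (Φ.ε * Φ.f w v) • x = v := hv w hw hxw
    rw [h1, zero_smul, add_zero] at h3
    have h4 : (Φ.ε * Φ.f w v) • x = 0 := by
      have h5 := sub_eq_self.1 h3
      exact h5
    rcases smul_eq_zero.1 h4 with h5 | h5
    · exact (mul_eq_zero.1 h5).resolve_left hε
    · exact absurd h5 hx0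
  set U := Φ.perp (Submodule.span F {x}) with hU
  have hmU : ∀ u, u ∈ U ↔ Φ.f x u = 0 := by
    intro u
    constructor
    · intro h
      exact h x (Submodule.mem_span_singleton_self x)
    · intro h y hy
      obtain ⟨c, rfl⟩ := Submodule.mem_span_singleton.1 hy
      rw [Φ.f_smul_left, h, mul_zero]
  have hUU : Φ.perp U = Submodule.span F {x} := Φ.perp_perp _
  have h3 : ∃ u ∈ U, Φ.f z u ≠ 0 := by
    by_contra hcon
    push Not at hcon
    apply hz1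
    rw [← hUU]
    intro u hu
    exact Φ.f_eq_zero_symm (hcon u hu)
  have h4 := Φ.span_sing U z ((hmU z).2 hxz) hz2 h3
  rw [← hUU]
  have h5 : U ≤ Φ.perp (Submodule.span F {v}) := by
    rw [← h4, Submodule.span_le]
    rintro w ⟨hw1, hw2⟩ y hy
    obtain ⟨c, rfl⟩ := Submodule.mem_span_singleton.1 hy
    rw [Φ.f_smul_left, Φ.f_eq_zero_symm (h2 w hw2 ((hmU w).1 hw1)), mul_zero]
  intro u hu
  exact Φ.f_eq_zero_symm (h5 hu v (Submodule.mem_span_singleton_self v))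

end Helper76.CL
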