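import Pool.Agent.Helper76.CL.Trk
import Pool.Agent.Helper76.CL.Lift

/-!
# Images of point stabilisers
-/

set_option autoImplicit false

namespace Helper76.CL

open Module

theorem Lin1_sub {F V : Type} [Field F] [AddCommGroup V] [Module F V] [FiniteDimensional F V]
    (W : Submodule F V) (k : ℕ) (hk : k ≤ finrank F W) :
    ∃ R : Submodule F V, R ≤ W ∧ finrank F R = k := by
  let b := finBasis F W
  have h1 : LinearIndependent F fun i : Fin k => ((b (Fin.castLE hk i) : W) : V) := by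
    have h2 := b.linearIndependent.comp (Fin.castLE hk) (Fin.castLE_injective hk)
    exact h2.map' W.subtype W.ker_subtype
  refine ⟨Submodule.span F (Set.range fun i : Fin k => ((b (Fin.castLE hk i) : W) : V)), ?_, ?_⟩
  · rw [Submodule.span_le]
    rintro _ ⟨i, rfl⟩
    exact (b (Fin.castLE hk i)).2
  · rw [finrank_span_eq_card h1, Fintype.card_fin]

theorem Lin1_meet {F V : Type} [Field F] [AddCommGroup V] [Module F V] [FiniteDimensional F V]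
    (W : Submodule F V) (j : ℕ) (hj : j ≤ finrank F W) (hj' : finrank F W + j ≤ finrank F V) :
    ∃ W' : Submodule F V, finrank F W' = finrank F W ∧
      finrank F (W ⊓ W' : Submodule F V) + j = finrank F W := by
  obtain ⟨C, hC⟩ := Submodule.exists_isCompl W
  have h1 : finrank F W + finrank F C = finrank F V := Submodule.finrank_add_eq_of_isCompl hC
  obtain ⟨R, hR, hR1⟩ := Lin1_sub W (finrank F W - j) (by omega)
  obtain ⟨C', hC', hC1⟩ := Lin1_sub C j (by omega)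
  have h2 : C' ⊓ W = ⊥ := by
    rw [inf_comm]
    exact disjoint_iff.1 (hC.disjoint.mono_right hC')
  have h3 : W ⊓ (R ⊔ C') = R := by
    rw [inf_comm, sup_inf_assoc_of_le _ hR, h2, sup_bot_eq]
  have h4 := Submodule.finrank_sup_add_finrank_inf_eq R C'
  have h5 : R ⊓ C' = ⊥ := disjoint_iff.1 ((hC.disjoint.mono_right hC').mono_left hR)
  rw [h5, finrank_bot, add_zero] at h4
  refine ⟨R ⊔ C', by omega, ?_⟩
  rw [h3]
  omega

theorem Lin1_pow {F V : Type} [Field F] [AddCommGroup V] [Module F V] {P : Submodule F V}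
    {g : V ≃ₗ[F] V} (h1 : ∀ v, g v - v ∈ P) (h2 : ∀ v ∈ P, g v = v) (k : ℕ) (v : V) :
    (g ^ k) v = v + (k : F) • (g v - v) := by
  induction k with
  | zero => rw [pow_zero, Nat.cast_zero, zero_smul, add_zero]; rfl
  | succ k ih =>
    rw [pow_succ']
    change g ((g ^ k) v) = _
    rw [ih, map_add, map_smul, h2 _ (h1 v), Nat.cast_succ, add_smul, one_smul]
    abel

/-- normal subgroup of prime power order of a point stabiliser -/
theorem lin_kp {F V S : Type} [Field F] [Finite F] [AddCommGroup V] [Module F V]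
    [FiniteDimensional F V] [Group S] (r : ℕ) [Fact r.Prime] [CharP F r] (ρ : Rl F V S)
    (hT : TVS ρ.T) (hn : 2 ≤ finrank F V) (P : Submodule F V) (hP : finrank F P = 1) :
    ∃ K : Subgroup S, K ≠ ⊥ ∧ IsPGroup r K ∧ K ≤ ρ.st P ∧
      ∀ s ∈ ρ.st P, ∀ k ∈ K, s * k * s⁻¹ ∈ K := by
  let N : Subgroup ρ.T :=
    { carrier := {g | (∀ v, (g : V ≃ₗ[F] V) v - v ∈ P) ∧ ∀ v ∈ P, (g : V ≃ₗ[F] V) v = v}
      one_mem' := by
        refine ⟨fun v => ?_, fun v _ => rfl⟩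
        have h1 : ((1 : ρ.T) : V ≃ₗ[F] V) v = v := rfl
        rw [h1, sub_self]
        exact P.zero_mem
      mul_mem' := by
        rintro g h ⟨h1, h2⟩ ⟨h3, h4⟩
        have h5 : ∀ v, ((g * h : ρ.T) : V ≃ₗ[F] V) v =
          (g : V ≃ₗ[F] V) ((h : V ≃ₗ[F] V) v) := fun v => rfl
        refine ⟨fun v => ?_, fun v hv => ?_⟩
        · rw [h5]
          have h6 := P.add_mem (h1 ((h : V ≃ₗ[F] V) v)) (h3 v)
          rwa [sub_add_sub_cancel] at h6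
        · rw [h5, h4 v hv, h2 v hv]
      inv_mem' := by
        rintro g ⟨h1, h2⟩
        have h3 : ∀ v, ((g⁻¹ : ρ.T) : V ≃ₗ[F] V) v = (g : V ≃ₗ[F] V).symm v := fun v => rfl
        refine ⟨fun v => ?_, fun v hv => ?_⟩
        · have h4 := h1 ((g : V ≃ₗ[F] V).symm v)
          rw [LinearEquiv.apply_symm_apply] at h4
          rw [h3, ← neg_sub]
          exact P.neg_mem h4
        · rw [h3, LinearEquiv.symm_apply_eq, h2 v hv] }
  refine ⟨N.map ρ.π, ?_, ?_, ?_, ?_⟩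
  · intro hbot
    have hPt : ∃ x, x ∉ P := by
      by_contra hc
      push Not at hc
      have : P = ⊤ := by
        rw [eq_top_iff]
        exact fun v _ => hc v
      rw [this, finrank_top] at hP
      omega
    have hPb : P ≠ ⊥ := by
      rintro rfl
      rw [finrank_bot] at hP
      omega
    obtain ⟨x, hx⟩ := hPt
    obtain ⟨v, hv, hv0⟩ := Submodule.exists_mem_ne_zero_of_ne_bot hPb
    obtain ⟨φ, h1, h2⟩ := Trk_fun P hx
    have h3 := h1 v hv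
    have h4 := hT φ v h3
    have h5 : (⟨_, h4⟩ : ρ.T) ∈ N := by
      refine ⟨fun w => ?_, fun w hw => ?_⟩
      · change LinearEquiv.transvection h3 w - w ∈ P
        rw [LinearEquiv.transvection.apply, add_sub_cancel_left]
        exact P.smul_mem _ hv
      · change LinearEquiv.transvection h3 w = w
        rw [LinearEquiv.transvection.apply, h1 w hw, zero_smul, add_zero]
    have h6 : ρ.π ⟨_, h4⟩ = 1 := by
      have h7 : ρ.π ⟨_, h4⟩ ∈ N.map ρ.π := ⟨_, h5, rfl⟩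
      rw [hbot] at h7
      exact h7
    obtain ⟨c, hc⟩ := (ρ.ker _).1 h6
    have h8 : LinearEquiv.transvection h3 v = c • v := hc v
    have h9 : LinearEquiv.transvection h3 x = c • x := hc x
    rw [LinearEquiv.transvection.apply, h3, zero_smul, add_zero] at h8
    rw [LinearEquiv.transvection.apply, h2, one_smul] at h9
    have h10 : c = 1 := by
      have h11 : (1 - c) • v = 0 := by rw [sub_smul, one_smul, ← h8, sub_self]
      rcases smul_eq_zero.1 h11 with h | h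
      · exact (sub_eq_zero.1 h).symm
      · exact absurd h hv0
    rw [h10, one_smul] at h9
    exact hv0 (by simpa using h9)
  · rintro ⟨_, ⟨g, ⟨h1, h2⟩, rfl⟩⟩
    refine ⟨1, ?_⟩
    have h3 : g ^ r = 1 := by
      apply Subtype.ext
      apply LinearEquiv.ext
      intro v
      have h4 := Lin1_pow h1 h2 r v
      rw [CharP.cast_eq_zero, zero_smul, add_zero] at h4
      exact h4
    apply Subtype.ext
    change (ρ.π g) ^ r ^ 1 = 1
    rw [pow_one, ← map_pow, h3, map_one]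
  · rintro _ ⟨g, ⟨h1, h2⟩, rfl⟩
    rw [ρ.mem_st]
    refine Trk_gm_eq (fun u hu => ?_) rfl
    rw [h2 u hu]
    exact hu
  · rintro _ ⟨h, rfl, hh⟩ _ ⟨g, ⟨h1, h2⟩, rfl⟩
    refine ⟨h * g * h⁻¹, ?_, by rw [map_mul, map_mul, map_inv]⟩
    have h3 : ∀ v, ((h * g * h⁻¹ : ρ.T) : V ≃ₗ[F] V) v =
      (h : V ≃ₗ[F] V) ((g : V ≃ₗ[F] V) ((h : V ≃ₗ[F] V)⁻¹ v)) := fun v => rfl
    have h4 : ∀ v, (h : V ≃ₗ[F] V) ((h : V ≃ₗ[F] V)⁻¹ v) = v :=
      (h : V ≃ₗ[F] V).apply_symm_apply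
    refine ⟨fun v => ?_, fun v hv => ?_⟩
    · rw [h3]
      have h5 : (h : V ≃ₗ[F] V) ((g : V ≃ₗ[F] V) ((h : V ≃ₗ[F] V)⁻¹ v)) - v =
          (h : V ≃ₗ[F] V) ((g : V ≃ₗ[F] V) ((h : V ≃ₗ[F] V)⁻¹ v) - (h : V ≃ₗ[F] V)⁻¹ v) := by
        rw [map_sub, h4]
      rw [h5]
      have h6 : (h : V ≃ₗ[F] V) ((g : V ≃ₗ[F] V) ((h : V ≃ₗ[F] V)⁻¹ v) -
          (h : V ≃ₗ[F] V)⁻¹ v) ∈ gm (h : V ≃ₗ[F] V) P := apply_mem_gm.2 (h1 _)
      rwa [hh] at h6
    · rw [h3]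
      have h5 : (h : V ≃ₗ[F] V)⁻¹ v ∈ P := by
        rw [← mem_gm, hh]
        exact hv
      rw [h2 _ h5, h4]

theorem Lin1_dc {F V S : Type} [Field F] [AddCommGroup V] [Module F V]
    [FiniteDimensional F V] [Group S] (ρ : Rl F V S) (hT : TVS ρ.T) (P : Submodule F V)
    (hP : finrank F P = 1) {s s' : S} (hs : s ∉ ρ.st P) (hs' : s' ∉ ρ.st P) :
    ∃ a ∈ ρ.st P, ∃ b ∈ ρ.st P, s' = a * s * b := by
  obtain ⟨h, rfl⟩ := ρ.surj s
  obtain ⟨h', rfl⟩ := ρ.surj s'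
  obtain ⟨x, hx0, hx⟩ := finrank_eq_one_iff'.1 hP
  have hPx : ∀ g : V ≃ₗ[F] V, g x ∈ P → gm g P = P := by
    intro g hg
    refine Trk_gm_eq (fun u hu => ?_) rfl
    obtain ⟨c, hc⟩ := hx ⟨u, hu⟩
    have hc' : c • (x : V) = u := congrArg Subtype.val hc
    rw [← hc', map_smul]
    exact P.smul_mem _ hg
  rw [ρ.mem_st] at hs hs'
  have h1 : (h : V ≃ₗ[F] V) x ∉ P := fun hh => hs (hPx _ hh)
  have h2 : (h' : V ≃ₗ[F] V) x ∉ P := fun hh => hs' (hPx _ hh)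
  obtain ⟨g, hg, hgP, c, hc, hgc⟩ := tr_out hT P h1 h2
  let b : ρ.T := h'⁻¹ * ⟨g, hg⟩ * h
  have hb : ρ.π b ∈ ρ.st P := by
    rw [ρ.mem_st]
    apply hPx
    have h3 : (b : V ≃ₗ[F] V) x = (h' : V ≃ₗ[F] V).symm (g ((h : V ≃ₗ[F] V) x)) := rfl
    rw [h3, hgc, map_smul, LinearEquiv.symm_apply_apply]
    exact P.smul_mem _ x.2
  have ha : ρ.π ⟨g, hg⟩ ∈ ρ.st P := by
    rw [ρ.mem_st]
    exact hgP
  refine ⟨_, ha, _, (ρ.st P).inv_mem hb, ?_⟩
  change _ = ρ.π ⟨g, hg⟩ * ρ.π h * (ρ.π (h'⁻¹ * ⟨g, hg⟩ * h))⁻¹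
  rw [← map_mul, ← map_inv, ← map_mul]
  congr 1
  group

theorem lin1 {F V₁ V₂ S₁ S₂ : Type} [Field F] [Finite F] [AddCommGroup V₁] [Module F V₁]
    [FiniteDimensional F V₁] [AddCommGroup V₂] [Module F V₂] [FiniteDimensional F V₂]
    [Group S₁] [Group S₂] (ρ₁ : Rl F V₁ S₁) (ρ₂ : Rl F V₂ S₂) (h₁ : TVS ρ₁.T) (h₂ : TVS ρ₂.T)
    (hn₁ : 4 ≤ finrank F V₁) (hn₂ : 4 ≤ finrank F V₂) (φ : S₁ ≃* S₂) (P : Submodule F V₁)
    (hP : finrank F P = 1) :
    ∃ W : Submodule F V₂, (ρ₁.st P).map φ.toMonoidHom ≤ ρ₂.st W ∧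
      (finrank F W = 1 ∨ finrank F W + 1 = finrank F V₂) := by
  classical
  obtain ⟨r, hr⟩ := CharP.exists F
  haveI : Fact r.Prime := ⟨(CharP.char_is_prime_or_zero F r).resolve_right
    (fun h => CharP.char_ne_zero_of_finite F r h)⟩
  obtain ⟨K, hK1, hK2, hK3, hK4⟩ := lin_kp r ρ₁ h₁ (by omega) P hP
  have hK5 : K.map φ.toMonoidHom ≠ ⊥ := by
    intro h
    apply hK1
    rw [eq_bot_iff]
    intro k hk
    have h1 : φ k ∈ K.map φ.toMonoidHom := ⟨k, hk, rfl⟩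
    rw [h, Subgroup.mem_bot] at h1
    rw [Subgroup.mem_bot]
    exact φ.injective (h1.trans (map_one φ).symm)
  obtain ⟨W, hW1, hW2, hW3, -⟩ := lift r ρ₂ (K.map φ.toMonoidHom) (hK2.map φ.toMonoidHom) hK5
  have hW4 : W ≠ ⊥ := by
    rintro rfl
    refine hW3 ⊤ ?_ (fun g _ => gm_top _) (by simp)
    intro h
    have h5 := finrank_top F V₂
    rw [h, finrank_bot] at h5
    omega
  have hM : (ρ₁.st P).map φ.toMonoidHom ≤ ρ₂.st W := by
    rintro _ ⟨s, hs, rfl⟩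
    obtain ⟨g, hg⟩ := ρ₂.surj (φ.toMonoidHom s)
    rw [← hg, ρ₂.mem_st]
    apply hW2
    rintro _ ⟨k, hk, rfl⟩
    rw [hg]
    refine ⟨s * k * s⁻¹, hK4 s hs k hk, ?_⟩
    rw [map_mul, map_mul, map_inv]
  refine ⟨W, hM, ?_⟩
  by_contra hcon
  push Not at hcon
  have hf0 : finrank F W ≠ 0 := fun h => hW4 (Submodule.finrank_eq_zero.1 h)
  have hf1 : finrank F W < finrank F V₂ := Submodule.finrank_lt hW1
  obtain ⟨W', h3, h4⟩ := Lin1_meet W 1 (by omega) (by omega)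
  obtain ⟨W'', h5, h6⟩ := Lin1_meet W 2 (by omega) (by omega)
  obtain ⟨g', hg', hgW'⟩ := trk h₂ h3.symm
  obtain ⟨g'', hg'', hgW''⟩ := trk h₂ h5.symm
  have key : ∀ (g : V₂ ≃ₗ[F] V₂) (hg : g ∈ ρ₂.T), gm g W ≠ W →
      φ.symm (ρ₂.π ⟨g, hg⟩) ∉ ρ₁.st P := by
    intro g hg hne hmem
    apply hne
    have h7 : ρ₂.π ⟨g, hg⟩ ∈ ρ₂.st W := by
      apply hM
      exact ⟨_, hmem, φ.apply_symm_apply _⟩
    rw [ρ₂.mem_st] at h7
    exact h7
  have h7 := key g' hg' (by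
    rw [hgW']
    intro h
    rw [h, inf_idem] at h4
    omega)
  have h8 := key g'' hg'' (by
    rw [hgW'']
    intro h
    rw [h, inf_idem] at h6
    omega)
  obtain ⟨a, ha, b, hb, hab⟩ := Lin1_dc ρ₁ h₁ P hP h7 h8
  have h9 : ρ₂.π ⟨g'', hg''⟩ = φ a * ρ₂.π ⟨g', hg'⟩ * φ b := by
    have := congrArg φ hab
    rw [map_mul, map_mul, φ.apply_symm_apply, φ.apply_symm_apply] at this
    exact this
  obtain ⟨u, hu⟩ := ρ₂.surj (φ a)
  obtain ⟨v, hv⟩ := ρ₂.surj (φ b)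
  have huW : gm (u : V₂ ≃ₗ[F] V₂) W = W := by
    rw [← ρ₂.mem_st, hu]
    exact hM ⟨a, ha, rfl⟩
  have hvW : gm (v : V₂ ≃ₗ[F] V₂) W = W := by
    rw [← ρ₂.mem_st, hv]
    exact hM ⟨b, hb, rfl⟩
  have h10 : ρ₂.π (⟨g'', hg''⟩⁻¹ * (u * ⟨g', hg'⟩ * v)) = 1 := by
    rw [map_mul, map_inv, map_mul, map_mul, hu, hv, h9, inv_mul_cancel]
  obtain ⟨c, hc⟩ := (ρ₂.ker _).1 h10
  have h11 := gm_scalar hc W
  have h12 : ((⟨g'', hg''⟩⁻¹ * (u * ⟨g', hg'⟩ * v) : ρ₂.T) : V₂ ≃ₗ[F] V₂) =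
    g''⁻¹ * ((u : V₂ ≃ₗ[F] V₂) * g' * (v : V₂ ≃ₗ[F] V₂)) := rfl
  rw [h12, gm_mul, gm_mul, gm_mul, hvW, hgW'] at h11
  have h13 : gm (u : V₂ ≃ₗ[F] V₂) W' = W'' := by
    rw [← hgW'']
    conv_rhs => rw [← h11]
    rw [gm_gm_inv]
  have h14 : gm (u : V₂ ≃ₗ[F] V₂) (W ⊓ W') = W ⊓ W'' := by
    rw [← h13]
    conv_rhs => rw [← huW]
    exact Submodule.map_inf _ (u : V₂ ≃ₗ[F] V₂).injective
  have h15 : finrank F (W ⊓ W' : Submodule F V₂) = finrank F (W ⊓ W'' : Submodule F V₂) := by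
    rw [← h14, finrank_gm]
  omega

end Helper76.CL
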