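import Pool.Agent.Helper76.CL.Lin1
import Pool.Agent.Helper76.CL.Dua

/-!
# Images of point stabilisers
-/

set_option autoImplicit false

namespace Helper76.CL

open Module

/-- the stabiliser of `W` fixes no other proper nonzero subspace -/
theorem st_inj {F V S : Type} [Field F] [AddCommGroup V] [Module F V]
    [FiniteDimensional F V] [Group S] (ρ : Rl F V S) (hT : TVS ρ.T) {W W' : Submodule F V}
    (hW : W ≠ ⊥) (hW' : W' ≠ ⊥) (hW1 : W ≠ ⊤) (hW1' : W' ≠ ⊤) (h : ρ.st W ≤ ρ.st W') : W = W' := by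
  have key : ∀ (g : V ≃ₗ[F] V), g ∈ ρ.T → gm g W = W → ∀ x ∈ W', g x ∈ W' := by
    intro g hg hgW x hx
    have h1 : ρ.π ⟨g, hg⟩ ∈ ρ.st W' := by
      apply h
      rw [ρ.mem_st]
      exact hgW
    rw [ρ.mem_st] at h1
    have h2 : gm g W' = W' := h1
    rw [← h2]
    exact apply_mem_gm.2 hx
  have hsm : ∀ (c : F) (y : V), c ≠ 0 → c • y ∈ W' → y ∈ W' := by
    intro c y hc hy
    have h3 := W'.smul_mem c⁻¹ hy
    rwa [smul_smul, inv_mul_cancel₀ hc, one_smul] at h3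
  have hle : W' ≤ W := by
    intro x hx
    by_contra hxW
    apply hW1'
    have hout : ∀ y, y ∉ W → y ∈ W' := by
      intro y hy
      obtain ⟨g, hg, hgW, c, hc, hgx⟩ := tr_out hT W hxW hy
      apply hsm c y hc
      rw [← hgx]
      exact key g hg hgW x hx
    rw [eq_top_iff]
    intro w _
    by_cases hw : w ∈ W
    · have h3 : w + x ∉ W := fun hh => hxW (by simpa using W.sub_mem hh hw)
      simpa using W'.sub_mem (hout _ h3) hx
    · exact hout w hw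
  apply le_antisymm _ hle
  obtain ⟨x, hx, hx0⟩ := Submodule.exists_mem_ne_zero_of_ne_bot hW'
  intro y hy
  by_cases hy0 : y = 0
  · rw [hy0]
    exact W'.zero_mem
  obtain ⟨g, hg, hgW, c, hc, hgx⟩ := tr_in hT W (hle hx) hy hx0 hy0
  apply hsm c y hc
  rw [← hgx]
  exact key g hg hgW x hx

theorem Lin2_aux {F V₁ V₂ S₁ S₂ : Type} [Field F] [Finite F] [AddCommGroup V₁] [Module F V₁]
    [FiniteDimensional F V₁] [AddCommGroup V₂] [Module F V₂] [FiniteDimensional F V₂]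
    [Group S₁] [Group S₂] (ρ₁ : Rl F V₁ S₁) (ρ₂ : Rl F V₂ S₂) (h₁ : TVS ρ₁.T) (h₂ : TVS ρ₂.T)
    (hn₁ : 4 ≤ finrank F V₁) (hn₂ : 4 ≤ finrank F V₂) (φ : S₁ ≃* S₂) (P : Submodule F V₁)
    (hP : finrank F P = 1) (W : Submodule F V₂) (hW : finrank F W = 1)
    (h : (ρ₁.st P).map φ.toMonoidHom ≤ ρ₂.st W) :
    (ρ₁.st P).map φ.toMonoidHom = ρ₂.st W := by
  apply le_antisymm h
  obtain ⟨W', h3, h4⟩ := lin1 ρ₂ ρ₁ h₂ h₁ hn₂ hn₁ φ.symm W hW
  have h5 : ρ₁.st P ≤ ρ₁.st W' := by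
    intro s hs
    apply h3
    exact ⟨φ s, h ⟨s, hs, rfl⟩, φ.symm_apply_apply s⟩
  have h6 : P = W' := by
    apply st_inj ρ₁ h₁ _ _ _ _ h5
    · rintro rfl
      rw [finrank_bot] at hP
      omega
    · rintro rfl
      rw [finrank_bot] at h4
      omega
    · rintro rfl
      rw [finrank_top] at hP
      omega
    · rintro rfl
      rw [finrank_top] at h4
      omega
  intro t ht
  refine ⟨φ.symm t, ?_, φ.apply_symm_apply t⟩
  rw [h6]
  exact h3 ⟨t, ht, rfl⟩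

theorem lin2 {F V₁ V₂ S₁ S₂ : Type} [Field F] [Finite F] [AddCommGroup V₁] [Module F V₁]
    [FiniteDimensional F V₁] [AddCommGroup V₂] [Module F V₂] [FiniteDimensional F V₂]
    [Group S₁] [Group S₂] (ρ₁ : Rl F V₁ S₁) (ρ₂ : Rl F V₂ S₂) (h₁ : TVS ρ₁.T) (h₂ : TVS ρ₂.T)
    (hn₁ : 4 ≤ finrank F V₁) (hn₂ : 4 ≤ finrank F V₂) (φ : S₁ ≃* S₂) (P : Submodule F V₁)
    (hP : finrank F P = 1) :
    ∃ W : Submodule F V₂, (ρ₁.st P).map φ.toMonoidHom = ρ₂.st W ∧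
      (finrank F W = 1 ∨ finrank F W + 1 = finrank F V₂) := by
  obtain ⟨W, h3, h4⟩ := lin1 ρ₁ ρ₂ h₁ h₂ hn₁ hn₂ φ P hP
  refine ⟨W, ?_, h4⟩
  rcases h4 with h4 | h4
  · exact Lin2_aux ρ₁ ρ₂ h₁ h₂ hn₁ hn₂ φ P hP W h4 h3
  · obtain ⟨ρ', h5, h6⟩ := exists_dual ρ₂ h₂
    rw [← h6 W] at h3 ⊢
    refine Lin2_aux ρ₁ ρ' h₁ h5 hn₁ ?_ φ P hP _ ?_ h3
    · rw [Subspace.dual_finrank_eq]
      exact hn₂
    · have h7 := Subspace.finrank_add_finrank_dualAnnihilator_eq W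
      omega

end Helper76.CL
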