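import Pool.Agent.Helper76.CL.Lin2
import Pool.Agent.Helper76.CL.Pts

/-!
# Isomorphisms induce isomorphisms of subspace lattices
-/

set_option autoImplicit false

namespace Helper76.CL

open Module

section

variable {F V₁ V₂ S₁ S₂ : Type} [Field F] [AddCommGroup V₁] [Module F V₁]
    [AddCommGroup V₂] [Module F V₂] [Group S₁] [Group S₂] (ρ₁ : Rl F V₁ S₁) (ρ₂ : Rl F V₂ S₂)

theorem Lin3_conj (g : ρ₁.T) (W : Submodule F V₁) :
    (ρ₁.st W).map (MulAut.conj (ρ₁.π g)).toMonoidHom = ρ₁.st (gm (g : V₁ ≃ₗ[F] V₁) W) := by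
  ext s
  rw [ρ₁.mem_st_gm]
  constructor
  · rintro ⟨t, ht, rfl⟩
    change (ρ₁.π g)⁻¹ * (ρ₁.π g * t * (ρ₁.π g)⁻¹) * ρ₁.π g ∈ ρ₁.st W
    have : (ρ₁.π g)⁻¹ * (ρ₁.π g * t * (ρ₁.π g)⁻¹) * ρ₁.π g = t := by group
    rw [this]
    exact ht
  · intro h
    refine ⟨_, h, ?_⟩
    change ρ₁.π g * ((ρ₁.π g)⁻¹ * s * ρ₁.π g) * (ρ₁.π g)⁻¹ = s
    group

/-- equivariance -/
theorem Lin3_equi (φ : S₁ ≃* S₂) {g₁ : ρ₁.T} {g₂ : ρ₂.T} (hg : ρ₂.π g₂ = φ (ρ₁.π g₁))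
    {W₁ : Submodule F V₁} {W₂ : Submodule F V₂} (h : (ρ₁.st W₁).map φ.toMonoidHom = ρ₂.st W₂) :
    (ρ₁.st (gm (g₁ : V₁ ≃ₗ[F] V₁) W₁)).map φ.toMonoidHom =
      ρ₂.st (gm (g₂ : V₂ ≃ₗ[F] V₂) W₂) := by
  rw [← Lin3_conj, ← Lin3_conj, ← h, Subgroup.map_map, Subgroup.map_map]
  congr 1
  ext x
  change φ (ρ₁.π g₁ * x * (ρ₁.π g₁)⁻¹) = ρ₂.π g₂ * φ x * (ρ₂.π g₂)⁻¹
  rw [hg, map_mul, map_mul, map_inv]

theorem Lin3_symm (φ : S₁ ≃* S₂) {W₁ : Submodule F V₁} {W₂ : Submodule F V₂}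
    (h : (ρ₁.st W₁).map φ.toMonoidHom = ρ₂.st W₂) :
    (ρ₂.st W₂).map φ.symm.toMonoidHom = ρ₁.st W₁ := by
  rw [← h, Subgroup.map_map]
  have : φ.symm.toMonoidHom.comp φ.toMonoidHom = MonoidHom.id S₁ := by
    ext x
    exact φ.symm_apply_apply x
  rw [this, Subgroup.map_id]

theorem Lin3_mem (φ : S₁ ≃* S₂) {W₁ : Submodule F V₁} {W₂ : Submodule F V₂}
    (h : (ρ₁.st W₁).map φ.toMonoidHom = ρ₂.st W₂) (s : S₁) : φ s ∈ ρ₂.st W₂ ↔ s ∈ ρ₁.st W₁ := by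
  rw [← h]
  constructor
  · rintro ⟨t, ht, hts⟩
    rw [← φ.injective hts]
    exact ht
  · intro hs
    exact ⟨s, hs, rfl⟩

end

section

variable {F V : Type} [Field F] [AddCommGroup V] [Module F V] [FiniteDimensional F V]

theorem Lin3_ne_bot {P : Submodule F V} (hP : 0 < finrank F P) : P ≠ ⊥ := by
  rintro rfl
  rw [finrank_bot] at hP
  omega

theorem Lin3_ne_top {P : Submodule F V} (hP : finrank F P < finrank F V) : P ≠ ⊤ := by
  rintro rfl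
  rw [finrank_top] at hP
  omega

/-- a point not in `W` is outside a hyperplane that contains `W` -/
theorem Lin3_hyp {W P : Submodule F V} (h : ¬ P ≤ W) :
    ∃ H : Submodule F V, W ≤ H ∧ ¬ P ≤ H ∧ finrank F H + 1 = finrank F V := by
  obtain ⟨x, hx, hxW⟩ := Set.not_subset.1 h
  obtain ⟨ξ, hξx, hξW⟩ := Submodule.exists_le_ker_of_notMem hxW
  have hξ0 : ξ ≠ 0 := by
    rintro rfl
    exact hξx rfl
  refine ⟨LinearMap.ker ξ, hξW, fun hP => hξx (hP hx), ?_⟩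
  have h1 := LinearMap.finrank_range_add_finrank_ker ξ
  have h2 : finrank F (LinearMap.range ξ) = 1 := by
    rw [LinearMap.range_eq_top.2 (LinearMap.surjective hξ0), finrank_top, finrank_self]
  omega

theorem Lin3_le_of_points {W W' : Submodule F V}
    (h : ∀ P : Submodule F V, finrank F P = 1 → P ≤ W → P ≤ W') : W ≤ W' := by
  intro x hx
  by_cases hx0 : x = 0
  · rw [hx0]
    exact zero_mem _
  · exact h (Submodule.span F {x}) (finrank_span_singleton hx0)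
      ((Submodule.span_singleton_le_iff_mem x W).2 hx) (Submodule.mem_span_singleton_self x)

theorem Lin3_point {P : Submodule F V} (hP : finrank F P = 1) :
    ∃ x, x ≠ 0 ∧ P = Submodule.span F {x} := by
  obtain ⟨x, hx0, hx⟩ := finrank_eq_one_iff'.1 hP
  refine ⟨x, fun h => hx0 (Subtype.ext h), ?_⟩
  apply le_antisymm
  · intro y hy
    obtain ⟨c, hc⟩ := hx ⟨y, hy⟩
    rw [Submodule.mem_span_singleton]
    exact ⟨c, congrArg Subtype.val hc⟩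
  · rw [Submodule.span_singleton_le_iff_mem]
    exact x.2

theorem Lin3_gm_span (g : V ≃ₗ[F] V) {x y : V} {c : F} (hc : c ≠ 0) (h : g x = c • y) :
    gm g (Submodule.span F {x}) = Submodule.span F {y} := by
  unfold gm
  rw [Submodule.map_span, Set.image_singleton]
  change Submodule.span F {g x} = _
  rw [h]
  exact Submodule.span_singleton_smul_eq (IsUnit.mk0 c hc) y

end

section

variable {F V₁ V₂ S₁ S₂ : Type} [Field F] [Finite F] [AddCommGroup V₁] [Module F V₁]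
    [FiniteDimensional F V₁] [AddCommGroup V₂] [Module F V₂] [FiniteDimensional F V₂]
    [Group S₁] [Group S₂] (ρ₁ : Rl F V₁ S₁) (ρ₂ : Rl F V₂ S₂) (h₁ : TVS ρ₁.T) (h₂ : TVS ρ₂.T)
    (hn₁ : 4 ≤ finrank F V₁) (hn₂ : 4 ≤ finrank F V₂) (φ : S₁ ≃* S₂)

include h₁

theorem Lin3_pts {P₁ : Submodule F V₁} {P₂ : Submodule F V₂} (hP₁ : finrank F P₁ = 1)
    (hP₂ : finrank F P₂ = 1) (h : (ρ₁.st P₁).map φ.toMonoidHom = ρ₂.st P₂)
    (P : Submodule F V₁) (hP : finrank F P = 1) :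
    ∃ Q : Submodule F V₂, finrank F Q = 1 ∧ (ρ₁.st P).map φ.toMonoidHom = ρ₂.st Q := by
  obtain ⟨g, hg, rfl⟩ := trk h₁ (W := P₁) (W' := P) (by rw [hP₁, hP])
  obtain ⟨g₂, hg₂⟩ := ρ₂.surj (φ (ρ₁.π ⟨g, hg⟩))
  exact ⟨gm (g₂ : V₂ ≃ₗ[F] V₂) P₂, by rw [finrank_gm, hP₂],
    Lin3_equi ρ₁ ρ₂ φ (g₁ := ⟨g, hg⟩) hg₂ h⟩

include h₂ hn₁ hn₂

theorem Lin3_hyps {P₁ : Submodule F V₁} {P₂ : Submodule F V₂} (hP₁ : finrank F P₁ = 1)
    (hP₂ : finrank F P₂ = 1) (h : (ρ₁.st P₁).map φ.toMonoidHom = ρ₂.st P₂)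
    (H : Submodule F V₁) (hH : finrank F H + 1 = finrank F V₁) :
    ∃ H' : Submodule F V₂, finrank F H' + 1 = finrank F V₂ ∧
      (ρ₁.st H).map φ.toMonoidHom = ρ₂.st H' := by
  obtain ⟨ρ', hT', hρ'⟩ := exists_dual ρ₁ h₁
  have hn' : 4 ≤ finrank F (Dual F V₁) := by rw [Subspace.dual_finrank_eq]; exact hn₁
  have hd' : finrank F H.dualAnnihilator = 1 := by
    have := Subspace.finrank_add_finrank_dualAnnihilator_eq H
    omega
  obtain ⟨W, hW, hd⟩ := lin2 ρ' ρ₂ hT' h₂ hn' hn₂ φ _ hd'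
  rw [hρ'] at hW
  rcases hd with hd | hd
  · exfalso
    obtain ⟨P, hP, hPW⟩ := Lin3_pts ρ₂ ρ₁ h₂ φ.symm hP₂ hP₁ (Lin3_symm ρ₁ ρ₂ φ h) W hd
    have h3 : ρ₁.st H = ρ₁.st P := by
      rw [← hPW]
      exact (Lin3_symm ρ₁ ρ₂ φ hW).symm
    have h4 := st_inj ρ₁ h₁ (W := H) (W' := P) (Lin3_ne_bot (by omega)) (Lin3_ne_bot (by omega))
      (Lin3_ne_top (by omega)) (Lin3_ne_top (by omega)) h3.le
    rw [h4, hP] at hH
    omega
  · exact ⟨W, hd, hW⟩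

/-- incidence -/
theorem Lin3_inc {P₁ : Submodule F V₁} {P₂ : Submodule F V₂} (hP₁ : finrank F P₁ = 1)
    (hP₂ : finrank F P₂ = 1) (h : (ρ₁.st P₁).map φ.toMonoidHom = ρ₂.st P₂)
    {H : Submodule F V₁} {H' : Submodule F V₂} (hH : finrank F H + 1 = finrank F V₁)
    (hH' : finrank F H' + 1 = finrank F V₂) (hHH' : (ρ₁.st H).map φ.toMonoidHom = ρ₂.st H')
    {P : Submodule F V₁} {Q : Submodule F V₂} (hP : finrank F P = 1) (hQ : finrank F Q = 1)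
    (hPQ : (ρ₁.st P).map φ.toMonoidHom = ρ₂.st Q) : Q ≤ H' ↔ P ≤ H := by
  classical
  obtain ⟨r, hr⟩ := CharP.exists F
  have hrp : Fact r.Prime := ⟨CharP.char_is_prime F r⟩
  have : Finite V₁ := Module.finite_of_finite F
  have : Finite V₂ := Module.finite_of_finite F
  have hfin1 : Finite (Submodule F V₁) := inferInstance
  have hfin2 : Finite (Submodule F V₂) := inferInstance
  -- the bijection on points
  have hex := fun (X : {X : Submodule F V₁ // finrank F X = 1}) =>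
    Lin3_pts ρ₁ ρ₂ h₁ φ hP₁ hP₂ h X.1 X.2
  choose e he1 he2 using hex
  have hone : ∀ (X Y : Submodule F V₁), finrank F X = 1 → finrank F Y = 1 →
      ρ₁.st X = ρ₁.st Y → X = Y := by
    intro X Y hX hY hXY
    exact st_inj ρ₁ h₁ (Lin3_ne_bot (by omega)) (Lin3_ne_bot (by omega)) (Lin3_ne_top (by omega))
      (Lin3_ne_top (by omega)) hXY.le
  have hone' : ∀ (X Y : Submodule F V₂), finrank F X = 1 → finrank F Y = 1 →
      ρ₂.st X = ρ₂.st Y → X = Y := by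
    intro X Y hX hY hXY
    exact st_inj ρ₂ h₂ (Lin3_ne_bot (by omega)) (Lin3_ne_bot (by omega)) (Lin3_ne_top (by omega))
      (Lin3_ne_top (by omega)) hXY.le
  -- invariance of incidence under the stabiliser of `H`
  have hinv : ∀ (X Y : {X : Submodule F V₁ // finrank F X = 1}) (g : V₁ ≃ₗ[F] V₁), g ∈ ρ₁.T →
      gm g H = H → gm g X.1 = Y.1 → (e X ≤ H' ↔ e Y ≤ H') := by
    intro X Y g hg hgH hgX
    obtain ⟨g₂, hg₂⟩ := ρ₂.surj (φ (ρ₁.π ⟨g, hg⟩))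
    have h3 := Lin3_equi ρ₁ ρ₂ φ (g₁ := ⟨g, hg⟩) hg₂ (he2 X)
    have h4 : gm ((⟨g, hg⟩ : ρ₁.T) : V₁ ≃ₗ[F] V₁) X.1 = Y.1 := hgX
    rw [h4, he2 Y] at h3
    have h5 : e Y = gm (g₂ : V₂ ≃ₗ[F] V₂) (e X) :=
      hone' _ _ (he1 Y) (by rw [finrank_gm, he1 X]) h3
    have h6 : ρ₂.π g₂ ∈ ρ₂.st H' := by
      rw [hg₂, Lin3_mem ρ₁ ρ₂ φ hHH', ρ₁.mem_st]
      exact hgH
    rw [ρ₂.mem_st] at h6
    rw [h5]
    conv_rhs => rw [← h6]
    rw [gm_le]
  have hin : ∀ X Y : {X : Submodule F V₁ // finrank F X = 1}, X.1 ≤ H → Y.1 ≤ H →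
      (e X ≤ H' ↔ e Y ≤ H') := by
    intro X Y hX hY
    obtain ⟨x, hx0, hx⟩ := Lin3_point X.2
    obtain ⟨y, hy0, hy⟩ := Lin3_point Y.2
    obtain ⟨g, hg, hgH, c, hc, hgx⟩ := tr_in h₁ H
      (by rw [hx] at hX; exact hX (Submodule.mem_span_singleton_self x))
      (by rw [hy] at hY; exact hY (Submodule.mem_span_singleton_self y)) hx0 hy0
    exact hinv X Y g hg hgH (by rw [hx, hy]; exact Lin3_gm_span g hc hgx)
  have hout : ∀ X Y : {X : Submodule F V₁ // finrank F X = 1}, ¬ X.1 ≤ H → ¬ Y.1 ≤ H →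
      (e X ≤ H' ↔ e Y ≤ H') := by
    intro X Y hX hY
    obtain ⟨x, hx0, hx⟩ := Lin3_point X.2
    obtain ⟨y, hy0, hy⟩ := Lin3_point Y.2
    obtain ⟨g, hg, hgH, c, hc, hgx⟩ := tr_out h₁ H (x := x) (y := y)
      (by rw [hx, Submodule.span_singleton_le_iff_mem] at hX; exact hX)
      (by rw [hy, Submodule.span_singleton_le_iff_mem] at hY; exact hY)
    exact hinv X Y g hg hgH (by rw [hx, hy]; exact Lin3_gm_span g hc hgx)
  -- the bijection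
  have heinj : Function.Injective e := by
    intro X Y hXY
    apply Subtype.ext
    apply hone _ _ X.2 Y.2
    rw [← Lin3_symm ρ₁ ρ₂ φ (he2 X), ← Lin3_symm ρ₁ ρ₂ φ (he2 Y), hXY]
  have hesurj : ∀ Y : Submodule F V₂, finrank F Y = 1 → ∃ X, e X = Y := by
    intro Y hY
    obtain ⟨X, hX, hXY⟩ := Lin3_pts ρ₂ ρ₁ h₂ φ.symm hP₂ hP₁ (Lin3_symm ρ₁ ρ₂ φ h) Y hY
    refine ⟨⟨X, hX⟩, hone' _ _ (he1 _) hY ?_⟩
    rw [← he2 ⟨X, hX⟩]
    exact Lin3_symm ρ₂ ρ₁ φ.symm hXY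
  -- counting
  have hA' : Nat.card {X : {X : Submodule F V₁ // finrank F X = 1} // e X ≤ H'} ≡ 1 [MOD r] := by
    have h3 := pts_between r (⊥ : Submodule F V₂) H' (bot_lt_iff_ne_bot.2
      (Lin3_ne_bot (by omega)))
    rw [finrank_bot] at h3
    have h4 : Nat.card {X : {X : Submodule F V₁ // finrank F X = 1} // e X ≤ H'} =
        Nat.card {R' : Submodule F V₂ // ⊥ ≤ R' ∧ finrank F R' = 0 + 1 ∧ R' ≤ H'} := by
      refine Nat.card_congr (Equiv.ofBijective (fun X => ⟨e X.1, bot_le, he1 X.1, X.2⟩) ⟨?_, ?_⟩)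
      · intro X Y hXY
        apply Subtype.ext
        exact heinj (congrArg Subtype.val hXY)
      · rintro ⟨Y, hY1, hY2, hY3⟩
        obtain ⟨X, rfl⟩ := hesurj Y hY2
        exact ⟨⟨X, hY3⟩, rfl⟩
    rw [h4]
    exact h3
  have hAll : Nat.card {X : Submodule F V₁ // finrank F X = 1} ≡ 1 [MOD r] := by
    have h3 := pts_between r (⊥ : Submodule F V₁) ⊤ (bot_lt_iff_ne_bot.2
      (Lin3_ne_bot (by rw [finrank_top]; omega)))
    rw [finrank_bot] at h3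
    have h4 : Nat.card {X : Submodule F V₁ // finrank F X = 1} =
        Nat.card {R' : Submodule F V₁ // ⊥ ≤ R' ∧ finrank F R' = 0 + 1 ∧ R' ≤ ⊤} := by
      refine Nat.card_congr (Equiv.subtypeEquivRight fun X => ?_)
      simp
    rw [h4]
    exact h3
  have hA : Nat.card {X : {X : Submodule F V₁ // finrank F X = 1} // X.1 ≤ H} ≡ 1 [MOD r] := by
    have h3 := pts_between r (⊥ : Submodule F V₁) H (bot_lt_iff_ne_bot.2
      (Lin3_ne_bot (by omega)))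
    rw [finrank_bot] at h3
    have h4 : Nat.card {X : {X : Submodule F V₁ // finrank F X = 1} // X.1 ≤ H} =
        Nat.card {R' : Submodule F V₁ // ⊥ ≤ R' ∧ finrank F R' = 0 + 1 ∧ R' ≤ H} := by
      refine Nat.card_congr (Equiv.ofBijective (fun X => ⟨X.1.1, bot_le, X.1.2, X.2⟩) ⟨?_, ?_⟩)
      · intro X Y hXY
        apply Subtype.ext
        apply Subtype.ext
        exact congrArg (fun z => z.1) hXY
      · rintro ⟨Y, hY1, hY2, hY3⟩
        exact ⟨⟨⟨Y, hY2⟩, hY3⟩, rfl⟩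
    rw [h4]
    exact h3
  have hsplit : Nat.card {X : Submodule F V₁ // finrank F X = 1} =
      Nat.card {X : {X : Submodule F V₁ // finrank F X = 1} // X.1 ≤ H} +
      Nat.card {X : {X : Submodule F V₁ // finrank F X = 1} // ¬ X.1 ≤ H} := by
    rw [← Nat.card_sum]
    exact Nat.card_congr (Equiv.sumCompl (fun X : {X : Submodule F V₁ // finrank F X = 1} =>
      X.1 ≤ H)).symm
  have hB : Nat.card {X : {X : Submodule F V₁ // finrank F X = 1} // ¬ X.1 ≤ H} ≡ 0 [MOD r] := by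
    have h3 : Nat.card {X : {X : Submodule F V₁ // finrank F X = 1} // X.1 ≤ H} +
      Nat.card {X : {X : Submodule F V₁ // finrank F X = 1} // ¬ X.1 ≤ H} ≡
      Nat.card {X : {X : Submodule F V₁ // finrank F X = 1} // X.1 ≤ H} + 0 [MOD r] := by
      rw [← hsplit, add_zero]
      exact hAll.trans hA.symm
    exact Nat.ModEq.add_left_cancel' _ h3
  -- a point outside and a point inside
  obtain ⟨X0, hX0⟩ : ∃ X : {X : Submodule F V₁ // finrank F X = 1}, e X ≤ H' := by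
    by_contra hcon
    push Not at hcon
    have : Nat.card {X : {X : Submodule F V₁ // finrank F X = 1} // e X ≤ H'} = 0 := by
      rw [Nat.card_eq_zero]
      left
      exact ⟨fun X => hcon X.1 X.2⟩
    rw [this] at hA'
    have h3 := (Nat.modEq_iff_dvd' (Nat.zero_le 1)).1 hA'
    exact hrp.out.one_lt.ne' (Nat.dvd_one.1 h3)
  obtain ⟨X1, hX1⟩ : ∃ X : {X : Submodule F V₁ // finrank F X = 1}, ¬ e X ≤ H' := by
    have h3 : ¬ (⊤ : Submodule F V₂) ≤ H' := by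
      intro h4
      exact Lin3_ne_top (P := H') (by omega) (top_le_iff.1 h4)
    obtain ⟨y, -, hy⟩ := Set.not_subset.1 h3
    have hy0 : y ≠ 0 := by
      rintro rfl
      exact hy (zero_mem _)
    obtain ⟨X, hX⟩ := hesurj (Submodule.span F {y}) (finrank_span_singleton hy0)
    refine ⟨X, ?_⟩
    rw [hX, Submodule.span_singleton_le_iff_mem]
    exact hy
  have hX0H : X0.1 ≤ H := by
    by_contra hcon
    have hX1H : X1.1 ≤ H := by
      by_contra hcon'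
      exact hX1 ((hout X0 X1 hcon hcon').1 hX0)
    have h3 : Nat.card {X : {X : Submodule F V₁ // finrank F X = 1} // e X ≤ H'} =
        Nat.card {X : {X : Submodule F V₁ // finrank F X = 1} // ¬ X.1 ≤ H} := by
      refine Nat.card_congr (Equiv.subtypeEquivRight fun X => ?_)
      constructor
      · intro hX hXH
        exact hX1 ((hin X X1 hXH hX1H).1 hX)
      · intro hX
        exact (hout X0 X hcon hX).1 hX0
    rw [h3] at hA'
    have h4 := (Nat.modEq_iff_dvd' (Nat.zero_le 1)).1 (hB.symm.trans hA')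
    exact hrp.out.one_lt.ne' (Nat.dvd_one.1 h4)
  have hX1H : ¬ X1.1 ≤ H := by
    intro hcon
    exact hX1 ((hin X0 X1 hX0H hcon).1 hX0)
  have hQe : Q = e ⟨P, hP⟩ := hone' _ _ hQ (he1 _) (by rw [← he2 ⟨P, hP⟩, ← hPQ])
  rw [hQe]
  constructor
  · intro h3
    by_contra hcon
    exact hX1 ((hout ⟨P, hP⟩ X1 hcon hX1H).1 h3)
  · intro h3
    exact (hin X0 ⟨P, hP⟩ hX0H h3).1 hX0

/-- the map on subspaces -/
theorem Lin3_map {P₁ : Submodule F V₁} {P₂ : Submodule F V₂} (hP₁ : finrank F P₁ = 1)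
    (hP₂ : finrank F P₂ = 1) (h : (ρ₁.st P₁).map φ.toMonoidHom = ρ₂.st P₂) :
    ∃ e : Submodule F V₁ → Submodule F V₂, (∀ W W', e W ≤ e W' ↔ W ≤ W') ∧
      ∀ W, (ρ₁.st W).map φ.toMonoidHom = ρ₂.st (e W) := by
  classical
  have hex := fun (X : {X : Submodule F V₁ // finrank F X = 1}) =>
    Lin3_pts ρ₁ ρ₂ h₁ φ hP₁ hP₂ h X.1 X.2
  choose e he1 he2 using hex
  have hone' : ∀ (X Y : Submodule F V₂), finrank F X = 1 → finrank F Y = 1 →
      ρ₂.st X = ρ₂.st Y → X = Y := by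
    intro X Y hX hY hXY
    exact st_inj ρ₂ h₂ (Lin3_ne_bot (by omega)) (Lin3_ne_bot (by omega)) (Lin3_ne_top (by omega))
      (Lin3_ne_top (by omega)) hXY.le
  let E : Submodule F V₁ → Submodule F V₂ := fun W =>
    ⨆ (X : {X : Submodule F V₁ // finrank F X = 1}) (_ : X.1 ≤ W), e X
  have hle : ∀ (X : {X : Submodule F V₁ // finrank F X = 1}) (W : Submodule F V₁),
      e X ≤ E W ↔ X.1 ≤ W := by
    intro X W
    constructor
    · intro hX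
      by_contra hcon
      obtain ⟨H, hWH, hXH, hH⟩ := Lin3_hyp hcon
      obtain ⟨H', hH', hHH'⟩ := Lin3_hyps ρ₁ ρ₂ h₁ h₂ hn₁ hn₂ φ hP₁ hP₂ h H hH
      have hinc : ∀ Y : {X : Submodule F V₁ // finrank F X = 1}, e Y ≤ H' ↔ Y.1 ≤ H := fun Y =>
        Lin3_inc ρ₁ ρ₂ h₁ h₂ hn₁ hn₂ φ hP₁ hP₂ h hH hH' hHH' Y.2 (he1 Y) (he2 Y)
      have h3 : E W ≤ H' := by
        apply iSup_le
        intro Y
        apply iSup_le
        intro hY
        exact (hinc Y).2 (hY.trans hWH)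
      exact hXH ((hinc X).1 (hX.trans h3))
    · intro hX
      exact le_iSup_of_le X (le_iSup_of_le hX le_rfl)
  have hmono : ∀ W W', E W ≤ E W' ↔ W ≤ W' := by
    intro W W'
    constructor
    · intro h3
      apply Lin3_le_of_points
      intro P hP hPW
      exact (hle ⟨P, hP⟩ W').1 (((hle ⟨P, hP⟩ W).2 hPW).trans h3)
    · intro h3
      apply iSup_le
      intro Y
      apply iSup_le
      intro hY
      exact (hle Y W').2 (hY.trans h3)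
  have hEinj : Function.Injective E := by
    intro W W' h3
    exact le_antisymm ((hmono W W').1 h3.le) ((hmono W' W).1 h3.ge)
  have hequi : ∀ (g₁ : ρ₁.T) (g₂ : ρ₂.T), ρ₂.π g₂ = φ (ρ₁.π g₁) → ∀ W,
      E (gm (g₁ : V₁ ≃ₗ[F] V₁) W) = gm (g₂ : V₂ ≃ₗ[F] V₂) (E W) := by
    have haux : ∀ (g₁ : ρ₁.T) (g₂ : ρ₂.T), ρ₂.π g₂ = φ (ρ₁.π g₁) → ∀ W,
        E (gm (g₁ : V₁ ≃ₗ[F] V₁) W) ≤ gm (g₂ : V₂ ≃ₗ[F] V₂) (E W) := by
      intro g₁ g₂ hg W
      apply iSup_le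
      intro Y
      apply iSup_le
      intro hY
      have hXd : finrank F (gm (g₁ : V₁ ≃ₗ[F] V₁)⁻¹ Y.1) = 1 := by rw [finrank_gm]; exact Y.2
      have h3 := Lin3_equi ρ₁ ρ₂ φ hg (he2 ⟨_, hXd⟩)
      rw [gm_gm_inv, he2 Y] at h3
      have h4 := hone' _ _ (he1 Y) (by rw [finrank_gm]; exact he1 _) h3
      rw [h4, gm_le, hle]
      change gm (g₁ : V₁ ≃ₗ[F] V₁)⁻¹ Y.1 ≤ W
      rw [← gm_le (g₁ : V₁ ≃ₗ[F] V₁), gm_gm_inv]
      exact hY
    intro g₁ g₂ hg W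
    apply le_antisymm (haux g₁ g₂ hg W)
    have hg' : ρ₂.π g₂⁻¹ = φ (ρ₁.π g₁⁻¹) := by rw [map_inv, map_inv, map_inv, hg]
    have h3 := haux g₁⁻¹ g₂⁻¹ hg' (gm (g₁ : V₁ ≃ₗ[F] V₁) W)
    have h4 : gm ((g₁⁻¹ : ρ₁.T) : V₁ ≃ₗ[F] V₁) (gm (g₁ : V₁ ≃ₗ[F] V₁) W) = W := gm_inv_gm _ _
    rw [h4] at h3
    rw [← gm_le (g₂ : V₂ ≃ₗ[F] V₂)] at h3
    refine h3.trans (le_of_eq ?_)
    exact gm_gm_inv _ _
  refine ⟨E, hmono, fun W => ?_⟩
  ext s
  obtain ⟨g₂, rfl⟩ := ρ₂.surj s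
  obtain ⟨g₁, hg₁⟩ := ρ₁.surj (φ.symm (ρ₂.π g₂))
  have hg : ρ₂.π g₂ = φ (ρ₁.π g₁) := by rw [hg₁, φ.apply_symm_apply]
  rw [ρ₂.mem_st, ← hequi g₁ g₂ hg W]
  constructor
  · rintro ⟨t, ht, hts⟩
    rw [hg] at hts
    have h3 : t = ρ₁.π g₁ := φ.injective hts
    rw [h3] at ht
    have ht' : ρ₁.π g₁ ∈ ρ₁.st W := ht
    rw [ρ₁.mem_st] at ht'
    rw [ht']
  · intro h3
    have h4 := hEinj h3
    exact ⟨ρ₁.π g₁, (ρ₁.mem_st).2 h4, hg.symm⟩

end

theorem lin3 {F V₁ V₂ S₁ S₂ : Type} [Field F] [Finite F] [AddCommGroup V₁] [Module F V₁]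
    [FiniteDimensional F V₁] [AddCommGroup V₂] [Module F V₂] [FiniteDimensional F V₂]
    [Group S₁] [Group S₂] (ρ₁ : Rl F V₁ S₁) (ρ₂ : Rl F V₂ S₂) (h₁ : TVS ρ₁.T) (h₂ : TVS ρ₂.T)
    (hn₁ : 4 ≤ finrank F V₁) (hn₂ : 4 ≤ finrank F V₂) (φ : S₁ ≃* S₂) (P₁ : Submodule F V₁)
    (P₂ : Submodule F V₂) (hP₁ : finrank F P₁ = 1) (hP₂ : finrank F P₂ = 1)
    (h : (ρ₁.st P₁).map φ.toMonoidHom = ρ₂.st P₂) :
    ∃ e : Submodule F V₁ ≃o Submodule F V₂,
      ∀ W, (ρ₁.st W).map φ.toMonoidHom = ρ₂.st (e W) := by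
  have : Finite V₁ := Module.finite_of_finite F
  have : Finite V₂ := Module.finite_of_finite F
  have hfin1 : Finite (Submodule F V₁) := inferInstance
  have hfin2 : Finite (Submodule F V₂) := inferInstance
  obtain ⟨e, he, hst⟩ := Lin3_map ρ₁ ρ₂ h₁ h₂ hn₁ hn₂ φ hP₁ hP₂ h
  obtain ⟨f, hf, -⟩ := Lin3_map ρ₂ ρ₁ h₂ h₁ hn₂ hn₁ φ.symm hP₂ hP₁ (Lin3_symm ρ₁ ρ₂ φ h)
  have heinj : Function.Injective e := by
    intro W W' h3
    exact le_antisymm ((he W W').1 h3.le) ((he W' W).1 h3.ge)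
  have hfinj : Function.Injective f := by
    intro W W' h3
    exact le_antisymm ((hf W W').1 h3.le) ((hf W' W).1 h3.ge)
  have hbij : Function.Bijective e := by
    rw [Nat.bijective_iff_injective_and_card]
    exact ⟨heinj, le_antisymm (Nat.card_le_card_of_injective e heinj)
      (Nat.card_le_card_of_injective f hfinj)⟩
  refine ⟨{ Equiv.ofBijective e hbij with map_rel_iff' := ?_ }, fun W => hst W⟩
  intro W W'
  exact he W W'

end Helper76.CL
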