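import Pool.Agent.Helper76.CL.Rk
import Pool.Agent.Helper76.CL.Fixr

/-!
# Automorphisms act on the polar space
-/

set_option autoImplicit false

namespace Helper76.CL

open Module

/-- singular points -/
abbrev FS.SPt {F V : Type} [Field F] [AddCommGroup V] [Module F V] (Φ : FS F V) : Type :=
  {P : Submodule F V // finrank F P = 1 ∧ Φ.TS P}

/-- perpendicular points -/
def FS.Pp {F V : Type} [Field F] [AddCommGroup V] [Module F V] (Φ : FS F V) (P Q : Φ.SPt) : Prop :=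
  ∀ x ∈ P.1, ∀ y ∈ Q.1, Φ.f x y = 0

variable {F V S : Type} [Field F] [Finite F] [AddCommGroup V] [Module F V] [FiniteDimensional F V]
  [Group S] (Φ : FS F V) {ν : ℕ}

omit [Finite F] [FiniteDimensional F V] in
theorem Pt_exists (P : Φ.SPt) : ∃ x, x ≠ 0 ∧ Φ.q x = 0 ∧ P.1 = Submodule.span F {x} := by
  obtain ⟨⟨x, hx⟩, hx0, hall⟩ := finrank_eq_one_iff'.1 P.2.1
  refine ⟨x, fun h => hx0 (Subtype.ext h), P.2.2.1 x hx, ?_⟩
  apply le_antisymm
  · intro w hw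
    obtain ⟨c, hc⟩ := hall ⟨w, hw⟩
    rw [Submodule.mem_span_singleton]
    exact ⟨c, congrArg Subtype.val hc⟩
  · rw [Submodule.span_singleton_le_iff_mem]
    exact hx

omit [Finite F] [FiniteDimensional F V] in
theorem Pt_gm_span (g : V ≃ₗ[F] V) (x : V) :
    gm g (Submodule.span F {x}) = Submodule.span F {g x} := by
  unfold gm
  rw [Submodule.map_span, Set.image_singleton]
  rfl

omit [Finite F] [FiniteDimensional F V] in
theorem Pt_span_smul {x : V} {c : F} (hc : c ≠ 0) :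
    Submodule.span F {c • x} = Submodule.span F {x} :=
  Submodule.span_singleton_smul_eq (IsUnit.mk0 c hc) x

omit [Finite F] in
theorem Pt_dim (hν : Φ.WI ν) : ν ≤ finrank F V := by
  obtain ⟨E, hE, -⟩ := hν
  rw [← hE]
  exact Submodule.finrank_le E

omit [Finite F] in
theorem Pt_perp_vec (hν : Φ.WI ν) (U : Submodule F V) (h : finrank F U < ν) :
    ∃ z, z ≠ 0 ∧ Φ.q z = 0 ∧ ∀ u ∈ U, Φ.f u z = 0 := by
  obtain ⟨z, h1, h2, h3⟩ := Φ.exists_perp hν U ⊥ (by rw [finrank_bot]; omega)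
  exact ⟨z, fun h => h1 (by rw [h]; exact Submodule.zero_mem _), h2, h3⟩

omit [Finite F] [FiniteDimensional F V] in
theorem Pt_span_pair_le (x y : V) : finrank F (Submodule.span F ({x, y} : Set V)) ≤ 2 := by
  classical
  refine (finrank_span_le_card (R := F) ({x, y} : Set V)).trans ?_
  rw [Set.toFinset_card]
  simpa using Finset.card_le_two (a := x) (b := y)

theorem st_pt_inj (hν : Φ.WI ν) (h15 : 15 ≤ ν) (ρ : Rl F V S) (hE : Φ.El ≤ ρ.T)
    (hI : ρ.T ≤ Φ.Isom) {P Q : Φ.SPt} (h : ρ.st P.1 ≤ ρ.st Q.1) : P = Q := by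
  obtain ⟨x, hx0, hx, hP⟩ := Pt_exists Φ P
  obtain ⟨y, hy0, hy, hQ⟩ := Pt_exists Φ Q
  by_contra hne
  have hyx : y ∉ Submodule.span F {x} := by
    intro hc
    apply hne
    apply Subtype.ext
    rw [hP, hQ]
    obtain ⟨c, hc⟩ := Submodule.mem_span_singleton.1 hc
    have hc0 : c ≠ 0 := by
      rintro rfl
      rw [zero_smul] at hc
      exact hy0 hc.symm
    rw [← hc, Pt_span_smul hc0]
  -- it suffices to move `y` out of `<y>` while fixing `x`
  have key : ∀ g ∈ Φ.El, g x = x → g y ∈ Submodule.span F {y} := by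
    intro g hg hgx
    have h1 : ρ.π ⟨g, hE hg⟩ ∈ ρ.st P.1 := by
      rw [ρ.mem_st, hP, Pt_gm_span, hgx]
    have h2 := h h1
    rw [ρ.mem_st, hQ, Pt_gm_span] at h2
    rw [← h2]
    exact Submodule.mem_span_singleton_self _
  by_cases hf : Φ.f x y = 0
  · obtain ⟨z, hz1, hz2, hz3⟩ := Φ.exists_perp hν (Submodule.span F {x})
      (Submodule.span F ({x, y} : Set V)) (by
        have h1 := Pt_span_pair_le (F := F) x y
        have h2 := finrank_span_singleton (K := F) hx0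
        omega)
    obtain ⟨g, hg, hgx, hgy⟩ := tr_perp Φ hν (by omega) hx hy hz2 hf
      (hz3 x (Submodule.mem_span_singleton_self _)) hx0 hyx
      (fun hc => hz1 (Submodule.span_mono (by simp) hc))
    have := key g hg hgx
    rw [hgy] at this
    exact hz1 (Submodule.span_mono (by simp) this)
  · obtain ⟨w, hw1, hw2, hw3⟩ := Φ.exists_perp hν (Submodule.span F {x})
      (Submodule.span F ({x, y} : Set V)) (by
        have h1 := Pt_span_pair_le (F := F) x y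
        have h2 := finrank_span_singleton (K := F) hx0
        omega)
    have hxw : Φ.f x w = 0 := hw3 x (Submodule.mem_span_singleton_self _)
    obtain ⟨g, hg, hgv⟩ := Φ.exists_u hx hw2 hxw
    have hgx : g x = x := by
      rw [hgv]
      change x + Φ.f x x • w - (Φ.ε * Φ.f w x) • x = x
      rw [Φ.q_self x hx, Φ.f_eq_zero_symm hxw, zero_smul, mul_zero, zero_smul, add_zero, sub_zero]
    have h1 := key g hg hgx
    rw [hgv] at h1
    change y + Φ.f x y • w - (Φ.ε * Φ.f w y) • x ∈ _ at h1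
    apply hw1
    have hxm : x ∈ Submodule.span F ({x, y} : Set V) := Submodule.subset_span (by simp)
    have hym : y ∈ Submodule.span F ({x, y} : Set V) := Submodule.subset_span (by simp)
    have h2 : y + Φ.f x y • w - (Φ.ε * Φ.f w y) • x ∈ Submodule.span F ({x, y} : Set V) :=
      Submodule.span_mono (by simp) h1
    have h3 : Φ.f x y • w ∈ Submodule.span F ({x, y} : Set V) := by
      have e1 : Φ.f x y • w = (y + Φ.f x y • w - (Φ.ε * Φ.f w y) • x) - y +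
        (Φ.ε * Φ.f w y) • x := by abel
      rw [e1]
      exact Submodule.add_mem _ (Submodule.sub_mem _ h2 hym) (Submodule.smul_mem _ _ hxm)
    have h4 := Submodule.smul_mem _ (Φ.f x y)⁻¹ h3
    rwa [smul_smul, inv_mul_cancel₀ hf, one_smul] at h4

/-- the action on singular points -/
def Pt_act (ρ : Rl F V S) (hI : ρ.T ≤ Φ.Isom) (g : ρ.T) (P : Φ.SPt) : Φ.SPt :=
  ⟨gm (g : V ≃ₗ[F] V) P.1, by rw [finrank_gm]; exact P.2.1, Φ.gm_TS (hI g.2) P.2.2⟩

theorem Pt_act_Pp (ρ : Rl F V S) (hI : ρ.T ≤ Φ.Isom) (g : ρ.T) (P Q : Φ.SPt) :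
    Φ.Pp (Pt_act Φ ρ hI g P) (Pt_act Φ ρ hI g Q) ↔ Φ.Pp P Q := by
  have hg := hI g.2
  constructor
  · intro h x hx y hy
    rw [← hg.1 x y]
    exact h _ (apply_mem_gm.2 hx) _ (apply_mem_gm.2 hy)
  · rintro h _ ⟨x, hx, rfl⟩ _ ⟨y, hy, rfl⟩
    have := h x hx y hy
    rw [← hg.1 x y] at this
    exact this

theorem Pt_equiv (hν : Φ.WI ν) (h15 : 15 ≤ ν) (ρ : Rl F V S) (hE : Φ.El ≤ ρ.T)
    (hI : ρ.T ≤ Φ.Isom) (φ : S ≃* S) (e : Φ.SPt → Φ.SPt)
    (he : ∀ P, (ρ.st P.1).map φ.toMonoidHom = ρ.st (e P).1) {g g' : ρ.T}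
    (hg : φ (ρ.π g) = ρ.π g') (P : Φ.SPt) :
    e (Pt_act Φ ρ hI g P) = Pt_act Φ ρ hI g' (e P) := by
  apply st_pt_inj Φ hν h15 ρ hE hI
  intro t ht
  rw [← he] at ht
  obtain ⟨s, hs, rfl⟩ := ht
  have hs' : s ∈ ρ.st (gm (g : V ≃ₗ[F] V) P.1) := hs
  rw [ρ.mem_st_gm] at hs'
  change _ ∈ ρ.st (gm (g' : V ≃ₗ[F] V) (e P).1)
  rw [ρ.mem_st_gm, ← he]
  refine ⟨_, hs', ?_⟩
  change φ _ = (ρ.π g')⁻¹ * φ s * ρ.π g'
  rw [map_mul, map_mul, map_inv, hg]

omit [Finite F] in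
theorem Pt_orb1 (hν : Φ.WI ν) (h15 : 15 ≤ ν) (ρ : Rl F V S) (hE : Φ.El ≤ ρ.T)
    (hI : ρ.T ≤ Φ.Isom) {P P' Q Q' : Φ.SPt} (h1 : P ≠ P') (h2 : Φ.Pp P P') (h3 : Q ≠ Q')
    (h4 : Φ.Pp Q Q') : ∃ g : ρ.T, Pt_act Φ ρ hI g P = Q ∧ Pt_act Φ ρ hI g P' = Q' := by
  obtain ⟨x, hx0, hx, hP⟩ := Pt_exists Φ P
  obtain ⟨x', hx0', hx', hP'⟩ := Pt_exists Φ P'
  obtain ⟨y, hy0, hy, hQ⟩ := Pt_exists Φ Q
  obtain ⟨y', hy0', hy', hQ'⟩ := Pt_exists Φ Q'
  have hnot : ∀ {A B : Φ.SPt} {u v : V}, A ≠ B → v ≠ 0 → A.1 = Submodule.span F {u} →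
      B.1 = Submodule.span F {v} → v ∉ Submodule.span F {u} := by
    intro A B u v hAB hv0 hA hB hc
    apply hAB
    apply Subtype.ext
    rw [hA, hB]
    obtain ⟨c, hc⟩ := Submodule.mem_span_singleton.1 hc
    have hc0 : c ≠ 0 := by
      rintro rfl
      rw [zero_smul] at hc
      exact hv0 hc.symm
    rw [← hc, Pt_span_smul hc0]
  have hxx' : x' ∉ Submodule.span F {x} := hnot h1 hx0' hP hP'
  have hyy' : y' ∉ Submodule.span F {y} := hnot h3 hy0' hQ hQ'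
  have hfx : Φ.f x x' = 0 := h2 x (by rw [hP]; exact Submodule.mem_span_singleton_self _) x'
    (by rw [hP']; exact Submodule.mem_span_singleton_self _)
  have hfy : Φ.f y y' = 0 := h4 y (by rw [hQ]; exact Submodule.mem_span_singleton_self _) y'
    (by rw [hQ']; exact Submodule.mem_span_singleton_self _)
  obtain ⟨g₁, hg₁, hg₁x⟩ := tr_pt Φ hν (by omega) hx hy hx0 hy0
  have hi := hI (hE hg₁)
  have hq1 : Φ.q (g₁ x') = 0 := by rw [hi.2]; exact hx'
  have hf1 : Φ.f y (g₁ x') = 0 := by rw [← hg₁x, hi.1]; exact hfx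
  have hn1 : g₁ x' ∉ Submodule.span F {y} := by
    rw [← hg₁x, ← Pt_gm_span, apply_mem_gm]
    exact hxx'
  obtain ⟨g₂, hg₂, hg₂y, hg₂'⟩ := tr_perp Φ hν (by omega) hy hq1 hy' hf1 hfy hy0 hn1 hyy'
  refine ⟨⟨g₂ * g₁, ρ.T.mul_mem (hE hg₂) (hE hg₁)⟩, ?_, ?_⟩
  · apply Subtype.ext
    change gm (g₂ * g₁) P.1 = Q.1
    rw [hP, hQ, Pt_gm_span]
    change Submodule.span F {g₂ (g₁ x)} = _
    rw [hg₁x, hg₂y]
  · apply Subtype.ext
    change gm (g₂ * g₁) P'.1 = Q'.1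
    rw [hP', hQ', Pt_gm_span]
    change Submodule.span F {g₂ (g₁ x')} = _
    rw [hg₂']

omit [Finite F] in
theorem Pt_orb2 (hν : Φ.WI ν) (h15 : 15 ≤ ν) (ρ : Rl F V S) (hE : Φ.El ≤ ρ.T)
    (hI : ρ.T ≤ Φ.Isom) {P P' Q Q' : Φ.SPt} (h2 : ¬ Φ.Pp P P')
    (h4 : ¬ Φ.Pp Q Q') : ∃ g : ρ.T, Pt_act Φ ρ hI g P = Q ∧ Pt_act Φ ρ hI g P' = Q' := by
  have hsc : ∀ {A B : Φ.SPt} {u : V}, ¬ Φ.Pp A B → A.1 = Submodule.span F {u} →
      ∃ v, Φ.q v = 0 ∧ Φ.f u v = 1 ∧ B.1 = Submodule.span F {v} := by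
    intro A B u hAB hA
    obtain ⟨v, hv0, hv, hB⟩ := Pt_exists Φ B
    have hne : Φ.f u v ≠ 0 := by
      intro h0
      apply hAB
      intro a ha b hb
      rw [hA] at ha
      rw [hB] at hb
      obtain ⟨c, rfl⟩ := Submodule.mem_span_singleton.1 ha
      obtain ⟨d, rfl⟩ := Submodule.mem_span_singleton.1 hb
      rw [Φ.f_smul_left, Φ.f_smul_right, h0, mul_zero, mul_zero]
    refine ⟨(Φ.f u v)⁻¹ • v, ?_, ?_, ?_⟩
    · rw [Φ.q_smul, hv, mul_zero]
    · rw [Φ.f_smul_right, inv_mul_cancel₀ hne]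
    · rw [Pt_span_smul (inv_ne_zero hne), hB]
  obtain ⟨x, hx0, hx, hP⟩ := Pt_exists Φ P
  obtain ⟨y, hy0, hy, hQ⟩ := Pt_exists Φ Q
  obtain ⟨x', hx', hfx, hP'⟩ := hsc h2 hP
  obtain ⟨y', hy', hfy, hQ'⟩ := hsc h4 hQ
  obtain ⟨g₁, hg₁, hg₁x⟩ := tr_pt Φ hν (by omega) hx hy hx0 hy0
  have hi := hI (hE hg₁)
  have hq1 : Φ.q (g₁ x') = 0 := by rw [hi.2]; exact hx'
  have hf1 : Φ.f y (g₁ x') = 1 := by rw [← hg₁x, hi.1]; exact hfx
  obtain ⟨g₂, hg₂, hg₂y, hg₂'⟩ := tr_nonperp Φ hν (by omega) hy hq1 hy' hf1 hfy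
  refine ⟨⟨g₂ * g₁, ρ.T.mul_mem (hE hg₂) (hE hg₁)⟩, ?_, ?_⟩
  · apply Subtype.ext
    change gm (g₂ * g₁) P.1 = Q.1
    rw [hP, hQ, Pt_gm_span]
    change Submodule.span F {g₂ (g₁ x)} = _
    rw [hg₁x, hg₂y]
  · apply Subtype.ext
    change gm (g₂ * g₁) P'.1 = Q'.1
    rw [hP', hQ', Pt_gm_span]
    change Submodule.span F {g₂ (g₁ x')} = _
    rw [hg₂']

/-- images of point stabilisers lie in point stabilisers -/
theorem Pt_img (hν : Φ.WI ν) (h15 : 15 ≤ ν) (ρ : Rl F V S) (hE : Φ.El ≤ ρ.T) (hI : ρ.T ≤ Φ.Isom)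
    (φ : S ≃* S) (P : Φ.SPt) : ∃ Q : Φ.SPt, ∀ s ∈ ρ.st P.1, φ s ∈ ρ.st Q.1 := by
  obtain ⟨x, hx0, hx, hP⟩ := Pt_exists Φ P
  obtain ⟨R, hR0, hR, hle⟩ := fixr Φ hν (by omega) ρ hE hI φ hx hx0
  have hle' : ∀ s ∈ ρ.st P.1, φ s ∈ ρ.st R := by
    intro s hs
    rw [hP] at hs
    exact hle ⟨s, hs, rfl⟩
  have h1 : finrank F R ≠ 0 := by
    intro h
    exact hR0 (Submodule.finrank_eq_zero.1 h)
  by_cases h2 : 2 ≤ finrank F R
  · exfalso
    obtain ⟨g, hg⟩ := rk4 Φ hν h15 ρ hE hI hR h2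
    obtain ⟨a₁, a₂, ha⟩ := rk3 Φ hν (by omega) ρ hE hI hx hx0
    rw [← hP] at ha
    have hc : ∀ i : Fin 4, ∃ k : Fin 3, ∃ a ∈ ρ.st P.1, ∃ b ∈ ρ.st P.1,
        φ.symm (g i) = a * (![1, a₁, a₂] k) * b := by
      intro i
      rcases ha (φ.symm (g i)) with h | h | h
      · exact ⟨0, φ.symm (g i), h, 1, Subgroup.one_mem _, by simp⟩
      · obtain ⟨a, ha, b, hb, h⟩ := h
        exact ⟨1, a, ha, b, hb, by rw [h]; simp⟩
      · obtain ⟨a, ha, b, hb, h⟩ := h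
        exact ⟨2, a, ha, b, hb, by rw [h]; simp⟩
    choose c hc using hc
    obtain ⟨i, j, hij, hcij⟩ := Fintype.exists_ne_map_eq_of_card_lt c (by simp)
    obtain ⟨a, ha, b, hb, h3⟩ := hc i
    obtain ⟨a', ha', b', hb', h4⟩ := hc j
    rw [← hcij] at h4
    have h5 : φ.symm (g i) = (a * a'⁻¹) * φ.symm (g j) * (b'⁻¹ * b) := by
      rw [h3, h4]; group
    have h6 : g i = φ (a * a'⁻¹) * g j * φ (b'⁻¹ * b) := by
      have := congrArg φ h5
      rw [map_mul, map_mul, φ.apply_symm_apply, φ.apply_symm_apply] at this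
      exact this
    exact hg i j hij _ (hle' _ (Subgroup.mul_mem _ ha (Subgroup.inv_mem _ ha'))) _
      (hle' _ (Subgroup.mul_mem _ (Subgroup.inv_mem _ hb') hb)) h6
  · exact ⟨⟨R, by omega, hR⟩, hle'⟩

theorem Pt_img_eq (hν : Φ.WI ν) (h15 : 15 ≤ ν) (ρ : Rl F V S) (hE : Φ.El ≤ ρ.T)
    (hI : ρ.T ≤ Φ.Isom) (φ : S ≃* S) (P : Φ.SPt) :
    ∃ Q : Φ.SPt, (ρ.st P.1).map φ.toMonoidHom = ρ.st Q.1 := by
  obtain ⟨Q, hQ⟩ := Pt_img Φ hν h15 ρ hE hI φ P
  obtain ⟨Q', hQ'⟩ := Pt_img Φ hν h15 ρ hE hI φ.symm Q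
  have h1 : P = Q' := by
    apply st_pt_inj Φ hν h15 ρ hE hI
    intro s hs
    have := hQ' _ (hQ s hs)
    rwa [φ.symm_apply_apply] at this
  subst h1
  refine ⟨Q, le_antisymm ?_ ?_⟩
  · rintro _ ⟨s, hs, rfl⟩
    exact hQ s hs
  · intro t ht
    exact ⟨φ.symm t, hQ' t ht, φ.apply_symm_apply t⟩

omit [Finite F] [FiniteDimensional F V] in
theorem Pt_Pp_le (P Q : Φ.SPt) : Φ.Pp P Q ↔ Q.1 ≤ Φ.perp P.1 := by
  constructor
  · intro h y hy x hx
    exact h x hx y hy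
  · intro h x hx y hy
    exact h hy x hx

omit [Finite F] [FiniteDimensional F V] in
theorem Pt_Pp_symm {P Q : Φ.SPt} (h : Φ.Pp P Q) : Φ.Pp Q P :=
  fun x hx y hy => Φ.f_eq_zero_symm (h y hy x hx)

omit [Finite F] [FiniteDimensional F V] in
theorem Pt_Pp_self (P : Φ.SPt) : Φ.Pp P P := fun x hx y hy => P.2.2.2 x hx y hy

/-- the number of singular points of a subspace -/
theorem Pt_cnt (r : ℕ) [Fact r.Prime] [CharP F r] (U : Submodule F V)
    (h3 : 3 ≤ finrank F U) (hs : ∃ x ∈ U, x ≠ 0 ∧ Φ.q x = 0) :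
    Nat.card {P : Φ.SPt // P.1 ≤ U} ≡ 1 [MOD r] := by
  have hq0 : Φ.q 0 = 0 := by
    have := Φ.q_smul 0 0
    rwa [zero_smul, zero_mul, zero_mul] at this
  have hbot : Φ.TS ⊥ := by
    refine ⟨fun x hx => ?_, fun x hx y hy => ?_⟩
    · rw [(Submodule.mem_bot F).1 hx]; exact hq0
    · rw [(Submodule.mem_bot F).1 hy]; exact map_zero _
  have h := cnt_pts Φ r ⊥ U hbot bot_le (by
      intro y _ u hu
      rw [(Submodule.mem_bot F).1 hu, map_zero]
      rfl) (by rw [finrank_bot]; omega) (by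
      obtain ⟨x, hxU, hx0, hx⟩ := hs
      exact ⟨x, hxU, fun h => hx0 ((Submodule.mem_bot F).1 h), hx⟩)
  rw [← Nat.card_congr (?_ : {P : Φ.SPt // P.1 ≤ U} ≃ _)] at h
  · exact h
  · refine
      { toFun := fun P => ⟨P.1.1, bot_le, by rw [finrank_bot]; exact P.1.2.1, P.1.2.2, P.2⟩
        invFun := fun P => ⟨⟨P.1, P.2.2.1.trans (by rw [finrank_bot]), P.2.2.2.1⟩,
          P.2.2.2.2⟩
        left_inv := fun P => rfl
        right_inv := fun P => rfl }

theorem Pt_cnt_perp (r : ℕ) [Fact r.Prime] [CharP F r] (hν : Φ.WI ν) (h15 : 15 ≤ ν)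
    (W : Submodule F V) (hW : finrank F W ≤ 2) :
    Nat.card {P : Φ.SPt // P.1 ≤ Φ.perp W} ≡ 1 [MOD r] := by
  have h1 := Pt_dim Φ hν
  have h2 := Φ.finrank_perp W
  obtain ⟨z, hz0, hz, hzW⟩ := Pt_perp_vec Φ hν W (by omega)
  exact Pt_cnt Φ r _ (by omega) ⟨z, hzW, hz0, hz⟩

omit [Finite F] in
theorem Pt_ex1 (hν : Φ.WI ν) (h15 : 15 ≤ ν) : ∃ P P' : Φ.SPt, P ≠ P' ∧ Φ.Pp P P' := by
  obtain ⟨x, hx0, hx, -⟩ := Pt_perp_vec Φ hν ⊥ (by rw [finrank_bot]; omega)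
  have h1 := finrank_span_singleton (K := F) hx0
  obtain ⟨z, hz1, hz2, hz3⟩ := Φ.exists_perp hν (Submodule.span F {x}) (Submodule.span F {x})
    (by omega)
  have hz0 : z ≠ 0 := by rintro rfl; exact hz1 (Submodule.zero_mem _)
  refine ⟨⟨Submodule.span F {x}, h1, Φ.TS_span hx⟩,
    ⟨Submodule.span F {z}, finrank_span_singleton hz0, Φ.TS_span hz2⟩, ?_, ?_⟩
  · intro h
    apply hz1
    have h2 : Submodule.span F {x} = Submodule.span F {z} := congrArg Subtype.val h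
    rw [h2]
    exact Submodule.mem_span_singleton_self _
  · intro a ha b hb
    obtain ⟨c, rfl⟩ := Submodule.mem_span_singleton.1 hb
    rw [Φ.f_smul_right, hz3 a ha, mul_zero]

/-- a permutation of the singular points does not interchange the two relations -/
theorem Pt_twist (r : ℕ) [Fact r.Prime] [CharP F r] (hν : Φ.WI ν) (h15 : 15 ≤ ν)
    (e : Equiv.Perm Φ.SPt) (he : ∀ P Q, Φ.Pp (e P) (e Q) ↔ (P = Q ∨ ¬ Φ.Pp P Q)) : False := by
  classical
  have : Finite V := Module.finite_of_finite F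
  have : Finite (Submodule F V) :=
    Finite.of_injective (fun W : Submodule F V => (W : Set V)) SetLike.coe_injective
  have : Finite Φ.SPt := inferInstance
  let inst : Fintype Φ.SPt := Fintype.ofFinite _
  obtain ⟨P, P', hne, hPP⟩ := Pt_ex1 Φ hν h15
  set Q := e P with hQ
  set Q' := e P' with hQ'
  have hQQ : ¬ Φ.Pp Q Q' := by
    rw [hQ, hQ', he]
    push Not
    exact ⟨hne, hPP⟩
  have hQne : Q ≠ Q' := fun h => hQQ (h ▸ Pt_Pp_self Φ Q)
  let N : Submodule F V → ℕ := fun U => (Finset.univ.filter fun R : Φ.SPt => R.1 ≤ U).card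
  have hN : ∀ W : Submodule F V, finrank F W ≤ 2 → N (Φ.perp W) ≡ 1 [MOD r] := by
    intro W hW
    have := Pt_cnt_perp Φ r hν h15 W hW
    rwa [Nat.card_eq_fintype_card, Fintype.card_subtype] at this
  have hpt : ∀ R : Φ.SPt, finrank F R.1 ≤ 2 := fun R => by rw [R.2.1]; omega
  have hpp : ∀ R R' : Φ.SPt, finrank F (R.1 ⊔ R'.1 : Submodule F V) ≤ 2 := by
    intro R R'
    have := Submodule.finrank_add_le_finrank_add_finrank R.1 R'.1
    rw [R.2.1, R'.2.1] at this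
    exact this
  have hsup : ∀ R R' T : Φ.SPt, T.1 ≤ Φ.perp (R.1 ⊔ R'.1) ↔ Φ.Pp R T ∧ Φ.Pp R' T := by
    intro R R' T
    rw [Pt_Pp_le, Pt_Pp_le]
    constructor
    · intro h
      exact ⟨fun y hy u hu => h hy u (Submodule.mem_sup_left hu),
        fun y hy u hu => h hy u (Submodule.mem_sup_right hu)⟩
    · rintro ⟨h1, h2⟩ y hy u hu
      obtain ⟨a, ha, b, hb, rfl⟩ := Submodule.mem_sup.1 hu
      rw [map_add, AddMonoidHom.add_apply, h1 hy a ha, h2 hy b hb, add_zero]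
  -- the sets
  let A : Finset Φ.SPt := Finset.univ.filter fun R => Φ.Pp Q R
  let B : Finset Φ.SPt := Finset.univ.filter fun R => Φ.Pp Q' R
  let C : Finset Φ.SPt := Finset.univ.filter fun R => Φ.Pp P R ∧ Φ.Pp P' R
  let D : Finset Φ.SPt := Finset.univ.filter fun R => (Q = R ∨ ¬ Φ.Pp Q R) ∧ (Q' = R ∨ ¬ Φ.Pp Q' R)
  have hA : A.card ≡ 1 [MOD r] := by
    have h := hN Q.1 (hpt Q)
    have e1 : N (Φ.perp Q.1) = A.card := by
      apply congrArg Finset.card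
      ext R
      simp only [Finset.mem_filter, Finset.mem_univ, true_and, A]
      exact (Pt_Pp_le Φ Q R).symm
    rwa [e1] at h
  have hB : B.card ≡ 1 [MOD r] := by
    have h := hN Q'.1 (hpt Q')
    have e1 : N (Φ.perp Q'.1) = B.card := by
      apply congrArg Finset.card
      ext R
      simp only [Finset.mem_filter, Finset.mem_univ, true_and, B]
      exact (Pt_Pp_le Φ Q' R).symm
    rwa [e1] at h
  have hAB : (A ∩ B).card ≡ 1 [MOD r] := by
    have h := hN _ (hpp Q Q')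
    have e1 : N (Φ.perp (Q.1 ⊔ Q'.1)) = (A ∩ B).card := by
      apply congrArg Finset.card
      ext R
      simp only [Finset.mem_filter, Finset.mem_univ, true_and, A, B, Finset.mem_inter]
      exact hsup Q Q' R
    rwa [e1] at h
  have hC : C.card ≡ 1 [MOD r] := by
    have h := hN _ (hpp P P')
    have e1 : N (Φ.perp (P.1 ⊔ P'.1)) = C.card := by
      apply congrArg Finset.card
      ext R
      simp only [Finset.mem_filter, Finset.mem_univ, true_and, C]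
      exact hsup P P' R
    rwa [e1] at h
  have hX : (Finset.univ : Finset Φ.SPt).card ≡ 1 [MOD r] := by
    have h := hN ⊥ (by rw [finrank_bot]; omega)
    have e1 : N (Φ.perp ⊥) = (Finset.univ : Finset Φ.SPt).card := by
      apply congrArg Finset.card
      ext R
      simp only [Finset.mem_filter, Finset.mem_univ, true_and, iff_true]
      intro y _ u hu
      rw [(Submodule.mem_bot F).1 hu, map_zero]
      rfl
    rwa [e1] at h
  have hCD : C.card = D.card := by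
    apply Finset.card_equiv e
    intro R
    simp only [Finset.mem_filter, Finset.mem_univ, true_and, C, D]
    have h1 : ∀ T : Φ.SPt, (e T = e R ∨ ¬ Φ.Pp (e T) (e R)) ↔ Φ.Pp T R := by
      intro T
      rw [he, e.injective.eq_iff]
      constructor
      · rintro (h | h)
        · rw [h]; exact Pt_Pp_self Φ R
        · push Not at h
          exact h.2
      · intro h
        by_cases hTR : T = R
        · exact Or.inl hTR
        · right
          push Not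
          exact ⟨hTR, h⟩
    rw [hQ, hQ', h1, h1]
  have hDdec : D = {Q, Q'} ∪ (A ∪ B)ᶜ := by
    ext R
    simp only [Finset.mem_filter, Finset.mem_univ, true_and, D, A, B, Finset.mem_union,
      Finset.mem_insert, Finset.mem_singleton, Finset.mem_compl]
    constructor
    · rintro ⟨h1 | h1, h2 | h2⟩
      · exact Or.inl (Or.inl h1.symm)
      · exact Or.inl (Or.inl h1.symm)
      · exact Or.inl (Or.inr h2.symm)
      · right; push Not; exact ⟨h1, h2⟩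
    · rintro ((h | h) | h)
      · subst h
        exact ⟨Or.inl rfl, Or.inr (fun h => hQQ (Pt_Pp_symm Φ h))⟩
      · subst h
        exact ⟨Or.inr hQQ, Or.inl rfl⟩
      · push Not at h
        exact ⟨Or.inr h.1, Or.inr h.2⟩
  have hdisj : Disjoint ({Q, Q'} : Finset Φ.SPt) (A ∪ B)ᶜ := by
    rw [Finset.disjoint_left]
    intro R hR
    simp only [Finset.mem_insert, Finset.mem_singleton] at hR
    simp only [Finset.mem_compl, Finset.mem_union, not_not, A, B, Finset.mem_filter,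
      Finset.mem_univ, true_and]
    rcases hR with rfl | rfl
    · exact Or.inl (Pt_Pp_self Φ _)
    · exact Or.inr (Pt_Pp_self Φ _)
  have e2 : D.card = 2 + ((A ∪ B)ᶜ).card := by
    rw [hDdec, Finset.card_union_of_disjoint hdisj, Finset.card_pair hQne]
  have e3 : ((A ∪ B)ᶜ).card + (A ∪ B).card = (Finset.univ : Finset Φ.SPt).card := by
    rw [Finset.card_compl_add_card]; rfl
  have e4 : (A ∪ B).card + (A ∩ B).card = A.card + B.card := Finset.card_union_add_card_inter A B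
  have e5 : C.card + A.card + B.card = 2 + (Finset.univ : Finset Φ.SPt).card + (A ∩ B).card := by
    omega
  have e6 : 1 + 1 + 1 ≡ 2 + 1 + 1 [MOD r] := by
    have l1 : C.card + A.card + B.card ≡ 1 + 1 + 1 [MOD r] := (hC.add hA).add hB
    have l2 : 2 + (Finset.univ : Finset Φ.SPt).card + (A ∩ B).card ≡ 2 + 1 + 1 [MOD r] :=
      ((Nat.ModEq.refl 2).add hX).add hAB
    rw [e5] at l1
    exact l1.symm.trans l2
  have e7 : r ∣ 1 := by
    have := (Nat.modEq_iff_dvd' (by norm_num)).1 e6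
    simpa using this
  exact (Fact.out : r.Prime).one_lt.ne' (Nat.dvd_one.1 e7)

theorem pt (hν : Φ.WI ν) (h15 : 15 ≤ ν) (ρ : Rl F V S) (hE : Φ.El ≤ ρ.T) (hI : ρ.T ≤ Φ.Isom)
    (φ : S ≃* S) : ∃ e : Equiv.Perm Φ.SPt, (∀ P, (ρ.st P.1).map φ.toMonoidHom = ρ.st (e P).1) ∧
      ∀ P Q, Φ.Pp (e P) (e Q) ↔ Φ.Pp P Q := by
  classical
  have : Finite V := Module.finite_of_finite F
  have : Finite (Submodule F V) :=
    Finite.of_injective (fun W : Submodule F V => (W : Set V)) SetLike.coe_injective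
  have : Finite Φ.SPt := inferInstance
  choose e₀ he₀ using Pt_img_eq Φ hν h15 ρ hE hI φ
  have hinj : Function.Injective e₀ := by
    intro P Q h
    apply st_pt_inj Φ hν h15 ρ hE hI
    have h1 : (ρ.st P.1).map φ.toMonoidHom = (ρ.st Q.1).map φ.toMonoidHom := by
      rw [he₀, he₀, h]
    have h2 : Function.Injective φ.toMonoidHom := φ.injective
    exact (Subgroup.map_injective h2 h1).le
  let e : Equiv.Perm Φ.SPt := Equiv.ofBijective e₀ (Finite.injective_iff_bijective.1 hinj)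
  have he : ∀ P, (ρ.st P.1).map φ.toMonoidHom = ρ.st (e P).1 := he₀
  have heq := @Pt_equiv F V S _ _ _ _ _ _ Φ ν hν h15 ρ hE hI φ e he
  have hpair : ∀ {P P' Q Q' : Φ.SPt} (g : ρ.T), Pt_act Φ ρ hI g P = Q →
      Pt_act Φ ρ hI g P' = Q' → (Φ.Pp (e Q) (e Q') ↔ Φ.Pp (e P) (e P')) := by
    rintro P P' _ _ g rfl rfl
    obtain ⟨g', hg'⟩ := ρ.surj (φ (ρ.π g))
    rw [heq hg'.symm P, heq hg'.symm P', Pt_act_Pp]
  have horb1 : ∀ {P P' Q Q' : Φ.SPt}, P ≠ P' → Φ.Pp P P' → Q ≠ Q' → Φ.Pp Q Q' →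
      (Φ.Pp (e Q) (e Q') ↔ Φ.Pp (e P) (e P')) := by
    intro P P' Q Q' h1 h2 h3 h4
    obtain ⟨g, hg, hg'⟩ := Pt_orb1 Φ hν h15 ρ hE hI h1 h2 h3 h4
    exact hpair g hg hg'
  have horb2 : ∀ {P P' Q Q' : Φ.SPt}, ¬ Φ.Pp P P' → ¬ Φ.Pp Q Q' →
      (Φ.Pp (e Q) (e Q') ↔ Φ.Pp (e P) (e P')) := by
    intro P P' Q Q' h2 h4
    obtain ⟨g, hg, hg'⟩ := Pt_orb2 Φ hν h15 ρ hE hI h2 h4
    exact hpair g hg hg'
  refine ⟨e, he, ?_⟩
  obtain ⟨P₀, P₀', hne, hP₀⟩ := Pt_ex1 Φ hν h15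
  by_cases hc : Φ.Pp (e P₀) (e P₀')
  · intro P Q
    constructor
    · intro h
      by_contra hPQ
      obtain ⟨A, hA⟩ := e.surjective P
      obtain ⟨B, hB⟩ := e.surjective Q
      have hAB : ¬ Φ.Pp (e A) (e B) := by rw [hA, hB]; exact hPQ
      by_cases h1 : A = B
      · apply hAB
        rw [h1]
        exact Pt_Pp_self Φ _
      by_cases h2 : Φ.Pp A B
      · exact hAB ((horb1 hne hP₀ h1 h2).2 hc)
      · exact hAB ((horb2 hPQ h2).2 h)
    · intro h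
      by_cases h1 : P = Q
      · rw [h1]; exact Pt_Pp_self Φ _
      · exact (horb1 hne hP₀ h1 h).2 hc
  · exfalso
    obtain ⟨r, hr⟩ := CharP.exists F
    have : Fact r.Prime := ⟨CharP.char_is_prime F r⟩
    refine Pt_twist Φ r hν h15 e (fun P Q => ⟨fun h => ?_, fun h => ?_⟩)
    · by_cases h1 : P = Q
      · exact Or.inl h1
      · right
        intro h2
        exact hc ((horb1 h1 h2 hne hP₀).2 h)
    · rcases h with h | h
      · rw [h]; exact Pt_Pp_self Φ _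
      · by_contra h3
        obtain ⟨A, hA⟩ := e.surjective P₀
        obtain ⟨B, hB⟩ := e.surjective P₀'
        have hAB : Φ.Pp (e A) (e B) := by rw [hA, hB]; exact hP₀
        have hABne : A ≠ B := by
          rintro rfl
          exact hne (hA.symm.trans hB)
        by_cases h2 : Φ.Pp A B
        · exact hc ((horb1 hABne h2 hne hP₀).2 hAB)
        · exact h3 ((horb2 h2 h).2 hAB)

end Helper76.CL
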