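import Pool.Agent.Helper76.CL.Tr1
import Pool.Agent.Helper76.CL.Tr2

/-!
# Double cosets
-/

set_option autoImplicit false
set_option linter.unusedSectionVars false
set_option linter.unusedSimpArgs false

namespace Helper76.CL

open Module

variable {F V S : Type} [Field F] [AddCommGroup V] [Module F V] [FiniteDimensional F V] [Group S]
  (Φ : FS F V) {ν : ℕ}

/-- a singular vector which is dual to `x` and perpendicular to `W` -/
private theorem Rk_dual (W : Submodule F V) {x : V} (hx : x ∉ W) (hq : Φ.q x = 0)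
    (hW : ∀ w ∈ W, Φ.f w x = 0) :
    ∃ y, Φ.q y = 0 ∧ Φ.f y x = 1 ∧ ∀ w ∈ W, Φ.f y w = 0 := by
  obtain ⟨φ, hφx, hφW⟩ := Submodule.exists_le_ker_of_notMem hx
  have hxx : Φ.f x x = 0 := Φ.q_self x hq
  let U : Submodule F V := W ⊔ Submodule.span F {x}
  have hxU : x ∈ U := Submodule.mem_sup_right (Submodule.mem_span_singleton_self x)
  have hU : ∀ u ∈ U, Φ.f u x = 0 := by
    intro u hu
    obtain ⟨w, hw, z, hz, rfl⟩ := Submodule.mem_sup.1 hu
    obtain ⟨c, rfl⟩ := Submodule.mem_span_singleton.1 hz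
    rw [map_add, AddMonoidHom.add_apply, hW w hw, Φ.f_smul_left, hxx, mul_zero, add_zero]
  obtain ⟨y, hy, hyU⟩ := Φ.exists_sing U (((φ x)⁻¹ • φ).comp U.subtype) x hxU hq hU (by
    simp [hφx])
  refine ⟨y, hy, ?_, fun w hw => ?_⟩
  · rw [hyU x hxU]
    simp [hφx]
  · rw [hyU w (Submodule.mem_sup_left hw)]
    have : φ w = 0 := hφW hw
    simp [this]

private theorem Rk_ne {W : Submodule F V} {x : V} (hx : x ∉ W) : x ≠ 0 := by
  rintro rfl
  exact hx W.zero_mem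

/-- lowering the dimension of the intersection by two -/
private theorem Rk_drop {R R' : Submodule F V} (hR : Φ.TS R) (hR' : Φ.TS R')
    (h2 : 2 ≤ finrank F (R ⊓ R' : Submodule F V)) :
    ∃ u ∈ Φ.El, finrank F (R ⊓ gm u R' : Submodule F V) + 2 =
      finrank F (R ⊓ R' : Submodule F V) := by
  set A : Submodule F V := R ⊓ R' with hA
  -- two independent vectors in A
  obtain ⟨e1, he1, he10⟩ : ∃ e ∈ A, e ≠ 0 := by
    have : A ≠ ⊥ := by
      intro h
      rw [h, finrank_bot] at h2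
      omega
    exact Submodule.exists_mem_ne_zero_of_ne_bot this
  obtain ⟨e2, he2, he21⟩ : ∃ e ∈ A, e ∉ Submodule.span F {e1} := by
    by_contra hcon
    push Not at hcon
    have h1 : A ≤ Submodule.span F {e1} := hcon
    have h3 := Submodule.finrank_mono h1
    rw [finrank_span_singleton he10] at h3
    omega
  have hAR : ∀ a ∈ A, a ∈ R := fun a ha => ha.1
  have hAR' : ∀ a ∈ A, a ∈ R' := fun a ha => ha.2
  have hff : ∀ a ∈ R, ∀ b ∈ R, Φ.f a b = 0 := hR.2
  have he12 : e1 ∉ Submodule.span F {e2} := by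
    intro h
    obtain ⟨c, hc⟩ := Submodule.mem_span_singleton.1 h
    have hc0 : c ≠ 0 := by
      rintro rfl
      rw [zero_smul] at hc
      exact he10 hc.symm
    apply he21
    rw [Submodule.mem_span_singleton]
    exact ⟨c⁻¹, by rw [← hc, smul_smul, inv_mul_cancel₀ hc0, one_smul]⟩
  -- f1
  obtain ⟨f1, hf1, hf11, hf12⟩ := Rk_dual Φ (Submodule.span F {e2}) he12
    (hR.1 e1 (hAR e1 he1)) (by
      intro w hw
      obtain ⟨c, rfl⟩ := Submodule.mem_span_singleton.1 hw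
      rw [Φ.f_smul_left, hff e2 (hAR e2 he2) e1 (hAR e1 he1), mul_zero])
  have hf12' : Φ.f f1 e2 = 0 := hf12 e2 (Submodule.mem_span_singleton_self e2)
  -- f2
  have hW : e2 ∉ Submodule.span F {e1} ⊔ Submodule.span F {f1} := by
    intro h
    obtain ⟨w, hw, z, hz, hwz⟩ := Submodule.mem_sup.1 h
    obtain ⟨c, rfl⟩ := Submodule.mem_span_singleton.1 hz
    have h1 : Φ.f e1 (w + c • f1) = 0 := by
      rw [hwz]; exact hff e1 (hAR e1 he1) e2 (hAR e2 he2)
    obtain ⟨a, rfl⟩ := Submodule.mem_span_singleton.1 hw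
    rw [map_add, Φ.f_smul_right, Φ.f_smul_right, hff e1 (hAR e1 he1) e1 (hAR e1 he1), mul_zero,
      zero_add] at h1
    have h3 : Φ.f e1 f1 ≠ 0 := by
      intro h4
      have := Φ.f_eq_zero_symm h4
      rw [hf11] at this
      exact one_ne_zero this
    have hc : c = 0 := by
      rcases mul_eq_zero.1 h1 with h | h
      · exact h
      · exact absurd h h3
    rw [hc, zero_smul, add_zero] at hwz
    apply he21
    rw [← hwz]
    exact hw
  obtain ⟨f2, hf2, hf22, hf2W⟩ := Rk_dual Φ _ hW (hR.1 e2 (hAR e2 he2)) (by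
    intro w hw
    obtain ⟨w', hw', z, hz, rfl⟩ := Submodule.mem_sup.1 hw
    obtain ⟨c, rfl⟩ := Submodule.mem_span_singleton.1 hz
    obtain ⟨a, rfl⟩ := Submodule.mem_span_singleton.1 hw'
    rw [map_add, AddMonoidHom.add_apply, Φ.f_smul_left, Φ.f_smul_left,
      hff e1 (hAR e1 he1) e2 (hAR e2 he2), hf12', mul_zero, mul_zero, add_zero])
  have hf21 : Φ.f f2 e1 = 0 := hf2W e1 (Submodule.mem_sup_left
    (Submodule.mem_span_singleton_self e1))
  have hf2f1 : Φ.f f2 f1 = 0 := hf2W f1 (Submodule.mem_sup_right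
    (Submodule.mem_span_singleton_self f1))
  have hf1f2 : Φ.f f1 f2 = 0 := Φ.f_eq_zero_symm hf2f1
  obtain ⟨u, hu, huf⟩ := Φ.exists_u hf1 hf2 hf1f2
  have hufv : ∀ v, u v = v + Φ.f f1 v • f2 - (Φ.ε * Φ.f f2 v) • f1 := huf
  refine ⟨u, hu, ?_⟩
  have hε : Φ.ε ≠ 0 := by
    rcases Φ.hε with h | h
    · rw [h]; exact one_ne_zero
    · rw [h]; exact neg_ne_zero.2 one_ne_zero
  -- the intersection
  let L1 : V →ₗ[F] F :=
    { toFun := fun v => Φ.f f1 v
      map_add' := fun x y => map_add _ _ _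
      map_smul' := fun c x => Φ.f_smul_right c f1 x }
  let L2 : V →ₗ[F] F :=
    { toFun := fun v => Φ.f f2 v
      map_add' := fun x y => map_add _ _ _
      map_smul' := fun c x => Φ.f_smul_right c f2 x }
  have hint : R ⊓ gm u R' = A ⊓ (LinearMap.ker L1 ⊓ LinearMap.ker L2) := by
    ext v
    constructor
    · rintro ⟨hvR, hvR'⟩
      rw [SetLike.mem_coe, mem_gm] at hvR'
      set x := u⁻¹ v with hx
      have hux : u x = v := by rw [hx]; exact u.apply_symm_apply v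
      have hve : v = x + Φ.f f1 x • f2 - (Φ.ε * Φ.f f2 x) • f1 := by rw [← hux, hufv]
      have hb1 : Φ.f e1 v = 0 := hff e1 (hAR e1 he1) v hvR
      have hb2 : Φ.f e2 v = 0 := hff e2 (hAR e2 he2) v hvR
      have hc1 : Φ.f e1 x = 0 := hR'.2 e1 (hAR' e1 he1) x hvR'
      have hc2 : Φ.f e2 x = 0 := hR'.2 e2 (hAR' e2 he2) x hvR'
      have he1f2 : Φ.f e1 f2 = 0 := Φ.f_eq_zero_symm hf21
      have he2f1 : Φ.f e2 f1 = 0 := Φ.f_eq_zero_symm hf12'
      have he1f1 : Φ.f e1 f1 ≠ 0 := by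
        intro h4
        have := Φ.f_eq_zero_symm h4
        rw [hf11] at this
        exact one_ne_zero this
      have he2f2 : Φ.f e2 f2 ≠ 0 := by
        intro h4
        have := Φ.f_eq_zero_symm h4
        rw [hf22] at this
        exact one_ne_zero this
      rw [hve, map_sub, map_add, Φ.f_smul_right, Φ.f_smul_right, hc1, he1f2, mul_zero, zero_add,
        zero_sub, neg_eq_zero] at hb1
      rw [hve, map_sub, map_add, Φ.f_smul_right, Φ.f_smul_right, hc2, he2f1, mul_zero, zero_add,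
        sub_zero] at hb2
      have hz2 : Φ.f f2 x = 0 := by
        rcases mul_eq_zero.1 hb1 with h | h
        · rcases mul_eq_zero.1 h with h | h
          · exact absurd h hε
          · exact h
        · exact absurd h he1f1
      have hz1 : Φ.f f1 x = 0 := by
        rcases mul_eq_zero.1 hb2 with h | h
        · exact h
        · exact absurd h he2f2
      have hvx : v = x := by rw [hve, hz1, hz2]; simp
      refine ⟨⟨hvR, ?_⟩, ?_, ?_⟩
      · rw [hvx]; exact hvR'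
      · change Φ.f f1 v = 0
        rw [hvx]; exact hz1
      · change Φ.f f2 v = 0
        rw [hvx]; exact hz2
    · rintro ⟨⟨hvR, hvR'⟩, hv1, hv2⟩
      have hv1' : Φ.f f1 v = 0 := hv1
      have hv2' : Φ.f f2 v = 0 := hv2
      refine ⟨hvR, ?_⟩
      rw [SetLike.mem_coe, mem_gm]
      have : u v = v := by rw [hufv, hv1', hv2']; simp
      have h3 : u⁻¹ v = v := by
        conv_lhs => rw [← this]
        exact u.symm_apply_apply v
      rw [h3]
      exact hvR'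
  rw [hint]
  -- the dimension
  let L : A →ₗ[F] F × F := ((L1.comp A.subtype).prod (L2.comp A.subtype))
  have hLsurj : Function.Surjective L := by
    rintro ⟨a, b⟩
    refine ⟨a • ⟨e1, he1⟩ + b • ⟨e2, he2⟩, ?_⟩
    have h1 : L1 e1 = 1 := hf11
    have h3 : L1 e2 = 0 := hf12'
    have h4 : L2 e1 = 0 := hf21
    have h5 : L2 e2 = 1 := hf22
    ext
    · simp [L, h1, h3]
    · simp [L, h4, h5]
  have hrn := L.finrank_range_add_finrank_ker
  rw [LinearMap.range_eq_top.2 hLsurj, finrank_top] at hrn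
  have hFF : finrank F (F × F) = 2 := by simp
  have hker : (LinearMap.ker L).map A.subtype = A ⊓ (LinearMap.ker L1 ⊓ LinearMap.ker L2) := by
    ext v
    constructor
    · rintro ⟨w, hw, rfl⟩
      have hw' : L w = 0 := hw
      refine ⟨w.2, ?_, ?_⟩
      · exact congrArg Prod.fst hw'
      · exact congrArg Prod.snd hw'
    · rintro ⟨hvA, hv1, hv2⟩
      exact ⟨⟨v, hvA⟩, Prod.ext hv1 hv2, rfl⟩
  have hfr : finrank F (A ⊓ (LinearMap.ker L1 ⊓ LinearMap.ker L2) : Submodule F V) =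
      finrank F (LinearMap.ker L) := by
    rw [← hker]
    exact LinearEquiv.finrank_eq
      (Submodule.equivMapOfInjective A.subtype A.injective_subtype _).symm
  rw [hfr, ← hrn, hFF]
  ring

/-- the invariants of double cosets -/
private theorem Rk_coset (ρ : Rl F V S) {R : Submodule F V} {t t' : ρ.T} {a b : S}
    (ha : a ∈ ρ.st R) (hb : b ∈ ρ.st R) (h : ρ.π t = a * ρ.π t' * b) :
    ∃ α : ρ.T, gm (α : V ≃ₗ[F] V) R = R ∧
      gm (t : V ≃ₗ[F] V) R = gm (α : V ≃ₗ[F] V) (gm (t' : V ≃ₗ[F] V) R) := by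
  obtain ⟨α, rfl, hα⟩ := ha
  obtain ⟨β, rfl, hβ⟩ := hb
  refine ⟨α, hα, ?_⟩
  have h1 : ρ.π (t * (α * t' * β)⁻¹) = 1 := by
    rw [map_mul, map_inv, map_mul, map_mul, h, mul_inv_cancel]
  obtain ⟨c, hc⟩ := (ρ.ker _).1 h1
  have h2 := gm_scalar hc (gm ((α * t' * β : ρ.T) : V ≃ₗ[F] V) R)
  have h3 : ((t * (α * t' * β)⁻¹ : ρ.T) : V ≃ₗ[F] V) =
    (t : V ≃ₗ[F] V) * ((α * t' * β : ρ.T) : V ≃ₗ[F] V)⁻¹ := rfl
  rw [h3, gm_mul, gm_inv_gm] at h2
  have h4 : ((α * t' * β : ρ.T) : V ≃ₗ[F] V) =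
    (α : V ≃ₗ[F] V) * (t' : V ≃ₗ[F] V) * (β : V ≃ₗ[F] V) := rfl
  rw [h2, h4, gm_mul, gm_mul, hβ]

private theorem Rk_gm_inf (g : V ≃ₗ[F] V) (A B : Submodule F V) :
    gm g (A ⊓ B) = gm g A ⊓ gm g B := by
  ext v
  simp only [Submodule.mem_inf, mem_gm]

private theorem Rk_dim (ρ : Rl F V S) {R : Submodule F V} {t t' : ρ.T} {a b : S}
    (ha : a ∈ ρ.st R) (hb : b ∈ ρ.st R) (h : ρ.π t = a * ρ.π t' * b) :
    finrank F (R ⊓ gm (t : V ≃ₗ[F] V) R : Submodule F V) =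
      finrank F (R ⊓ gm (t' : V ≃ₗ[F] V) R : Submodule F V) := by
  obtain ⟨α, h1, h2⟩ := Rk_coset ρ ha hb h
  rw [h2]
  have : R ⊓ gm (α : V ≃ₗ[F] V) (gm (t' : V ≃ₗ[F] V) R) =
      gm (α : V ≃ₗ[F] V) (R ⊓ gm (t' : V ≃ₗ[F] V) R) := by
    rw [Rk_gm_inf, h1]
  rw [this, finrank_gm]

private theorem Rk_perp (ρ : Rl F V S) (hI : ρ.T ≤ Φ.Isom) {R : Submodule F V} {t t' : ρ.T}
    {a b : S} (ha : a ∈ ρ.st R) (hb : b ∈ ρ.st R) (h : ρ.π t = a * ρ.π t' * b) :
    (∀ x ∈ R, ∀ y ∈ gm (t : V ≃ₗ[F] V) R, Φ.f x y = 0) ↔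
      (∀ x ∈ R, ∀ y ∈ gm (t' : V ≃ₗ[F] V) R, Φ.f x y = 0) := by
  obtain ⟨α, h1, h2⟩ := Rk_coset ρ ha hb h
  have hα := (Φ.mem_Isom.1 (hI α.2)).1
  rw [h2]
  constructor
  · intro H x hx y hy
    rw [← hα]
    apply H
    · rw [← h1]; exact apply_mem_gm.2 hx
    · exact apply_mem_gm.2 hy
  · intro H x hx y hy
    rw [← h1, mem_gm] at hx
    rw [mem_gm] at hy
    have h3 := H _ hx _ hy
    rw [← hα] at h3
    have h4 : ∀ v, (α : V ≃ₗ[F] V) ((α : V ≃ₗ[F] V)⁻¹ v) = v :=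
      (α : V ≃ₗ[F] V).apply_symm_apply
    rwa [h4, h4] at h3

theorem rk3 (hν : Φ.WI ν) (h7 : 7 ≤ ν) (ρ : Rl F V S) (hE : Φ.El ≤ ρ.T) (hI : ρ.T ≤ Φ.Isom)
    {x : V} (hx : Φ.q x = 0) (hx0 : x ≠ 0) :
    ∃ h₁ h₂ : S, ∀ s : S, s ∈ ρ.st (Submodule.span F {x}) ∨
      (∃ a ∈ ρ.st (Submodule.span F {x}), ∃ b ∈ ρ.st (Submodule.span F {x}), s = a * h₁ * b) ∨
      (∃ a ∈ ρ.st (Submodule.span F {x}), ∃ b ∈ ρ.st (Submodule.span F {x}), s = a * h₂ * b) := by
  -- the first representative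
  obtain ⟨y1, hy1x, hy1, hxy1⟩ := Φ.exists_perp hν (Submodule.span F {x}) (Submodule.span F {x})
    (by rw [finrank_span_singleton hx0]; omega)
  have hxy1' : Φ.f x y1 = 0 := hxy1 x (Submodule.mem_span_singleton_self x)
  obtain ⟨g1, hg1, hg1x⟩ := tr_pt Φ hν h7 hx hy1 hx0 (Rk_ne hy1x)
  -- the second
  obtain ⟨y, hy, hyx, -⟩ := Rk_dual Φ ⊥ (x := x) (by simpa using hx0) hx (by
    intro w hw
    rw [(Submodule.mem_bot F).1 hw, map_zero, AddMonoidHom.zero_apply])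
  obtain ⟨y2, hy2, hxy2⟩ : ∃ y2, Φ.q y2 = 0 ∧ Φ.f x y2 = 1 := by
    have h1 : Φ.f x y ≠ 0 := by
      intro h4
      have := Φ.f_eq_zero_symm h4
      rw [hyx] at this
      exact one_ne_zero this
    refine ⟨(Φ.f x y)⁻¹ • y, ?_, ?_⟩
    · rw [Φ.q_smul, hy, mul_zero]
    · rw [Φ.f_smul_right, inv_mul_cancel₀ h1]
  have hy20 : y2 ≠ 0 := by
    rintro rfl
    rw [map_zero] at hxy2
    exact zero_ne_one hxy2
  obtain ⟨g2, hg2, hg2x⟩ := tr_pt Φ hν h7 hx hy2 hx0 hy20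
  -- stabilisers
  have hst : ∀ (k : V ≃ₗ[F] V) (hk : k ∈ ρ.T) (c : F), c ≠ 0 → k x = c • x →
      ρ.π ⟨k, hk⟩ ∈ ρ.st (Submodule.span F {x}) := by
    intro k hk c hc0 hc
    rw [ρ.mem_st]
    change (Submodule.span F {x}).map (k : V →ₗ[F] V) = _
    rw [Submodule.map_span, Set.image_singleton]
    have : (k : V →ₗ[F] V) x = c • x := hc
    rw [this]
    exact Submodule.span_singleton_smul_eq (IsUnit.mk0 c hc0) x
  refine ⟨ρ.π ⟨g1, hE hg1⟩, ρ.π ⟨g2, hE hg2⟩, fun s => ?_⟩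
  obtain ⟨g, rfl⟩ := ρ.surj s
  have hgI := Φ.mem_Isom.1 (hI g.2)
  set z : V := (g : V ≃ₗ[F] V) x with hz
  have hqz : Φ.q z = 0 := by rw [hz, hgI.2, hx]
  have hz0 : z ≠ 0 := by
    rw [hz]
    exact fun h => hx0 ((g : V ≃ₗ[F] V).map_eq_zero_iff.1 h)
  have hfin : ∀ (k g' : V ≃ₗ[F] V) (hk : k ∈ ρ.T) (hg' : g' ∈ ρ.T) (c : F), c ≠ 0 →
      k x = x → k (g' x) = c • z →
      ∃ a ∈ ρ.st (Submodule.span F {x}), ∃ b ∈ ρ.st (Submodule.span F {x}),
        ρ.π g = a * ρ.π ⟨g', hg'⟩ * b := by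
    intro k g' hk hg' c hc0 hkx hkg
    refine ⟨ρ.π ⟨k, hk⟩, hst k hk 1 one_ne_zero (by rw [hkx, one_smul]),
      ρ.π ((⟨k, hk⟩ * ⟨g', hg'⟩)⁻¹ * g), ?_, ?_⟩
    · have h1 : ((⟨k, hk⟩ * ⟨g', hg'⟩)⁻¹ * g : ρ.T) =
        ⟨(k * g')⁻¹ * (g : V ≃ₗ[F] V), ρ.T.mul_mem (ρ.T.inv_mem (ρ.T.mul_mem hk hg')) g.2⟩ := rfl
      rw [h1]
      apply hst _ _ c⁻¹ (inv_ne_zero hc0)
      change (k * g')⁻¹ ((g : V ≃ₗ[F] V) x) = c⁻¹ • x
      rw [← hz]
      have h2 : z = c⁻¹ • (k * g') x := by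
        change z = c⁻¹ • (k (g' x))
        rw [hkg, smul_smul, inv_mul_cancel₀ hc0, one_smul]
      rw [h2, map_smul]
      congr 1
      exact (k * g').symm_apply_apply x
    · rw [← map_mul, ← map_mul]
      congr 1
      rw [mul_inv_cancel_left]
  by_cases hzx : z ∈ Submodule.span F {x}
  · left
    obtain ⟨c, hc⟩ := Submodule.mem_span_singleton.1 hzx
    have hc0 : c ≠ 0 := by
      rintro rfl
      rw [zero_smul] at hc
      exact hz0 hc.symm
    exact hst _ g.2 c hc0 hc.symm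
  · right
    by_cases hfz : Φ.f x z = 0
    · left
      obtain ⟨k, hk, hkx, hky⟩ := tr_perp Φ hν h7 hx hy1 hqz hxy1' hfz hx0 hy1x hzx
      exact hfin k g1 (hE hk) (hE hg1) 1 one_ne_zero hkx (by rw [hg1x, hky, one_smul])
    · right
      obtain ⟨k, hk, hkx, hky⟩ := tr_nonperp Φ hν h7 hx hy2 (y' := (Φ.f x z)⁻¹ • z)
        (by rw [Φ.q_smul, hqz, mul_zero]) hxy2 (by rw [Φ.f_smul_right, inv_mul_cancel₀ hfz])
      exact hfin k g2 (hE hk) (hE hg2) (Φ.f x z)⁻¹ (inv_ne_zero hfz) hkx (by rw [hg2x, hky])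

theorem rk4 (hν : Φ.WI ν) (h15 : 15 ≤ ν) (ρ : Rl F V S) (hE : Φ.El ≤ ρ.T) (hI : ρ.T ≤ Φ.Isom)
    {R : Submodule F V} (hR : Φ.TS R) (h2 : 2 ≤ finrank F R) :
    ∃ g : Fin 4 → S, ∀ i j, i ≠ j → ∀ a ∈ ρ.st R, ∀ b ∈ ρ.st R, g i ≠ a * g j * b := by
  have hstep : ∀ t : ρ.T, 2 ≤ finrank F (R ⊓ gm (t : V ≃ₗ[F] V) R : Submodule F V) →
      ∃ t' : ρ.T, finrank F (R ⊓ gm (t' : V ≃ₗ[F] V) R : Submodule F V) + 2 =
        finrank F (R ⊓ gm (t : V ≃ₗ[F] V) R : Submodule F V) := by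
    intro t ht
    obtain ⟨u, hu, huf⟩ := Rk_drop Φ hR (Φ.gm_TS (hI t.2) hR) ht
    refine ⟨⟨u, hE hu⟩ * t, ?_⟩
    have : ((⟨u, hE hu⟩ * t : ρ.T) : V ≃ₗ[F] V) = u * (t : V ≃ₗ[F] V) := rfl
    rw [this, gm_mul]
    exact huf
  have h0 : finrank F (R ⊓ gm ((1 : ρ.T) : V ≃ₗ[F] V) R : Submodule F V) = finrank F R := by
    rw [Subgroup.coe_one, gm_one, inf_idem]
  obtain ⟨t1, ht1⟩ := hstep 1 (by rw [h0]; exact h2)
  rw [h0] at ht1
  by_cases h6 : 6 ≤ finrank F R
  · obtain ⟨t2, ht2⟩ := hstep t1 (by omega)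
    obtain ⟨t3, ht3⟩ := hstep t2 (by omega)
    refine ⟨![ρ.π 1, ρ.π t1, ρ.π t2, ρ.π t3], ?_⟩
    intro i j hij a ha b hb hab
    fin_cases i <;> fin_cases j <;> first
      | exact hij rfl
      | (simp only [Fin.zero_eta, Fin.mk_one, Fin.reduceFinMk, Matrix.cons_val_zero,
          Matrix.cons_val_one, Matrix.cons_val] at hab
         have := Rk_dim ρ ha hb hab
         omega)
  · -- small dimension
    obtain ⟨e, heR, he0⟩ : ∃ e ∈ R, e ≠ 0 := by
      have : R ≠ ⊥ := by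
        intro h
        rw [h, finrank_bot] at h2
        omega
      exact Submodule.exists_mem_ne_zero_of_ne_bot this
    obtain ⟨φ, hφe, -⟩ := Submodule.exists_le_ker_of_notMem (p := (⊥ : Submodule F V)) (v := e)
      (by simpa using he0)
    let R0 : Submodule F V := R ⊓ LinearMap.ker φ
    have heR0 : e ∉ R0 := fun h => hφe h.2
    have hR0R : R0 ≤ R := inf_le_left
    have hR0 : finrank F R0 + 1 = finrank F R := by
      have hsup : R0 ⊔ Submodule.span F {e} = R := by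
        apply le_antisymm
        · apply sup_le hR0R
          rw [Submodule.span_singleton_le_iff_mem]
          exact heR
        · intro v hv
          rw [Submodule.mem_sup]
          refine ⟨v - ((φ e)⁻¹ * φ v) • e, ⟨R.sub_mem hv (R.smul_mem _ heR), ?_⟩,
            ((φ e)⁻¹ * φ v) • e, Submodule.mem_span_singleton.2 ⟨_, rfl⟩, by abel⟩
          change φ (v - ((φ e)⁻¹ * φ v) • e) = 0
          rw [map_sub, map_smul, smul_eq_mul, mul_comm (φ e)⁻¹, mul_assoc, inv_mul_cancel₀ hφe,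
            mul_one, sub_self]
      have hinf : R0 ⊓ Submodule.span F {e} = ⊥ := by
        rw [eq_bot_iff]
        rintro v ⟨hv, hv'⟩
        obtain ⟨c, rfl⟩ := Submodule.mem_span_singleton.1 hv'
        by_cases hc : c = 0
        · rw [hc, zero_smul]; exact Submodule.zero_mem _
        · exfalso
          apply heR0
          have := R0.smul_mem c⁻¹ hv
          rwa [smul_smul, inv_mul_cancel₀ hc, one_smul] at this
      have h3 := Submodule.finrank_sup_add_finrank_inf_eq R0 (Submodule.span F {e})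
      rw [hsup, hinf, finrank_bot, finrank_span_singleton he0] at h3
      omega
    -- subspaces spanned by `R0` and one vector outside `R`
    have hadd : ∀ w : V, Φ.q w = 0 → (∀ y ∈ R0, Φ.f y w = 0) → w ∉ R →
        ∃ t : ρ.T, gm (t : V ≃ₗ[F] V) R = R0 ⊔ Submodule.span F {w} ∧
          finrank F (R ⊓ gm (t : V ≃ₗ[F] V) R : Submodule F V) + 1 = finrank F R := by
      intro w hw hR0w hwR
      have hTS0 : Φ.TS R0 := ⟨fun x hx => hR.1 x (hR0R hx),
        fun x hx y hy => hR.2 x (hR0R hx) y (hR0R hy)⟩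
      have hTS := Φ.TS_sup hTS0 hw hR0w
      have hw0 : w ≠ 0 := Rk_ne hwR
      have hinf : R0 ⊓ Submodule.span F {w} = ⊥ := by
        rw [eq_bot_iff]
        rintro v ⟨hv, hv'⟩
        obtain ⟨c, rfl⟩ := Submodule.mem_span_singleton.1 hv'
        by_cases hc : c = 0
        · rw [hc, zero_smul]; exact Submodule.zero_mem _
        · exfalso
          apply hwR
          have := R.smul_mem c⁻¹ (hR0R hv)
          rwa [smul_smul, inv_mul_cancel₀ hc, one_smul] at this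
      have h3 := Submodule.finrank_sup_add_finrank_inf_eq R0 (Submodule.span F {w})
      rw [hinf, finrank_bot, finrank_span_singleton hw0] at h3
      obtain ⟨g, hg, hgR⟩ := tr_ts Φ hν (k := finrank F R) (by omega) hR hTS rfl (by omega)
      refine ⟨⟨g, hE hg⟩, hgR, ?_⟩
      change finrank F (R ⊓ gm g R : Submodule F V) + 1 = _
      rw [hgR]
      have : R ⊓ (R0 ⊔ Submodule.span F {w}) = R0 := by
        apply le_antisymm
        · rintro v ⟨hv, hv'⟩
          obtain ⟨r, hr, z, hz, rfl⟩ := Submodule.mem_sup.1 hv'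
          obtain ⟨c, rfl⟩ := Submodule.mem_span_singleton.1 hz
          by_cases hc : c = 0
          · rw [hc, zero_smul, add_zero]; exact hr
          · exfalso
            apply hwR
            have h5 : c • w ∈ R := by
              have := R.sub_mem hv (hR0R hr)
              rwa [add_sub_cancel_left] at this
            have := R.smul_mem c⁻¹ h5
            rwa [smul_smul, inv_mul_cancel₀ hc, one_smul] at this
        · exact le_inf hR0R le_sup_left
      rw [this]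
      exact hR0
    -- perpendicular
    obtain ⟨z, hzR, hz, hRz⟩ := Φ.exists_perp hν R R (by omega)
    obtain ⟨t2, ht2, hd2⟩ := hadd z hz (fun y hy => hRz y (hR0R hy)) hzR
    have hp2 : ∀ x ∈ R, ∀ y ∈ gm (t2 : V ≃ₗ[F] V) R, Φ.f x y = 0 := by
      intro x hx y hy
      rw [ht2] at hy
      obtain ⟨r, hr, z', hz', rfl⟩ := Submodule.mem_sup.1 hy
      obtain ⟨c, rfl⟩ := Submodule.mem_span_singleton.1 hz'
      rw [map_add, Φ.f_smul_right, hRz x hx, hR.2 x hx r (hR0R hr), mul_zero, add_zero]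
    -- not perpendicular
    obtain ⟨w, hw, hwe, hwR0⟩ := Rk_dual Φ R0 heR0 (hR.1 e heR)
      (fun y hy => hR.2 y (hR0R hy) e heR)
    have hwR : w ∉ R := by
      intro h
      rw [hR.2 w h e heR] at hwe
      exact zero_ne_one hwe
    obtain ⟨t3, ht3, hd3⟩ := hadd w hw (fun y hy => Φ.f_eq_zero_symm (hwR0 y hy)) hwR
    have hp3 : ¬ ∀ x ∈ R, ∀ y ∈ gm (t3 : V ≃ₗ[F] V) R, Φ.f x y = 0 := by
      intro h
      have h4 := h e heR w (by
        rw [ht3]; exact Submodule.mem_sup_right (Submodule.mem_span_singleton_self w))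
      have := Φ.f_eq_zero_symm h4
      rw [hwe] at this
      exact one_ne_zero this
    refine ⟨![ρ.π 1, ρ.π t1, ρ.π t2, ρ.π t3], ?_⟩
    intro i j hij a ha b hb hab
    fin_cases i <;> fin_cases j <;> first
      | exact hij rfl
      | (simp only [Fin.zero_eta, Fin.mk_one, Fin.reduceFinMk, Matrix.cons_val_zero,
          Matrix.cons_val_one, Matrix.cons_val] at hab
         have := Rk_dim ρ ha hb hab
         omega)
      | (simp only [Fin.zero_eta, Fin.mk_one, Fin.reduceFinMk, Matrix.cons_val_zero,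
          Matrix.cons_val_one, Matrix.cons_val] at hab
         have := Rk_perp Φ ρ hI ha hb hab
         tauto)

end Helper76.CL
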