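import Pool.Agent.Helper76.CL.Fin

/-!
# The classical simple groups: short definitions
-/

set_option autoImplicit false

namespace Helper76.CL

open Module Helper76.IG

section

/-- `GL(V)` -/
def GLV (F V : Type) [Field F] [AddCommGroup V] [Module F V] : Type := V ≃ₗ[F] V

instance GLV.group (F V : Type) [Field F] [AddCommGroup V] [Module F V] : Group (GLV F V) :=
  inferInstanceAs (Group (V ≃ₗ[F] V))

variable {F V : Type} [Field F] [AddCommGroup V] [Module F V]

/-- the image `g v` of a vector `v` under `g` in `GL(V)` -/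
def GLV.ap (g : GLV F V) (v : V) : V := (show V ≃ₗ[F] V from g) v

variable (F V) in
/-- the scalar maps in `GL(V)` -/
def scal : Subgroup (GLV F V) where
  carrier := {g | ∃ c : F, ∀ v, g.ap v = c • v}
  one_mem' := (Sc F V).one_mem
  mul_mem' := (Sc F V).mul_mem
  inv_mem' := (Sc F V).inv_mem

instance scal_normal : (scal F V).Normal := inferInstanceAs (Sc F V).Normal

variable (F V) in
/-- `PGL(V)`, the quotient of `GL(V)` by the scalar maps -/
def PGLV : Type := GLV F V ⧸ scal F V

instance PGLV.group : Group (PGLV F V) := inferInstanceAs (Group (GLV F V ⧸ scal F V))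

variable (F V) in
/-- the projection from `GL(V)` to `PGL(V)` -/
def proj : GLV F V →* PGLV F V := QuotientGroup.mk' (scal F V)

/-- the commutator subgroup of the image in `PGL(V)` of a subgroup `I` of `GL(V)` -/
def ProjComm (I : Subgroup (GLV F V)) : Subgroup (PGLV F V) :=
  ⁅I.map (proj F V), I.map (proj F V)⁆

/-- the linear maps in `GL(V)` that preserve `f : V → V → F` -/
def isoB (f : V → V → F) : Subgroup (GLV F V) where
  carrier := {g | ∀ x y, f (g.ap x) (g.ap y) = f x y}
  one_mem' := fun _ _ => rfl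
  mul_mem' := by
    intro g h hg hh x y
    change f (g.ap (h.ap x)) (g.ap (h.ap y)) = _
    rw [hg, hh]
  inv_mem' := by
    intro g hg x y
    have h5 : ∀ x, g.ap (g⁻¹.ap x) = x := (show V ≃ₗ[F] V from g).apply_symm_apply
    rw [← hg, h5, h5]

/-- the linear maps in `GL(V)` that preserve `q : V → F` -/
def isoQ (q : V → F) : Subgroup (GLV F V) where
  carrier := {g | ∀ x, q (g.ap x) = q x}
  one_mem' := fun _ => rfl
  mul_mem' := by
    intro g h hg hh x
    change q (g.ap (h.ap x)) = _
    rw [hg, hh]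
  inv_mem' := by
    intro g hg x
    have h5 : ∀ x, g.ap (g⁻¹.ap x) = x := (show V ≃ₗ[F] V from g).apply_symm_apply
    rw [← hg, h5]

variable (F) in
/-- `f` is a nondegenerate alternating bilinear form on `V` -/
def IsAltForm (f : V → V → F) : Prop :=
  ∃ B : LinearMap.BilinForm F V, (∀ x y, f x y = B x y) ∧ B.IsAlt ∧ B.Nondegenerate

variable (F) in
/-- `f` is a nondegenerate hermitian form on `V`, for an involution `σ ≠ 1` of `F` -/
def IsHermForm (f : V → V → F) : Prop :=
  ∃ (σ : F →+* F) (B : V →ₛₗ[σ] V →ₗ[F] F), (∀ a, σ (σ a) = a) ∧ (∃ a, σ a ≠ a) ∧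
    (∀ x y, f x y = B x y) ∧ (∀ x y, f y x = σ (f x y)) ∧ ∀ x, (∀ y, f x y = 0) → x = 0

variable (F) in
/-- `q` is a quadratic form on `V` whose polar form is nondegenerate -/
def IsQuadForm (q : V → F) : Prop :=
  ∃ Q : QuadraticForm F V, (∀ x, q x = Q x) ∧
    ∀ x, (∀ y, q (x + y) - q x - q y = 0) → x = 0

end

/-- `S` is isomorphic to the commutator subgroup of the image in `PGL(V)` of the isometry group of
a nondegenerate alternating form on a finite-dimensional space `V` over a finite field -/
def PSpType (S : Type) [Group S] : Prop :=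
  ∃ (F V : Type) (_ : Field F) (_ : Finite F) (_ : AddCommGroup V) (_ : Module F V)
    (_ : FiniteDimensional F V) (f : V → V → F), IsAltForm F f ∧ Nonempty (S ≃* ProjComm (isoB f))

/-- `S` is isomorphic to the commutator subgroup of the image in `PGL(V)` of the isometry group of
a nondegenerate hermitian form on a finite-dimensional space `V` over a finite field -/
def PSUType (S : Type) [Group S] : Prop :=
  ∃ (F V : Type) (_ : Field F) (_ : Finite F) (_ : AddCommGroup V) (_ : Module F V)
    (_ : FiniteDimensional F V) (f : V → V → F), IsHermForm F f ∧ Nonempty (S ≃* ProjComm (isoB f))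

/-- `S` is isomorphic to the commutator subgroup of the image in `PGL(V)` of the isometry group of
a quadratic form with nondegenerate polar form on a finite-dimensional space `V` over a finite
field -/
def POmType (S : Type) [Group S] : Prop :=
  ∃ (F V : Type) (_ : Field F) (_ : Finite F) (_ : AddCommGroup V) (_ : Module F V)
    (_ : FiniteDimensional F V) (q : V → F), IsQuadForm F q ∧ Nonempty (S ≃* ProjComm (isoQ q))

theorem isPSp_iff (S : Type) [Group S] : PSpType S ↔ IsPSp S := by
  constructor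
  · rintro ⟨F, V, i1, i2, i3, i4, i5, f, ⟨B, h1, h2, h3⟩, h4⟩
    obtain rfl : f = fun x y => B x y := funext fun x => funext fun y => h1 x y
    exact ⟨F, V, i1, i2, i3, i4, i5, B, h2, h3, h4⟩
  · rintro ⟨F, V, i1, i2, i3, i4, i5, B, h2, h3, h4⟩
    exact ⟨F, V, i1, i2, i3, i4, i5, fun x y => B x y, ⟨B, fun _ _ => rfl, h2, h3⟩, h4⟩

theorem isPSU_iff (S : Type) [Group S] : PSUType S ↔ IsPSU S := by
  constructor
  · rintro ⟨F, V, i1, i2, i3, i4, i5, f, ⟨σ, B, h1, h2, h3, h5, h6⟩, h4⟩
    obtain rfl : f = fun x y => B x y := funext fun x => funext fun y => h3 x y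
    exact ⟨F, V, i1, i2, i3, i4, i5, σ, B, h1, h2, h5, h6, h4⟩
  · rintro ⟨F, V, i1, i2, i3, i4, i5, σ, B, h1, h2, h5, h6, h4⟩
    exact ⟨F, V, i1, i2, i3, i4, i5, fun x y => B x y, ⟨σ, B, h1, h2, fun _ _ => rfl, h5, h6⟩, h4⟩

theorem isPOm_iff (S : Type) [Group S] : POmType S ↔ IsPOm S := by
  constructor
  · rintro ⟨F, V, i1, i2, i3, i4, i5, f, ⟨Q, h1, h2⟩, h4⟩
    obtain rfl : f = fun x => Q x := funext fun x => h1 x
    exact ⟨F, V, i1, i2, i3, i4, i5, Q, h2, h4⟩
  · rintro ⟨F, V, i1, i2, i3, i4, i5, Q, h2, h4⟩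
    exact ⟨F, V, i1, i2, i3, i4, i5, fun x => Q x, ⟨Q, fun _ => rfl, h2⟩, h4⟩

end Helper76.CL
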