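import Pool.Agent.Helper76.CL.Hyp

/-!
# Transitivity on totally singular subspaces
-/

set_option autoImplicit false

namespace Helper76.CL

open Module

theorem Tr1_fun {F V : Type} [Field F] [AddCommGroup V] [Module F V]
    {p : Submodule F V} {x : V} (hx : x ∉ p) :
    ∃ φ : V →ₗ[F] F, φ x = 1 ∧ ∀ v ∈ p, φ v = 0 := by
  obtain ⟨f, hf, hp⟩ := Submodule.exists_le_ker_of_notMem hx
  refine ⟨(f x)⁻¹ • f, ?_, fun v hv => ?_⟩
  · rw [LinearMap.smul_apply, smul_eq_mul, inv_mul_cancel₀ hf]
  · have : f v = 0 := hp hv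
    rw [LinearMap.smul_apply, this, smul_zero]

theorem Tr1_sup {F V : Type} [Field F] [AddCommGroup V] [Module F V] [FiniteDimensional F V]
    {A : Submodule F V} {x : V} (hx : x ∉ A) :
    finrank F (A ⊔ Submodule.span F {x} : Submodule F V) = finrank F A + 1 := by
  have hlt : A < A ⊔ Submodule.span F {x} := by
    refine lt_of_le_of_ne le_sup_left fun h => hx ?_
    rw [h]
    exact (le_sup_right : _ ≤ A ⊔ Submodule.span F {x}) (Submodule.mem_span_singleton_self x)
  have h1 := Submodule.finrank_lt_finrank_of_lt hlt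
  have h2 := Submodule.finrank_add_le_finrank_add_finrank A (Submodule.span F {x})
  have h3 : finrank F (Submodule.span F {x}) ≤ 1 := by
    have := finrank_span_le_card (R := F) ({x} : Set V)
    simpa using this
  omega

/-- adjacent subspaces -/
theorem Tr1_adj {F V : Type} [Field F] [AddCommGroup V] [Module F V] [FiniteDimensional F V]
    (Φ : FS F V) {A B : Submodule F V} (hTS : Φ.TS (A ⊔ B)) (hAB : finrank F A = finrank F B)
    (h : finrank F (A ⊓ B : Submodule F V) + 1 = finrank F A) :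
    ∃ g ∈ Φ.El, gm g A = B := by
  have hA : A ≤ A ⊔ B := le_sup_left
  have hB : B ≤ A ⊔ B := le_sup_right
  have h1 : ¬ A ≤ B := by
    intro hle
    rw [inf_eq_left.2 hle] at h
    omega
  have h2 : ¬ B ≤ A := by
    intro hle
    rw [inf_eq_right.2 hle] at h
    omega
  obtain ⟨x, hxA, hxB⟩ := Set.not_subset.1 h1
  obtain ⟨y, hyB, hyA⟩ := Set.not_subset.1 h2
  have hA1 : A ⊓ B ⊔ Submodule.span F {x} = A := by
    apply Submodule.eq_of_le_of_finrank_le
    · exact sup_le inf_le_left ((Submodule.span_singleton_le_iff_mem x A).2 hxA)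
    · rw [Tr1_sup (A := A ⊓ B) (x := x) (fun hm => hxB hm.2)]
      omega
  have hp : x ∉ A ⊓ B ⊔ Submodule.span F {y - x} := by
    intro hm
    obtain ⟨r, hr, v, hv, h3⟩ := Submodule.mem_sup.1 hm
    obtain ⟨c, rfl⟩ := Submodule.mem_span_singleton.1 hv
    by_cases hc : c = 0
    · rw [hc, zero_smul, add_zero] at h3
      exact hxB (h3 ▸ hr.2)
    · apply hyA
      have h4 : y = c⁻¹ • (x - r) + x := by
        have h6 : c • (y - x) = x - r := eq_sub_of_add_eq' h3
        rw [← h6, smul_smul, inv_mul_cancel₀ hc, one_smul]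
        abel
      rw [h4]
      exact A.add_mem (A.smul_mem _ (A.sub_mem hxA hr.1)) hxA
  obtain ⟨φ, hφx, hφ⟩ := Tr1_fun hp
  have hφr : ∀ r ∈ A ⊓ B, φ r = 0 := fun r hr => hφ r
    ((le_sup_left : _ ≤ A ⊓ B ⊔ Submodule.span F {y - x}) hr)
  have hφw : φ (y - x) = 0 := hφ _
    ((le_sup_right : _ ≤ A ⊓ B ⊔ Submodule.span F {y - x}) (Submodule.mem_span_singleton_self _))
  obtain ⟨e, he, hef⟩ := Φ.exists_sing (A ⊔ B) (φ.comp (A ⊔ B).subtype) x (hA hxA)
    (hTS.1 x (hA hxA)) (fun u hu => hTS.2 u hu x (hA hxA)) (by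
      change φ x ≠ 0
      rw [hφx]
      exact one_ne_zero)
  have hef' : ∀ u ∈ A ⊔ B, Φ.f e u = φ u := fun u hu => hef u hu
  have hw : y - x ∈ A ⊔ B := (A ⊔ B).sub_mem (hB hyB) (hA hxA)
  obtain ⟨g, hg, hgv⟩ := Φ.exists_u he (hTS.1 _ hw) (by rw [hef' _ hw, hφw])
  have hgv' : ∀ v, g v = v + Φ.f e v • (y - x) - (Φ.ε * Φ.f (y - x) v) • e := hgv
  refine ⟨g, hg, ?_⟩
  apply Submodule.eq_of_le_of_finrank_eq
  · rintro _ ⟨a, ha, rfl⟩
    change g a ∈ B
    rw [SetLike.mem_coe, ← hA1] at ha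
    obtain ⟨r, hr, v, hv, rfl⟩ := Submodule.mem_sup.1 ha
    obtain ⟨c, rfl⟩ := Submodule.mem_span_singleton.1 hv
    have hgr : g r = r := by
      rw [hgv', hef' r (hA hr.1), hφr r hr, hTS.2 _ hw r (hA hr.1)]
      simp
    have hgx : g x = y := by
      rw [hgv', hef' x (hA hxA), hφx, hTS.2 _ hw x (hA hxA)]
      simp
    rw [map_add, map_smul, hgr, hgx]
    exact B.add_mem hr.2 (B.smul_mem c hyB)
  · rw [finrank_gm, hAB]

theorem Tr1_step {F V : Type} [Field F] [AddCommGroup V] [Module F V] [FiniteDimensional F V]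
    (Φ : FS F V) {A B C : Submodule F V} (hTS : Φ.TS (A ⊔ B)) (hAB : finrank F A = finrank F B)
    (hCA : C ≤ A) (hCB : C ≤ B) (hC : finrank F C + 1 = finrank F A) :
    ∃ g ∈ Φ.El, gm g A = B := by
  by_cases heq : A = B
  · exact ⟨1, Φ.El.one_mem, by rw [gm_one, heq]⟩
  · apply Tr1_adj Φ hTS hAB
    have h1 := Submodule.finrank_mono (le_inf hCA hCB)
    have h2 : A ⊓ B < A := by
      refine lt_of_le_of_ne inf_le_left fun h => heq ?_
      exact Submodule.eq_of_le_of_finrank_eq (inf_eq_left.1 h) hAB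
    have h3 := Submodule.finrank_lt_finrank_of_lt h2
    omega

/-- intermediate subspaces -/
theorem Tr1_mid {F V : Type} [Field F] [AddCommGroup V] [Module F V] [FiniteDimensional F V]
    (m : ℕ) : ∀ (d : ℕ) (A B : Submodule F V), A ≤ B → finrank F A + d = m → m ≤ finrank F B →
      ∃ C, A ≤ C ∧ C ≤ B ∧ finrank F C = m := by
  intro d
  induction d with
  | zero =>
    intro A B hAB h1 _
    exact ⟨A, le_rfl, hAB, h1⟩
  | succ d ih =>
    intro A B hAB h1 h2
    have h3 : ¬ B ≤ A := by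
      intro hle
      have := Submodule.finrank_mono hle
      omega
    obtain ⟨v, hvB, hvA⟩ := Set.not_subset.1 h3
    obtain ⟨C, hC1, hC2, hC3⟩ := ih (A ⊔ Submodule.span F {v}) B
      (sup_le hAB ((Submodule.span_singleton_le_iff_mem v B).2 hvB))
      (by rw [Tr1_sup hvA]; omega) h2
    exact ⟨C, le_sup_left.trans hC1, hC2, hC3⟩

theorem tr_ts {F V : Type} [Field F] [AddCommGroup V] [Module F V] [FiniteDimensional F V]
    (Φ : FS F V) {ν : ℕ} (hν : Φ.WI ν) {k : ℕ} (hk : 3 * k ≤ ν) {R R' : Submodule F V}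
    (hR : Φ.TS R) (hR' : Φ.TS R') (h : finrank F R = k) (h' : finrank F R' = k) :
    ∃ g ∈ Φ.El, gm g R = R' := by
  have main : ∀ (d : ℕ) (R : Submodule F V), Φ.TS R → finrank F R = k →
      k ≤ finrank F (R ⊓ R' : Submodule F V) + d → ∃ g ∈ Φ.El, gm g R = R' := by
    intro d
    induction d with
    | zero =>
      intro R hR h hd
      have h1 : R ⊓ R' = R := Submodule.eq_of_le_of_finrank_le inf_le_left (by omega)
      have h2 : R = R' := Submodule.eq_of_le_of_finrank_eq (inf_eq_left.1 h1) (by omega)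
      exact ⟨1, Φ.El.one_mem, by rw [gm_one, h2]⟩
    | succ d ih =>
      intro R hR h hd
      by_cases heq : R' ≤ R
      · have h2 : R' = R := Submodule.eq_of_le_of_finrank_eq heq (by omega)
        exact ⟨1, Φ.El.one_mem, by rw [gm_one, h2]⟩
      obtain ⟨x, hxR', hxR⟩ := Set.not_subset.1 heq
      have hqx : Φ.q x = 0 := hR'.1 x hxR'
      have hlt : finrank F (R ⊓ R' : Submodule F V) < k := by
        have h2 : R ⊓ R' < R' := by
          refine lt_of_le_of_ne inf_le_right fun h3 => heq (inf_eq_right.1 h3)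
        have := Submodule.finrank_lt_finrank_of_lt h2
        omega
      -- the part of `R` perpendicular to `x`
      have hx1 : finrank F (Submodule.span F {x}) ≤ 1 := by
        have := finrank_span_le_card (R := F) ({x} : Set V)
        simpa using this
      have hperp := Φ.finrank_perp (Submodule.span F {x})
      have hinf := Submodule.finrank_sup_add_finrank_inf_eq R (Φ.perp (Submodule.span F {x}))
      have hsup := Submodule.finrank_le (R ⊔ Φ.perp (Submodule.span F {x}))
      have hle : R ⊓ R' ≤ R ⊓ Φ.perp (Submodule.span F {x}) := by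
        rintro v ⟨hv1, hv2⟩
        refine ⟨hv1, fun u hu => ?_⟩
        obtain ⟨c, rfl⟩ := Submodule.mem_span_singleton.1 hu
        rw [Φ.f_smul_left, hR'.2 x hxR' v hv2, mul_zero]
      obtain ⟨C, hC1, hC2, hC3⟩ := Tr1_mid (k - 1)
        (k - 1 - finrank F (R ⊓ R' : Submodule F V)) (R ⊓ R')
        (R ⊓ Φ.perp (Submodule.span F {x})) hle (by omega) (by omega)
      have hCR : C ≤ R := hC2.trans inf_le_left
      have hCx : ∀ y ∈ C, Φ.f y x = 0 := fun y hy =>
        Φ.f_eq_zero_symm ((hC2 hy).2 x (Submodule.mem_span_singleton_self x))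
      have hxC : x ∉ C := fun hm => hxR (hCR hm)
      have hCTS : Φ.TS C := ⟨fun y hy => hR.1 y (hCR hy),
        fun y hy z hz => hR.2 y (hCR hy) z (hCR hz)⟩
      set R'' := C ⊔ Submodule.span F {x} with hR''
      have hR''TS : Φ.TS R'' := Φ.TS_sup hCTS hqx hCx
      have hR''k : finrank F R'' = k := by
        rw [hR'', Tr1_sup hxC]
        omega
      -- recursion
      obtain ⟨g2, hg2, hg2R⟩ := ih R'' hR''TS hR''k (by
        have h3 : (R ⊓ R') ⊔ Submodule.span F {x} ≤ R'' ⊓ R' := by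
          refine sup_le (le_inf (hC1.trans le_sup_left) inf_le_right) (le_inf le_sup_right ?_)
          exact (Submodule.span_singleton_le_iff_mem x R').2 hxR'
        have h4 := Submodule.finrank_mono h3
        rw [Tr1_sup (A := R ⊓ R') (x := x) (fun hm => hxR hm.1)] at h4
        omega)
      -- an intermediate subspace
      have hUk : finrank F (R ⊔ Submodule.span F {x} : Submodule F V) = k + 1 := by
        rw [Tr1_sup hxR, h]
      obtain ⟨z, hz, hqz, hfz⟩ := Φ.exists_perp hν (R ⊔ Submodule.span F {x}) C (by omega)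
      have hfzR : ∀ y ∈ R, Φ.f y z = 0 := fun y hy =>
        hfz y ((le_sup_left : _ ≤ R ⊔ Submodule.span F {x}) hy)
      have hfzR'' : ∀ y ∈ R'', Φ.f y z = 0 := fun y hy =>
        hfz y ((sup_le_sup_right hCR (Submodule.span F {x})) hy)
      have hZk : finrank F (C ⊔ Submodule.span F {z} : Submodule F V) = k := by
        rw [Tr1_sup hz]
        omega
      obtain ⟨g0, hg0, hg0R⟩ := Tr1_step Φ (A := R) (B := C ⊔ Submodule.span F {z}) (C := C) (by
        have : R ⊔ (C ⊔ Submodule.span F {z}) = R ⊔ Submodule.span F {z} := by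
          rw [← sup_assoc, sup_eq_left.2 hCR]
        rw [this]
        exact Φ.TS_sup hR hqz hfzR) (by omega) hCR le_sup_left (by omega)
      obtain ⟨g1, hg1, hg1R⟩ := Tr1_step Φ (A := C ⊔ Submodule.span F {z}) (B := R'') (C := C) (by
        have : (C ⊔ Submodule.span F {z}) ⊔ R'' = R'' ⊔ Submodule.span F {z} := by
          rw [sup_comm, ← sup_assoc, sup_eq_left.2 (le_sup_left : C ≤ R'')]
        rw [this]
        exact Φ.TS_sup hR''TS hqz hfzR'') (by omega) le_sup_left le_sup_left (by omega)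
      refine ⟨g2 * (g1 * g0), Φ.El.mul_mem hg2 (Φ.El.mul_mem hg1 hg0), ?_⟩
      rw [gm_mul, gm_mul, hg0R, hg1R, hg2R]
  exact main k R hR h (by omega)

end Helper76.CL
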