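import Pool.Agent.Helper76.CL.Defs

/-!
# Transitivity of groups that contain all transvections
-/

set_option autoImplicit false

namespace Helper76.CL

open Module

/-- `T` contains all transvections -/
def TVS {F V : Type} [Field F] [AddCommGroup V] [Module F V] (T : Subgroup (V ≃ₗ[F] V)) : Prop :=
  ∀ (φ : Dual F V) (v : V) (h : φ v = 0), LinearEquiv.transvection h ∈ T

variable {F V : Type} [Field F] [AddCommGroup V] [Module F V] [FiniteDimensional F V]
  {T : Subgroup (V ≃ₗ[F] V)}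

omit [FiniteDimensional F V] in
theorem Trk_fun (R : Submodule F V) {x : V} (hx : x ∉ R) :
    ∃ φ : Dual F V, (∀ r ∈ R, φ r = 0) ∧ φ x = 1 := by
  obtain ⟨f, hf, hR⟩ := Submodule.exists_dual_map_eq_bot_of_notMem hx inferInstance
  refine ⟨(f x)⁻¹ • f, fun r hr => ?_, ?_⟩
  · have h1 : f r ∈ R.map f := ⟨r, hr, rfl⟩
    rw [hR, Submodule.mem_bot] at h1
    rw [LinearMap.smul_apply, h1, smul_zero]
  · rw [LinearMap.smul_apply, smul_eq_mul, inv_mul_cancel₀ hf]

theorem Trk_gm_eq {g : V ≃ₗ[F] V} {U U' : Submodule F V} (h : ∀ u ∈ U, g u ∈ U')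
    (hd : finrank F U = finrank F U') : gm g U = U' := by
  apply Submodule.eq_of_le_of_finrank_eq
  · rintro _ ⟨u, hu, rfl⟩
    exact h u hu
  · rw [finrank_gm, hd]

theorem Trk_step (hT : TVS T) (R : Submodule F V) {x y : V}
    (h : x ∉ R ⊔ Submodule.span F {y - x}) :
    ∃ g ∈ T, g x = y ∧ (∀ r ∈ R, g r = r) ∧ ∀ U : Submodule F V, y - x ∈ U → gm g U = U := by
  obtain ⟨φ, h1, h2⟩ := Trk_fun _ h
  have h3 : φ (y - x) = 0 := h1 _ (Submodule.mem_sup_right (Submodule.mem_span_singleton_self _))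
  refine ⟨LinearEquiv.transvection h3, hT φ _ h3, ?_, ?_, ?_⟩
  · rw [LinearEquiv.transvection.apply, h2, one_smul]
    abel
  · intro r hr
    rw [LinearEquiv.transvection.apply, h1 r (Submodule.mem_sup_left hr), zero_smul, add_zero]
  · intro U hU
    refine Trk_gm_eq (fun u hu => ?_) rfl
    rw [LinearEquiv.transvection.apply]
    exact U.add_mem hu (U.smul_mem _ hU)

theorem Trk_core (hT : TVS T) (m : ℕ) : ∀ {W W' : Submodule F V},
    finrank F W = finrank F W' → finrank F W ≤ finrank F (W ⊓ W' : Submodule F V) + m →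
    ∃ g ∈ T, gm g W = W' ∧ ∀ U : Submodule F V, W ≤ U → W' ≤ U → gm g U = U := by
  induction m with
  | zero =>
    intro W W' h hm
    have h1 : W ⊓ W' = W := Submodule.eq_of_le_of_finrank_le inf_le_left hm
    have h2 : W ⊓ W' = W' := Submodule.eq_of_le_of_finrank_le inf_le_right (h ▸ hm)
    refine ⟨1, T.one_mem, ?_, fun U _ _ => gm_one U⟩
    rw [gm_one, ← h1, h2]
  | succ m ih =>
    intro W W' h hm
    by_cases hWW : W = W'
    · exact ⟨1, T.one_mem, by rw [gm_one, hWW], fun U _ _ => gm_one U⟩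
    have hx : ∃ x ∈ W, x ∉ W' := by
      by_contra hc
      push Not at hc
      exact hWW (Submodule.eq_of_le_of_finrank_eq hc h)
    have hy : ∃ y ∈ W', y ∉ W := by
      by_contra hc
      push Not at hc
      exact hWW (Submodule.eq_of_le_of_finrank_eq hc h.symm).symm
    obtain ⟨x, hx1, hx2⟩ := hx
    obtain ⟨y, hy1, hy2⟩ := hy
    have hxI : x ∉ W ⊓ W' := fun hh => hx2 hh.2
    obtain ⟨φ, hφ1, hφ2⟩ := Trk_fun _ hxI
    let R : Submodule F V := W ⊓ LinearMap.ker φ
    have hxR : x ∉ R ⊔ Submodule.span F {y - x} := by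
      intro hh
      obtain ⟨r, hr, s, hs, hrs⟩ := Submodule.mem_sup.1 hh
      obtain ⟨c, rfl⟩ := Submodule.mem_span_singleton.1 hs
      have h1 : c • y ∈ W := by
        have h2 : c • y = x + c • x - r := by
          rw [← sub_eq_zero, ← sub_eq_zero.2 hrs, smul_sub]
          abel
        rw [h2]
        exact W.sub_mem (W.add_mem hx1 (W.smul_mem _ hx1)) hr.1
      by_cases hc : c = 0
      · rw [hc, zero_smul, add_zero] at hrs
        have h3 : φ x = 0 := by
          rw [← hrs]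
          exact hr.2
        rw [hφ2] at h3
        exact one_ne_zero h3
      · apply hy2
        have h3 := W.smul_mem c⁻¹ h1
        rwa [smul_smul, inv_mul_cancel₀ hc, one_smul] at h3
    obtain ⟨g, hg, hgx, hgR, hgU⟩ := Trk_step hT R hxR
    have h1 : ∀ i ∈ W ⊓ W', i ∈ gm g W := by
      intro i hi
      have hiR : i ∈ R := ⟨hi.1, hφ1 i hi⟩
      exact ⟨i, hi.1, hgR i hiR⟩
    have h2 : y ∈ gm g W := ⟨x, hx1, hgx⟩
    have h3 : finrank F (W ⊓ W' : Submodule F V) <
        finrank F (gm g W ⊓ W' : Submodule F V) := by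
      apply Submodule.finrank_lt_finrank_of_lt
      refine lt_of_le_of_ne (fun i hi => ⟨h1 i hi, hi.2⟩) fun he => ?_
      have h4 : y ∈ W ⊓ W' := by
        rw [he]
        exact ⟨h2, hy1⟩
      exact hy2 h4.1
    obtain ⟨g', hg', h5, h6⟩ := ih (W := gm g W) (W' := W') (by rw [finrank_gm, h])
      (by rw [finrank_gm]; omega)
    refine ⟨g' * g, T.mul_mem hg' hg, ?_, ?_⟩
    · rw [gm_mul, h5]
    · intro U hWU hWU'
      have h7 : gm g U = U := hgU U (U.sub_mem (hWU' hy1) (hWU hx1))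
      rw [gm_mul, h7]
      apply h6 U _ hWU'
      rw [← h7, gm_le]
      exact hWU

theorem trk (hT : TVS T) {W W' : Submodule F V} (h : finrank F W = finrank F W') :
    ∃ g ∈ T, gm g W = W' := by
  obtain ⟨g, hg, h1, -⟩ := Trk_core hT (finrank F W) h (by omega)
  exact ⟨g, hg, h1⟩

theorem trflag (hT : TVS T) {W₁ W₂ W₁' W₂' : Submodule F V} (h : W₁ ≤ W₂) (h' : W₁' ≤ W₂')
    (h1 : finrank F W₁ = finrank F W₁') (h2 : finrank F W₂ = finrank F W₂') :
    ∃ g ∈ T, gm g W₁ = W₁' ∧ gm g W₂ = W₂' := by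
  obtain ⟨g, hg, hg2⟩ := trk hT h2
  have h3 : gm g W₁ ≤ W₂' := by
    rw [← hg2, gm_le]
    exact h
  obtain ⟨g', hg', h4, h5⟩ := Trk_core hT (finrank F W₁) (W := gm g W₁) (W' := W₁')
    (by rw [finrank_gm, h1]) (by rw [finrank_gm]; omega)
  refine ⟨g' * g, T.mul_mem hg' hg, ?_, ?_⟩
  · rw [gm_mul, h4]
  · rw [gm_mul, hg2, h5 W₂' h3 h']

/-- transitivity on the points outside `W` -/
theorem tr_out (hT : TVS T) (W : Submodule F V) {x y : V} (hx : x ∉ W) (hy : y ∉ W) :
    ∃ g ∈ T, gm g W = W ∧ ∃ c : F, c ≠ 0 ∧ g x = c • y := by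
  by_cases h : x ∈ W ⊔ Submodule.span F {y - x}
  · obtain ⟨w, hw, s, hs, hws⟩ := Submodule.mem_sup.1 h
    obtain ⟨c, rfl⟩ := Submodule.mem_span_singleton.1 hs
    have hc : c ≠ 0 := by
      rintro rfl
      rw [zero_smul, add_zero] at hws
      exact hx (hws ▸ hw)
    have hc1 : 1 + c ≠ 0 := by
      intro h0
      have h1 : c • y = -w := by
        have h2 : c • y = (1 + c) • x - w := by
          rw [← sub_eq_zero, ← sub_eq_zero.2 hws, smul_sub, add_smul, one_smul]
          abel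
        rw [h2, h0, zero_smul, zero_sub]
      apply hy
      have h3 := W.smul_mem c⁻¹ (W.neg_mem hw)
      rwa [← h1, smul_smul, inv_mul_cancel₀ hc, one_smul] at h3
    obtain ⟨φ, h1, h2⟩ := Trk_fun W hx
    have h3 : φ (-(1 + c)⁻¹ • w) = 0 := h1 _ (W.smul_mem _ hw)
    refine ⟨LinearEquiv.transvection h3, hT φ _ h3, ?_, c / (1 + c), div_ne_zero hc hc1, ?_⟩
    · refine Trk_gm_eq (fun u hu => ?_) rfl
      rw [LinearEquiv.transvection.apply]
      exact W.add_mem hu (W.smul_mem _ (W.smul_mem _ hw))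
    · rw [LinearEquiv.transvection.apply, h2, one_smul]
      have h4 : c • y = (1 + c) • x - w := by
        rw [← sub_eq_zero, ← sub_eq_zero.2 hws, smul_sub, add_smul, one_smul]
        abel
      rw [div_eq_inv_mul, mul_smul, h4, smul_sub, smul_smul, inv_mul_cancel₀ hc1, one_smul,
        neg_smul, sub_eq_add_neg]
  · obtain ⟨g, hg, h1, h2, -⟩ := Trk_step hT W h
    refine ⟨g, hg, ?_, 1, one_ne_zero, ?_⟩
    · refine Trk_gm_eq (fun u hu => ?_) rfl
      rw [h2 u hu]
      exact hu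
    · rw [h1, one_smul]

/-- transitivity on the points of `W` -/
theorem tr_in (hT : TVS T) (W : Submodule F V) {x y : V} (hx : x ∈ W) (hy : y ∈ W) (hx0 : x ≠ 0)
    (hy0 : y ≠ 0) : ∃ g ∈ T, gm g W = W ∧ ∃ c : F, c ≠ 0 ∧ g x = c • y := by
  by_cases h : y ∈ Submodule.span F {x}
  · obtain ⟨c, rfl⟩ := Submodule.mem_span_singleton.1 h
    have hc : c ≠ 0 := by
      rintro rfl
      exact hy0 (zero_smul _ _)
    refine ⟨1, T.one_mem, gm_one W, c⁻¹, inv_ne_zero hc, ?_⟩
    rw [smul_smul, inv_mul_cancel₀ hc, one_smul]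
    rfl
  · have h1 : x ∉ (⊥ : Submodule F V) ⊔ Submodule.span F {y - x} := by
      rw [bot_sup_eq]
      intro hh
      obtain ⟨c, hc⟩ := Submodule.mem_span_singleton.1 hh
      have hc0 : c ≠ 0 := by
        rintro rfl
        rw [zero_smul] at hc
        exact hx0 hc.symm
      apply h
      rw [Submodule.mem_span_singleton]
      refine ⟨c⁻¹ * (1 + c), ?_⟩
      rw [mul_smul]
      have h2 : (1 + c) • x = c • y := by
        rw [← sub_eq_zero, ← sub_eq_zero.2 hc.symm, smul_sub, add_smul, one_smul]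
        abel
      rw [h2, smul_smul, inv_mul_cancel₀ hc0, one_smul]
    obtain ⟨g, hg, h2, -, h3⟩ := Trk_step hT ⊥ h1
    exact ⟨g, hg, h3 W (W.sub_mem hy hx), 1, one_ne_zero, by rw [h2, one_smul]⟩

end Helper76.CL
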